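import Pool.Agent.Lib.MP_361a6f_ag.FL.Z.StatP

/-!
# The real spans of the algebraic and of the numerically trivial classes as subspaces
-/

open CategoryTheory AlgebraicGeometry MonoidalCategory CartesianMonoidalCategory

universe u v w

namespace Pool.Agent.Lib.MP_361a6f_ag.FL

open Pool.Agent.Lib.MP_361a6f_ag.H3 Pool.Agent.Lib.MP_361a6f_ag.SQ
  Pool.Agent.Lib.MP_361a6f_ag.PP

noncomputable section

variable {k : Type u} [Field k] {m : ℕ}

/-- The real span of the algebraic classes of codimension `l`. -/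
def algR (W : CohomologyData.{u, 0, w} k ℂ) (Y : Sch k) (l : ℕ) : Submodule ℝ (W.coh Y) :=
  Submodule.span ℝ {z | W.IsAlg Y l z}

/-- The classes in the real span of the algebraic classes of codimension `l` that are numerically
equivalent to `0`. -/
def numR (W : CohomologyData.{u, 0, w} k ℂ) (Y : Sch k) (l : ℕ) : Submodule ℝ (W.coh Y) where
  carrier := {z | z ∈ algR W Y l ∧ ∀ j w, W.IsAlg Y j w → W.Tr (W.cup z w) = 0}
  add_mem' := by
    rintro a b ⟨h1, h2⟩ ⟨h3, h4⟩
    refine ⟨add_mem h1 h3, fun j w hw => ?_⟩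
    have h5 : W.cup (a + b) w = W.cup a w + W.cup b w := add_mul a b w
    have h6 : W.Tr (W.cup a w + W.cup b w) = W.Tr (W.cup a w) + W.Tr (W.cup b w) :=
      map_add (W.tr Y) _ _
    rw [h5, h6, h2 j w hw, h4 j w hw, add_zero]
  zero_mem' := by
    refine ⟨zero_mem _, fun j w _ => ?_⟩
    have h5 : W.cup (0 : W.coh Y) w = 0 := zero_mul w
    rw [h5]
    exact map_zero (W.tr Y)
  smul_mem' := by
    rintro c a ⟨h1, h2⟩
    refine ⟨Submodule.smul_mem _ c h1, fun j w hw => ?_⟩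
    have h5 : W.cup (c • a) w = (c : ℂ) • W.cup a w := smul_mul_assoc (c : ℂ) a w
    have h6 : W.Tr ((c : ℂ) • W.cup a w) = (c : ℂ) * W.Tr (W.cup a w) :=
      map_smul (W.tr Y) (c : ℂ) _
    rw [h5, h6, h2 j w hw, mul_zero]

theorem isAlgR_iff {W : CohomologyData.{u, 0, w} k ℂ} {Y : Sch k} {l : ℕ} {z : W.coh Y} :
    IsAlgR W Y l z ↔ z ∈ algR W Y l := Iff.rfl

theorem isNumR_iff {W : CohomologyData.{u, 0, w} k ℂ} {Y : Sch k} {l : ℕ} {z : W.coh Y} :
    IsNumR W Y l z ↔ z ∈ numR W Y l := Iff.rfl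

end

end Pool.Agent.Lib.MP_361a6f_ag.FL
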