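import Pool.Agent.Lib.MP_361a6f_ag.FL.B.PosL
import Pool.Agent.Lib.MP_361a6f_ag.FL.B.TalA
import Pool.Agent.Lib.MP_361a6f_ag.PP.SPN
import Pool.Agent.Lib.MP_361a6f_ag.FL.Z.StatZ

/-!
# Row HODGE: `Q1` and the odd classes
-/

open CategoryTheory AlgebraicGeometry MonoidalCategory CartesianMonoidalCategory

universe u v w

set_option autoImplicit false

namespace Pool.Agent.Lib.MP_361a6f_ag.FL

open Pool.Agent.Lib.MP_361a6f_ag.H3 Pool.Agent.Lib.MP_361a6f_ag.SQ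
  Pool.Agent.Lib.MP_361a6f_ag.IP2 Pool.Agent.Lib.MP_361a6f_ag.PP

namespace HodgeZ

variable {k : Type u} [Field k] {m : ℕ} {W : CohomologyData.{u, 0, w} k ℂ} {𝒱 : VarietyClass k}

/-- `ψ` is positive on the real span of the algebraic classes of codimension `l` if `Q1` holds in
codimension at most `l`. -/
theorem psi_pos (H : Host W 𝒱 m) (ge : H.GeFacts) (a1 : Alg1) (par : ∀ (P : Prd m)
      (z : W.coh (P.obj H.X)), z ∈ tot W (P.obj H.X) → jT H.D (jT H.D (H.tc P z)) = H.tc P z)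
    (hS : Sl2Statement.{w}) (hT : StaStatement.{w}) (P : Prd m) {l : ℕ}
    (hH : ∀ i ≤ l, HodgeCodim W (P.obj H.X) (P.dim H.n) (P.pol W H.ξ) i)
    {z : W.coh (P.obj H.X)} (hz : z ∈ algR W (P.obj H.X) l) (hz0 : z ≠ 0) :
    ∃ r : ℝ, 0 < r ∧ H.psiP P z z = (r : ℂ) := by
  let Q : Ten H.I P.size → Prop := fun u => ∃ z ∈ W.alg (P.obj H.X) l, H.tc P z = u
  have S : TalB.QSp H.D Q := by
    refine ⟨⟨0, zero_mem _, map_zero _⟩, ?_, ?_, ?_, ?_⟩
    · rintro u v ⟨x, hx, rfl⟩ ⟨y, hy, rfl⟩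
      exact ⟨x + y, add_mem hx hy, map_add _ _ _⟩
    · rintro q u ⟨x, hx, rfl⟩
      exact ⟨(q : ℂ) • x, CohomologyData.alg_smul q hx, map_smul _ _ _⟩
    · rintro u v ⟨x, hx, rfl⟩ ⟨y, hy, rfl⟩
      rw [ge.psi_tc]
      exact SPN.psi_rat H.hW (H.memP P) (H.lamP P).2 (H.lamP P).1
        (alg_le_tot H.hW _ l hx) (alg_le_tot H.hW _ l hy)
    · rintro u ⟨x, hx, rfl⟩
      exact par P x (alg_le_tot H.hW _ l hx)
  have hpos : ∀ u, Q u → u ≠ 0 → ∃ q : ℚ, 0 < q ∧ psiT H.D u u = (q : ℂ) := by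
    rintro u ⟨x, hx, rfl⟩ h0
    rw [ge.psi_tc]
    exact PosL.pos_hom H.hW (H.memP P) (H.lamP P).2 (H.lamP P).1 hS hT hH hx
      fun h => h0 (by rw [h, map_zero])
  have hmem : ∀ z ∈ algR W (P.obj H.X) l,
      H.tc P z ∈ Submodule.span ℝ {v : Ten H.I P.size | Q v} := by
    intro z hz
    unfold algR at hz
    induction hz using Submodule.span_induction with
    | mem x hx => exact Submodule.subset_span ⟨x, hx, rfl⟩
    | zero => rw [map_zero]; exact zero_mem _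
    | add x y _ _ hx hy => rw [map_add]; exact add_mem hx hy
    | smul c x _ hx =>
      have h1 : H.tc P (c • x) = c • H.tc P x := by
        rw [Qps.real_smul]
        exact map_smul (H.tc P) (c : ℂ) x
      rw [h1]
      exact Submodule.smul_mem _ _ hx
  obtain ⟨r, hr, h⟩ := TalB.pos_span S a1 hpos (hmem z hz) fun h =>
    hz0 (ge.inj P (by rw [h, map_zero]))
  exact ⟨r, hr, by rw [← ge.psi_tc, h]⟩

/-- the standard polarisation -/
theorem isPol {X : Fin m → Sch k} (ξ : ∀ a, W.coh (X a)) :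
    ∀ P : Prd m, IsPol W ξ P (P.pol W ξ)
  | .leaf a => by
    have h := IsPol.leaf (W := W) (ξ := ξ) a 1 one_pos
    rw [Rat.cast_one] at h
    change IsPol W ξ (.leaf a) ((1 : ℂ) • ξ a) at h
    rw [one_smul] at h
    exact h
  | .prod P Q => IsPol.prod P Q _ _ (isPol ξ P) (isPol ξ Q)

/-- **Row HODGE.** -/
theorem hodge (H : Host W 𝒱 m) (ge : H.GeFacts) (a1 : Alg1) (par : ∀ (P : Prd m)
      (z : W.coh (P.obj H.X)), z ∈ tot W (P.obj H.X) → jT H.D (jT H.D (H.tc P z)) = H.tc P z)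
    (hS : Sl2Statement.{w}) (hT : StaStatement.{w})
    {C : ZMod 2 → ∀ P : Prd m, ℕ → Submodule ℝ (W.coh (P.obj H.X))}
    (sup : ∀ P l, C 0 P l ⊔ C 1 P l = algR W (P.obj H.X) l)
    (inf : ∀ P l, C 0 P l ⊓ C 1 P l = numR W (P.obj H.X) l)
    (form : ∀ P η, IsPol W H.ξ P η → ∀ ε l z, 2 * l ≤ P.dim H.n → z ∈ C ε P l →
      W.cup (η ^ (P.dim H.n - 2 * l + 1)) z ∈ numR W (P.obj H.X) (P.dim H.n - l + 1) →
      z ∉ numR W (P.obj H.X) l → ∃ r : ℝ, 0 < r ∧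
        (-1) ^ (l + ε.val) * W.Tr (W.cup (η ^ (P.dim H.n - 2 * l)) (W.cup z z)) = (r : ℂ))
    (odd : ∀ P l z, z ∈ C 1 P l → ∃ r : ℝ, 0 ≤ r ∧ H.psiP P z z = ((-r : ℝ) : ℂ))
    (P : Prd m) (i : ℕ) :
    (∀ l ≤ i, HodgeCodim W (P.obj H.X) (P.dim H.n) (P.pol W H.ξ) l) ↔ ∀ l ≤ i, C 1 P l = ⊥ := by
  constructor
  · intro hH l hl
    rw [eq_bot_iff]
    intro z hz
    rw [Submodule.mem_bot]
    by_contra h0
    have hzA : z ∈ algR W (P.obj H.X) l := by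
      rw [← sup]
      exact Submodule.mem_sup_right hz
    obtain ⟨r, hr, h1⟩ := psi_pos H ge a1 par hS hT P (fun i hi => hH i (hi.trans hl)) hzA h0
    obtain ⟨s, hs, h2⟩ := odd P l z hz
    rw [h1] at h2
    have h3 : r = -s := by exact_mod_cast h2
    linarith
  · intro hC l hl hl2 x hx hx1 hx0
    have hA : C 0 P l = algR W (P.obj H.X) l := by rw [← sup, hC l hl, sup_bot_eq]
    have hN : numR W (P.obj H.X) l = ⊥ := by rw [← inf, hC l hl, inf_bot_eq]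
    have hx2 : x ∈ C 0 P l := by
      rw [hA]
      exact Submodule.subset_span hx
    obtain ⟨r, hr, h⟩ := form P (P.pol W H.ξ) (isPol H.ξ P) 0 l x hl2 hx2
      (by rw [hx1]; exact zero_mem _) (by rw [hN, Submodule.mem_bot]; exact hx0)
    have h1 : l + (0 : ZMod 2).val = l := by rw [ZMod.val_zero, add_zero]
    rw [h1] at h
    have hp := H.memP P
    have hξ : P.pol W H.ξ ∈ W.alg (P.obj H.X) 1 := (H.lamP P).2
    obtain ⟨q, hq⟩ : ∃ q : ℚ, W.tr (P.obj H.X)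
        (P.pol W H.ξ ^ (P.dim H.n - 2 * l) * (x * x)) = (q : ℂ) := by
      refine tot_tr H.hW hp (tot_mul H.hW hp ?_ (tot_mul H.hW hp (alg_le_tot H.hW _ l hx)
        (alg_le_tot H.hW _ l hx)))
      exact alg_le_tot H.hW _ _ (H.hW.pow_alg hp hξ _)
    refine ⟨(-1) ^ l * q, ?_, ?_⟩
    · have h2 : (((-1) ^ l * q : ℚ) : ℂ) = (r : ℂ) := by
        rw [← h]
        push_cast
        rw [← hq]
      have h3 : (((-1) ^ l * q : ℚ) : ℝ) = r := by exact_mod_cast h2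
      exact_mod_cast h3.symm ▸ hr
    · change (-1) ^ l * W.tr (P.obj H.X) (P.pol W H.ξ ^ (P.dim H.n - 2 * l) * (x * x)) = _
      rw [hq]
      push_cast
      rfl

end HodgeZ

end Pool.Agent.Lib.MP_361a6f_ag.FL
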