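import Pool.Agent.Lib.MP_361a6f_ag.FL.Z.StatZ

/-!
# Even and odd algebraic classes on motives: the definitions used in the statement
-/

open CategoryTheory AlgebraicGeometry MonoidalCategory CartesianMonoidalCategory

universe u v w

namespace Pool.Agent.Lib.MP_361a6f_ag.FL

open Pool.Agent.Lib.MP_361a6f_ag.H3 Pool.Agent.Lib.MP_361a6f_ag.SQ
  Pool.Agent.Lib.MP_361a6f_ag.PP

noncomputable section

variable {k : Type u} [Field k] {m : ℕ}

/-- `e` is an idempotent operator on `H^*(P)` that is given by an algebraic class of codimension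
`dim P` on `P × P` fixed by `J`, and that commutes with the multiplication by
`∑ pr_i^* ξ_i`. -/
structure JOp (W : CohomologyData.{u, 0, w} k ℂ) (X : Fin m → Sch k) (n : Fin m → ℕ)
    (ξ : ∀ a, W.coh (X a))
    (J : ∀ P : Prd m, W.coh (P.obj X) →ₛₗ[starRingEnd ℂ] W.coh (P.obj X)) (P : Prd m)
    (e : W.coh (P.obj X) → W.coh (P.obj X)) : Prop where
  ker : ∃ γ, W.IsAlg ((P.obj X).prod (P.obj X)) (P.dim n) γ ∧ J (.prod P P) γ = γ ∧
    ∀ x, e x = W.pf (Sch.pr₂ (P.obj X) (P.obj X)) (W.cup (W.pb (Sch.pr₁ (P.obj X) (P.obj X)) x) γ)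
  idem : ∀ x, e (e x) = e x
  comm : ∀ x, e (W.cup (P.pol W ξ) x) = W.cup (P.pol W ξ) (e x)

/-- `Q1` for `(Y, η)` in codimension `j`, for the classes `x` with `e x = x`. -/
def HodgeOp (W : CohomologyData.{u, 0, w} k ℂ) (Y : Sch k) (d : ℕ) (η : W.coh Y)
    (e : W.coh Y → W.coh Y) (j : ℕ) : Prop :=
  2 * j ≤ d → ∀ x, W.IsAlg Y j x → e x = x → W.cup (η ^ (d - 2 * j + 1)) x = 0 → x ≠ 0 →
    RatPos ((-1) ^ j * W.Tr (W.cup (η ^ (d - 2 * j)) (W.cup x x)))

end

end Pool.Agent.Lib.MP_361a6f_ag.FL
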