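import Pool.Agent.Lib.MP_361a6f_ag.FL.Z.Ze2
import Pool.Agent.Lib.MP_361a6f_ag.FL.Z.StatZ

/-!
# Row ZE, part 3: the even and odd classes of a fixed codimension
-/

open CategoryTheory AlgebraicGeometry MonoidalCategory CartesianMonoidalCategory
open Filter Topology

universe u v w

set_option autoImplicit false
set_option linter.unusedSectionVars false

namespace Pool.Agent.Lib.MP_361a6f_ag.FL

open Pool.Agent.Lib.MP_361a6f_ag.H3 Pool.Agent.Lib.MP_361a6f_ag.SQ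
  Pool.Agent.Lib.MP_361a6f_ag.IP2 Pool.Agent.Lib.MP_361a6f_ag.PP

namespace ZE

section algR

variable {k : Type u} [Field k] {W : CohomologyData.{u, 0, w} k ℂ} {𝒱 : VarietyClass k}

theorem algR_ind {Y Z : Sch k} {l : ℕ} (V : Submodule ℝ (W.coh Z))
    (u : W.coh Y →ₗ[ℂ] W.coh Z) (h : ∀ z ∈ W.alg Y l, u z ∈ V) {z : W.coh Y}
    (hz : z ∈ algR W Y l) : u z ∈ V := by
  refine Submodule.span_induction (p := fun z _ => u z ∈ V) ?_ ?_ ?_ ?_ hz
  · exact h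
  · rw [map_zero]; exact zero_mem _
  · intro a b _ _ ha hb
    rw [map_add]; exact add_mem ha hb
  · intro r a _ ha
    rw [← AR_smul_real, map_smul, AR_smul_real]; exact Submodule.smul_mem _ _ ha

theorem algR_alg {Y : Sch k} {l : ℕ} {z : W.coh Y} (h : z ∈ W.alg Y l) : z ∈ algR W Y l :=
  Submodule.subset_span h

theorem algR_AR {Y : Sch k} {l : ℕ} {z : W.coh Y} (hz : z ∈ algR W Y l) : z ∈ AR W Y :=
  algR_ind (AR W Y) LinearMap.id (fun _ h => AR_alg h) hz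

theorem algR_gr (hW : IsWeilCohomology W 𝒱) {Y : Sch k} {d : ℕ} (hY : 𝒱.mem Y d) {l : ℕ}
    {z : W.coh Y} (hz : z ∈ algR W Y l) : z ∈ W.gr Y (2 * l) := by
  refine Submodule.span_induction (p := fun z _ => z ∈ W.gr Y (2 * l)) ?_ ?_ ?_ ?_ hz
  · exact fun z hz => hW.alg_gr hY hz
  · exact zero_mem _
  · exact fun a b _ _ ha hb => add_mem ha hb
  · intro r a _ ha
    rw [← AR_smul_real]; exact Submodule.smul_mem _ _ ha

theorem algR_mul (hW : IsWeilCohomology W 𝒱) {Y : Sch k} {d : ℕ} (hY : 𝒱.mem Y d) {l l' : ℕ}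
    {y z : W.coh Y} (hy : y ∈ algR W Y l) (hz : z ∈ algR W Y l') :
    y * z ∈ algR W Y (l + l') := by
  refine algR_ind (algR W Y (l + l')) (LinearMap.mulLeft ℂ y) (fun z hz => ?_) hz
  refine algR_ind (algR W Y (l + l')) (LinearMap.mulRight ℂ z) (fun y hy => ?_) hy
  exact algR_alg (hW.mul_alg hY hy hz)

theorem algR_pull (hW : IsWeilCohomology W 𝒱) {Y Z : Sch k} {d e : ℕ} (hY : 𝒱.mem Y d)
    (hZ : 𝒱.mem Z e) (f : Y ⟶ Z) {l : ℕ} {z : W.coh Z} (hz : z ∈ algR W Z l) :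
    W.pull f z ∈ algR W Y l :=
  algR_ind (algR W Y l) (W.pull f).toLinearMap (fun _ h => algR_alg (hW.pull_alg hY hZ f h)) hz

theorem algR_push (hW : IsWeilCohomology W 𝒱) {Y Z : Sch k} {d e : ℕ} (hY : 𝒱.mem Y d)
    (hZ : 𝒱.mem Z e) (f : Y ⟶ Z) {l l' : ℕ} (hl : l + e = l' + d) {z : W.coh Y}
    (hz : z ∈ algR W Y l) : W.push f z ∈ algR W Z l' := by
  have e1 : l' = l + e - d := by omega
  subst e1
  exact algR_ind (algR W Z (l + e - d)) (W.push f)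
    (fun _ h => algR_alg (hW.push_alg hY hZ f h (by omega))) hz

end algR

section ev

variable {k : Type u} [Field k] {W : CohomologyData.{u, 0, w} k ℂ} {𝒱 : VarietyClass k} {m : ℕ}
  (H : Host W 𝒱 m)
  (J : ∀ P : Prd m, W.coh (P.obj H.X) →ₛₗ[starRingEnd ℂ] W.coh (P.obj H.X))
  (A : ℕ → ∀ P : Prd m, Module.End ℂ (W.coh (P.obj H.X)))
  (K : ∀ P : Prd m, Module.End ℂ (W.coh (P.obj H.X))) (F : Filter ℕ)

/-- the even (`e = 0`) or odd (`e = 1`) classes of codimension `l` -/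
noncomputable def CZ (e : ZMod 2) (P : Prd m) (l : ℕ) : Submodule ℝ (W.coh (P.obj H.X)) :=
  ZC H J A K F ((-1) ^ e.val) P ⊓ algR W (P.obj H.X) l

variable {J A K F}

theorem mem_CZ {e : ZMod 2} {P : Prd m} {l : ℕ} {z : W.coh (P.obj H.X)} :
    z ∈ CZ H J A K F e P l ↔ z ∈ ZC H J A K F ((-1) ^ e.val) P ∧ z ∈ algR W (P.obj H.X) l :=
  Iff.rfl

theorem val_pow (e e' : ZMod 2) : ((-1 : ℝ)) ^ (e + e').val = (-1) ^ e.val * (-1) ^ e'.val := by
  rw [← pow_add, neg_one_pow_eq_pow_mod_two (n := e.val + e'.val), ← ZMod.val_add]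

theorem cast_pow (e : ZMod 2) : ((((-1 : ℝ)) ^ e.val : ℝ) : ℂ) = (-1) ^ e.val := by
  push_cast; rfl

theorem sq_pow (e : ZMod 2) : ((-1 : ℝ)) ^ e.val * (-1) ^ e.val = 1 := by
  rw [← pow_add, ← two_mul, pow_mul]; norm_num

theorem CZ_zero {P : Prd m} {l : ℕ} {z : W.coh (P.obj H.X)} :
    z ∈ CZ H J A K F 0 P l ↔ z ∈ ZC H J A K F 1 P ∧ z ∈ algR W (P.obj H.X) l := by
  rw [mem_CZ, ZMod.val_zero, pow_zero]

theorem CZ_one' {P : Prd m} {l : ℕ} {z : W.coh (P.obj H.X)} :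
    z ∈ CZ H J A K F 1 P l ↔ z ∈ ZC H J A K F (-1) P ∧ z ∈ algR W (P.obj H.X) l := by
  rw [mem_CZ, show (1 : ZMod 2).val = 1 from rfl, pow_one]

variable (ge : H.GeFacts) (hJ : H.J0Facts J)
  (hA : ∀ j, ∃ x, ZOps H J x (A j)) (hK : ∃ x, ZOps H J x K)

include hA in
/-- the limit of a class of codimension `l` has the degree `2 l` -/
theorem clim_algR (ge : H.GeFacts) [F.NeBot] {P : Prd m} {l : ℕ} {z s : W.coh (P.obj H.X)}
    (hz : z ∈ algR W (P.obj H.X) l) (h : CLim H F P (fun j => A j P z) s) :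
    s ∈ W.gr (P.obj H.X) (2 * l) := by
  refine clim_gr H ge h fun j => ?_
  obtain ⟨_, hj⟩ := hA j
  exact hj.gr P _ z (algR_gr H.hW (H.memP P) hz)

include hA hK in
theorem CZ_fix {P : Prd m} {l : ℕ} {z : W.coh (P.obj H.X)} (hz : W.IsAlg (P.obj H.X) l z)
    (h : J P z = z) : z ∈ CZ H J A K F 0 P l :=
  (CZ_zero H).2 ⟨ZC_fix H hA hK hz h, algR_alg hz⟩

include hJ hA hK in
theorem CZ_one (P : Prd m) : (1 : W.coh (P.obj H.X)) ∈ CZ H J A K F 0 P 0 :=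
  CZ_fix H hA hK (H.hW.one_alg (H.memP P)) (hJ.rs P).one

include ge hJ hA hK in
theorem CZ_cup (P : Prd m) (e e' : ZMod 2) (l l' : ℕ) (z z' : W.coh (P.obj H.X))
    (hz : z ∈ CZ H J A K F e P l) (hz' : z' ∈ CZ H J A K F e' P l') :
    W.cup z z' ∈ CZ H J A K F (e + e') P (l + l') := by
  refine ⟨?_, algR_mul H.hW (H.memP P) hz.2 hz'.2⟩
  rw [SetLike.mem_coe, val_pow]
  exact ZC_mul H J A K F ge hJ hA hK hz.1 hz'.1

include ge hJ hA hK in
theorem CZ_pb (P Q : Prd m) (f : Sch.Mor (P.obj H.X) (Q.obj H.X)) (hf : CoordMor H.X 3 P Q f)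
    (e : ZMod 2) (l : ℕ) (z : W.coh (Q.obj H.X)) (hz : z ∈ CZ H J A K F e Q l) :
    W.pb f z ∈ CZ H J A K F e P l :=
  ⟨ZC_pb H J A K F ge hJ hA hK hf hz.1, algR_pull H.hW (H.memP P) (H.memP Q) f hz.2⟩

include ge hJ hA hK in
theorem CZ_pf (P Q : Prd m) (f : Sch.Mor (P.obj H.X) (Q.obj H.X)) (hf : CoordMor H.X 3 P Q f)
    (e : ZMod 2) (l l' : ℕ) (z : W.coh (P.obj H.X)) (hl : l + Q.dim H.n = l' + P.dim H.n)
    (hz : z ∈ CZ H J A K F e P l) : W.pf f z ∈ CZ H J A K F e Q l' :=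
  ⟨ZC_push H ge hJ hA hK hf hz.1, algR_push H.hW (H.memP P) (H.memP Q) f hl hz.2⟩

include ge hJ hA hK in
/-- components of codimension `l` -/
theorem CZ_cmp {P : Prd m} (l : ℕ) {ε : ℝ} {e : ZMod 2} (he : ε = (-1) ^ e.val)
    {z : W.coh (P.obj H.X)} (hz : z ∈ ZC H J A K F ε P) :
    cmpP H P (2 * l) z ∈ CZ H J A K F e P l := by
  subst he
  exact ⟨ZC_cmp H ge hJ hA hK (2 * l) hz, cmpP_AR H P l hz.1⟩

include ge hJ hA hK in
/-- every class is the sum of an even and an odd class -/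
theorem CZ_sup (P : Prd m) (l : ℕ)
    (hs : ∀ z ∈ AR W (P.obj H.X), z ∈ ZC H J A K F 1 P ⊔ ZC H J A K F (-1) P) :
    CZ H J A K F 0 P l ⊔ CZ H J A K F 1 P l = algR W (P.obj H.X) l := by
  refine le_antisymm (sup_le inf_le_right inf_le_right) fun z hz => ?_
  obtain ⟨x, hx, y, hy, h⟩ := Submodule.mem_sup.mp (hs z (algR_AR hz))
  have h1 : z = cmpP H P (2 * l) x + cmpP H P (2 * l) y := by
    rw [← map_add, h, cmpP_self H (algR_gr H.hW (H.memP P) hz)]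
  rw [h1]
  exact Submodule.add_mem_sup
    (CZ_cmp H ge hJ hA hK l (by rw [ZMod.val_zero, pow_zero]) hx)
    (CZ_cmp H ge hJ hA hK l (by rw [show (1 : ZMod 2).val = 1 from rfl, pow_one]) hy)

include ge hJ hA in
/-- the sign of `ψ` -/
theorem CZ_psi [F.NeBot] {P : Prd m} {l : ℕ} {e : ZMod 2} {z s : W.coh (P.obj H.X)}
    (hz : z ∈ CZ H J A K F e P l) (h : CLim H F P (fun j => A j P z) s) (h0 : s ≠ 0) :
    ∃ q : ℝ, 0 < q ∧ H.psiP P z z = (((-1 : ℝ) ^ e.val * q : ℝ) : ℂ) := by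
  obtain ⟨-, s', h1, h2, -⟩ := hz.1
  have e1 : s = s' := clim_uniq H ge h h1
  subst e1
  exact psi_sign H ge hJ hA (sq_pow e) h h2 h0

end ev

end ZE

end Pool.Agent.Lib.MP_361a6f_ag.FL
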