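import Pool.Agent.Lib.MP_361a6f_ag.FL.Z.MotA
import Pool.Agent.Lib.MP_361a6f_ag.FL.Z.Ze3
import Pool.Agent.Lib.MP_361a6f_ag.FL.Z.Hodge
import Pool.Agent.Lib.MP_361a6f_ag.FL.Z.StatMot

/-!
# Row MOT: `Q1` and the odd classes, motive by motive
-/

open CategoryTheory AlgebraicGeometry MonoidalCategory CartesianMonoidalCategory
open Filter Topology

universe u v w

set_option autoImplicit false
set_option linter.unusedSectionVars false

namespace Pool.Agent.Lib.MP_361a6f_ag.FL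

open Pool.Agent.Lib.MP_361a6f_ag.H3 Pool.Agent.Lib.MP_361a6f_ag.SQ
  Pool.Agent.Lib.MP_361a6f_ag.IP2 Pool.Agent.Lib.MP_361a6f_ag.PP

namespace MotZ

open ZE

variable {k : Type u} [Field k] {m : ℕ} {W : CohomologyData.{u, 0, w} k ℂ} {𝒱 : VarietyClass k}
  (H : Host W 𝒱 m)

section deg

/-- the degree of a push-forward -/
theorem push_gr (hW : IsWeilCohomology W 𝒱) {X Y : Sch k} {d e : ℕ} (hX : 𝒱.mem X d)
    (hY : 𝒱.mem Y e) (f : X ⟶ Y) {i j : ℕ} (h : i + 2 * e = j + 2 * d) {x : W.coh X}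
    (hx : x ∈ W.gr X i) : W.push f x ∈ W.gr Y j := by
  have hI := hW.internal hY
  have hle : ∀ t : W.coh Y, t ∈ ⨆ i, W.gr Y i := fun t => by
    rw [hI.submodule_iSup_eq_top]; trivial
  -- the pairing with a class of complementary degree
  have h1 : ∀ (l : ℕ) (t : W.coh Y), t ∈ W.gr Y l → l + j = 2 * e → ∀ y : W.coh Y,
      W.tr Y (y * t) = W.tr Y (cmp hI j y * t) := by
    intro l t ht hl y
    refine Submodule.iSup_induction (W.gr Y)
      (motive := fun y => W.tr Y (y * t) = W.tr Y (cmp hI j y * t)) (hle y) ?_ ?_ ?_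
    · intro j' y hy
      by_cases hj : j' = j
      · subst hj
        rw [cmp_self hI hy]
      · rw [cmp_ne hI hj hy, zero_mul, map_zero]
        exact hW.tr_gr hY (hW.mul_gr hY hy ht) (by omega)
    · rw [map_zero]
    · intro a b ha hb
      rw [map_add, add_mul, add_mul, map_add, map_add, ha, hb]
  have h2 : W.push f x - cmp hI j (W.push f x) = 0 := by
    refine hW.duality hY _ fun t => ?_
    refine Submodule.iSup_induction (W.gr Y)
      (motive := fun t => W.tr Y ((W.push f x - cmp hI j (W.push f x)) * t) = 0) (hle t) ?_ ?_ ?_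
    · intro l t ht
      rw [sub_mul, map_sub]
      by_cases hl : l + j = 2 * e
      · rw [h1 l t ht hl, sub_self]
      · rw [hW.push_adj hX hY, hW.tr_gr hX (hW.mul_gr hX hx (hW.pull_gr hX hY f ht)) (by omega),
          hW.tr_gr hY (hW.mul_gr hY (cmp_mem hI j _) ht) (by omega), sub_self]
    · rw [mul_zero, map_zero]
    · intro a b ha hb
      rw [mul_add, map_add, ha, hb, add_zero]
  rw [sub_eq_zero.1 h2]
  exact cmp_mem hI j _

end deg

section op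

variable {J : ∀ P : Prd m, W.coh (P.obj H.X) →ₛₗ[starRingEnd ℂ] W.coh (P.obj H.X)}
  {P : Prd m} {e : W.coh (P.obj H.X) → W.coh (P.obj H.X)}

/-- a `J`-fixed projector is an algebraic correspondence of degree `0` that commutes with `J` -/
theorem exists_op (hJ : H.J0Facts J) (he : JOp W H.X H.n H.ξ J P e) :
    ∃ u : Module.End ℂ (W.coh (P.obj H.X)), (∀ x, e x = u x) ∧
      AlgCor W (P.obj H.X) (P.obj H.X) u ∧ (∀ s, J P (u s) = u (J P s)) ∧
      (∀ i x, x ∈ W.gr (P.obj H.X) i → u x ∈ W.gr (P.obj H.X) i) ∧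
      (∀ l x, x ∈ W.alg (P.obj H.X) l → u x ∈ W.alg (P.obj H.X) l) := by
  obtain ⟨γ, hγ, hJγ, hker⟩ := he.ker
  have hP := H.memP P
  have hPP := H.memP (.prod P P)
  have hγg : γ ∈ W.gr (P.obj H.X ⊗ P.obj H.X) (2 * P.dim H.n) := H.hW.alg_gr hPP hγ
  refine ⟨cor W (X := P.obj H.X) (Y := P.obj H.X) γ, hker,
    cor_algCor (alg_le_tot H.hW _ _ hγ), fun s => ?_, fun i x hx => ?_, fun l x hx => ?_⟩
  · have h1 := hJ.push (.prod P P) P (Sch.pr₂ (P.obj H.X) (P.obj H.X)) (CoordMor.pr₂ P P)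
      (W.pull (fst (P.obj H.X) (P.obj H.X)) s * γ)
    have h2 := hJ.pull (.prod P P) P (Sch.pr₁ (P.obj H.X) (P.obj H.X)) (CoordMor.pr₁ P P) s
    have h3 := hJ.mul (.prod P P) (W.pull (fst (P.obj H.X) (P.obj H.X)) s) γ
    refine h1.trans ?_
    refine congrArg (W.push (snd (P.obj H.X) (P.obj H.X))) ?_
    refine h3.trans ?_
    rw [hJγ]
    exact congrArg (· * γ) h2
  · refine push_gr H.hW hPP hP (snd (P.obj H.X) (P.obj H.X))
      (show i + 2 * P.dim H.n + 2 * P.dim H.n = i + 2 * (P.dim H.n + P.dim H.n) by omega) ?_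
    exact H.hW.mul_gr hPP (H.hW.pull_gr hPP hP (fst (P.obj H.X) (P.obj H.X)) hx) hγg
  · refine H.hW.push_alg hPP hP (snd (P.obj H.X) (P.obj H.X)) (i := l + P.dim H.n) ?_
      (show l + P.dim H.n + P.dim H.n = l + (P.dim H.n + P.dim H.n) by omega)
    exact H.hW.mul_alg hPP (H.hW.pull_alg hPP hP (fst (P.obj H.X) (P.obj H.X)) hx) hγ

end op

/-- the algebraic classes fixed by an operator -/
def fixG (P : Prd m) (u : Module.End ℂ (W.coh (P.obj H.X))) : AddSubgroup (W.coh (P.obj H.X)) where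
  carrier := {x | x ∈ tot W (P.obj H.X) ∧ u x = x}
  zero_mem' := ⟨zero_mem _, map_zero _⟩
  add_mem' := fun {x y} hx hy => ⟨add_mem hx.1 hy.1, by rw [map_add, hx.2, hy.2]⟩
  neg_mem' := fun {x} hx => ⟨neg_mem hx.1, by rw [map_neg, hx.2]⟩

/-- `ψ` is positive on the real span of the algebraic classes of codimension `l` fixed by `u`, if
`Q1` holds for the algebraic classes of codimension at most `l` fixed by `u`. -/
theorem psi_pos (ge : H.GeFacts) (a1 : Alg1) (par : ∀ (P : Prd m)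
      (z : W.coh (P.obj H.X)), z ∈ tot W (P.obj H.X) → jT H.D (jT H.D (H.tc P z)) = H.tc P z)
    (hS : Sl2Statement.{w}) (hT : StaStatement.{w}) (P : Prd m)
    {u : Module.End ℂ (W.coh (P.obj H.X))}
    (hg : ∀ i x, x ∈ W.gr (P.obj H.X) i → u x ∈ W.gr (P.obj H.X) i)
    (hL : ∀ x, u (P.pol W H.ξ * x) = P.pol W H.ξ * u x) {l : ℕ}
    (hH : ∀ i ≤ l, 2 * i ≤ P.dim H.n → ∀ x, x ∈ W.alg (P.obj H.X) i → u x = x →
      P.pol W H.ξ ^ (P.dim H.n - 2 * i + 1) * x = 0 → x ≠ 0 →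
      RatPos ((-1) ^ i * W.tr (P.obj H.X) (P.pol W H.ξ ^ (P.dim H.n - 2 * i) * (x * x))))
    {z : W.coh (P.obj H.X)}
    (hz : z ∈ Submodule.span ℝ {x | x ∈ W.alg (P.obj H.X) l ∧ u x = x}) (hz0 : z ≠ 0) :
    ∃ r : ℝ, 0 < r ∧ H.psiP P z z = (r : ℂ) := by
  have hP := H.memP P
  have hξ := (H.lamP P).2
  have D := (H.lamP P).1
  have hL' : ∀ x, u (Lop W (P.obj H.X) (P.pol W H.ξ) x) = Lop W (P.obj H.X) (P.pol W H.ξ) (u x) :=
    hL
  let Q : Ten H.I P.size → Prop := fun v => ∃ z ∈ W.alg (P.obj H.X) l, u z = z ∧ H.tc P z = v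
  have S : TalB.QSp H.D Q := by
    refine ⟨⟨0, zero_mem _, map_zero _, map_zero _⟩, ?_, ?_, ?_, ?_⟩
    · rintro _ _ ⟨x, hx, hx', rfl⟩ ⟨y, hy, hy', rfl⟩
      exact ⟨x + y, add_mem hx hy, by rw [map_add, hx', hy'], map_add _ _ _⟩
    · rintro q _ ⟨x, hx, hx', rfl⟩
      exact ⟨(q : ℂ) • x, CohomologyData.alg_smul q hx, by rw [map_smul, hx'], map_smul _ _ _⟩
    · rintro _ _ ⟨x, hx, -, rfl⟩ ⟨y, hy, -, rfl⟩
      rw [ge.psi_tc]
      exact SPN.psi_rat H.hW hP hξ D (alg_le_tot H.hW _ l hx) (alg_le_tot H.hW _ l hy)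
    · rintro _ ⟨x, hx, -, rfl⟩
      exact par P x (alg_le_tot H.hW _ l hx)
  have hpos : ∀ v, Q v → v ≠ 0 → ∃ q : ℚ, 0 < q ∧ psiT H.D v v = (q : ℂ) := by
    rintro _ ⟨x, hx, hx', rfl⟩ h0
    rw [ge.psi_tc]
    refine pos_hom H.hW hP hξ D hS hT (C := fixG H P u) (fun x hx => hx.1)
      (fun x hx => ⟨(AlgOp.mulLeft H.hW hP (alg_le_tot H.hW _ 1 hξ)).apply H.hW hP hx.1, ?_⟩)
      (fun x hx => ⟨D.alg.apply H.hW hP hx.1, ?_⟩)
      (fun q x hx => ⟨tot_smul H.hW hP q hx.1, by rw [map_smul, hx.2]⟩)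
      (fun i hi hi2 x hx hxa hx1 hx0 => hH i hi hi2 x hxa hx.2 hx1 hx0)
      (fun x hx => ⟨(algOp_star H.hW hP hξ D).apply H.hW hP hx.1, ?_⟩) hx
      ⟨alg_le_tot H.hW _ l hx, hx'⟩ fun h => h0 (by rw [h, map_zero])
    · rw [hL', hx.2]
    · rw [e_Lam D.slm hg hL', hx.2]
    · rw [e_star D.slm hg hL', hx.2]
  have hmem : ∀ z ∈ Submodule.span ℝ {x | x ∈ W.alg (P.obj H.X) l ∧ u x = x},
      H.tc P z ∈ Submodule.span ℝ {v : Ten H.I P.size | Q v} := by
    intro z hz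
    induction hz using Submodule.span_induction with
    | mem x hx => exact Submodule.subset_span ⟨x, hx.1, hx.2, rfl⟩
    | zero => rw [map_zero]; exact zero_mem _
    | add x y _ _ hx hy => rw [map_add]; exact add_mem hx hy
    | smul c x _ hx =>
      have h1 : H.tc P (c • x) = c • H.tc P x := by
        rw [Qps.real_smul]
        exact map_smul (H.tc P) (c : ℂ) x
      rw [h1]
      exact Submodule.smul_mem _ _ hx
  obtain ⟨r, hr, h⟩ := TalB.pos_span S a1 hpos (hmem z hz) fun h =>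
    hz0 (ge.inj P (by rw [h, map_zero]))
  exact ⟨r, hr, by rw [← ge.psi_tc, h]⟩

/-- **Row MOT.** -/
theorem motive {J : ∀ P : Prd m, W.coh (P.obj H.X) →ₛₗ[starRingEnd ℂ] W.coh (P.obj H.X)}
    (hJ : H.J0Facts J) (ge : H.GeFacts) (a1 : Alg1) (par : ∀ (P : Prd m)
      (z : W.coh (P.obj H.X)), z ∈ tot W (P.obj H.X) → jT H.D (jT H.D (H.tc P z)) = H.tc P z)
    (hS : Sl2Statement.{w}) (hT : StaStatement.{w})
    {C : ZMod 2 → ∀ P : Prd m, ℕ → Submodule ℝ (W.coh (P.obj H.X))}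
    (sup : ∀ P l, C 0 P l ⊔ C 1 P l = algR W (P.obj H.X) l)
    (inf : ∀ P l, C 0 P l ⊓ C 1 P l = numR W (P.obj H.X) l)
    (form : ∀ P η, IsPol W H.ξ P η → ∀ ε l z, 2 * l ≤ P.dim H.n → z ∈ C ε P l →
      W.cup (η ^ (P.dim H.n - 2 * l + 1)) z ∈ numR W (P.obj H.X) (P.dim H.n - l + 1) →
      z ∉ numR W (P.obj H.X) l → ∃ r : ℝ, 0 < r ∧
        (-1) ^ (l + ε.val) * W.Tr (W.cup (η ^ (P.dim H.n - 2 * l)) (W.cup z z)) = (r : ℂ))
    (odd : ∀ P l z, z ∈ C 1 P l → ∃ r : ℝ, 0 ≤ r ∧ H.psiP P z z = ((-r : ℝ) : ℂ))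
    (cor : ∀ (P : Prd m) (u : W.coh (P.obj H.X) →ₗ[ℂ] W.coh (P.obj H.X)),
      AlgCor W (P.obj H.X) (P.obj H.X) u → (∀ s, J P (u s) = u (J P s)) →
      (∀ l x, x ∈ W.alg (P.obj H.X) l → u x ∈ W.alg (P.obj H.X) l) →
      ∀ ε l z, z ∈ C ε P l → u z ∈ C ε P l)
    (P : Prd m) (e : W.coh (P.obj H.X) → W.coh (P.obj H.X)) (he : JOp W H.X H.n H.ξ J P e)
    (i : ℕ) :
    (∀ l ≤ i, HodgeOp W (P.obj H.X) (P.dim H.n) (P.pol W H.ξ) e l) ↔
      ∀ l ≤ i, ∀ z ∈ C 1 P l, e z = 0 := by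
  obtain ⟨u, heu, hcor, hJu, hg, ha⟩ := exists_op H hJ he
  have hL : ∀ x, u (P.pol W H.ξ * x) = P.pol W H.ξ * u x := fun x => by
    rw [← heu, ← heu]
    exact he.comm x
  have hC : ∀ ε l z, z ∈ C ε P l → u z ∈ C ε P l := cor P u hcor hJu ha
  have huu : ∀ x, u (u x) = u x := fun x => by
    rw [← heu, ← heu]
    exact he.idem x
  constructor
  · intro hH l hl z hz
    rw [heu]
    by_contra h0
    have hzA : z ∈ algR W (P.obj H.X) l := by
      rw [← sup]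
      exact Submodule.mem_sup_right hz
    have h1 : u z ∈ Submodule.span ℝ {x | x ∈ W.alg (P.obj H.X) l ∧ u x = x} :=
      algR_ind (Submodule.span ℝ {x | x ∈ W.alg (P.obj H.X) l ∧ u x = x}) u
        (fun x hx => Submodule.subset_span ⟨ha l x hx, huu x⟩) hzA
    obtain ⟨r, hr, h2⟩ := psi_pos H ge a1 par hS hT P hg hL (l := l)
      (fun i hi hi2 x hx hx1 hx2 hx0 => hH i (hi.trans hl) hi2 x hx (by rw [heu, hx1]) hx2 hx0)
      h1 h0
    obtain ⟨s, hs, h3⟩ := odd P l _ (hC 1 l z hz)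
    rw [h2] at h3
    have h4 : r = -s := by exact_mod_cast h3
    linarith
  · intro hO l hl hl2 x hx hx1 hx2 hx0
    rw [heu] at hx1
    have hxA : x ∈ C 0 P l ⊔ C 1 P l := by
      rw [sup]
      exact algR_alg hx
    obtain ⟨a, ha0, b, hb, hab⟩ := Submodule.mem_sup.1 hxA
    have hx3 : x = u a := by
      have h1 : u b = 0 := by
        rw [← heu]
        exact hO l hl b hb
      rw [← hx1, ← hab, map_add, h1, add_zero]
    have hxe : x ∈ C 0 P l := by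
      rw [hx3]
      exact hC 0 l a ha0
    have hxN : x ∉ numR W (P.obj H.X) l := by
      intro hN
      rw [← inf] at hN
      refine hx0 ?_
      rw [← hx1, ← heu]
      exact hO l hl x hN.2
    obtain ⟨r, hr, h⟩ := form P (P.pol W H.ξ) (HodgeZ.isPol H.ξ P) 0 l x hl2 hxe
      (by rw [hx2]; exact zero_mem _) hxN
    have h1 : l + (0 : ZMod 2).val = l := by rw [ZMod.val_zero, add_zero]
    rw [h1] at h
    have hp := H.memP P
    have hξ : P.pol W H.ξ ∈ W.alg (P.obj H.X) 1 := (H.lamP P).2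
    obtain ⟨q, hq⟩ : ∃ q : ℚ, W.tr (P.obj H.X)
        (P.pol W H.ξ ^ (P.dim H.n - 2 * l) * (x * x)) = (q : ℂ) := by
      refine tot_tr H.hW hp (tot_mul H.hW hp ?_ (tot_mul H.hW hp (alg_le_tot H.hW _ l hx)
        (alg_le_tot H.hW _ l hx)))
      exact alg_le_tot H.hW _ _ (H.hW.pow_alg hp hξ _)
    refine ⟨(-1) ^ l * q, ?_, ?_⟩
    · have h2 : (((-1) ^ l * q : ℚ) : ℂ) = (r : ℂ) := by
        rw [← h]
        push_cast
        rw [← hq]
      have h3 : (((-1) ^ l * q : ℚ) : ℝ) = r := by exact_mod_cast h2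
      exact_mod_cast h3.symm ▸ hr
    · change (-1) ^ l * W.tr (P.obj H.X) (P.pol W H.ξ ^ (P.dim H.n - 2 * l) * (x * x)) = _
      rw [hq]
      push_cast
      rfl

end MotZ

end Pool.Agent.Lib.MP_361a6f_ag.FL
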