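import Pool.Agent.Lib.MP_361a6f_ag.FL.Z.MidDef
import Pool.Agent.Lib.MP_361a6f_ag.FL.B.HrA
import Pool.Agent.Lib.MP_361a6f_ag.H3.Corr

/-!
# The Lefschetz theorems and a Hodge-Riemann structure for varieties whose cohomology outside of the
middle degree is generated by a divisor class
-/

open CategoryTheory AlgebraicGeometry MonoidalCategory CartesianMonoidalCategory

universe u v w w'

set_option autoImplicit false

namespace Pool.Agent.Lib.MP_361a6f_ag.FL.Mid

open Pool.Agent.Lib.MP_361a6f_ag.H3 Pool.Agent.Lib.MP_361a6f_ag.SQ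
  Pool.Agent.Lib.MP_361a6f_ag.PP

variable {k : Type u} [Field k] {W : CohomologyData.{u, 0, w} k ℂ} {𝒱 : VarietyClass k}
  (hW : IsWeilCohomology W 𝒱) {Y : Sch k} {n : ℕ} {p : W.coh Y} (hY : 𝒱.mem Y n)
  (hM : OnlyMiddle W Y n p) (hp : PositiveDivisor W Y n p)

include hp in
theorem tr_p : ∃ q : ℚ, 0 < q ∧ W.tr Y (p ^ n) = (q : ℂ) := hp.2

include hp in
theorem tr_ne : W.tr Y (p ^ n) ≠ 0 := by
  obtain ⟨q, hq, h⟩ := tr_p hp
  rw [h]
  exact_mod_cast hq.ne'

include hp in
theorem conj_tr : starRingEnd ℂ (W.tr Y (p ^ n)) = W.tr Y (p ^ n) := by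
  obtain ⟨q, hq, h⟩ := tr_p hp
  rw [h]
  exact map_ratCast (starRingEnd ℂ) q

include hW hY hp in
theorem pow_gr (l : ℕ) : p ^ l ∈ W.gr Y (2 * l) := hW.alg_gr hY (hW.pow_alg hY hp.1 l)

include hW hY hp in
theorem pow_comm (l : ℕ) (x : W.coh Y) : p ^ l * x = x * p ^ l :=
  hW.alg_comm hY (hW.pow_alg hY hp.1 l) x

include hW hY hp in
theorem tr_pow {l : ℕ} (h : l ≠ n) : W.tr Y (p ^ l) = 0 :=
  hW.tr_gr hY (pow_gr hW hY hp l) (by omega)

include hW hY hp in
theorem pow_big {l : ℕ} (h : n < l) : p ^ l = 0 := hW.top_gr hY (pow_gr hW hY hp l) (by omega)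

include hW hY in
theorem gr_eq {i j : ℕ} {x : W.coh Y} (hx : x ∈ W.gr Y i) (hx' : x ∈ W.gr Y j) (h0 : x ≠ 0) :
    i = j := by
  by_contra h
  have I : DirectSum.IsInternal (W.gr Y) := hW.internal hY
  exact h0 ((AV48.pj_same I hx).symm.trans (AV48.pj_ne I (Ne.symm h) hx'))

include hM in
theorem form_of {i : ℕ} {x : W.coh Y} (hx : x ∈ W.gr Y i) (hi : i ≠ n) :
    ∃ (l : ℕ) (c : ℂ), x = c • p ^ l := by
  rcases hM.2 i x hi hx with h | ⟨l, c, -, h⟩
  · exact ⟨0, 0, by rw [h, zero_smul]⟩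
  · exact ⟨l, c, h⟩

/-! ### the coefficients -/

/-- the coefficient of `p ^ l` -/
noncomputable def t (W : CohomologyData.{u, 0, w} k ℂ) {Y : Sch k} (n : ℕ) (p : W.coh Y) (l : ℕ)
    (x : W.coh Y) : ℂ := W.tr Y (p ^ (n - l) * x) / W.tr Y (p ^ n)

theorem t_add (l : ℕ) (x y : W.coh Y) : t W n p l (x + y) = t W n p l x + t W n p l y := by
  rw [t, t, t, mul_add, map_add, add_div]

theorem t_smul (l : ℕ) (c : ℂ) (x : W.coh Y) : t W n p l (c • x) = c * t W n p l x := by
  rw [t, t, mul_smul_comm, map_smul, smul_eq_mul, mul_div_assoc]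

theorem t_zero (l : ℕ) : t W n p l (0 : W.coh Y) = 0 := by rw [t, mul_zero, map_zero, zero_div]

include hW hY hp in
theorem t_pow {l : ℕ} (hl : l ≤ n) (s : ℕ) : t W n p l (p ^ s) = if s = l then 1 else 0 := by
  rw [t, ← pow_add]
  split_ifs with h
  · rw [h, Nat.sub_add_cancel hl, div_self (tr_ne hp)]
  · rw [tr_pow hW hY hp (by omega), zero_div]

/-- the part of `x` in the span of the powers of `p` -/
noncomputable def A (W : CohomologyData.{u, 0, w} k ℂ) {Y : Sch k} (n : ℕ) (p : W.coh Y) :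
    W.coh Y →ₗ[ℂ] W.coh Y where
  toFun x := ∑ l ∈ Finset.range (n + 1), t W n p l x • p ^ l
  map_add' x y := by
    rw [← Finset.sum_add_distrib]
    exact Finset.sum_congr rfl fun l _ => by rw [t_add, add_smul]
  map_smul' c x := by
    rw [RingHom.id_apply, Finset.smul_sum]
    exact Finset.sum_congr rfl fun l _ => by rw [t_smul, mul_smul]

theorem A_apply (x : W.coh Y) : A W n p x = ∑ l ∈ Finset.range (n + 1), t W n p l x • p ^ l := rfl

include hW hY hp in
theorem A_pow (s : ℕ) : A W n p (p ^ s) = p ^ s := by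
  rw [A_apply]
  by_cases hs : s ≤ n
  · rw [Finset.sum_eq_single s]
    · rw [t_pow hW hY hp hs, if_pos rfl, one_smul]
    · intro l hl hne
      rw [t_pow hW hY hp (by have := Finset.mem_range.1 hl; omega), if_neg (Ne.symm hne), zero_smul]
    · intro h
      exact absurd (Finset.mem_range.2 (by omega)) h
  · rw [pow_big hW hY hp (by omega)]
    exact Finset.sum_eq_zero fun l _ => by rw [t_zero, zero_smul]

include hW hY hM hp in
theorem A_gr {i : ℕ} {x : W.coh Y} (hx : x ∈ W.gr Y i) (hi : i ≠ n) : A W n p x = x := by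
  obtain ⟨l, c, rfl⟩ := form_of hM hx hi
  rw [map_smul, A_pow hW hY hp]

include hW hY hp in
theorem tr_pow_sub {m : ℕ} (hm : m ≤ n) (x : W.coh Y) : W.tr Y (p ^ m * (x - A W n p x)) = 0 := by
  rw [mul_sub, map_sub, A_apply, Finset.mul_sum, map_sum, Finset.sum_eq_single (n - m)]
  · rw [mul_smul_comm, map_smul, ← pow_add, Nat.add_sub_cancel' hm, t, Nat.sub_sub_self hm,
      smul_eq_mul, div_mul_cancel₀ _ (tr_ne hp), sub_self]
  · intro l hl hne
    have := Finset.mem_range.1 hl
    rw [mul_smul_comm, map_smul, ← pow_add, tr_pow hW hY hp (by omega), smul_zero]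
  · intro h
    exact absurd (Finset.mem_range.2 (by omega)) h

/-- the primitive part of the middle cohomology -/
def P (W : CohomologyData.{u, 0, w} k ℂ) {Y : Sch k} (n : ℕ) (p : W.coh Y) :
    Submodule ℂ (W.coh Y) where
  carrier := {u | u ∈ W.gr Y n ∧ p * u = 0}
  add_mem' := fun ha hb => ⟨add_mem ha.1 hb.1, by rw [mul_add, ha.2, hb.2, add_zero]⟩
  zero_mem' := ⟨zero_mem _, mul_zero _⟩
  smul_mem' := fun c x hx => ⟨Submodule.smul_mem _ c hx.1, by rw [mul_smul_comm, hx.2, smul_zero]⟩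

theorem P_pow {u : W.coh Y} (hu : u ∈ P W n p) {l : ℕ} (hl : 0 < l) : p ^ l * u = 0 := by
  obtain ⟨m, rfl⟩ := Nat.exists_eq_succ_of_ne_zero hl.ne'
  rw [pow_succ, mul_assoc, hu.2, mul_zero]

include hW hY hM in
theorem P_tr {u : W.coh Y} (hu : u ∈ P W n p) : W.tr Y u = 0 :=
  hW.tr_gr hY hu.1 (by have := hM.1; omega)

include hW hY hM in
theorem P_t {u : W.coh Y} (hu : u ∈ P W n p) (l : ℕ) : t W n p l u = 0 := by
  rw [t]
  rcases Nat.eq_zero_or_pos (n - l) with h | h
  · rw [h, pow_zero, one_mul, P_tr hW hY hM hu, zero_div]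
  · rw [P_pow hu h, map_zero, zero_div]

include hW hY hM in
theorem A_P {u : W.coh Y} (hu : u ∈ P W n p) : A W n p u = 0 := by
  rw [A_apply]
  refine Finset.sum_eq_zero fun l _ => ?_
  rw [P_t hW hY hM hu, zero_smul]

include hW hY hp in
theorem A_mem {x : W.coh Y} (hx : x ∈ W.gr Y n) : A W n p x ∈ W.gr Y n := by
  rw [A_apply]
  refine Submodule.sum_mem _ fun l hl => ?_
  have := Finset.mem_range.1 hl
  by_cases h : 2 * l = n
  · refine Submodule.smul_mem _ _ ?_
    have h1 := pow_gr hW hY hp l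
    rwa [h] at h1
  · have h1 : p ^ (n - l) * x ∈ W.gr Y (2 * (n - l) + n) := hW.mul_gr hY (pow_gr hW hY hp _) hx
    rw [t, hW.tr_gr hY h1 (by omega), zero_div, zero_smul]
    exact zero_mem _

include hW hY hM hp in
theorem sub_mem_P (x : W.coh Y) : x - A W n p x ∈ P W n p := by
  refine hW.hom_induction hY (P := fun x => x - A W n p x ∈ P W n p) x ?_ ?_ ?_
  · intro i x hx
    by_cases hi : i = n
    · subst hi
      have h1 : x - A W i p x ∈ W.gr Y i := sub_mem hx (A_mem hW hY hp hx)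
      refine ⟨h1, ?_⟩
      have hp1 : p ∈ W.gr Y (2 * 1) := hW.alg_gr hY hp.1
      have h2 : p * (x - A W i p x) ∈ W.gr Y (2 * 1 + i) := hW.mul_gr hY hp1 h1
      rw [← A_gr hW hY hM hp h2 (by omega), A_apply]
      refine Finset.sum_eq_zero fun l hl => ?_
      have hl' := Finset.mem_range.1 hl
      have h3 : W.tr Y (p ^ (i - l) * (p * (x - A W i p x))) = 0 := by
        rw [← mul_assoc, ← pow_succ]
        by_cases h4 : i - l + 1 ≤ i
        · exact tr_pow_sub hW hY hp h4 x
        · rw [pow_big hW hY hp (by omega), zero_mul, map_zero]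
      rw [t, h3, zero_div, zero_smul]
    · rw [A_gr hW hY hM hp hx hi, sub_self]
      exact zero_mem _
  · rw [map_zero, sub_zero]
    exact zero_mem _
  · intro x y hx hy
    have e : x + y - A W n p (x + y) = (x - A W n p x) + (y - A W n p y) := by
      rw [map_add]
      abel
    rw [e]
    exact add_mem hx hy

include hW hY hM hp in
/-- induction: powers of `p` and primitive classes of the middle degree -/
theorem ind {Q : W.coh Y → Prop} (x : W.coh Y) (h1 : ∀ (c : ℂ) (s : ℕ), Q (c • p ^ s))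
    (h2 : ∀ u ∈ P W n p, Q u) (hadd : ∀ x y, Q x → Q y → Q (x + y)) : Q x := by
  have e : x = A W n p x + (x - A W n p x) := by abel
  rw [e]
  refine hadd _ _ ?_ (h2 _ (sub_mem_P hW hY hM hp x))
  rw [A_apply]
  have key : ∀ S : Finset ℕ, Q (∑ l ∈ S, t W n p l x • p ^ l) := by
    intro S
    induction S using Finset.induction_on with
    | empty =>
      rw [Finset.sum_empty]
      have := h1 0 0
      rwa [zero_smul] at this
    | insert a S ha ih =>
      rw [Finset.sum_insert ha]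
      exact hadd _ _ (h1 _ _) ih
  exact key _

/-! ### hard Lefschetz and the operator Lambda -/

include hW hY hM hp in
theorem hard : HardLefschetz W Y n p := by
  intro i x hi hx h
  have h' : p ^ (n - i) * x = 0 := h
  by_cases hin : i = n
  · subst hin
    rwa [Nat.sub_self, pow_zero, one_mul] at h'
  · by_contra h0
    obtain ⟨l, c, rfl⟩ := form_of hM hx hin
    have hc : c ≠ 0 := by
      rintro rfl
      exact h0 (zero_smul _ _)
    have hil : i = 2 * l := gr_eq hW hY hx (Submodule.smul_mem _ c (pow_gr hW hY hp l)) h0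
    have h1 : p ^ n = 0 := by
      have h2 : c • p ^ (n - i + l) = 0 := by rw [pow_add, ← mul_smul_comm]; exact h'
      have h3 : p ^ (n - i + l) = 0 := (smul_eq_zero.1 h2).resolve_left hc
      have e : n = l + (n - i + l) := by omega
      rw [e, pow_add, h3, mul_zero]
    exact tr_ne hp (by rw [h1, map_zero])

include hW hY hM hp in
/-- a primitive class is a multiple of `1` or in `P` -/
theorem prim {i : ℕ} {x : W.coh Y} (hi : i ≤ n) (hx : Primitive W Y n p i x) :
    (i = 0 ∧ ∃ c : ℂ, x = c • (1 : W.coh Y)) ∨ (i = n ∧ x ∈ P W n p) ∨ x = 0 := by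
  have hxg : x ∈ W.gr Y i := hx.1
  have hx2 : p ^ (n - i + 1) * x = 0 := hx.2
  by_cases hin : i = n
  · subst hin
    rw [Nat.sub_self, zero_add, pow_one] at hx2
    exact Or.inr (Or.inl ⟨rfl, hxg, hx2⟩)
  · by_cases h0 : x = 0
    · exact Or.inr (Or.inr h0)
    · obtain ⟨l, c, rfl⟩ := form_of hM hxg hin
      have hc : c ≠ 0 := by
        rintro rfl
        exact h0 (zero_smul _ _)
      have hil : i = 2 * l := gr_eq hW hY hxg (Submodule.smul_mem _ c (pow_gr hW hY hp l)) h0
      rcases Nat.eq_zero_or_pos l with rfl | hl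
      · exact Or.inl ⟨by omega, c, by rw [pow_zero]⟩
      · exfalso
        have h2 : c • p ^ (n - i + 1 + l) = 0 := by rw [pow_add, ← mul_smul_comm]; exact hx2
        have h3 : p ^ (n - i + 1 + l) = 0 := (smul_eq_zero.1 h2).resolve_left hc
        have e : n = (l - 1) + (n - i + 1 + l) := by omega
        exact tr_ne hp (by rw [e, pow_add, h3, mul_zero, map_zero])

/-- the class that gives the operator Lambda -/
noncomputable def lam (W : CohomologyData.{u, 0, w} k ℂ) {Y : Sch k} (n : ℕ) (p : W.coh Y) (q : ℚ) :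
    W.coh (Y ⊗ Y) :=
  ∑ r ∈ Finset.range n, ((((r + 1) * (n - r) : ℕ) / q : ℚ) : ℂ) •
    (W.pull (fst Y Y) (p ^ (n - 1 - r)) * W.pull (snd Y Y) (p ^ r))

include hW hY hp in
theorem lam_act {q : ℚ} (y : W.coh Y) :
    W.push (snd Y Y) (W.pull (fst Y Y) y * lam W n p q) =
      ∑ r ∈ Finset.range n, (((((r + 1) * (n - r) : ℕ) / q : ℚ) : ℂ) *
        W.tr Y (p ^ (n - 1 - r) * y)) • p ^ r := by
  rw [lam, Finset.mul_sum, map_sum]
  refine Finset.sum_congr rfl fun r _ => ?_
  rw [mul_smul_comm, map_smul, ← mul_assoc, ← map_mul, push_snd hW hY, smul_smul,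
    pow_comm hW hY hp]

include hW hY hM hp in
theorem lambda : AlgebraicLambda W Y n p := by
  obtain ⟨q, hq, htr⟩ := tr_p hp
  have hq' : (q : ℂ) ≠ 0 := by exact_mod_cast hq.ne'
  have hYY := 𝒱.prod hY hY
  have hn := hM.1
  refine ⟨lam W n p q, ?_, ?_⟩
  · change lam W n p q ∈ W.alg (Y ⊗ Y) (n - 1)
    rw [lam]
    refine sum_mem fun r hr => W.alg_smul _ ?_
    have hr' := Finset.mem_range.1 hr
    have h1 := hW.mul_alg hYY (hW.pull_alg hYY hY (fst Y Y) (hW.pow_alg hY hp.1 (n - 1 - r)))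
      (hW.pull_alg hYY hY (snd Y Y) (hW.pow_alg hY hp.1 r))
    have e : n - 1 - r + r = n - 1 := by omega
    rwa [e] at h1
  · intro i r x hi hr hx
    change W.push (snd Y Y) (W.pull (fst Y Y) (p ^ r * x) * lam W n p q) =
      ((r * (n - i - r + 1) : ℕ) : ℂ) • (p ^ (r - 1) * x)
    rw [lam_act hW hY hp]
    rcases prim hW hY hM hp hi hx with ⟨rfl, c, rfl⟩ | ⟨rfl, hP⟩ | rfl
    · rcases Nat.eq_zero_or_pos r with rfl | hr0
      · rw [Nat.zero_mul, Nat.cast_zero, zero_smul]
        refine Finset.sum_eq_zero fun s hs => ?_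
        rw [pow_zero, one_mul, mul_smul_comm, mul_one, map_smul, tr_pow hW hY hp (by omega),
          smul_zero, mul_zero, zero_smul]
      · rw [Finset.sum_eq_single (r - 1)]
        · have e1 : r - 1 + 1 = r := by omega
          have e2 : n - (r - 1) = n - 0 - r + 1 := by omega
          have e3 : n - 1 - (r - 1) + r = n := by omega
          have e4 : p ^ (r - 1) * (c • (1 : W.coh Y)) = c • p ^ (r - 1) := by
            rw [mul_smul_comm, mul_one]
          rw [e1, e2, mul_smul_comm, mul_one, mul_smul_comm, map_smul, ← pow_add, e3, htr,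
            e4, smul_smul, smul_eq_mul]
          congr 1
          push_cast
          field_simp
        · intro s hs hne
          rw [mul_smul_comm, mul_one, mul_smul_comm, map_smul, ← pow_add,
            tr_pow hW hY hp (by have := Finset.mem_range.1 hs; omega), smul_zero, mul_zero,
            zero_smul]
        · intro h
          exact absurd (Finset.mem_range.2 (by omega)) h
    · obtain rfl : r = 0 := by omega
      rw [Nat.zero_mul, Nat.cast_zero, zero_smul]
      refine Finset.sum_eq_zero fun s hs => ?_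
      rw [pow_zero, one_mul]
      rcases Nat.eq_zero_or_pos (i - 1 - s) with h | h
      · rw [h, pow_zero, one_mul, P_tr hW hY hM hP, mul_zero, zero_smul]
      · rw [P_pow hP h, map_zero, mul_zero, zero_smul]
    · rw [mul_zero, mul_zero, smul_zero]
      exact Finset.sum_eq_zero fun s hs => by rw [mul_zero, map_zero, mul_zero, zero_smul]

/-! ### the antilinear map -/

/-- the sign of the form on the middle cohomology -/
def sg (n : ℕ) : ℂ := (-1) ^ (n * (n + 1) / 2)

theorem sg_mul (n : ℕ) : sg n * sg n = 1 := by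
  rw [sg, ← mul_pow]
  norm_num

theorem sg_ne (n : ℕ) : sg n ≠ 0 := by
  intro h
  have := sg_mul n
  rw [h, mul_zero] at this
  exact zero_ne_one this

theorem conj_sg (n : ℕ) : starRingEnd ℂ (sg n) = sg n := by
  rw [sg, map_pow, map_neg, map_one]

/-- the form on the primitive part of `H^n` -/
noncomputable def B (W : CohomologyData.{u, 0, w} k ℂ) {Y : Sch k} (n : ℕ) (p : W.coh Y) :
    P W n p →ₗ[ℂ] P W n p →ₗ[ℂ] ℂ :=
  LinearMap.mk₂ ℂ (fun x y => sg n * W.tr Y ((x : W.coh Y) * (y : W.coh Y)))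
    (fun x x' y => by rw [Submodule.coe_add, add_mul, map_add, mul_add])
    (fun c x y => by
      rw [Submodule.coe_smul, smul_mul_assoc, map_smul, smul_eq_mul, smul_eq_mul]
      ring)
    (fun x y y' => by rw [Submodule.coe_add, mul_add, map_add, mul_add])
    (fun c x y => by
      rw [Submodule.coe_smul, mul_smul_comm, map_smul, smul_eq_mul, smul_eq_mul]
      ring)

theorem B_apply (x y : P W n p) : B W n p x y = sg n * W.tr Y ((x : W.coh Y) * (y : W.coh Y)) := rfl

include hW hY in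
theorem B_swap (x y : P W n p) : B W n p x y = (-1) ^ (n * n) * B W n p y x := by
  rw [B_apply, B_apply, hW.comm_gr hY x.2.1 y.2.1, map_smul, smul_eq_mul]
  ring

include hW hY hM hp in
theorem B_nondeg (x : P W n p) (hx : ∀ y, B W n p x y = 0) : x = 0 := by
  refine Subtype.ext (hW.duality hY _ fun v => ?_)
  refine ind hW hY hM hp (Q := fun v => W.tr Y ((x : W.coh Y) * v) = 0) v ?_ ?_ ?_
  · intro c s
    rw [mul_smul_comm, map_smul, ← pow_comm hW hY hp]
    rcases Nat.eq_zero_or_pos s with rfl | hs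
    · rw [pow_zero, one_mul, P_tr hW hY hM x.2, smul_zero]
    · rw [P_pow x.2 hs, map_zero, smul_zero]
  · intro u hu
    have h1 := hx ⟨u, hu⟩
    rw [B_apply] at h1
    exact (mul_eq_zero.1 h1).resolve_left (sg_ne n)
  · intro a b ha hb
    rw [mul_add, map_add, ha, hb, add_zero]

/-- the projection to the primitive part -/
noncomputable def pr (hW : IsWeilCohomology W 𝒱) (hY : 𝒱.mem Y n) (hM : OnlyMiddle W Y n p)
    (hp : PositiveDivisor W Y n p) : W.coh Y →ₗ[ℂ] P W n p :=
  (LinearMap.id - A W n p).codRestrict (P W n p) fun x => sub_mem_P hW hY hM hp x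

theorem pr_coe (x : W.coh Y) : (pr hW hY hM hp x : W.coh Y) = x - A W n p x := rfl

theorem pr_pow (s : ℕ) : pr hW hY hM hp (p ^ s) = 0 :=
  Subtype.ext (by rw [pr_coe, A_pow hW hY hp, sub_self]; rfl)

theorem pr_P {u : W.coh Y} (hu : u ∈ P W n p) : pr hW hY hM hp u = ⟨u, hu⟩ :=
  Subtype.ext (by rw [pr_coe, A_P hW hY hM hu, sub_zero])

variable (J : P W n p →ₛₗ[starRingEnd ℂ] P W n p)

/-- the antilinear map of the cohomology algebra -/
noncomputable def jj : W.coh Y →ₛₗ[starRingEnd ℂ] W.coh Y where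
  toFun x := ∑ l ∈ Finset.range (n + 1), starRingEnd ℂ (t W n p l x) • p ^ l +
    (J (pr hW hY hM hp x) : W.coh Y)
  map_add' x y := by
    rw [map_add, map_add, Submodule.coe_add, add_add_add_comm, ← Finset.sum_add_distrib]
    congr 1
    exact Finset.sum_congr rfl fun l _ => by rw [t_add, map_add, add_smul]
  map_smul' c x := by
    rw [map_smul, LinearMap.map_smulₛₗ, Submodule.coe_smul, smul_add, Finset.smul_sum]
    congr 1
    exact Finset.sum_congr rfl fun l _ => by rw [t_smul, map_mul, mul_smul]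

theorem jj_apply (x : W.coh Y) : jj hW hY hM hp J x =
    ∑ l ∈ Finset.range (n + 1), starRingEnd ℂ (t W n p l x) • p ^ l +
      (J (pr hW hY hM hp x) : W.coh Y) := rfl

theorem jj_pow (s : ℕ) : jj hW hY hM hp J (p ^ s) = p ^ s := by
  rw [jj_apply, pr_pow, map_zero, Submodule.coe_zero, add_zero]
  by_cases hs : s ≤ n
  · rw [Finset.sum_eq_single s]
    · rw [t_pow hW hY hp hs, if_pos rfl, map_one, one_smul]
    · intro l hl hne
      rw [t_pow hW hY hp (by have := Finset.mem_range.1 hl; omega), if_neg (Ne.symm hne), map_zero,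
        zero_smul]
    · intro h
      exact absurd (Finset.mem_range.2 (by omega)) h
  · rw [pow_big hW hY hp (by omega)]
    exact Finset.sum_eq_zero fun l _ => by rw [t_zero, map_zero, zero_smul]

theorem jj_P {u : W.coh Y} (hu : u ∈ P W n p) : jj hW hY hM hp J u = (J ⟨u, hu⟩ : W.coh Y) := by
  rw [jj_apply, pr_P hW hY hM hp hu, Finset.sum_eq_zero, zero_add]
  intro l _
  rw [P_t hW hY hM hu, map_zero, zero_smul]

include hW hY hM hp in
/-- the product of two primitive classes of the middle degree -/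
theorem P_mul {u v : W.coh Y} (hu : u ∈ P W n p) (hv : v ∈ P W n p) :
    u * v = (W.tr Y (u * v) / W.tr Y (p ^ n)) • p ^ n := by
  have hn := hM.1
  have h1 : u * v ∈ W.gr Y (n + n) := hW.mul_gr hY hu.1 hv.1
  conv_lhs => rw [← A_gr hW hY hM hp h1 (by omega), A_apply]
  rw [Finset.sum_eq_single n]
  · rw [t, Nat.sub_self, pow_zero, one_mul]
  · intro l hl hne
    have := Finset.mem_range.1 hl
    rw [t, ← mul_assoc, P_pow hu (by omega), zero_mul, map_zero, zero_div, zero_smul]
  · intro h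
    exact absurd (Finset.mem_range.2 (by omega)) h

theorem jj_mul (hJ : ∀ x y : P W n p, W.tr Y ((J x : W.coh Y) * (J y : W.coh Y)) =
      starRingEnd ℂ (W.tr Y ((x : W.coh Y) * (y : W.coh Y)))) (x y : W.coh Y) :
    jj hW hY hM hp J (x * y) = jj hW hY hM hp J x * jj hW hY hM hp J y := by
  have hn := hM.1
  refine ind hW hY hM hp (Q := fun x => jj hW hY hM hp J (x * y) =
    jj hW hY hM hp J x * jj hW hY hM hp J y) x ?_ ?_ ?_
  · intro c s
    refine ind hW hY hM hp (Q := fun y => jj hW hY hM hp J (c • p ^ s * y) =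
      jj hW hY hM hp J (c • p ^ s) * jj hW hY hM hp J y) y ?_ ?_ ?_
    · intro c' s'
      rw [smul_mul_smul_comm, ← pow_add, LinearMap.map_smulₛₗ, LinearMap.map_smulₛₗ,
        LinearMap.map_smulₛₗ, jj_pow, jj_pow, jj_pow, smul_mul_smul_comm, ← pow_add, map_mul]
    · intro u hu
      rw [LinearMap.map_smulₛₗ, jj_pow, smul_mul_assoc, LinearMap.map_smulₛₗ, smul_mul_assoc,
        jj_P hW hY hM hp J hu]
      rcases Nat.eq_zero_or_pos s with rfl | hs
      · rw [pow_zero, one_mul, one_mul, jj_P hW hY hM hp J hu]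
      · rw [P_pow hu hs, map_zero, P_pow (J ⟨u, hu⟩).2 hs]
    · intro a b ha hb
      rw [mul_add, map_add, ha, hb, map_add, mul_add]
  · intro u hu
    refine ind hW hY hM hp (Q := fun y => jj hW hY hM hp J (u * y) =
      jj hW hY hM hp J u * jj hW hY hM hp J y) y ?_ ?_ ?_
    · intro c s
      rw [LinearMap.map_smulₛₗ, jj_pow, mul_smul_comm, LinearMap.map_smulₛₗ, mul_smul_comm,
        ← pow_comm hW hY hp, ← pow_comm hW hY hp, jj_P hW hY hM hp J hu]
      rcases Nat.eq_zero_or_pos s with rfl | hs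
      · rw [pow_zero, one_mul, one_mul, jj_P hW hY hM hp J hu]
      · rw [P_pow hu hs, map_zero, P_pow (J ⟨u, hu⟩).2 hs]
    · intro v hv
      rw [jj_P hW hY hM hp J hu, jj_P hW hY hM hp J hv, P_mul hW hY hM hp hu hv,
        LinearMap.map_smulₛₗ, jj_pow,
        P_mul hW hY hM hp (J ⟨u, hu⟩).2 (J ⟨v, hv⟩).2, hJ, map_div₀, conj_tr hp]
    · intro a b ha hb
      rw [mul_add, map_add, ha, hb, map_add, mul_add]
  · intro a b ha hb
    rw [add_mul, map_add, ha, hb, map_add, add_mul]

theorem jj_gr (i : ℕ) {x : W.coh Y} (hx : x ∈ W.gr Y i) : jj hW hY hM hp J x ∈ W.gr Y i := by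
  by_cases hi : i = n
  · subst hi
    rw [jj_apply]
    refine add_mem (Submodule.sum_mem _ fun l hl => ?_) (J _).2.1
    have := Finset.mem_range.1 hl
    by_cases h : 2 * l = i
    · refine Submodule.smul_mem _ _ ?_
      have h1 := pow_gr hW hY hp l
      rwa [h] at h1
    · have h1 : p ^ (i - l) * x ∈ W.gr Y (2 * (i - l) + i) := hW.mul_gr hY (pow_gr hW hY hp _) hx
      rw [t, hW.tr_gr hY h1 (by omega), zero_div, map_zero, zero_smul]
      exact zero_mem _
  · obtain ⟨l, c, rfl⟩ := form_of hM hx hi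
    rw [LinearMap.map_smulₛₗ, jj_pow]
    by_cases hc : c = 0
    · rw [hc, map_zero, zero_smul]
      exact zero_mem _
    · refine Submodule.smul_mem _ _ ?_
      have h1 := Submodule.smul_mem _ c⁻¹ hx
      rwa [smul_smul, inv_mul_cancel₀ hc, one_smul] at h1

theorem jj_tr (x : W.coh Y) : W.tr Y (jj hW hY hM hp J x) = starRingEnd ℂ (W.tr Y x) := by
  refine ind hW hY hM hp (Q := fun x => W.tr Y (jj hW hY hM hp J x) =
    starRingEnd ℂ (W.tr Y x)) x ?_ ?_ ?_
  · intro c s
    rw [LinearMap.map_smulₛₗ, jj_pow, map_smul, map_smul, smul_eq_mul, smul_eq_mul, map_mul]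
    by_cases hs : s = n
    · rw [hs, conj_tr hp]
    · rw [tr_pow hW hY hp hs, map_zero]
  · intro u hu
    rw [jj_P hW hY hM hp J hu, P_tr hW hY hM (J ⟨u, hu⟩).2, P_tr hW hY hM hu, map_zero]
  · intro a b ha hb
    rw [map_add, map_add, ha, hb, map_add, map_add]

include hW hY hM hp in
theorem exists_hr : ∃ j : W.coh Y →ₛₗ[starRingEnd ℂ] W.coh Y, HRStr W Y n p j := by
  have hfin : FiniteDimensional ℂ (W.coh Y) := hW.finite hY
  obtain ⟨N, b, τ, s, h⟩ := exists_adapted (o := Odd n) (B := B W n p)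
    (fun x y ho => by rw [B_swap hW hY x y, (ho.mul ho).neg_one_pow, neg_one_mul])
    (fun x y ho => by
      rw [B_swap hW hY x y, ((Nat.not_odd_iff_even.1 ho).mul_left n).neg_one_pow, one_mul])
    (fun x hx => B_nondeg hW hY hM hp x hx)
  have hJ : ∀ x y : P W n p, W.tr Y ((HrA.j0 b τ s x : W.coh Y) * (HrA.j0 b τ s y : W.coh Y)) =
      starRingEnd ℂ (W.tr Y ((x : W.coh Y) * (y : W.coh Y))) := by
    intro x y
    have h1 := HrA.form_conj h x y
    rw [B_apply, B_apply, RingHom.map_mul, conj_sg] at h1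
    exact mul_left_cancel₀ (sg_ne n) h1
  have hj1 : jj hW hY hM hp (HrA.j0 b τ s) p = p := by
    have := jj_pow hW hY hM hp (HrA.j0 b τ s) 1
    rwa [pow_one] at this
  refine ⟨jj hW hY hM hp (HrA.j0 b τ s), fun x y => jj_mul hW hY hM hp _ hJ x y,
    fun i x hx => jj_gr hW hY hM hp _ i hx, hj1, fun x => jj_tr hW hY hM hp _ x, ?_⟩
  intro i x hi hx hx0
  rcases prim hW hY hM hp hi hx with ⟨rfl, c, rfl⟩ | ⟨rfl, hP⟩ | h0
  · obtain ⟨q, hq, htr⟩ := tr_p hp
    have hc0 : c ≠ 0 := by
      rintro rfl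
      exact hx0 (zero_smul _ _)
    refine ⟨Complex.normSq c * q, mul_pos (Complex.normSq_pos.2 hc0) (by exact_mod_cast hq), ?_⟩
    have hj0 : jj hW hY hM hp (HrA.j0 b τ s) (1 : W.coh Y) = 1 := by
      have := jj_pow hW hY hM hp (HrA.j0 b τ s) 0
      rwa [pow_zero] at this
    change (-1) ^ (0 * (0 + 1) / 2) * W.tr Y (p ^ (n - 0) * (c • (1 : W.coh Y) *
      jj hW hY hM hp (HrA.j0 b τ s) (c • (1 : W.coh Y)))) = _
    rw [LinearMap.map_smulₛₗ, hj0, smul_mul_smul_comm, mul_one, mul_smul_comm, mul_one, map_smul,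
      Nat.sub_zero, htr, smul_eq_mul, Complex.mul_conj]
    push_cast
    norm_num
  · obtain ⟨r, hr, h1⟩ := HrA.form_pos h ⟨x, hP⟩ fun h2 => hx0 (congrArg Subtype.val h2)
    refine ⟨r, hr, ?_⟩
    change (-1) ^ (i * (i + 1) / 2) * W.tr Y (p ^ (i - i) * (x *
      jj hW hY hM hp (HrA.j0 b τ s) x)) = _
    rw [jj_P hW hY hM hp _ hP, ← h1, B_apply, Nat.sub_self, pow_zero, one_mul, sg]
  · exact absurd h0 hx0

end Pool.Agent.Lib.MP_361a6f_ag.FL.Mid

namespace Pool.Agent.Lib.MP_361a6f_ag.FL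

open Pool.Agent.Lib.MP_361a6f_ag.H3 Pool.Agent.Lib.MP_361a6f_ag.SQ
  Pool.Agent.Lib.MP_361a6f_ag.PP

/-- The Lefschetz theorems and a Hodge-Riemann structure if the cohomology outside of the middle
degree is generated by `ξ`. -/
theorem mid {k : Type u} [Field k] {W : CohomologyData.{u, 0, w} k ℂ} {𝒱 : VarietyClass k}
    (hW : IsWeilCohomology W 𝒱) {Y : Sch k} {n : ℕ} {p : W.coh Y} (hY : 𝒱.mem Y n)
    (hM : OnlyMiddle W Y n p) (hp : PositiveDivisor W Y n p) :
    HardLefschetz W Y n p ∧ AlgebraicLambda W Y n p ∧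
      ∃ j : W.coh Y →ₛₗ[starRingEnd ℂ] W.coh Y, HRStr W Y n p j :=
  ⟨Mid.hard hW hY hM hp, Mid.lambda hW hY hM hp, Mid.exists_hr hW hY hM hp⟩

end Pool.Agent.Lib.MP_361a6f_ag.FL
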