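import Pool.Agent.Lib.MP_361a6f_ag.FL.B.Stat

/-!
# Varieties whose cohomology outside of the middle degree is generated by a divisor class
-/

open CategoryTheory AlgebraicGeometry MonoidalCategory CartesianMonoidalCategory

universe u v w

namespace Pool.Agent.Lib.MP_361a6f_ag.FL

open Pool.Agent.Lib.MP_361a6f_ag.H3 Pool.Agent.Lib.MP_361a6f_ag.SQ

/-- `X` has dimension `n > 0`, and `H^i(X) = ℂ ξ^(i/2)` for all even `i ≠ n`, `H^i(X) = 0` for all
odd `i ≠ n`. Curves with `H^0(X) = ℂ`, surfaces with `H^0(X) = ℂ` and `H^1(X) = 0`, and smooth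
complete intersections have this property. -/
def OnlyMiddle {k : Type u} [Field k] (W : CohomologyData.{u, 0, w} k ℂ) (X : Sch k) (n : ℕ)
    (ξ : W.coh X) : Prop :=
  0 < n ∧ ∀ i x, i ≠ n → W.Deg X i x → x = 0 ∨ ∃ (r : ℕ) (c : ℂ), i = 2 * r ∧ x = W.scal c (ξ ^ r)

end Pool.Agent.Lib.MP_361a6f_ag.FL
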