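import Pool.Agent.Lib.MP_361a6f_ag.FL.B.Reb
import Pool.Agent.Lib.MP_361a6f_ag.FL.NoeT
import Pool.Agent.Lib.MP_361a6f_ag.FL.QpsI
import Pool.Agent.Lib.MP_361a6f_ag.FL.Real

/-!
# The graded form: abstract part

A rational system of tensors, closed under the diagram operations. There are elements `g j` of the
stabiliser of the members fixed by `J₀` such that the limits `s u` of `g j u` exist for the
members `u` of length at most `N`, and a unitary element `k` of this stabiliser with
`J₀ (s u) = k (s u)`. `zTup` is the step for a finite tuple of members.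
-/

open Filter Topology MeasureTheory

set_option autoImplicit false
set_option linter.unusedSectionVars false
set_option linter.unusedVariables false

namespace Pool.Agent.Lib.MP_361a6f_ag.FL

variable {I Λ : Type} [Fintype I] [DecidableEq I] [DecidableEq Λ]

namespace ZAbs

open Qps

variable {D : Dat I Λ}

theorem jT_one : jT D (fun _ => 1 : Ten I 0) = fun _ => 1 := by
  funext w
  rw [jT, map_one, mul_one, sg]
  simp


theorem jT_cont {c : ℕ} : Continuous fun u : Ten I c => jT D u := by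
  refine continuous_pi fun w => ?_
  exact continuous_const.mul (Complex.continuous_conj.comp (continuous_apply _))

/-- limits and `J₀ J₀` -/
theorem jj_lim (a1 : Alg1) {g : ℕ → Matrix I I ℂ} (hg : ∀ j, IsG D (g j)) {L : ℕ}
    {u x : Ten I L} (hu : jT D (jT D u) = u)
    (hx : Tendsto (fun j => gT (g j) u) atTop (𝓝 x)) : jT D (jT D x) = x := by
  have h1 : Tendsto (fun j => jT D (jT D (gT (g j) u))) atTop (𝓝 (jT D (jT D x))) :=
    ((jT_cont.comp jT_cont).tendsto x).comp hx
  have h2 : (fun j => jT D (jT D (gT (g j) u))) = fun j => gT (g j) u := by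
    funext j
    rw [XY.jT_jT_gT D _ (hg j), hu]
  rw [h2] at h1
  exact tendsto_nhds_unique h1 hx

/-- `ψ` of limits -/
theorem psi_lim (a1 : Alg1) {g : ℕ → Matrix I I ℂ} (hg : ∀ j, IsG D (g j)) {L : ℕ}
    {u v x y : Ten I L} (hx : Tendsto (fun j => gT (g j) u) atTop (𝓝 x))
    (hy : Tendsto (fun j => gT (g j) v) atTop (𝓝 y)) : psiT D x y = psiT D u v := by
  have h0 : Continuous fun p : Ten I L × Ten I L => psiT D p.1 p.2 := CloT.psiT_cont
  have h1 : Tendsto (fun j => psiT D (gT (g j) u) (gT (g j) v)) atTop (𝓝 (psiT D x y)) := by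
    have h2 := (h0.tendsto (x, y)).comp (Filter.Tendsto.prodMk_nhds hx hy)
    simpa only [Function.comp_def] using h2
  have h2 : (fun j => psiT D (gT (g j) u) (gT (g j) v)) = fun _ => psiT D u v := by
    funext j
    exact a1.psiT_gT D _ _ _ (hg j)
  rw [h2] at h1
  exact (tendsto_nhds_unique h1 tendsto_const_nhds)

theorem lim_add (a1 : Alg1) {g : ℕ → Matrix I I ℂ} {L : ℕ}
    {u v x y : Ten I L} (hx : Tendsto (fun j => gT (g j) u) atTop (𝓝 x))
    (hy : Tendsto (fun j => gT (g j) v) atTop (𝓝 y)) :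
    Tendsto (fun j => gT (g j) (u + v)) atTop (𝓝 (x + y)) := by
  have : (fun j => gT (g j) (u + v)) = fun j => gT (g j) u + gT (g j) v := by
    funext j
    exact a1.gT_add _ _ _
  rw [this]
  exact hx.add hy

theorem lim_smul (a1 : Alg1) {g : ℕ → Matrix I I ℂ} {L : ℕ} (c : ℂ)
    {u x : Ten I L} (hx : Tendsto (fun j => gT (g j) u) atTop (𝓝 x)) :
    Tendsto (fun j => gT (g j) (c • u)) atTop (𝓝 (c • x)) := by
  have : (fun j => gT (g j) (c • u)) = fun j => c • gT (g j) u := by
    funext j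
    exact a1.gT_smul _ _ _
  rw [this]
  exact hx.const_smul c


/-- limits of diagrams -/
theorem dm_lim {β ι : Type} [Fintype β] [Fintype ι] {lb : β → ℕ} {len : ι → ℕ} (a2 : Alg2)
    (ab : AlgB) {b : Tup I lb} {s t : Tup I len} {g : ℕ → Matrix I I ℂ}
    (hg : ∀ j, IsGb D b (g j)) (hlim : Tendsto (fun j => gS (g j) t) atTop (𝓝 s)) (c : ℕ)
    (l : List (β ⊕ ι)) (m : Ten I ((l.map (Sum.elim lb len)).sum + c)) (hm : IsMatch D _ m) :
    Tendsto (fun j => gT (g j) (dm D c l m (cmb b t))) atTop (𝓝 (dm D c l m (cmb b s))) := by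
  have hcl : Tendsto (fun j => gS (g j) (cmb b t)) atTop (𝓝 (cmb b s)) := by
    have h1 : (fun j => gS (g j) (cmb b t)) = fun j => cmb b (gS (g j) t) := by
      funext j
      rw [ab.gS_cmb, (hg j).2]
    rw [h1]
    exact ((ab.cmb_cont (len := len) b).tendsto s).comp hlim
  have h1 : (fun j => gT (g j) (dm D c l m (cmb b t))) =
      fun j => dm D c l m (gS (g j) (cmb b t)) := by
    funext j
    exact (a2.dm_gS D c l m _ _ hm (hg j).1).symm
  rw [h1]
  exact ((a2.dm_cont D c l m).tendsto (cmb b s)).comp hcl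

/-- **The step for a finite tuple** `t` of members that contains the unit. `s` is a critical point
in the closure of the orbit of `t` under the stabiliser of the base `b`. There is a unitary element
`k` of the stabiliser of `b` with `k s = J₀ s`. For each member `u` whose limit `v` is a value of a
diagram at `(b, s)`, we have `J₀ v = k v` and `k (k v) = v`, and `k v` is the limit of a real
combination of members. -/
theorem zTup {β ι : Type} [Fintype β] [Fintype ι] {lb : β → ℕ} {len : ι → ℕ} (a1 : Alg1)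
    (a2 : Alg2) (ab : AlgB) (l1 : L1bStatement) (l2 : L2bStatement)
    {At : (L : ℕ) → Ten I L → Prop} (S : ASys D At) {b : Tup I lb}
    (hbAt : ∀ i, At (lb i) (b i)) (hbase : IsBase D b) (H : HMb D b) {t : Tup I len}
    (htAt : ∀ i, At (len i) (t i)) (i₀ : ι) (hl0 : len i₀ = 0) (ht0 : ∀ w, t i₀ w = 1)
    {s : Tup I len} {g : ℕ → Matrix I I ℂ} (hg : ∀ j, IsGb D b (g j))
    (hlim : Tendsto (fun j => gS (g j) t) atTop (𝓝 s)) (hmin : Minimalb D b s) :
    (∀ i, s i ∈ MT D (cmb b s) (len i)) ∧ ∃ k : H.K,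
      gS (H.mat k) (cmb b s) = jS D (cmb b s) ∧
      ∀ (L : ℕ) (u v : Ten I L), At L u → v ∈ MT D (cmb b s) L →
        Tendsto (fun j => gT (g j) u) atTop (𝓝 v) →
        jT D v = gT (H.mat k) v ∧ gT (H.mat k) (gT (H.mat k) v) = v ∧
        ∃ u' ∈ Submodule.span ℝ {x : Ten I L | At L x},
          Tendsto (fun j => gT (g j) u') atTop (𝓝 (gT (H.mat k) v)) := by
  have hcAt : ∀ i, At ((Sum.elim lb len) i) (cmb b t i) := by
    intro i
    match i with
    | .inl i => exact hbAt i
    | .inr i => exact htAt i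
  have hgG : ∀ j, IsG D (g j) := fun j => (hg j).1
  have hs : hS s s ≠ 0 := XY.hS_ne a1 i₀ hl0 ht0 g hlim
  have hdm : ∀ (c : ℕ) (l : List (β ⊕ ι)) (m : Ten I ((l.map (Sum.elim lb len)).sum + c)),
      IsMatch D _ m → Tendsto (fun j => gT (g j) (dm D c l m (cmb b t))) atTop
        (𝓝 (dm D c l m (cmb b s))) := dm_lim a2 ab hg hlim
  -- the invariants are rational
  have hinv : ∀ (l : List (β ⊕ ι)) (m : Ten I ((l.map (Sum.elim lb len)).sum + 0)),
      IsMatch D _ m → dm D 0 l m (cmb b (jS D s)) = dm D 0 l m (cmb b s) := by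
    intro l m hm
    have h1 : cmb b (jS D s) = jS D (cmb b s) := (REB.jS_cmb_of ab hbase s).symm
    rw [h1, a2.dm_jS D 0 l m _ hm]
    have h2 : dm D 0 l m (cmb b s) = dm D 0 l m (cmb b t) := by
      have h3 := hdm 0 l m hm
      have h4 : (fun j => gT (g j) (dm D 0 l m (cmb b t))) = fun _ => dm D 0 l m (cmb b t) := by
        funext j
        exact XY.gT_zero_len rfl _ _
      rw [h4] at h3
      exact (tendsto_nhds_unique h3 tendsto_const_nhds)
    rw [h2]
    obtain ⟨q, hq⟩ := S.rat _ (dm_mem S hcAt 0 l hm)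
    funext w
    rw [jT, hq, hq, sg]
    simp
  have hjn : hS (jS D s) (jS D s) = hS s s := RealT.hS_jS a1 D s
  obtain ⟨k, hk⟩ := l1 hbase H s (jS D s) hmin hs hjn hinv
  have hkK : IsK D (H.mat k) := (H.mem k).1
  have hkc : gS (H.mat k) (cmb b s) = jS D (cmb b s) := by
    rw [REB.gS_cmb_of ab (H.mem k).2 hk, REB.jS_cmb_of ab hbase s]
  refine ⟨fun i => l2 hbase H s hmin hs _ _ fun y hy => congrFun hy i, k, hkc,
    fun L u v hu hvM hv => ?_⟩
  -- `J₀` preserves the complex span
  have hMJ : ∀ {L : ℕ} {v : Ten I L}, v ∈ MT D (cmb b s) L → jT D v ∈ MT D (cmb b s) L := by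
    intro L v hv
    refine l2 hbase H s hmin hs L _ fun x hx => ?_
    rw [← a1.jT_gT D _ _ (H.mem x).1]
    congr 1
    exact YPi.MT_fix a1 a2 hv (H.mem x).1.1 (REB.gS_cmb_of ab (H.mem x).2 hx)
  have hMk : ∀ {L : ℕ} {v : Ten I L}, v ∈ MT D (cmb b s) L →
      gT (H.mat k) v ∈ MT D (cmb b s) L := fun hv =>
    REB.MT_gT a1 a2 ab H l2 hbase hmin hs hk hv
  have hjj : jT D (jT D v) = v := jj_lim a1 hgG (S.even L u hu) hv
  -- `J₀ v = k v`
  have hkv : jT D v = gT (H.mat k) v := by
    set w : Ten I L := gT (H.mat k) v - jT D v with hw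
    have hwM : w ∈ MT D (cmb b s) L := sub_mem (hMk hvM) (hMJ hvM)
    have h1 : ∀ (l : List (β ⊕ ι)) (m : Ten I ((l.map (Sum.elim lb len)).sum + L)),
        IsMatch D _ m → psiT D w (jT D (dm D L l m (cmb b s))) = 0 := by
      intro l m hm
      set f := dm D L l m (cmb b s) with hf
      have e1 : gT (H.mat k) f = jT D f := by
        rw [hf, ← a2.dm_gS D L l m _ _ hm hkK.1, hkc, a2.dm_jS D L l m _ hm]
      obtain ⟨q, hq⟩ := psi_rat S hu (dm_mem S hcAt L l hm)
      have e2 : psiT D v f = (q : ℂ) := by rw [← hq, psi_lim a1 hgG hv (hdm L l m hm)]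
      have e3 : psiT D (gT (H.mat k) v) (jT D f) = (q : ℂ) := by
        rw [← e1, a1.psiT_gT D _ _ _ hkK.1, e2]
      have e4 : psiT D (jT D v) (jT D f) = (q : ℂ) := by
        rw [a1.psiT_jT_jT, e2]
        simp
      rw [hw, ← psiL_apply, map_sub, LinearMap.sub_apply, psiL_apply, psiL_apply, e3, e4, sub_self]
    have h2 : ∀ y ∈ MT D (cmb b s) L, psiT D w (jT D y) = 0 := by
      intro y hy
      unfold MT at hy
      induction hy using Submodule.span_induction with
      | mem y hy =>
        obtain ⟨l, m, hm, rfl⟩ := hy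
        exact h1 l m hm
      | zero =>
        have h3 : jT D (0 : Ten I L) = 0 := by
          have := a1.jT_smul D 0 (0 : Ten I L)
          rwa [zero_smul, map_zero, zero_smul] at this
        rw [h3, ← psiL_apply, map_zero]
      | add x y _ _ hx hy =>
        rw [a1.jT_add, ← psiL_apply, map_add, psiL_apply, psiL_apply, hx, hy, add_zero]
      | smul c x _ hx => rw [a1.jT_smul, ← psiL_apply, map_smul, psiL_apply, hx, smul_zero]
    have h3 := h2 w hwM
    rw [a1.psiT_jT, a1.hT_self] at h3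
    have h4 : (∑ x, ‖w x‖ ^ 2 : ℝ) = 0 := by exact_mod_cast h3
    have h5 : w = 0 := by
      funext x
      have h6 := (Finset.sum_eq_zero_iff_of_nonneg (fun x _ => by positivity)).1 h4 x
        (Finset.mem_univ x)
      exact norm_eq_zero.1 (pow_eq_zero_iff two_ne_zero |>.1 h6)
    exact (sub_eq_zero.1 (hw ▸ h5)).symm
  have hkk : gT (H.mat k) (gT (H.mat k) v) = v := by
    rw [← hkv, ← a1.jT_gT D _ _ hkK, ← hkv, hjj]
  -- the limit is a real combination of diagrams
  have hkR : gT (H.mat k) v ∈ RT D (cmb b s) L := by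
    refine REB.RT_of a1 a2 hkK hkc (hMk hvM) ?_
    rw [a1.jT_gT D _ _ hkK, hkv]
  have hR : ∀ x ∈ RT D (cmb b s) L, ∃ u' ∈ Submodule.span ℝ {x : Ten I L | At L x},
      Tendsto (fun j => gT (g j) u') atTop (𝓝 x) := by
    intro x hx
    unfold RT at hx
    induction hx using Submodule.span_induction with
    | mem x hx =>
      obtain ⟨l, m, hm, rfl⟩ := hx
      exact ⟨_, Submodule.subset_span (dm_mem S hcAt L l hm), hdm L l m hm⟩
    | zero =>
      refine ⟨0, zero_mem _, ?_⟩
      have : (fun j => gT (g j) (0 : Ten I L)) = fun _ => 0 := by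
        funext j
        exact YPi.gT_zero a1 _
      rw [this]
      exact tendsto_const_nhds
    | add x y _ _ hx hy =>
      obtain ⟨x', h1, h2⟩ := hx
      obtain ⟨y', h3, h4⟩ := hy
      exact ⟨x' + y', add_mem h1 h3, lim_add a1 h2 h4⟩
    | smul c x _ hx =>
      obtain ⟨x', h1, h2⟩ := hx
      refine ⟨c • x', Submodule.smul_mem _ c h1, ?_⟩
      rw [real_smul, real_smul]
      exact lim_smul a1 _ h2
  obtain ⟨u', hu', hlu'⟩ := hR _ hkR
  exact ⟨hkv, hkk, u', hu', hlu'⟩

end ZAbs

/-- **The graded form for the lengths in `R`**: elements `g j` and a unitary element `k` of the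
group, all of them fixing the members that `J₀` fixes, and a filter. The limit `v` of `g j u`
exists for each member `u` of length in `R`, it satisfies `J₀ v = k v` and `k (k v) = v`, and `k v`
is the limit of `g j u'` for a real combination `u'` of members. -/
def ZConc (D : Dat I Λ) (At : (L : ℕ) → Ten I L → Prop) (R : ℕ → Prop) : Prop :=
  ∃ (F : Filter ℕ) (_ : F.NeBot) (g : ℕ → Matrix I I ℂ) (k : Matrix I I ℂ),
    (∀ j, IsG D (g j)) ∧ IsK D k ∧
    (∀ (L : ℕ) (u : Ten I L), At L u → jT D u = u → (∀ j, gT (g j) u = u) ∧ gT k u = u) ∧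
    ∀ (L : ℕ) (u : Ten I L), R L → At L u → ∃ (v u' : Ten I L),
      Tendsto (fun j => gT (g j) u) F (𝓝 v) ∧ jT D v = gT k v ∧ gT k (gT k v) = v ∧
      u' ∈ Submodule.span ℝ {x : Ten I L | At L x} ∧
      Tendsto (fun j => gT (g j) u') F (𝓝 (gT k v))

open Qps in
/-- the base tuple: the unit and finitely many members fixed by `J₀` with the same stabiliser as
all members fixed by `J₀` -/
theorem zBase {D : Dat I Λ} {At : (L : ℕ) → Ten I L → Prop} (S : ASys D At) :
    ∃ (β : Type) (_ : Fintype β) (lb : β → ℕ) (b : Tup I lb), (∀ i, At (lb i) (b i)) ∧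
      IsBase D b ∧ ∀ g, gS g b = b → ∀ (L : ℕ) (u : Ten I L), At L u → jT D u = u →
        gT g u = u := by
  obtain ⟨β₀, _, lb₀, b₀, hb₀, hb₀'⟩ := noeT (fun L => {u : Ten I L | At L u ∧ jT D u = u})
  let lb : Option β₀ → ℕ := fun i => i.elim 0 lb₀
  let b : Tup I lb := fun i => match i with
    | none => fun _ => 1
    | some i => b₀ i
  refine ⟨Option β₀, inferInstance, lb, b, ?_, ⟨?_, none, rfl, fun _ => rfl⟩, ?_⟩
  · intro i
    match i with
    | none => exact S.one
    | some i => exact (hb₀ i).1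
  · funext i
    match i with
    | none => exact ZAbs.jT_one
    | some i => exact (hb₀ i).2
  · intro g hg L u hu hj
    exact hb₀' g (fun i => congrFun hg (some i)) L u ⟨hu, hj⟩

open Qps ZAbs in
/-- **Abstract part of the graded form**, for the lengths at most `N`. -/
theorem zAbs (a1 : Alg1) (a2 : Alg2) (ab : AlgB) (cpt : CptbStatement) (mn : MinbStatement)
    (l1 : L1bStatement) (l2 : L2bStatement) {D : Dat I Λ} {At : (L : ℕ) → Ten I L → Prop}
    (S : ASys D At) (N : ℕ) : ZConc D At fun L => L ≤ N := by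
  classical
  obtain ⟨β, _, lb, b, hbAt, hbase, hfix⟩ := zBase S
  -- finite sets that span
  have hB : ∀ L : ℕ, ∃ B : Set (Ten I L), B.Finite ∧ (∀ x ∈ B, At L x) ∧
      ∀ u, At L u → u ∈ Submodule.span ℂ B := by
    intro L
    obtain ⟨B, hB1, hB2, hB3⟩ := exists_linearIndependent ℂ {u : Ten I L | At L u}
    exact ⟨B, hB3.setFinite, fun x hx => hB1 hx, fun u hu => by
      rw [hB2]; exact Submodule.subset_span hu⟩
  choose B hBf hBA hBs using hB
  have : ∀ L, Fintype (B L) := fun L => (hBf L).fintype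
  let ι : Type := Option (Σ L : Fin (N + 1), B L)
  let len : ι → ℕ := fun i => i.elim 0 (fun x => x.1)
  let t : Tup I len := fun i => match i with
    | none => fun _ => 1
    | some x => x.2.1
  have htAt : ∀ i, At (len i) (t i) := by
    intro i
    match i with
    | none => exact S.one
    | some x => exact hBA _ _ x.2.2
  -- the minimal point
  obtain ⟨s, g, hg, hlim, hmin⟩ := mn D b t
  obtain ⟨H⟩ := cpt D b
  obtain ⟨hsM, k, hkc, hk⟩ := zTup a1 a2 ab l1 l2 S hbAt hbase H htAt (none : ι) rfl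
    (fun _ => rfl) hg hlim hmin
  refine ⟨atTop, inferInstance, g, H.mat k, fun j => (hg j).1, (H.mem k).1,
    fun L u hu hj => ⟨fun j => hfix _ (hg j).2 L u hu hj, hfix _ (H.mem k).2 L u hu hj⟩,
    fun L u hL hu => ?_⟩
  -- the limit of a member of the system of length at most `N`
  have hlimS : ∀ x ∈ Submodule.span ℂ (B L), ∃ y ∈ MT D (cmb b s) L,
      Tendsto (fun j => gT (g j) x) atTop (𝓝 y) := by
    intro x hx
    induction hx using Submodule.span_induction with
    | mem x hx =>
      let i₀ : ι := some ⟨⟨L, Nat.lt_succ_of_le hL⟩, ⟨x, hx⟩⟩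
      exact ⟨s i₀, hsM i₀, (tendsto_pi_nhds.mp hlim) i₀⟩
    | zero =>
      refine ⟨0, zero_mem _, ?_⟩
      have : (fun j => gT (g j) (0 : Ten I L)) = fun _ => 0 := by
        funext j
        exact YPi.gT_zero a1 _
      rw [this]
      exact tendsto_const_nhds
    | add x y _ _ hx hy =>
      obtain ⟨x', h1, h2⟩ := hx
      obtain ⟨y', h3, h4⟩ := hy
      exact ⟨x' + y', add_mem h1 h3, lim_add a1 h2 h4⟩
    | smul c x _ hx =>
      obtain ⟨x', h1, h2⟩ := hx
      exact ⟨c • x', Submodule.smul_mem _ c h1, lim_smul a1 c h2⟩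
  obtain ⟨v, hvM, hv⟩ := hlimS u (hBs L u hu)
  obtain ⟨h1, h2, u', h3, h4⟩ := hk L u v hu hvM hv
  exact ⟨v, u', hv, h1, h2, h3, h4⟩

end Pool.Agent.Lib.MP_361a6f_ag.FL
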