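import Pool.Agent.Lib.MP_361a6f_ag.FL.B.GeoDefs
import Pool.Agent.Lib.MP_361a6f_ag.FL.GQ

/-!
# The signs on the primitive classes with `J s = s` and `J s = - s`
-/

open CategoryTheory AlgebraicGeometry MonoidalCategory CartesianMonoidalCategory

universe u v w

namespace Pool.Agent.Lib.MP_361a6f_ag.FL

open Pool.Agent.Lib.MP_361a6f_ag.H3 Pool.Agent.Lib.MP_361a6f_ag.SQ
  Pool.Agent.Lib.MP_361a6f_ag.PP

namespace ZSgn

variable {k : Type u} [Field k] {m : ℕ} {W : CohomologyData.{u, 0, w} k ℂ} {𝒱 : VarietyClass k}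

/-- the real structures for all polarisations -/
theorem pol_rs (hRsp : RspStatement.{u, w}) (hRsc : RscStatement.{u, w}) (H : Host W 𝒱 m)
    {J : ∀ P : Prd m, W.coh (P.obj H.X) →ₛₗ[starRingEnd ℂ] W.coh (P.obj H.X)}
    (hrs : ∀ P, IsRS W (P.obj H.X) (P.dim H.n) (P.pol W H.ξ) (H.LamP P) (J P))
    (hprod : ∀ (P Q : Prd m) (y : W.coh (P.obj H.X)) (x : W.coh (Q.obj H.X)),
      J (.prod P Q) (W.pull (fst (P.obj H.X) (Q.obj H.X)) y
          * W.pull (snd (P.obj H.X) (Q.obj H.X)) x)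
        = W.pull (fst (P.obj H.X) (Q.obj H.X)) (J P y)
          * W.pull (snd (P.obj H.X) (Q.obj H.X)) (J Q x))
    {P : Prd m} {η : W.coh (P.obj H.X)} (hη : IsPol W H.ξ P η) :
    ∃ L : Module.End ℂ (W.coh (P.obj H.X)), IsRS W (P.obj H.X) (P.dim H.n) η L (J P) := by
  induction hη with
  | leaf a c hc =>
    have h1 := hRsc H.hW (H.memP (.leaf a)) ((c : ℚ) : ℝ) (by exact_mod_cast hc)
      (hrs (.leaf a))
    have e1 : ((((c : ℚ) : ℝ)) : ℂ) = ((c : ℚ) : ℂ) := by push_cast; rfl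
    rw [e1] at h1
    exact ⟨_, h1⟩
  | prod P Q η θ hη hθ h h' =>
    obtain ⟨L, hL⟩ := h
    obtain ⟨L', hL'⟩ := h'
    obtain ⟨j, hj, hjp⟩ := hRsp H.hW (H.memP P) (H.memP Q)
      (H.hW.alg_gr (H.memP P) (j := 1) (GQ.pol_alg H hη))
      (H.hW.alg_gr (H.memP Q) (j := 1) (GQ.pol_alg H hθ)) hL hL'
    have e : j = J (.prod P Q) := by
      refine GQ.ext_anti H.hW (H.memP P) (H.memP Q) _ _ fun y x => ?_
      rw [hjp]
      exact (hprod P Q y x).symm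
    subst e
    exact ⟨_, hj⟩

/-- the sign on primitive classes with `J s = s` -/
theorem even (hRsp : RspStatement.{u, w}) (hRsc : RscStatement.{u, w})
    (hRsq : RsqStatement.{u, w}) (H : Host W 𝒱 m)
    {J : ∀ P : Prd m, W.coh (P.obj H.X) →ₛₗ[starRingEnd ℂ] W.coh (P.obj H.X)}
    (hrs : ∀ P, IsRS W (P.obj H.X) (P.dim H.n) (P.pol W H.ξ) (H.LamP P) (J P))
    (hprod : ∀ (P Q : Prd m) (y : W.coh (P.obj H.X)) (x : W.coh (Q.obj H.X)),
      J (.prod P Q) (W.pull (fst (P.obj H.X) (Q.obj H.X)) y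
          * W.pull (snd (P.obj H.X) (Q.obj H.X)) x)
        = W.pull (fst (P.obj H.X) (Q.obj H.X)) (J P y)
          * W.pull (snd (P.obj H.X) (Q.obj H.X)) (J Q x))
    {P : Prd m} {η : W.coh (P.obj H.X)} (hη : IsPol W H.ξ P η) {l : ℕ}
    (hl : 2 * l ≤ P.dim H.n) {s : W.coh (P.obj H.X)} (hs : s ∈ W.gr (P.obj H.X) (2 * l))
    (hs1 : η ^ (P.dim H.n - 2 * l + 1) * s = 0) (hs0 : s ≠ 0) (hJ : J P s = s) :
    ∃ ρ : ℝ, 0 < ρ ∧
      (-1) ^ l * W.tr (P.obj H.X) (η ^ (P.dim H.n - 2 * l) * (s * s)) = (ρ : ℂ) := by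
  obtain ⟨L, hL⟩ := pol_rs hRsp hRsc H hrs hprod hη
  exact hRsq H.hW (H.memP P) (H.hW.alg_gr (H.memP P) (j := 1) (GQ.pol_alg H hη)) hL l s hl hs
    hs1 hs0 hJ

/-- the sign on primitive classes with `J s = - s` -/
theorem odd (hRsp : RspStatement.{u, w}) (hRsc : RscStatement.{u, w})
    (hRsq : RsqStatement.{u, w}) (H : Host W 𝒱 m)
    {J : ∀ P : Prd m, W.coh (P.obj H.X) →ₛₗ[starRingEnd ℂ] W.coh (P.obj H.X)}
    (hrs : ∀ P, IsRS W (P.obj H.X) (P.dim H.n) (P.pol W H.ξ) (H.LamP P) (J P))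
    (hprod : ∀ (P Q : Prd m) (y : W.coh (P.obj H.X)) (x : W.coh (Q.obj H.X)),
      J (.prod P Q) (W.pull (fst (P.obj H.X) (Q.obj H.X)) y
          * W.pull (snd (P.obj H.X) (Q.obj H.X)) x)
        = W.pull (fst (P.obj H.X) (Q.obj H.X)) (J P y)
          * W.pull (snd (P.obj H.X) (Q.obj H.X)) (J Q x))
    {P : Prd m} {η : W.coh (P.obj H.X)} (hη : IsPol W H.ξ P η) {l : ℕ}
    (hl : 2 * l ≤ P.dim H.n) {s : W.coh (P.obj H.X)} (hs : s ∈ W.gr (P.obj H.X) (2 * l))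
    (hs1 : η ^ (P.dim H.n - 2 * l + 1) * s = 0) (hs0 : s ≠ 0) (hJ : J P s = -s) :
    ∃ ρ : ℝ, 0 < ρ ∧
      (-1) ^ l * W.tr (P.obj H.X) (η ^ (P.dim H.n - 2 * l) * (s * s)) = -(ρ : ℂ) := by
  have h1 : J P (Complex.I • s) = Complex.I • s := by
    rw [LinearMap.map_smulₛₗ, hJ, Complex.conj_I, smul_neg, neg_smul, neg_neg]
  have h2 : Complex.I • s ≠ 0 := by
    intro h
    rcases smul_eq_zero.mp h with h | h
    · exact Complex.I_ne_zero h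
    · exact hs0 h
  obtain ⟨ρ, hρ, h⟩ := even hRsp hRsc hRsq H hrs hprod hη hl
    (s := Complex.I • s) (Submodule.smul_mem _ _ hs)
    (by rw [mul_smul_comm, hs1, smul_zero]) h2 h1
  refine ⟨ρ, hρ, ?_⟩
  rw [← h, smul_mul_smul_comm, Complex.I_mul_I, mul_smul_comm, map_smul, smul_eq_mul]
  ring

end ZSgn

end Pool.Agent.Lib.MP_361a6f_ag.FL
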