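import Pool.Agent.Lib.MP_361a6f_ag.FL.Z.Zo
import Pool.Agent.Lib.MP_361a6f_ag.FL.Z.Sgn

/-!
# Row ZE: even and odd classes

`A j` is a sequence of operator systems, `F` a filter on the indices and `K` an operator system
that commutes with `J`. A class `z` is even (odd) if `A j z` converges along `F` to a class `s` with
`J s = s = K s` (`J s = -s = K s`).
-/

open CategoryTheory AlgebraicGeometry MonoidalCategory CartesianMonoidalCategory
open Filter Topology

universe u v w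

set_option autoImplicit false
set_option linter.unusedSectionVars false

namespace Pool.Agent.Lib.MP_361a6f_ag.FL

open Pool.Agent.Lib.MP_361a6f_ag.H3 Pool.Agent.Lib.MP_361a6f_ag.SQ
  Pool.Agent.Lib.MP_361a6f_ag.IP2 Pool.Agent.Lib.MP_361a6f_ag.PP

/-- The real span of the algebraic classes. -/
noncomputable def AR {k : Type u} [Field k] (W : CohomologyData.{u, 0, w} k ℂ) (Y : Sch k) :
    Submodule ℝ (W.coh Y) :=
  Submodule.span ℝ {z | ∃ l, W.IsAlg Y l z}

section ar

variable {k : Type u} [Field k] {W : CohomologyData.{u, 0, w} k ℂ} {𝒱 : VarietyClass k}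

theorem AR_smul_real {Y : Sch k} (r : ℝ) (z : W.coh Y) : ((r : ℂ) • z : W.coh Y) = r • z := rfl

theorem AR_alg {Y : Sch k} {l : ℕ} {z : W.coh Y} (h : z ∈ W.alg Y l) : z ∈ AR W Y :=
  Submodule.subset_span ⟨l, h⟩

theorem AR_mul (hW : IsWeilCohomology W 𝒱) {Y : Sch k} {d : ℕ} (hY : 𝒱.mem Y d) {y z : W.coh Y}
    (hy : y ∈ AR W Y) (hz : z ∈ AR W Y) : y * z ∈ AR W Y := by
  refine Submodule.span_induction (p := fun y _ => y * z ∈ AR W Y) ?_ ?_ ?_ ?_ hy
  · rintro y ⟨l, hl⟩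
    refine Submodule.span_induction (p := fun z _ => y * z ∈ AR W Y) ?_ ?_ ?_ ?_ hz
    · rintro z ⟨l', hl'⟩
      exact AR_alg (hW.mul_alg hY hl hl')
    · rw [mul_zero]; exact zero_mem _
    · intro a b _ _ ha hb
      rw [mul_add]; exact add_mem ha hb
    · intro r a _ ha
      rw [← AR_smul_real, mul_smul_comm, AR_smul_real]; exact Submodule.smul_mem _ _ ha
  · rw [zero_mul]; exact zero_mem _
  · intro a b _ _ ha hb
    rw [add_mul]; exact add_mem ha hb
  · intro r a _ ha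
    rw [← AR_smul_real, smul_mul_assoc, AR_smul_real]; exact Submodule.smul_mem _ _ ha

theorem AR_pull (hW : IsWeilCohomology W 𝒱) {Y Z : Sch k} {d e : ℕ} (hY : 𝒱.mem Y d)
    (hZ : 𝒱.mem Z e) (f : Y ⟶ Z) {z : W.coh Z} (hz : z ∈ AR W Z) : W.pull f z ∈ AR W Y := by
  refine Submodule.span_induction (p := fun z _ => W.pull f z ∈ AR W Y) ?_ ?_ ?_ ?_ hz
  · rintro z ⟨l, hl⟩
    exact AR_alg (hW.pull_alg hY hZ f hl)
  · rw [map_zero]; exact zero_mem _
  · intro a b _ _ ha hb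
    rw [map_add]; exact add_mem ha hb
  · intro r a _ ha
    rw [← AR_smul_real, map_smul, AR_smul_real]; exact Submodule.smul_mem _ _ ha

end ar

namespace ZE

variable {k : Type u} [Field k] {W : CohomologyData.{u, 0, w} k ℂ} {𝒱 : VarietyClass k} {m : ℕ}

/-- the class `s` is the limit of the classes `y j` along the filter `F` -/
def CLim (H : Host W 𝒱 m) (F : Filter ℕ) (P : Prd m) (y : ℕ → W.coh (P.obj H.X))
    (s : W.coh (P.obj H.X)) : Prop :=
  Tendsto (fun j => H.tc P (y j)) F (𝓝 (H.tc P s))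

section lim

variable (H : Host W 𝒱 m) (ge : H.GeFacts) {F : Filter ℕ}

include ge in
theorem clim_uniq [F.NeBot] {P : Prd m} {y : ℕ → W.coh (P.obj H.X)} {s s' : W.coh (P.obj H.X)}
    (h : CLim H F P y s) (h' : CLim H F P y s') : s = s' :=
  ge.inj P (tendsto_nhds_unique h h')

theorem clim_const {P : Prd m} (s : W.coh (P.obj H.X)) : CLim H F P (fun _ => s) s :=
  tendsto_const_nhds

theorem clim_add {P : Prd m} {y y' : ℕ → W.coh (P.obj H.X)} {s s' : W.coh (P.obj H.X)}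
    (h : CLim H F P y s) (h' : CLim H F P y' s') : CLim H F P (fun j => y j + y' j) (s + s') := by
  have h1 := Tendsto.add h h'
  have h2 : (fun j => H.tc P (y j) + H.tc P (y' j)) = fun j => H.tc P (y j + y' j) := by
    funext j; rw [map_add]
  rw [h2, ← map_add] at h1
  exact h1

theorem clim_smul {P : Prd m} {y : ℕ → W.coh (P.obj H.X)} {s : W.coh (P.obj H.X)} (c : ℂ)
    (h : CLim H F P y s) : CLim H F P (fun j => c • y j) (c • s) := by
  have h1 := Tendsto.const_smul h c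
  have h2 : (fun j => c • H.tc P (y j)) = fun j => H.tc P (c • y j) := by
    funext j; rw [map_smul]
  rw [h2, ← map_smul] at h1
  exact h1

include ge in
/-- linear maps to tensors or numbers are continuous -/
theorem clim_fun {P : Prd m} {E : Type*} [AddCommGroup E] [Module ℂ E] [TopologicalSpace E]
    [ContinuousAdd E] [ContinuousSMul ℂ E] (f : W.coh (P.obj H.X) →ₗ[ℂ] E)
    {y : ℕ → W.coh (P.obj H.X)} {s : W.coh (P.obj H.X)} (h : CLim H F P y s) :
    Tendsto (fun j => f (y j)) F (𝓝 (f s)) := by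
  have h1 : ∀ z : W.coh (P.obj H.X), f z = ∑ w, H.tc P z w • f (H.E P w) := by
    intro z
    conv_lhs => rw [ge.expand P z]
    rw [map_sum]
    exact Finset.sum_congr rfl fun w _ => map_smul _ _ _
  have h2 : (fun j => f (y j)) = fun j => ∑ w, H.tc P (y j) w • f (H.E P w) := by
    funext j; exact h1 _
  rw [h2, h1 s]
  refine tendsto_finset_sum _ fun w _ => ?_
  have h3 : Tendsto (fun j => H.tc P (y j) w) F (𝓝 (H.tc P s w)) :=
    (tendsto_pi_nhds.mp h) w
  exact h3.smul_const _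

include ge in
theorem clim_lin {P Q : Prd m} (f : W.coh (P.obj H.X) →ₗ[ℂ] W.coh (Q.obj H.X))
    {y : ℕ → W.coh (P.obj H.X)} {s : W.coh (P.obj H.X)} (h : CLim H F P y s) :
    CLim H F Q (fun j => f (y j)) (f s) :=
  clim_fun H ge (H.tc Q ∘ₗ f) h

include ge in
theorem clim_mul {P : Prd m} {y y' : ℕ → W.coh (P.obj H.X)} {s s' : W.coh (P.obj H.X)}
    (h : CLim H F P y s) (h' : CLim H F P y' s') : CLim H F P (fun j => y j * y' j) (s * s') := by
  have h1 : ∀ z z' : W.coh (P.obj H.X), H.tc P (z * z')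
      = ∑ w, H.tc P z w • H.tc P (H.E P w * z') := by
    intro z z'
    conv_lhs => rw [ge.expand P z]
    rw [Finset.sum_mul, map_sum]
    refine Finset.sum_congr rfl fun w _ => ?_
    rw [smul_mul_assoc, map_smul]
  have h2 : (fun j => H.tc P (y j * y' j))
      = fun j => ∑ w, H.tc P (y j) w • H.tc P (H.E P w * y' j) := by
    funext j; exact h1 _ _
  show Tendsto (fun j => H.tc P (y j * y' j)) F (𝓝 (H.tc P (s * s')))
  rw [h2, h1 s s']
  refine tendsto_finset_sum _ fun w _ => ?_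
  have h3 : Tendsto (fun j => H.tc P (y j) w) F (𝓝 (H.tc P s w)) :=
    (tendsto_pi_nhds.mp h) w
  exact h3.smul (clim_fun H ge (H.tc P ∘ₗ LinearMap.mulLeft ℂ (H.E P w)) h')

end lim

/-! ### Even and odd classes -/

section ev

variable (H : Host W 𝒱 m)
  (J : ∀ P : Prd m, W.coh (P.obj H.X) →ₛₗ[starRingEnd ℂ] W.coh (P.obj H.X))
  (A : ℕ → ∀ P : Prd m, Module.End ℂ (W.coh (P.obj H.X)))
  (K : ∀ P : Prd m, Module.End ℂ (W.coh (P.obj H.X))) (F : Filter ℕ)

/-- the even (`ε = 1`) or odd (`ε = -1`) classes -/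
noncomputable def ZC (ε : ℝ) (P : Prd m) : Submodule ℝ (W.coh (P.obj H.X)) where
  carrier := {z | z ∈ AR W (P.obj H.X) ∧ ∃ s, CLim H F P (fun j => A j P z) s ∧
    J P s = (ε : ℂ) • s ∧ K P s = (ε : ℂ) • s}
  zero_mem' := ⟨zero_mem _, 0, by
    have h : (fun j => A j P (0 : W.coh (P.obj H.X))) = fun _ => 0 := by
      funext j; exact map_zero _
    rw [h]
    exact clim_const H 0, by rw [map_zero, smul_zero], by rw [map_zero, smul_zero]⟩
  add_mem' := by
    rintro a b ⟨ha, s, h1, h2, h3⟩ ⟨hb, s', h1', h2', h3'⟩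
    refine ⟨add_mem ha hb, s + s', ?_, ?_, ?_⟩
    · have h := clim_add H h1 h1'
      have e : (fun j => A j P a + A j P b) = fun j => A j P (a + b) := by
        funext j; rw [map_add]
      rwa [e] at h
    · rw [map_add, h2, h2', smul_add]
    · rw [map_add, h3, h3', smul_add]
  smul_mem' := by
    rintro r a ⟨ha, s, h1, h2, h3⟩
    refine ⟨Submodule.smul_mem _ _ ha, (r : ℂ) • s, ?_, ?_, ?_⟩
    · have h := clim_smul H (r : ℂ) h1
      have e : (fun j => (r : ℂ) • A j P a) = fun j => A j P (r • a) := by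
        funext j
        rw [← AR_smul_real, map_smul]
      rwa [e] at h
    · rw [LinearMap.map_smulₛₗ, h2, Complex.conj_ofReal, smul_comm]
    · rw [map_smul, h3, smul_comm]

theorem mem_ZC {ε : ℝ} {P : Prd m} {z : W.coh (P.obj H.X)} : z ∈ ZC H J A K F ε P ↔
    z ∈ AR W (P.obj H.X) ∧ ∃ s, CLim H F P (fun j => A j P z) s ∧
      J P s = (ε : ℂ) • s ∧ K P s = (ε : ℂ) • s := Iff.rfl

variable (ge : H.GeFacts) (hadp : H.Adp J) (hJ : H.J0Facts J)
  (hA : ∀ j, ∃ x, ZOps H J x (A j)) (hK : ∃ x, ZOps H J x K)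

include ge hJ hA hK in
/-- parity of products -/
theorem ZC_mul {ε ε' : ℝ} {P : Prd m} {y z : W.coh (P.obj H.X)} (hy : y ∈ ZC H J A K F ε P)
    (hz : z ∈ ZC H J A K F ε' P) : y * z ∈ ZC H J A K F (ε * ε') P := by
  obtain ⟨ha, s, h1, h2, h3⟩ := hy
  obtain ⟨hb, s', h1', h2', h3'⟩ := hz
  obtain ⟨x, hx⟩ := hK
  refine ⟨AR_mul H.hW (H.memP P) ha hb, s * s', ?_, ?_, ?_⟩
  · have h := clim_mul H ge h1 h1'
    have e : (fun j => A j P y * A j P z) = fun j => A j P (y * z) := by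
      funext j
      obtain ⟨_, hj⟩ := hA j
      rw [hj.mul]
    rwa [e] at h
  · rw [hJ.mul, h2, h2', smul_mul_smul_comm, Complex.ofReal_mul]
  · rw [hx.mul, h3, h3', smul_mul_smul_comm, Complex.ofReal_mul]

include ge hJ hA hK in
theorem ZC_pb {ε : ℝ} {P Q : Prd m} {f : Sch.Mor (P.obj H.X) (Q.obj H.X)}
    (hf : CoordMor H.X 3 P Q f) {z : W.coh (Q.obj H.X)} (hz : z ∈ ZC H J A K F ε Q) :
    W.pb f z ∈ ZC H J A K F ε P := by
  obtain ⟨ha, s, h1, h2, h3⟩ := hz
  obtain ⟨x, hx⟩ := hK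
  refine ⟨AR_pull H.hW (H.memP P) (H.memP Q) f ha, W.pb f s, ?_, ?_, ?_⟩
  · have h := clim_lin H ge (Q := P) (W.pull f).toLinearMap h1
    have e : (fun j => (W.pull f).toLinearMap (A j Q z)) = fun j => A j P (W.pb f z) := by
      funext j
      obtain ⟨_, hj⟩ := hA j
      rw [hj.pb P Q f hf]
      rfl
    rw [e] at h
    exact h
  · rw [hJ.pull P Q f hf, h2]
    exact map_smul _ _ _
  · rw [hx.pb P Q f hf, h3]
    exact map_smul _ _ _

include ge hJ hA hK in
theorem ZC_pf (harp : ∀ (P Q : Prd m) (f : Sch.Mor (P.obj H.X) (Q.obj H.X)) (z), z ∈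
      AR W (P.obj H.X) → W.pf f z ∈ AR W (Q.obj H.X)) {ε : ℝ} {P Q : Prd m}
    {f : Sch.Mor (P.obj H.X) (Q.obj H.X)}
    (hf : CoordMor H.X 3 P Q f) {z : W.coh (P.obj H.X)} (hz : z ∈ ZC H J A K F ε P) :
    W.pf f z ∈ ZC H J A K F ε Q := by
  obtain ⟨ha, s, h1, h2, h3⟩ := hz
  obtain ⟨x, hx⟩ := hK
  refine ⟨harp P Q f z ha, W.pf f s, ?_, ?_, ?_⟩
  · have h := clim_lin H ge (Q := Q) (W.push f) h1
    have e : (fun j => W.push f (A j P z)) = fun j => A j Q (W.pf f z) := by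
      funext j
      obtain ⟨_, hj⟩ := hA j
      rw [hj.pf P Q f hf]
    rw [e] at h
    exact h
  · rw [hJ.push P Q f hf, h2]
    exact map_smul _ _ _
  · rw [hx.pf P Q f hf, h3]
    exact map_smul _ _ _

end ev

end ZE

end Pool.Agent.Lib.MP_361a6f_ag.FL
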