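import Pool.Agent.Lib.MP_361a6f_ag.FL.Z.Abs
import Pool.Agent.Lib.MP_361a6f_ag.FL.Z.Ze
import Pool.Agent.Lib.MP_361a6f_ag.FL.B.PosL

/-!
# Row Z3: the limits of the algebraic classes

From the graded form of the system of the coordinates of the algebraic classes to operators on
the cohomology of the products.
-/

open CategoryTheory AlgebraicGeometry MonoidalCategory CartesianMonoidalCategory
open Filter Topology

universe u v w

set_option autoImplicit false
set_option linter.unusedSectionVars false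

namespace Pool.Agent.Lib.MP_361a6f_ag.FL

open Pool.Agent.Lib.MP_361a6f_ag.H3 Pool.Agent.Lib.MP_361a6f_ag.SQ
  Pool.Agent.Lib.MP_361a6f_ag.IP2 Pool.Agent.Lib.MP_361a6f_ag.PP

namespace ZFit

variable {k : Type u} [Field k] {W : CohomologyData.{u, 0, w} k ℂ} {𝒱 : VarietyClass k} {m : ℕ}
  (H : Host W 𝒱 m)

open Classical in
/-- the part of a tensor that fits to the factors of `P` -/
noncomputable def prj (P : Prd m) (u : Ten H.I P.size) : Ten H.I P.size :=
  fun w => if H.Off P w then 0 else u w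

theorem prj_off (P : Prd m) (u : Ten H.I P.size) {w : Fin P.size → H.I} (h : H.Off P w) :
    prj H P u w = 0 := if_pos h

theorem prj_on (P : Prd m) (u : Ten H.I P.size) {w : Fin P.size → H.I} (h : ¬ H.Off P w) :
    prj H P u w = u w := if_neg h

theorem prj_eq (P : Prd m) {u : Ten H.I P.size} (h : ∀ w, H.Off P w → u w = 0) :
    prj H P u = u := by
  funext w
  by_cases ho : H.Off P w
  · rw [prj_off H P u ho, h w ho]
  · rw [prj_on H P u ho]

theorem gT_prj {x : Matrix H.I H.I ℂ} (hx : IsG H.D x) (P : Prd m) (u : Ten H.I P.size) :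
    gT x (prj H P u) = prj H P (gT x u) := by
  have hoff : ∀ w w' : Fin P.size → H.I, (∀ i, H.D.typ (w i) = H.D.typ (w' i)) → H.Off P w →
      H.Off P w' := by
    rintro w w' h ⟨i, hi⟩
    exact ⟨i, by rw [← h i]; exact hi⟩
  funext w
  by_cases ho : H.Off P w
  · rw [prj_off H P _ ho]
    exact GJ.gT_supp H.D hx (H.Off P) hoff (fun w hw => prj_off H P u hw) w ho
  · rw [prj_on H P _ ho, gT, gT]
    refine Finset.sum_congr rfl fun w' _ => ?_
    by_cases h : ∀ i, H.D.typ (w i) = H.D.typ (w' i)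
    · rw [prj_on H P u fun h' => ho (hoff w' w (fun i => (h i).symm) h')]
    · push Not at h
      obtain ⟨i, hi⟩ := h
      rw [Finset.prod_eq_zero (Finset.mem_univ i) (hx.1 _ _ hi), zero_mul, zero_mul]

theorem prj_lim {F : Filter ℕ} (P : Prd m) {y : ℕ → Ten H.I P.size} {v : Ten H.I P.size}
    (h : Tendsto y F (𝓝 v)) : Tendsto (fun j => prj H P (y j)) F (𝓝 (prj H P v)) := by
  rw [tendsto_pi_nhds] at h ⊢
  intro w
  by_cases ho : H.Off P w
  · simp only [prj_off H P _ ho]
    exact tendsto_const_nhds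
  · simp only [prj_on H P _ ho]
    exact h w

theorem tot_AR {Y : Sch k} {z : W.coh Y} (hz : z ∈ tot W Y) : z ∈ AR W Y := by
  have h : tot W Y ≤ (AR W Y).toAddSubgroup := by
    refine iSup_le fun l => ?_
    intro z hz
    exact AR_alg hz
  exact h hz

/-- the part of a real combination of members that fits to `P` is the tensor of coordinates of a
real combination of algebraic classes -/
theorem span_fit (gr : H.RelFacts) (ge : H.GeFacts) (P : Prd m) {u : Ten H.I P.size}
    (hu : u ∈ Submodule.span ℝ {x : Ten H.I P.size | x ∈ H.At P.size}) :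
    ∃ z ∈ AR W (P.obj H.X), H.tc P z = prj H P u := by
  induction hu using Submodule.span_induction with
  | mem u hu =>
    obtain ⟨z, hz, h1⟩ := PosL.at_fit H gr ge P hu
    refine ⟨z, tot_AR hz, ?_⟩
    funext w
    rw [h1]
    by_cases ho : H.Off P w
    · rw [if_pos ho, prj_off H P u ho]
    · rw [if_neg ho, prj_on H P u ho]
  | zero =>
    refine ⟨0, zero_mem _, ?_⟩
    rw [map_zero, prj_eq H P (u := 0) fun w _ => rfl]
  | add a b _ _ ha hb =>
    obtain ⟨z, hz, h1⟩ := ha
    obtain ⟨z', hz', h2⟩ := hb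
    refine ⟨z + z', add_mem hz hz', ?_⟩
    rw [map_add, h1, h2]
    funext w
    rw [Pi.add_apply]
    by_cases ho : H.Off P w
    · rw [prj_off H P _ ho, prj_off H P _ ho, prj_off H P _ ho, add_zero]
    · rw [prj_on H P _ ho, prj_on H P _ ho, prj_on H P _ ho, Pi.add_apply]
  | smul r a _ ha =>
    obtain ⟨z, hz, h1⟩ := ha
    refine ⟨r • z, Submodule.smul_mem _ r hz, ?_⟩
    rw [← AR_smul_real, map_smul, h1]
    funext w
    rw [Pi.smul_apply]
    by_cases ho : H.Off P w
    · rw [prj_off H P _ ho, prj_off H P _ ho, smul_zero]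
    · rw [prj_on H P _ ho, prj_on H P _ ho, Pi.smul_apply]
      rfl

open GTI ZE in
/-- Row Z3, with the elements `g j` and `y` given -/
theorem zfit' (hsta : StaStatement.{w}) (a1 : Alg1) (a2 : Alg2) (gr : H.RelFacts) (ge : H.GeFacts)
    {J : ∀ P : Prd m, W.coh (P.obj H.X) →ₛₗ[starRingEnd ℂ] W.coh (P.obj H.X)}
    (hJ : H.J0Facts J) {R : ℕ → Prop} {F : Filter ℕ} [F.NeBot] {g : ℕ → Matrix H.I H.I ℂ}
    {y : Matrix H.I H.I ℂ} (hg : ∀ j, IsG H.D (g j)) (hy : IsK H.D y)
    (hfix : ∀ (L : ℕ) (u : Ten H.I L), u ∈ H.At L → jT H.D u = u →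
      (∀ j, gT (g j) u = u) ∧ gT y u = u)
    (hlim : ∀ (L : ℕ) (u : Ten H.I L), R L → u ∈ H.At L → ∃ (v u' : Ten H.I L),
      Tendsto (fun j => gT (g j) u) F (𝓝 v) ∧ jT H.D v = gT y v ∧ gT y (gT y v) = v ∧
      u' ∈ Submodule.span ℝ {x : Ten H.I L | x ∈ H.At L} ∧
      Tendsto (fun j => gT (g j) u') F (𝓝 (gT y v))) :
    (∀ j, ZOps H J (g j) (gP H a1 (g j))) ∧ ZOps H J y (gP H a1 y) ∧
      (∀ P z, gP H a1 y P (J P z) = J P (gP H a1 y P z)) ∧
      ∀ P : Prd m, R P.size → ∀ z ∈ AR W (P.obj H.X), ∃ s z', z' ∈ AR W (P.obj H.X) ∧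
        CLim H F P (fun j => gP H a1 (g j) P z) s ∧ J P s = gP H a1 y P s ∧
        gP H a1 y P (gP H a1 y P s) = s ∧
        CLim H F P (fun j => gP H a1 (g j) P z') (gP H a1 y P s) := by
  have hA : ∀ j, ZOps H J (g j) (gP H a1 (g j)) := fun j =>
    zops hsta a1 a2 H ge hJ (hg j) fun L u hu h => (hfix L u hu h).1 j
  have hK : ZOps H J y (gP H a1 y) :=
    zops hsta a1 a2 H ge hJ hy.1 fun L u hu h => (hfix L u hu h).2
  refine ⟨hA, hK, fun P z => Zo.gP_J H a1 ge hy P z hJ.tc, fun P hP z hz => ?_⟩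
  induction hz using Submodule.span_induction with
  | mem z hz =>
    obtain ⟨l, hl⟩ := hz
    have hu : H.tc P z ∈ H.At P.size :=
      AddSubgroup.subset_closure (Or.inr ⟨P, rfl, z, alg_le_tot H.hW _ l hl, rfl⟩)
    obtain ⟨v, u', hv, hjv, hkv, hu', hlu'⟩ := hlim P.size _ hP hu
    have hvo : prj H P v = v := by
      have h1 := prj_lim H P hv
      have h2 : (fun j => prj H P (gT (g j) (H.tc P z))) = fun j => gT (g j) (H.tc P z) := by
        funext j
        rw [← gT_prj H (hg j), prj_eq H P (ge.tc_off P z)]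
      rw [h2] at h1
      exact tendsto_nhds_unique h1 hv
    have hoff : ∀ w, H.Off P w → v w = 0 := fun w hw => by
      rw [← hvo]; exact prj_off H P v hw
    obtain ⟨z', hz', h1⟩ := span_fit H gr ge P hu'
    have hs : H.tc P (∑ w, v w • H.E P w) = v := ge.tc_sum P v hoff
    set s : W.coh (P.obj H.X) := ∑ w, v w • H.E P w with hsd
    refine ⟨s, z', hz', ?_, ge.inj P ?_, ge.inj P ?_, ?_⟩
    · have h2 : (fun j => H.tc P (gP H a1 (g j) P z)) = fun j => gT (g j) (H.tc P z) := by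
        funext j
        exact (hA j).tc P z
      show Tendsto (fun j => H.tc P (gP H a1 (g j) P z)) F (𝓝 (H.tc P s))
      rw [h2, hs]
      exact hv
    · rw [hJ.tc, hK.tc, hs, hjv]
    · rw [hK.tc, hK.tc, hs, hkv]
    · have h2 : (fun j => H.tc P (gP H a1 (g j) P z')) = fun j => prj H P (gT (g j) u') := by
        funext j
        rw [(hA j).tc P z', h1, gT_prj H (hg j)]
      show Tendsto (fun j => H.tc P (gP H a1 (g j) P z')) F (𝓝 (H.tc P (gP H a1 y P s)))
      rw [h2, hK.tc, hs, show gT y v = prj H P (gT y v) by rw [← gT_prj H hy.1, hvo]]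
      exact prj_lim H P hlu'
  | zero =>
    refine ⟨0, 0, zero_mem _, ?_, ?_, ?_, ?_⟩
    · have h : (fun j => gP H a1 (g j) P (0 : W.coh (P.obj H.X))) = fun _ => 0 := by
        funext j; exact map_zero _
      rw [h]
      exact clim_const H 0
    · rw [map_zero, map_zero]
    · rw [map_zero, map_zero]
    · have h : (fun j => gP H a1 (g j) P (0 : W.coh (P.obj H.X))) = fun _ => 0 := by
        funext j; exact map_zero _
      rw [h, map_zero]
      exact clim_const H 0
  | add a b _ _ ha hb =>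
    obtain ⟨s, z', hz', h1, h2, h3, h4⟩ := ha
    obtain ⟨t, w', hw', h5, h6, h7, h8⟩ := hb
    refine ⟨s + t, z' + w', add_mem hz' hw', ?_, ?_, ?_, ?_⟩
    · have h := clim_add H h1 h5
      have e : (fun j => gP H a1 (g j) P a + gP H a1 (g j) P b)
          = fun j => gP H a1 (g j) P (a + b) := by
        funext j; rw [map_add]
      rwa [e] at h
    · rw [map_add, map_add, h2, h6]
    · rw [map_add, map_add, h3, h7]
    · have h := clim_add H h4 h8
      have e : (fun j => gP H a1 (g j) P z' + gP H a1 (g j) P w')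
          = fun j => gP H a1 (g j) P (z' + w') := by
        funext j; rw [map_add]
      rw [e] at h
      rw [map_add]
      exact h
  | smul r a _ ha =>
    obtain ⟨s, z', hz', h1, h2, h3, h4⟩ := ha
    refine ⟨(r : ℂ) • s, r • z', Submodule.smul_mem _ r hz', ?_, ?_, ?_, ?_⟩
    · have h := clim_smul H (r : ℂ) h1
      have e : (fun j => (r : ℂ) • gP H a1 (g j) P a) = fun j => gP H a1 (g j) P (r • a) := by
        funext j
        rw [← AR_smul_real, map_smul]
      rwa [e] at h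
    · rw [LinearMap.map_smulₛₗ, Complex.conj_ofReal, map_smul, h2]
    · rw [map_smul, map_smul, h3]
    · have h := clim_smul H (r : ℂ) h4
      have e : (fun j => (r : ℂ) • gP H a1 (g j) P z') = fun j => gP H a1 (g j) P (r • z') := by
        funext j
        rw [← AR_smul_real, map_smul]
      rw [e] at h
      rw [map_smul]
      exact h

open GTI ZE in
/-- **Row Z3.** -/
theorem zfit (hsta : StaStatement.{w}) (a1 : Alg1) (a2 : Alg2) (gr : H.RelFacts) (ge : H.GeFacts)
    {J : ∀ P : Prd m, W.coh (P.obj H.X) →ₛₗ[starRingEnd ℂ] W.coh (P.obj H.X)}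
    (hJ : H.J0Facts J) {R : ℕ → Prop} (hz : ZConc H.D (fun L u => u ∈ H.At L) R) :
    ∃ (F : Filter ℕ) (_ : F.NeBot) (A : ℕ → ∀ P : Prd m, Module.End ℂ (W.coh (P.obj H.X)))
      (K : ∀ P : Prd m, Module.End ℂ (W.coh (P.obj H.X))),
      (∀ j, ∃ x, ZOps H J x (A j)) ∧ (∃ x, ZOps H J x K) ∧
      (∀ P z, K P (J P z) = J P (K P z)) ∧
      ∀ P : Prd m, R P.size → ∀ z ∈ AR W (P.obj H.X), ∃ s z', z' ∈ AR W (P.obj H.X) ∧
        CLim H F P (fun j => A j P z) s ∧ J P s = K P s ∧ K P (K P s) = s ∧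
        CLim H F P (fun j => A j P z') (K P s) := by
  obtain ⟨F, _, g, y, hg, hy, hfix, hlim⟩ := hz
  obtain ⟨h1, h2, h3, h4⟩ := zfit' H hsta a1 a2 gr ge hJ hg hy hfix hlim
  exact ⟨F, ‹F.NeBot›, fun j => gP H a1 (g j), gP H a1 y, fun j => ⟨g j, h1 j⟩, ⟨y, h2⟩, h3, h4⟩

end ZFit

end Pool.Agent.Lib.MP_361a6f_ag.FL
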