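import Mathlib

/-!
# Theorem Z: representatives that converge

`V` is a finite-dimensional real space with a bilinear form `B`. If the numbers `B (z n) w` are
bounded for each `w`, then `z n` can be changed modulo the left radical of `B` so that it converges
along a given ultrafilter.
-/

set_option autoImplicit false

open Filter Topology

namespace Pool.Agent.Lib.MP_361a6f_ag.FL

namespace ZCpl

/-- a bounded sequence in a finite-dimensional space converges along an ultrafilter -/
theorem exists_lim {α W : Type*} [NormedAddCommGroup W] [NormedSpace ℝ W] [FiniteDimensional ℝ W]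
    (U : Ultrafilter α) (y : α → W) {C : ℝ} (h : ∀ᶠ n in (U : Filter α), ‖y n‖ ≤ C) :
    ∃ y' : W, Tendsto y U (𝓝 y') := by
  have hc : IsCompact (Metric.closedBall (0 : W) C) := by
    have := FiniteDimensional.proper ℝ W
    exact isCompact_closedBall 0 C
  have h1 : ((U.map y : Ultrafilter W) : Filter W) ≤ 𝓟 (Metric.closedBall (0 : W) C) := by
    rw [le_principal_iff]
    show ∀ᶠ n in (U : Filter α), y n ∈ Metric.closedBall (0 : W) C
    filter_upwards [h] with n hn
    rw [mem_closedBall_zero_iff]
    exact hn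
  obtain ⟨y', -, hy'⟩ := hc.ultrafilter_le_nhds (U.map y) h1
  exact ⟨y', hy'⟩

/-- The representatives. -/
theorem cpl {α V : Type*} [NormedAddCommGroup V] [NormedSpace ℝ V] [FiniteDimensional ℝ V]
    (B : V →ₗ[ℝ] V →ₗ[ℝ] ℝ) (U : Ultrafilter α) (z : α → V)
    (h : ∀ w, ∃ C : ℝ, ∀ᶠ n in (U : Filter α), |B (z n) w| ≤ C) :
    ∃ (z₁ : α → V) (z' : V), (∀ n, B (z₁ n) = B (z n)) ∧ Tendsto z₁ U (𝓝 z') := by
  classical
  let e := Module.finBasis ℝ V
  let T : V →ₗ[ℝ] (Fin (Module.finrank ℝ V) → ℝ) := LinearMap.pi fun i => B.flip (e i)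
  have hT : ∀ v i, T v i = B v (e i) := fun v i => rfl
  have hTB : ∀ v v', T v = T v' → B v = B v' := by
    intro v v' hv
    refine e.ext fun i => ?_
    exact congrFun hv i
  obtain ⟨r, hr⟩ := T.rangeRestrict.exists_rightInverse_of_surjective T.range_rangeRestrict
  choose C hC using fun i => h (e i)
  obtain ⟨y', hy'⟩ := exists_lim (W := LinearMap.range T) U (fun n => T.rangeRestrict (z n))
    (C := ∑ i, |C i|) (by
      have h1 : ∀ᶠ n in (U : Filter α), ∀ i, |B (z n) (e i)| ≤ C i :=
        Filter.eventually_all.2 fun i => hC i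
      filter_upwards [h1] with n hn
      show ‖T (z n)‖ ≤ _
      refine (pi_norm_le_iff_of_nonneg (by positivity)).2 fun i => ?_
      rw [hT, Real.norm_eq_abs]
      refine ((hn i).trans (le_abs_self _)).trans ?_
      exact Finset.single_le_sum (f := fun i => |C i|) (fun i _ => abs_nonneg _)
        (Finset.mem_univ i))
  refine ⟨fun n => r (T.rangeRestrict (z n)), r y', fun n => ?_, ?_⟩
  · refine hTB _ _ ?_
    have h1 := LinearMap.congr_fun hr (T.rangeRestrict (z n))
    have h2 := congrArg Subtype.val h1
    exact h2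
  · exact ((LinearMap.continuous_of_finiteDimensional r).tendsto y').comp hy'

end ZCpl

end Pool.Agent.Lib.MP_361a6f_ag.FL
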