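import Mathlib
import Pool.Agent.Lib.MP_361a6f_ag.FL.B.Defs
import Pool.Agent.Lib.MP_361a6f_ag.FL.B.MinG

/-!
# Theorem Z: a minimal point in the closure of the orbit, with a bound for its norm
-/

set_option autoImplicit false
set_option linter.unusedSectionVars false

open Filter Topology

namespace Pool.Agent.Lib.MP_361a6f_ag.FL

namespace ZMle

open MinT

variable {I ι : Type} [Fintype I] [DecidableEq I] [Fintype ι] {len : ι → ℕ}

/-- a minimal point in the closure of the orbit; its norm is at most the norm of `t` -/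
theorem exists_min_le (h : Alg1) {G 𝔤 : Matrix I I ℂ → Prop} (h1G : G 1)
    (hmul : ∀ g g', G g → G g' → G (g * g'))
    (hexp : ∀ (c : ℂ) A, 𝔤 A → G (NormedSpace.exp (c • A))) (t : Tup I len) :
    ∃ (s : Tup I len) (g : ℕ → Matrix I I ℂ), (∀ j, G (g j)) ∧
      Tendsto (fun j => gS (g j) t) atTop (𝓝 s) ∧ (∀ A, 𝔤 A → hS (aS A s) s = 0) ∧
      nS s ≤ nS t := by
  let S : Set ℝ := {r | ∃ g, G g ∧ nS (gS g t) = r}
  have hSne : S.Nonempty := ⟨_, 1, h1G, rfl⟩
  have hSbd : BddBelow S := ⟨0, by rintro _ ⟨g, -, rfl⟩; exact nS_nonneg _⟩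
  obtain ⟨u, -, hu, huS⟩ := exists_seq_tendsto_sInf hSne hSbd
  choose g hgG hgu using huS
  obtain ⟨R, hR⟩ := hu.bddAbove_range
  have hb : ∀ j, gS (g j) t ∈ Metric.closedBall (0 : Tup I len) (|R| + 1) := by
    intro j
    rw [mem_closedBall_zero_iff]
    refine norm_le_of_nS _ (by positivity) ?_
    have h1 : u j ≤ R := hR ⟨j, rfl⟩
    rw [hgu j]
    have h2 := le_abs_self R
    have h3 := abs_nonneg R
    nlinarith
  obtain ⟨s, -, ψ, hψ, hlim⟩ := (isCompact_closedBall (0 : Tup I len) (|R| + 1)).tendsto_subseq hb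
  have hs : nS s = sInf S := by
    have h1 : Tendsto (fun j => nS (gS (g (ψ j)) t)) atTop (𝓝 (nS s)) :=
      (continuous_nS.tendsto s).comp hlim
    have h2 : Tendsto (fun j => nS (gS (g (ψ j)) t)) atTop (𝓝 (sInf S)) := by
      have h3 : (fun j => nS (gS (g (ψ j)) t)) = u ∘ ψ := by
        funext j; exact hgu (ψ j)
      rw [h3]
      exact hu.comp hψ.tendsto_atTop
    exact tendsto_nhds_unique h1 h2
  refine ⟨s, fun j => g (ψ j), fun j => hgG _, hlim, MinG.crit_of_le h hexp s ?_, ?_⟩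
  · intro x hx
    have h1 : Tendsto (fun j => nS (gS (x * g (ψ j)) t)) atTop (𝓝 (nS (gS x s))) := by
      have h2 : Tendsto (fun j => gS x (gS (g (ψ j)) t)) atTop (𝓝 (gS x s)) :=
        ((continuous_gS h x).tendsto s).comp hlim
      have h3 : (fun j => nS (gS (x * g (ψ j)) t)) = fun j => nS (gS x (gS (g (ψ j)) t)) := by
        funext j; rw [gS_mul h]
      rw [h3]
      exact (continuous_nS.tendsto _).comp h2
    rw [hs]
    exact ge_of_tendsto' h1 fun j => csInf_le hSbd ⟨_, hmul _ _ hx (hgG _), rfl⟩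
  · rw [hs]
    refine csInf_le hSbd ⟨1, h1G, ?_⟩
    congr 1
    exact funext fun i => h.gT_one (t i)

theorem re_hS (s : Tup I len) : (hS s s).re = nS s := by
  unfold hS hT nS
  rw [Complex.re_sum]
  refine Finset.sum_congr rfl fun i _ => ?_
  rw [Complex.re_sum]
  refine Finset.sum_congr rfl fun w _ => ?_
  rw [Complex.mul_conj, Complex.ofReal_re, Complex.normSq_eq_norm_sq]

end ZMle

/-- Row MIB with a bound for the norm of the minimal point. -/
theorem minb_le (h : Alg1) {I Λ β ι : Type} [Fintype I] [DecidableEq I] [DecidableEq Λ]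
    [Fintype β] [Fintype ι] {lb : β → ℕ} {len : ι → ℕ} (D : Dat I Λ) (b : Tup I lb)
    (t : Tup I len) :
    ∃ (s : Tup I len) (g : ℕ → Matrix I I ℂ), (∀ j, IsGb D b (g j)) ∧
      Tendsto (fun j => gS (g j) t) atTop (𝓝 s) ∧ Minimalb D b s ∧
      (hS s s).re ≤ (hS t t).re := by
  simp only [ZMle.re_hS]
  refine ZMle.exists_min_le h (G := IsGb D b) (𝔤 := IsLieb D b) ?_ ?_ ?_ t
  · exact ⟨h.G_one D, funext fun i => h.gT_one (b i)⟩
  · rintro g g' ⟨hg, hb⟩ ⟨hg', hb'⟩
    exact ⟨h.G_mul D _ _ hg hg', by rw [MinT.gS_mul h, hb', hb]⟩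
  · rintro c A ⟨hA, hb⟩
    exact ⟨h.G_exp D _ (h.Lie_smul D c A hA), MinG.gS_exp_fix h (by
      rw [MinT.aS_smul h, hb, smul_zero])⟩

end Pool.Agent.Lib.MP_361a6f_ag.FL
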