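import Pool.Agent.Lib.MP_361a6f_ag.FL.B.Reb
import Pool.Agent.Lib.MP_361a6f_ag.FL.NoeT
import Pool.Agent.Lib.MP_361a6f_ag.FL.QpsI
import Pool.Agent.Lib.MP_361a6f_ag.FL.Real
import Pool.Agent.Lib.MP_361a6f_ag.FL.Z.Mle
import Pool.Agent.Lib.MP_361a6f_ag.FL.Z.Cpl

/-!
# The graded form for all lengths at once

`zlim`: for a rational system of tensors there are a sequence `g j` in the stabiliser of the base
tuple and a unitary element `k` such that for every real combination `u` of members, of any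
length, the limit `v` of `g j u` exists, `J₀ v = k v`, and `k v` is the limit of `g j u'` for a
real combination `u'` of members.

Every finite tuple is treated with a minimal point of the closure of its orbit. The tuples are
weighted, so that the limits are bounded independently of the tuple, and a limit along an
ultrafilter treats all lengths at once.
-/

open Filter Topology MeasureTheory

set_option autoImplicit false
set_option linter.unusedSectionVars false
set_option linter.unusedVariables false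

namespace Pool.Agent.Lib.MP_361a6f_ag.FL

variable {I Λ : Type} [Fintype I] [DecidableEq I] [DecidableEq Λ]

namespace ZLim

open Qps

/-! ### Linear algebra -/

section lin

variable {V W : Type*} [NormedAddCommGroup V] [NormedSpace ℝ V] [FiniteDimensional ℝ V]
  [NormedAddCommGroup W] [NormedSpace ℝ W] {α : Type*} {F : Filter α}

/-- pointwise convergence on a basis -/
theorem lim_basis {ι : Type*} [Fintype ι] (e : Module.Basis ι ℝ V) (T : α → V →ₗ[ℝ] W)
    (T' : V →ₗ[ℝ] W) (h : ∀ i, Tendsto (fun n => T n (e i)) F (𝓝 (T' (e i))))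
    {z : α → V} {z' : V} (hz : Tendsto z F (𝓝 z')) :
    Tendsto (fun n => T n (z n)) F (𝓝 (T' z')) := by
  have key : ∀ (S : V →ₗ[ℝ] W) (v : V), S v = ∑ i, e.repr v i • S (e i) := by
    intro S v
    conv_lhs => rw [← e.sum_repr v, map_sum]
    simp only [map_smul]
  have h1 : (fun n => T n (z n)) = fun n => ∑ i, e.repr (z n) i • T n (e i) := by
    funext n
    exact key _ _
  rw [h1, key T' z']
  refine tendsto_finsetSum _ fun i _ => Tendsto.smul ?_ (h i)
  have h2 : Continuous fun v : V => e.coord i v :=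
    LinearMap.continuous_of_finiteDimensional (e.coord i)
  exact (h2.tendsto z').comp hz

end lin

variable {D : Dat I Λ}

theorem jT_one : jT D (fun _ => 1 : Ten I 0) = fun _ => 1 := by
  funext w
  rw [jT, map_one, mul_one, sg]
  simp

theorem jT_cont {c : ℕ} : Continuous fun u : Ten I c => jT D u := by
  refine continuous_pi fun w => ?_
  exact continuous_const.mul (Complex.continuous_conj.comp (continuous_apply _))

theorem jj_lim (a1 : Alg1) {g : ℕ → Matrix I I ℂ} (hg : ∀ j, IsG D (g j)) {L : ℕ}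
    {u x : Ten I L} (hu : jT D (jT D u) = u)
    (hx : Tendsto (fun j => gT (g j) u) atTop (𝓝 x)) : jT D (jT D x) = x := by
  have h1 : Tendsto (fun j => jT D (jT D (gT (g j) u))) atTop (𝓝 (jT D (jT D x))) :=
    ((jT_cont.comp jT_cont).tendsto x).comp hx
  have h2 : (fun j => jT D (jT D (gT (g j) u))) = fun j => gT (g j) u := by
    funext j
    rw [XY.jT_jT_gT D _ (hg j), hu]
  rw [h2] at h1
  exact tendsto_nhds_unique h1 hx

theorem psi_lim (a1 : Alg1) {g : ℕ → Matrix I I ℂ} (hg : ∀ j, IsG D (g j)) {L : ℕ}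
    {u v x y : Ten I L} (hx : Tendsto (fun j => gT (g j) u) atTop (𝓝 x))
    (hy : Tendsto (fun j => gT (g j) v) atTop (𝓝 y)) : psiT D x y = psiT D u v := by
  have h0 : Continuous fun p : Ten I L × Ten I L => psiT D p.1 p.2 := CloT.psiT_cont
  have h1 : Tendsto (fun j => psiT D (gT (g j) u) (gT (g j) v)) atTop (𝓝 (psiT D x y)) := by
    have h2 := (h0.tendsto (x, y)).comp (Filter.Tendsto.prodMk_nhds hx hy)
    simpa only [Function.comp_def] using h2
  have h2 : (fun j => psiT D (gT (g j) u) (gT (g j) v)) = fun _ => psiT D u v := by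
    funext j
    exact a1.psiT_gT D _ _ _ (hg j)
  rw [h2] at h1
  exact (tendsto_nhds_unique h1 tendsto_const_nhds)

section lims

variable {F : Filter ℕ} {g : ℕ → Matrix I I ℂ} {L : ℕ} {u v x y : Ten I L}

theorem lim_zero (a1 : Alg1) : Tendsto (fun j => gT (g j) (0 : Ten I L)) F (𝓝 0) := by
  have : (fun j => gT (g j) (0 : Ten I L)) = fun _ => 0 := by
    funext j
    exact YPi.gT_zero a1 _
  rw [this]
  exact tendsto_const_nhds

theorem lim_add (a1 : Alg1) (hx : Tendsto (fun j => gT (g j) u) F (𝓝 x))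
    (hy : Tendsto (fun j => gT (g j) v) F (𝓝 y)) :
    Tendsto (fun j => gT (g j) (u + v)) F (𝓝 (x + y)) := by
  have : (fun j => gT (g j) (u + v)) = fun j => gT (g j) u + gT (g j) v := by
    funext j
    exact a1.gT_add _ _ _
  rw [this]
  exact hx.add hy

theorem lim_smul (a1 : Alg1) (c : ℂ) (hx : Tendsto (fun j => gT (g j) u) F (𝓝 x)) :
    Tendsto (fun j => gT (g j) (c • u)) F (𝓝 (c • x)) := by
  have : (fun j => gT (g j) (c • u)) = fun j => c • gT (g j) u := by
    funext j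
    exact a1.gT_smul _ _ _
  rw [this]
  exact hx.const_smul c

end lims

/-! ### One finite tuple -/

/-- One finite tuple `t` of members that contains the unit. The minimal point `s` of the closure
of its orbit, and the unitary `k` with `J₀ s = k s`. -/
theorem fin_tup (a1 : Alg1) (a2 : Alg2) (ab : AlgB) (l1 : L1bStatement) (l2 : L2bStatement)
    {At : (L : ℕ) → Ten I L → Prop} (S : ASys D At) {β ι : Type} [Fintype β] [Fintype ι]
    {lb : β → ℕ} {len : ι → ℕ} {b : Tup I lb} (hb : IsBase D b) (hbAt : ∀ i, At (lb i) (b i))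
    (H : HMb D b) (t : Tup I len) (htAt : ∀ i, At (len i) (t i))
    (ht1 : ∃ i, len i = 0 ∧ ∀ w, t i w = 1) :
    ∃ (s : Tup I len) (g : ℕ → Matrix I I ℂ) (k : H.K), (∀ j, IsGb D b (g j)) ∧
      Tendsto (fun j => gS (g j) t) atTop (𝓝 s) ∧ (hS s s).re ≤ (hS t t).re ∧
      (∀ i, s i ∈ MT D (cmb b s) (len i)) ∧
      ∀ (L : ℕ) (u v : Ten I L), At L u → v ∈ MT D (cmb b s) L →
        Tendsto (fun j => gT (g j) u) atTop (𝓝 v) → jT D v = gT (H.mat k) v ∧
        ∃ u' ∈ Submodule.span ℝ {x : Ten I L | At L x},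
          Tendsto (fun j => gT (g j) u') atTop (𝓝 (gT (H.mat k) v)) := by
  classical
  have hcAt : ∀ i, At ((Sum.elim lb len) i) (cmb b t i) := by
    intro i
    match i with
    | .inl i => exact hbAt i
    | .inr i => exact htAt i
  obtain ⟨s, g, hg, hlim, hmin, hle⟩ := minb_le a1 D b t
  have hgG : ∀ j, IsG D (g j) := fun j => (hg j).1
  obtain ⟨i₁, hi₁, hi₁'⟩ := ht1
  have hs : hS s s ≠ 0 := XY.hS_ne a1 i₁ hi₁ hi₁' g hlim
  -- limits of diagrams
  have hcl : Tendsto (fun j => gS (g j) (cmb b t)) atTop (𝓝 (cmb b s)) := by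
    have h1 : (fun j => gS (g j) (cmb b t)) = fun j => cmb b (gS (g j) t) := by
      funext j
      rw [ab.gS_cmb, (hg j).2]
    rw [h1]
    exact ((ab.cmb_cont (len := len) b).tendsto s).comp hlim
  have hdm : ∀ (c : ℕ) (l : List (β ⊕ ι)) (m : Ten I ((l.map (Sum.elim lb len)).sum + c)),
      IsMatch D _ m → Tendsto (fun j => gT (g j) (dm D c l m (cmb b t))) atTop
        (𝓝 (dm D c l m (cmb b s))) := by
    intro c l m hm
    have h1 : (fun j => gT (g j) (dm D c l m (cmb b t))) =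
        fun j => dm D c l m (gS (g j) (cmb b t)) := by
      funext j
      exact (a2.dm_gS D c l m _ _ hm (hgG j)).symm
    rw [h1]
    exact ((a2.dm_cont D c l m).tendsto (cmb b s)).comp hcl
  -- the invariants are rational
  have hinv : ∀ (l : List (β ⊕ ι)) (m : Ten I ((l.map (Sum.elim lb len)).sum + 0)),
      IsMatch D _ m → dm D 0 l m (cmb b (jS D s)) = dm D 0 l m (cmb b s) := by
    intro l m hm
    have h1 : cmb b (jS D s) = jS D (cmb b s) := (REB.jS_cmb_of ab hb s).symm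
    rw [h1, a2.dm_jS D 0 l m _ hm]
    have h2 : dm D 0 l m (cmb b s) = dm D 0 l m (cmb b t) := by
      have h3 := hdm 0 l m hm
      have h4 : (fun j => gT (g j) (dm D 0 l m (cmb b t))) = fun _ => dm D 0 l m (cmb b t) := by
        funext j
        exact XY.gT_zero_len rfl _ _
      rw [h4] at h3
      exact (tendsto_nhds_unique h3 tendsto_const_nhds)
    rw [h2]
    obtain ⟨q, hq⟩ := S.rat _ (dm_mem S hcAt 0 l hm)
    funext w
    rw [jT, hq, hq, sg]
    simp
  have hjn : hS (jS D s) (jS D s) = hS s s := RealT.hS_jS a1 D s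
  obtain ⟨k, hk⟩ := l1 hb H s (jS D s) hmin hs hjn hinv
  have hkK : IsK D (H.mat k) := (H.mem k).1
  have hkc : gS (H.mat k) (cmb b s) = jS D (cmb b s) := by
    rw [REB.gS_cmb_of ab (H.mem k).2 hk, REB.jS_cmb_of ab hb s]
  -- `J₀` preserves the complex span
  have hMJ : ∀ {L : ℕ} {v : Ten I L}, v ∈ MT D (cmb b s) L → jT D v ∈ MT D (cmb b s) L := by
    intro L v hv
    refine l2 hb H s hmin hs L _ fun x hx => ?_
    rw [← a1.jT_gT D _ _ (H.mem x).1]
    congr 1
    exact YPi.MT_fix a1 a2 hv (H.mem x).1.1 (REB.gS_cmb_of ab (H.mem x).2 hx)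
  have hMk : ∀ {L : ℕ} {v : Ten I L}, v ∈ MT D (cmb b s) L →
      gT (H.mat k) v ∈ MT D (cmb b s) L := fun hv =>
    REB.MT_gT a1 a2 ab H l2 hb hmin hs hk hv
  refine ⟨s, g, k, hg, hlim, hle, fun i => ?_, fun L u v hu hvM hv => ?_⟩
  · exact l2 hb H s hmin hs _ _ fun y hy => congrFun hy i
  have hjj : jT D (jT D v) = v := jj_lim a1 hgG (S.even L u hu) hv
  -- `J₀ v = k v`
  have hkv : jT D v = gT (H.mat k) v := by
    set w : Ten I L := gT (H.mat k) v - jT D v with hw
    have hwM : w ∈ MT D (cmb b s) L := sub_mem (hMk hvM) (hMJ hvM)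
    have h1 : ∀ (l : List (β ⊕ ι)) (m : Ten I ((l.map (Sum.elim lb len)).sum + L)),
        IsMatch D _ m → psiT D w (jT D (dm D L l m (cmb b s))) = 0 := by
      intro l m hm
      set f := dm D L l m (cmb b s) with hf
      have e1 : gT (H.mat k) f = jT D f := by
        rw [hf, ← a2.dm_gS D L l m _ _ hm hkK.1, hkc, a2.dm_jS D L l m _ hm]
      obtain ⟨q, hq⟩ := psi_rat S hu (dm_mem S hcAt L l hm)
      have e2 : psiT D v f = (q : ℂ) := by rw [← hq, psi_lim a1 hgG hv (hdm L l m hm)]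
      have e3 : psiT D (gT (H.mat k) v) (jT D f) = (q : ℂ) := by
        rw [← e1, a1.psiT_gT D _ _ _ hkK.1, e2]
      have e4 : psiT D (jT D v) (jT D f) = (q : ℂ) := by
        rw [a1.psiT_jT_jT, e2]
        simp
      rw [hw, ← psiL_apply, map_sub, LinearMap.sub_apply, psiL_apply, psiL_apply, e3, e4, sub_self]
    have h2 : ∀ y ∈ MT D (cmb b s) L, psiT D w (jT D y) = 0 := by
      intro y hy
      unfold MT at hy
      induction hy using Submodule.span_induction with
      | mem y hy =>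
        obtain ⟨l, m, hm, rfl⟩ := hy
        exact h1 l m hm
      | zero =>
        have h3 : jT D (0 : Ten I L) = 0 := by
          have := a1.jT_smul D 0 (0 : Ten I L)
          rwa [zero_smul, map_zero, zero_smul] at this
        rw [h3, ← psiL_apply, map_zero]
      | add x y _ _ hx hy =>
        rw [a1.jT_add, ← psiL_apply, map_add, psiL_apply, psiL_apply, hx, hy, add_zero]
      | smul c x _ hx => rw [a1.jT_smul, ← psiL_apply, map_smul, psiL_apply, hx, smul_zero]
    have h3 := h2 w hwM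
    rw [a1.psiT_jT, a1.hT_self] at h3
    have h4 : (∑ x, ‖w x‖ ^ 2 : ℝ) = 0 := by exact_mod_cast h3
    have h5 : w = 0 := by
      funext x
      have h6 := (Finset.sum_eq_zero_iff_of_nonneg (fun x _ => by positivity)).1 h4 x
        (Finset.mem_univ x)
      exact norm_eq_zero.1 (pow_eq_zero_iff two_ne_zero |>.1 h6)
    exact (sub_eq_zero.1 (hw ▸ h5)).symm
  -- the limit is a real combination of diagrams
  have hkR : gT (H.mat k) v ∈ RT D (cmb b s) L := by
    refine REB.RT_of a1 a2 hkK hkc (hMk hvM) ?_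
    rw [a1.jT_gT D _ _ hkK, hkv]
  have hR : ∀ x ∈ RT D (cmb b s) L, ∃ u' ∈ Submodule.span ℝ {x : Ten I L | At L x},
      Tendsto (fun j => gT (g j) u') atTop (𝓝 x) := by
    intro x hx
    unfold RT at hx
    induction hx using Submodule.span_induction with
    | mem x hx =>
      obtain ⟨l, m, hm, rfl⟩ := hx
      exact ⟨_, Submodule.subset_span (dm_mem S hcAt L l hm), hdm L l m hm⟩
    | zero => exact ⟨0, zero_mem _, lim_zero a1⟩
    | add x y _ _ hx hy =>
      obtain ⟨x', h1, h2⟩ := hx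
      obtain ⟨y', h3, h4⟩ := hy
      exact ⟨x' + y', add_mem h1 h3, lim_add a1 h2 h4⟩
    | smul c x _ hx =>
      obtain ⟨x', h1, h2⟩ := hx
      refine ⟨c • x', Submodule.smul_mem _ c h1, ?_⟩
      rw [real_smul, real_smul]
      exact lim_smul a1 _ h2
  exact ⟨hkv, hR _ hkR⟩

/-! ### The weighted tuples -/

/-- Rational weights that make a family of finite sets summable. -/
theorem exists_weight (M : ℕ → ℝ) (hM : ∀ L, 0 ≤ M L) :
    ∃ q : ℕ → ℚ, (∀ L, 0 < q L) ∧ ∀ L, (q L : ℝ) ^ 2 * M L ≤ (1 / 2) ^ L := by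
  have h : ∀ L, ∃ q : ℚ, 0 < q ∧ (q : ℝ) ^ 2 * M L ≤ (1 / 2) ^ L := by
    intro L
    have h1 : (0 : ℝ) < min 1 ((1 / 2) ^ L / (M L + 1)) := by
      have := hM L
      refine lt_min one_pos ?_
      positivity
    obtain ⟨q, hq0, hq1⟩ := exists_rat_btwn h1
    have hM' := hM L
    have hq2 : (q : ℝ) < 1 := hq1.trans_le (min_le_left _ _)
    have hq3 : (q : ℝ) < (1 / 2) ^ L / (M L + 1) := hq1.trans_le (min_le_right _ _)
    refine ⟨q, by exact_mod_cast hq0, ?_⟩
    have h2 : (q : ℝ) * (M L + 1) ≤ (1 / 2) ^ L := by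
      rw [lt_div_iff₀ (by positivity)] at hq3
      exact hq3.le
    have h3 : (q : ℝ) ^ 2 * M L ≤ (q : ℝ) * (M L + 1) := by
      have h4 : (q : ℝ) ^ 2 ≤ q := by nlinarith
      have h5 : (q : ℝ) ^ 2 * M L ≤ (q : ℝ) * M L := mul_le_mul_of_nonneg_right h4 hM'
      nlinarith
    exact h3.trans h2
  choose q hq using h
  exact ⟨q, fun L => (hq L).1, fun L => (hq L).2⟩

/-- For every `N` a sequence and a unitary element; the limits of the members of length at most
`N` are bounded independently of `N`. -/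
theorem levels (a1 : Alg1) (a2 : Alg2) (ab : AlgB) (l1 : L1bStatement) (l2 : L2bStatement)
    {At : (L : ℕ) → Ten I L → Prop} (S : ASys D At) {β : Type} [Fintype β]
    {lb : β → ℕ} {b : Tup I lb} (hb : IsBase D b) (hbAt : ∀ i, At (lb i) (b i))
    (H : HMb D b) :
    ∃ (g : ℕ → ℕ → Matrix I I ℂ) (k : ℕ → H.K), (∀ N j, IsGb D b (g N j)) ∧
      ∀ L, ∀ u ∈ Submodule.span ℝ {x : Ten I L | At L x}, ∃ C : ℝ, ∀ N, L ≤ N → ∃ v,
        Tendsto (fun j => gT (g N j) u) atTop (𝓝 v) ∧ ‖v‖ ≤ C ∧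
        jT D v = gT (H.mat (k N)) v ∧ ∃ u' ∈ Submodule.span ℝ {x : Ten I L | At L x},
          Tendsto (fun j => gT (g N j) u') atTop (𝓝 (gT (H.mat (k N)) v)) := by
  classical
  have hB : ∀ L : ℕ, ∃ B : Set (Ten I L), B.Finite ∧ (∀ x ∈ B, At L x) ∧
      ∀ u, At L u → u ∈ Submodule.span ℂ B := by
    intro L
    obtain ⟨B, hB1, hB2, hB3⟩ := exists_linearIndependent ℂ {u : Ten I L | At L u}
    exact ⟨B, hB3.setFinite, fun x hx => hB1 hx, fun u hu => by
      rw [hB2]; exact Submodule.subset_span hu⟩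
  choose B hBf hBA hBs using hB
  have : ∀ L, Fintype (B L) := fun L => (hBf L).fintype
  obtain ⟨q, hq0, hq1⟩ := exists_weight (fun L => ∑ x : B L, ∑ w, ‖x.1 w‖ ^ 2)
    (fun L => Finset.sum_nonneg fun x _ => Finset.sum_nonneg fun w _ => by positivity)
  let ι : ℕ → Type := fun N => Option (Σ L : Fin (N + 1), B L)
  let len : ∀ N, ι N → ℕ := fun N i => i.elim 0 (fun x => x.1)
  let t : ∀ N, Tup I (len N) := fun N i => match i with
    | none => fun _ => 1
    | some x => (q x.1 : ℂ) • x.2.1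
  have htAt : ∀ N i, At (len N i) (t N i) := by
    intro N i
    match i with
    | none => exact S.one
    | some x => exact S.qsmul _ _ _ (hBA _ _ x.2.2)
  have hnS : ∀ N, MinT.nS (t N) ≤ 3 := by
    intro N
    have h1 : MinT.nS (t N) = 1 + ∑ L : Fin (N + 1),
        (q L : ℝ) ^ 2 * ∑ x : B L, ∑ w, ‖x.1 w‖ ^ 2 := by
      unfold MinT.nS
      rw [Fintype.sum_option, Fintype.sum_sigma]
      congr 1
      · show ∑ w : Fin 0 → I, ‖(1 : ℂ)‖ ^ 2 = 1
        simp
      · refine Finset.sum_congr rfl fun L _ => ?_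
        rw [Finset.mul_sum]
        refine Finset.sum_congr rfl fun x _ => ?_
        rw [Finset.mul_sum]
        refine Finset.sum_congr rfl fun w _ => ?_
        show ‖(q L : ℂ) * x.1 w‖ ^ 2 = _
        rw [norm_mul, mul_pow]
        congr 2
        rw [Complex.norm_ratCast]
        exact abs_of_pos (by exact_mod_cast hq0 L)
    have h2 : ∑ L : Fin (N + 1), (q L : ℝ) ^ 2 * ∑ x : B L, ∑ w, ‖x.1 w‖ ^ 2 ≤ 2 := by
      have h3 : ∑ L : Fin (N + 1), (q L : ℝ) ^ 2 * ∑ x : B L, ∑ w, ‖x.1 w‖ ^ 2 ≤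
          ∑ L : Fin (N + 1), (1 / 2 : ℝ) ^ (L : ℕ) :=
        Finset.sum_le_sum fun L _ => hq1 (L : ℕ)
      refine h3.trans ?_
      rw [Fin.sum_univ_eq_sum_range (fun L => (1 / 2 : ℝ) ^ L) (N + 1)]
      exact sum_geometric_two_le _
    rw [h1]
    linarith
  have hfin := fun N => fin_tup a1 a2 ab l1 l2 S hb hbAt H (t N) (htAt N) ⟨none, rfl, fun _ => rfl⟩
  choose s g k hg hlim hle hsM hfin using hfin
  have hsn : ∀ N, ‖s N‖ ≤ 2 := by
    intro N
    refine MinT.norm_le_of_nS _ (by norm_num) ?_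
    have h1 := hle N
    rw [ZMle.re_hS, ZMle.re_hS] at h1
    have h2 := hnS N
    linarith
  refine ⟨g, k, hg, fun L => ?_⟩
  -- the complex span
  have hC : ∀ u ∈ Submodule.span ℂ (B L), ∃ C : ℝ, ∀ N, L ≤ N →
      ∃ v ∈ MT D (cmb b (s N)) L, Tendsto (fun j => gT (g N j) u) atTop (𝓝 v) ∧ ‖v‖ ≤ C := by
    intro u hu
    induction hu using Submodule.span_induction with
    | mem x hx =>
      refine ⟨‖((q L : ℂ))⁻¹‖ * 2, fun N hN => ?_⟩
      let i₀ : ι N := some ⟨⟨L, Nat.lt_succ_of_le hN⟩, ⟨x, hx⟩⟩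
      have h1 : Tendsto (fun j => gT (g N j) (t N i₀)) atTop (𝓝 (s N i₀)) :=
        (tendsto_pi_nhds.mp (hlim N)) i₀
      have h2 := lim_smul a1 ((q L : ℂ))⁻¹ h1
      have h3 : ((q L : ℂ))⁻¹ • t N i₀ = x := by
        show ((q L : ℂ))⁻¹ • ((q L : ℂ) • x) = x
        have h4 : (q L : ℂ) ≠ 0 := by exact_mod_cast (hq0 L).ne'
        rw [smul_smul, inv_mul_cancel₀ h4, one_smul]
      rw [h3] at h2
      refine ⟨_, Submodule.smul_mem _ _ (hsM N i₀), h2, ?_⟩
      rw [norm_smul]
      refine mul_le_mul_of_nonneg_left ?_ (norm_nonneg _)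
      exact (norm_le_pi_norm (s N) i₀).trans (hsn N)
    | zero => exact ⟨0, fun N _ => ⟨0, zero_mem _, lim_zero a1, by rw [norm_zero]⟩⟩
    | add x y _ _ hx hy =>
      obtain ⟨C, hC⟩ := hx
      obtain ⟨C', hC'⟩ := hy
      refine ⟨C + C', fun N hN => ?_⟩
      obtain ⟨v, h1, h2, h3⟩ := hC N hN
      obtain ⟨v', h1', h2', h3'⟩ := hC' N hN
      exact ⟨v + v', add_mem h1 h1', lim_add a1 h2 h2', (norm_add_le _ _).trans (add_le_add h3 h3')⟩
    | smul c x _ hx =>
      obtain ⟨C, hC⟩ := hx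
      refine ⟨‖c‖ * C, fun N hN => ?_⟩
      obtain ⟨v, h1, h2, h3⟩ := hC N hN
      refine ⟨c • v, Submodule.smul_mem _ _ h1, lim_smul a1 c h2, ?_⟩
      rw [norm_smul]
      exact mul_le_mul_of_nonneg_left h3 (norm_nonneg _)
  intro u hu
  induction hu using Submodule.span_induction with
  | mem x hx =>
    obtain ⟨C, hC⟩ := hC x (hBs L x hx)
    refine ⟨C, fun N hN => ?_⟩
    obtain ⟨v, h1, h2, h3⟩ := hC N hN
    obtain ⟨h4, h5⟩ := hfin N L x v hx h1 h2
    exact ⟨v, h2, h3, h4, h5⟩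
  | zero =>
    refine ⟨0, fun N _ => ⟨0, lim_zero a1, by rw [norm_zero], ?_, 0, zero_mem _, ?_⟩⟩
    · have h3 := a1.jT_smul D 0 (0 : Ten I L)
      rw [zero_smul, map_zero, zero_smul] at h3
      rw [h3, YPi.gT_zero a1]
    · rw [YPi.gT_zero a1]
      exact lim_zero a1
  | add x y _ _ hx hy =>
    obtain ⟨C, hC⟩ := hx
    obtain ⟨C', hC'⟩ := hy
    refine ⟨C + C', fun N hN => ?_⟩
    obtain ⟨v, h1, h2, h3, u', h4, h5⟩ := hC N hN
    obtain ⟨v', h1', h2', h3', u'', h4', h5'⟩ := hC' N hN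
    refine ⟨v + v', lim_add a1 h1 h1', (norm_add_le _ _).trans (add_le_add h2 h2'), ?_,
      u' + u'', add_mem h4 h4', ?_⟩
    · rw [a1.jT_add, a1.gT_add, h3, h3']
    · rw [a1.gT_add]
      exact lim_add a1 h5 h5'
  | smul c x _ hx =>
    obtain ⟨C, hC⟩ := hx
    refine ⟨‖(c : ℂ)‖ * C, fun N hN => ?_⟩
    obtain ⟨v, h1, h2, h3, u', h4, h5⟩ := hC N hN
    refine ⟨(c : ℂ) • v, ?_, ?_, ?_, c • u', Submodule.smul_mem _ _ h4, ?_⟩
    · rw [real_smul]
      exact lim_smul a1 _ h1
    · rw [norm_smul]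
      exact mul_le_mul_of_nonneg_left h2 (norm_nonneg _)
    · rw [a1.jT_smul, a1.gT_smul, h3, Complex.conj_ofReal]
    · rw [a1.gT_smul, real_smul]
      exact lim_smul a1 _ h5

/-! ### The limit along an ultrafilter -/

/-- the action of a matrix, as a real linear map on a real subspace -/
noncomputable def gR (a1 : Alg1) (g : Matrix I I ℂ) {L : ℕ} (V : Submodule ℝ (Ten I L)) :
    V →ₗ[ℝ] Ten I L where
  toFun u := gT g u.1
  map_add' u v := a1.gT_add g u.1 v.1
  map_smul' c u := by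
    show gT g (c • u.1) = c • gT g u.1
    rw [real_smul, a1.gT_smul, real_smul]

/-- the real part of `ψ` on a real subspace -/
noncomputable def psiR (D : Dat I Λ) {L : ℕ} (V : Submodule ℝ (Ten I L)) : V →ₗ[ℝ] V →ₗ[ℝ] ℝ :=
  LinearMap.mk₂ ℝ (fun u v => (psiT D u.1 v.1).re)
    (by
      intro a b c
      show (psiT D (a.1 + b.1) c.1).re = _
      rw [← psiL_apply, map_add, LinearMap.add_apply, Complex.add_re, psiL_apply, psiL_apply])
    (by
      intro r a b
      show (psiT D (r • a.1) b.1).re = _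
      rw [real_smul, ← psiL_apply, map_smul, LinearMap.smul_apply, psiL_apply, smul_eq_mul,
        Complex.re_ofReal_mul, smul_eq_mul])
    (by
      intro a b c
      show (psiT D a.1 (b.1 + c.1)).re = _
      rw [← psiL_apply, map_add, Complex.add_re, psiL_apply, psiL_apply])
    (by
      intro r a b
      show (psiT D a.1 (r • b.1)).re = _
      rw [real_smul, ← psiL_apply, map_smul, psiL_apply, smul_eq_mul, Complex.re_ofReal_mul,
        smul_eq_mul])

theorem psiR_apply {L : ℕ} (V : Submodule ℝ (Ten I L)) (u v : V) :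
    psiR D V u v = (psiT D u.1 v.1).re := rfl

/-- the real linear map given by the limits of `g j u` -/
theorem exists_map (a1 : Alg1) {g : ℕ → Matrix I I ℂ} {L : ℕ} {V : Submodule ℝ (Ten I L)}
    (F : Filter ℕ) [F.NeBot] (T : ℕ → V →ₗ[ℝ] Ten I L)
    (h : ∀ u : V, ∃ v, Tendsto (fun j => T j u) F (𝓝 v)) :
    ∃ T' : V →ₗ[ℝ] Ten I L, ∀ u, Tendsto (fun j => T j u) F (𝓝 (T' u)) := by
  choose f hf using h
  refine ⟨{ toFun := f, map_add' := fun u v => ?_, map_smul' := fun c u => ?_ }, hf⟩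
  · refine tendsto_nhds_unique (hf (u + v)) ?_
    have h1 := (hf u).add (hf v)
    refine h1.congr fun j => ?_
    rw [map_add]
  · refine tendsto_nhds_unique (hf (c • u)) ?_
    have h1 := (hf u).const_smul c
    refine h1.congr fun j => ?_
    rw [map_smul]

/-- `J₀ J₀` is the identity on the real span of the members -/
theorem jj_span (a1 : Alg1) {At : (L : ℕ) → Ten I L → Prop} (S : ASys D At) {L : ℕ}
    {u : Ten I L} (hu : u ∈ Submodule.span ℝ {x : Ten I L | At L x}) : jT D (jT D u) = u := by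
  induction hu using Submodule.span_induction with
  | mem x hx => exact S.even L x hx
  | zero =>
    have h3 := a1.jT_smul D 0 (0 : Ten I L)
    rw [zero_smul, map_zero, zero_smul] at h3
    rw [h3, h3]
  | add x y _ _ hx hy => rw [a1.jT_add, a1.jT_add, hx, hy]
  | smul c x _ hx =>
    rw [real_smul, a1.jT_smul, a1.jT_smul, hx, Complex.conj_ofReal, Complex.conj_ofReal]

theorem eq_zero_of_hT (a1 : Alg1) {L : ℕ} {u : Ten I L} (h : (hT u u).re = 0) : u = 0 := by
  rw [a1.hT_self, Complex.ofReal_re] at h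
  funext x
  have h6 := (Finset.sum_eq_zero_iff_of_nonneg (fun x _ => by positivity)).1 h x
    (Finset.mem_univ x)
  exact norm_eq_zero.1 (pow_eq_zero_iff two_ne_zero |>.1 h6)

end ZLim

open Qps ZLim in
/-- **The graded form for all lengths at once.** -/
theorem zlim (a1 : Alg1) (a2 : Alg2) (ab : AlgB) (l1 : L1bStatement) (l2 : L2bStatement)
    {D : Dat I Λ} {At : (L : ℕ) → Ten I L → Prop} (S : ASys D At) {β : Type} [Fintype β]
    {lb : β → ℕ} {b : Tup I lb} (hb : IsBase D b) (hbAt : ∀ i, At (lb i) (b i))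
    (H : HMb D b) :
    ∃ (g : ℕ → Matrix I I ℂ) (k : Matrix I I ℂ), (∀ j, IsGb D b (g j)) ∧ IsKb D b k ∧
      ∀ L, ∀ u ∈ Submodule.span ℝ {x : Ten I L | At L x}, ∃ v,
        Tendsto (fun j => gT (g j) u) atTop (𝓝 v) ∧ jT D v = gT k v ∧ gT k (gT k v) = v ∧
        ∃ u' ∈ Submodule.span ℝ {x : Ten I L | At L x},
          Tendsto (fun j => gT (g j) u') atTop (𝓝 (gT k v)) := by
  classical
  obtain ⟨g, k, hg, hlev⟩ := levels a1 a2 ab l1 l2 S hb hbAt H
  have hgG : ∀ N j, IsG D (g N j) := fun N j => (hg N j).1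
  let V : ∀ L, Submodule ℝ (Ten I L) := fun L => Submodule.span ℝ {x : Ten I L | At L x}
  -- the linear maps at level `N`
  have hT : ∀ N L, ∃ T : V L →ₗ[ℝ] Ten I L, L ≤ N →
      ∀ u, Tendsto (fun j => gT (g N j) u.1) atTop (𝓝 (T u)) := by
    intro N L
    by_cases h : L ≤ N
    · obtain ⟨T, hT⟩ := exists_map a1 (g := g N) atTop (fun j => gR a1 (g N j) (V L)) (fun u => by
        obtain ⟨C, hC⟩ := hlev L u.1 u.2
        obtain ⟨v, hv, -⟩ := hC N h
        exact ⟨v, hv⟩)
      exact ⟨T, fun _ => hT⟩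
    · exact ⟨0, fun h' => absurd h' h⟩
  choose T hT using hT
  have hbd : ∀ L (u : V L), ∃ C : ℝ, ∀ N, L ≤ N → ‖T N L u‖ ≤ C := by
    intro L u
    obtain ⟨C, hC⟩ := hlev L u.1 u.2
    refine ⟨C, fun N hN => ?_⟩
    obtain ⟨v, hv, hv', -⟩ := hC N hN
    rw [tendsto_nhds_unique (hT N L hN u) hv]
    exact hv'
  have hj : ∀ N L, L ≤ N → ∀ u : V L, jT D (T N L u) = gT (H.mat (k N)) (T N L u) := by
    intro N L hN u
    obtain ⟨C, hC⟩ := hlev L u.1 u.2
    obtain ⟨v, hv, -, hv', -⟩ := hC N hN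
    rw [tendsto_nhds_unique (hT N L hN u) hv]
    exact hv'
  have hp : ∀ N L, L ≤ N → ∀ u : V L, ∃ z : V L, T N L z = gT (H.mat (k N)) (T N L u) := by
    intro N L hN u
    obtain ⟨C, hC⟩ := hlev L u.1 u.2
    obtain ⟨v, hv, -, -, u', hu', hv'⟩ := hC N hN
    refine ⟨⟨u', hu'⟩, ?_⟩
    rw [tendsto_nhds_unique (hT N L hN u) hv]
    exact tendsto_nhds_unique (hT N L hN ⟨u', hu'⟩) hv'
  -- the ultrafilter
  let U : Ultrafilter ℕ := hyperfilter ℕ
  have hU : ∀ L : ℕ, ∀ᶠ N in (U : Filter ℕ), L ≤ N := fun L =>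
    Nat.hyperfilter_le_atTop (eventually_ge_atTop L)
  have hκ : ∃ κ : H.K, Tendsto k U (𝓝 κ) := by
    obtain ⟨κ, -, hκ⟩ := isCompact_univ.ultrafilter_le_nhds (U.map k) (by
      rw [principal_univ]
      exact le_top)
    exact ⟨κ, hκ⟩
  obtain ⟨κ, hκ⟩ := hκ
  have hT' : ∀ L, ∃ T' : V L →ₗ[ℝ] Ten I L, ∀ u, Tendsto (fun N => T N L u) U (𝓝 (T' u)) := by
    intro L
    refine exists_map a1 (g := g 0) (U : Filter ℕ) (fun N => T N L) fun u => ?_
    obtain ⟨C, hC⟩ := hbd L u
    exact ZCpl.exists_lim U (fun N => T N L u) (C := C) ((hU L).mono fun N hN => hC N hN)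
  choose T' hT' using hT'
  have hkT : ∀ {L : ℕ} {x : ℕ → Ten I L} {x' : Ten I L}, Tendsto x U (𝓝 x') →
      Tendsto (fun N => gT (H.mat (k N)) (x N)) U (𝓝 (gT (H.mat κ) x')) := by
    intro L x x' hx
    have h1 : Tendsto (fun N => H.mat (k N)) U (𝓝 (H.mat κ)) := (H.cont_mat.tendsto κ).comp hκ
    have h2 := (a1.gT_cont.tendsto (H.mat κ, x')).comp (h1.prodMk_nhds hx)
    simpa only [Function.comp_def] using h2
  have hj' : ∀ L (u : V L), jT D (T' L u) = gT (H.mat κ) (T' L u) := by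
    intro L u
    have h1 : Tendsto (fun N => jT D (T N L u)) U (𝓝 (jT D (T' L u))) :=
      (jT_cont.tendsto _).comp (hT' L u)
    refine tendsto_nhds_unique h1 ((hkT (hT' L u)).congr' ?_)
    exact (hU L).mono fun N hN => (hj N L hN u).symm
  -- the partner
  have hp' : ∀ L (u : V L), ∃ z : V L, T' L z = gT (H.mat κ) (T' L u) := by
    intro L u
    have h1 : ∀ N, ∃ z : V L, L ≤ N → T N L z = gT (H.mat (k N)) (T N L u) := by
      intro N
      by_cases h : L ≤ N
      · obtain ⟨z, hz⟩ := hp N L h u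
        exact ⟨z, fun _ => hz⟩
      · exact ⟨0, fun h' => absurd h' h⟩
    choose z hz using h1
    have hB : ∀ N, L ≤ N → ∀ x y : V L,
        psiR D (V L) x y = (psiT D (T N L x) (T N L y)).re := by
      intro N hN x y
      rw [psiR_apply, psi_lim a1 (hgG N) (hT N L hN x) (hT N L hN y)]
    obtain ⟨z₁, z', h2, h3⟩ := ZCpl.cpl (psiR D (V L)) U z (fun w => by
      have h0 : Continuous fun p : Ten I L × Ten I L => psiT D p.1 p.2 := CloT.psiT_cont
      have h4 : Tendsto (fun N => |(psiT D (gT (H.mat (k N)) (T N L u)) (T N L w)).re|) U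
          (𝓝 |(psiT D (gT (H.mat κ) (T' L u)) (T' L w)).re|) := by
        have h5 := (h0.tendsto (gT (H.mat κ) (T' L u), T' L w)).comp
          ((hkT (hT' L u)).prodMk_nhds (hT' L w))
        have h6 := (Complex.continuous_re.tendsto _).comp h5
        exact (continuous_abs.tendsto _).comp h6
      refine ⟨|(psiT D (gT (H.mat κ) (T' L u)) (T' L w)).re| + 1, ?_⟩
      filter_upwards [h4.eventually_le_const (lt_add_one _), hU L] with N h7 hN
      rw [hB N hN, hz N hN]
      exact h7)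
    -- the same limit at level `N`
    have h4 : ∀ N, L ≤ N → T N L (z₁ N) = T N L (z N) := by
      intro N hN
      have h5 : T N L (z₁ N - z N) = 0 := by
        obtain ⟨d', hd'⟩ := hp N L hN (z₁ N - z N)
        have h6 : psiR D (V L) (z₁ N - z N) d' = 0 := by
          rw [map_sub, h2, sub_self, LinearMap.zero_apply]
        rw [hB N hN, hd', ← hj N L hN, a1.psiT_jT] at h6
        exact eq_zero_of_hT a1 h6
      rw [map_sub, sub_eq_zero] at h5
      exact h5
    refine ⟨z', ?_⟩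
    have h5 : Tendsto (fun N => T N L (z₁ N)) U (𝓝 (T' L z')) :=
      lim_basis (Module.finBasis ℝ (V L)) (fun N => T N L) (T' L) (fun i => hT' L _) h3
    refine tendsto_nhds_unique h5 ((hkT (hT' L u)).congr' ?_)
    filter_upwards [hU L] with N hN
    rw [h4 N hN, hz N hN]
  -- the diagonal sequence
  have hd : ∀ m : ℕ, ∃ x : Matrix I I ℂ, IsGb D b x ∧ ∀ L, L ≤ m →
      ∀ i, ‖gT x (Module.finBasis ℝ (V L) i).1 - T' L (Module.finBasis ℝ (V L) i)‖ ≤
        2 * (1 / ((m : ℝ) + 1)) := by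
    intro m
    have hm : (0 : ℝ) < 1 / ((m : ℝ) + 1) := by positivity
    have h1 : ∀ᶠ N in (U : Filter ℕ), ∀ L : Fin (m + 1), ∀ i,
        ‖T N L (Module.finBasis ℝ (V L) i) - T' L (Module.finBasis ℝ (V L) i)‖ <
          1 / ((m : ℝ) + 1) := by
      refine Filter.eventually_all.2 fun L => Filter.eventually_all.2 fun i => ?_
      have h2 := (hT' L (Module.finBasis ℝ (V L) i)).sub_const
        (T' L (Module.finBasis ℝ (V L) i))
      rw [sub_self] at h2
      have h3 := h2.norm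
      rw [norm_zero] at h3
      exact h3.eventually_lt_const hm
    obtain ⟨N, hN, hmN⟩ := (h1.and (hU m)).exists
    have h2 : ∀ᶠ j in atTop, ∀ L : Fin (m + 1), ∀ i,
        ‖gT (g N j) (Module.finBasis ℝ (V L) i).1 - T N L (Module.finBasis ℝ (V L) i)‖ <
          1 / ((m : ℝ) + 1) := by
      refine Filter.eventually_all.2 fun L => Filter.eventually_all.2 fun i => ?_
      have hL : (L : ℕ) ≤ N := (Nat.le_of_lt_succ L.2).trans hmN
      have h2 := (hT N L hL (Module.finBasis ℝ (V L) i)).sub_const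
        (T N L (Module.finBasis ℝ (V L) i))
      rw [sub_self] at h2
      have h3 := h2.norm
      rw [norm_zero] at h3
      exact h3.eventually_lt_const hm
    obtain ⟨j, hj⟩ := h2.exists
    refine ⟨g N j, hg N j, fun L hL i => ?_⟩
    have h3 := hN ⟨L, Nat.lt_succ_of_le hL⟩ i
    have h4 := hj ⟨L, Nat.lt_succ_of_le hL⟩ i
    have h5 := norm_sub_le_norm_sub_add_norm_sub (gT (g N j) (Module.finBasis ℝ (V L) i).1)
      (T N L (Module.finBasis ℝ (V L) i)) (T' L (Module.finBasis ℝ (V L) i))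
    refine h5.trans ?_
    rw [two_mul]
    exact add_le_add h4.le h3.le
  choose x hx hx' using hd
  have hlim : ∀ L (u : V L), Tendsto (fun m => gT (x m) u.1) atTop (𝓝 (T' L u)) := by
    intro L u
    refine lim_basis (Module.finBasis ℝ (V L)) (fun m => gR a1 (x m) (V L)) (T' L) (fun i => ?_)
      tendsto_const_nhds
    rw [tendsto_iff_norm_sub_tendsto_zero]
    have h1 : Tendsto (fun m : ℕ => 2 * (1 / ((m : ℝ) + 1))) atTop (𝓝 0) := by
      have h2 := (tendsto_one_div_add_atTop_nhds_zero_nat (𝕜 := ℝ)).const_mul 2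
      rwa [mul_zero] at h2
    refine squeeze_zero' (Eventually.of_forall fun m => norm_nonneg _) ?_ h1
    filter_upwards [eventually_ge_atTop L] with m hm
    exact hx' m L hm i
  refine ⟨x, H.mat κ, hx, H.mem κ, fun L u hu => ?_⟩
  refine ⟨T' L ⟨u, hu⟩, hlim L ⟨u, hu⟩, hj' L _, ?_, ?_⟩
  · have h1 : jT D (jT D (T' L ⟨u, hu⟩)) = T' L ⟨u, hu⟩ :=
      jj_lim a1 (fun j => (hx j).1) (jj_span a1 S hu) (hlim L ⟨u, hu⟩)
    rw [hj', a1.jT_gT D _ _ (H.mem κ).1, hj'] at h1
    exact h1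
  · obtain ⟨z, hz⟩ := hp' L ⟨u, hu⟩
    refine ⟨z.1, z.2, ?_⟩
    rw [← hz]
    exact hlim L z

end Pool.Agent.Lib.MP_361a6f_ag.FL
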