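import Pool.Agent.Lib.MP_361a6f_ag.FL.B.MainL
import Pool.Agent.Lib.MP_361a6f_ag.FL.Z.Abs
import Pool.Agent.Lib.MP_361a6f_ag.FL.Z.Lim

/-!
# The graded form for all lengths at once, for a rational system of tensors
-/

open Filter Topology

set_option autoImplicit false

namespace Pool.Agent.Lib.MP_361a6f_ag.FL

variable {I Λ : Type} [Fintype I] [DecidableEq I] [DecidableEq Λ]

/-- the graded form for all lengths, from the abstract rows -/
theorem zinf_of (a1 : Alg1) (a2 : Alg2) (ab : AlgB) (cpt : CptbStatement) (l1 : L1bStatement)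
    (l2 : L2bStatement) {D : Dat I Λ} {At : (L : ℕ) → Ten I L → Prop} (S : ASys D At) :
    ZConc D At fun _ => True := by
  obtain ⟨β, _, lb, b, hbAt, hbase, hfix⟩ := zBase S
  obtain ⟨H⟩ := cpt D b
  obtain ⟨g, k, hg, hk, h⟩ := zlim a1 a2 ab l1 l2 S hbase hbAt H
  refine ⟨atTop, inferInstance, g, k, fun j => (hg j).1, hk.1, fun L u hu hj =>
    ⟨fun j => hfix _ (hg j).2 L u hu hj, hfix _ hk.2 L u hu hj⟩, fun L u _ hu => ?_⟩
  obtain ⟨v, h1, h2, h3, u', h4, h5⟩ := h L u (Submodule.subset_span hu)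
  exact ⟨v, u', h1, h2, h3, h4, h5⟩

/-- the graded form for all lengths -/
theorem zinf {D : Dat I Λ} {At : (L : ℕ) → Ten I L → Prop} (S : ASys D At) :
    ZConc D At fun _ => True :=
  have hvol : VolbStatement := volb alg1
  have hpha : PhabStatement := phab alg1 (tanb alg1)
  have havg : AvgbStatement := avgb mainFfb alg1 alg2
  zinf_of alg1 alg2 (algB alg1 alg2) cptbH (l1b alg1 hvol hpha havg) (l2b alg1 hvol hpha havg) S

end Pool.Agent.Lib.MP_361a6f_ag.FL
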