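import Pool.Agent.Lib.MP_361a6f_ag.FL.Z.StatP
import Pool.Agent.Lib.MP_361a6f_ag.FL.GeoDefs
import Pool.Agent.Lib.MP_361a6f_ag.H3.Basic

/-!
# The class of the diagonal is an even idempotent that acts as the identity
-/

open CategoryTheory AlgebraicGeometry MonoidalCategory CartesianMonoidalCategory

universe u v w

namespace Pool.Agent.Lib.MP_361a6f_ag.FL

open Pool.Agent.Lib.MP_361a6f_ag.H3 Pool.Agent.Lib.MP_361a6f_ag.SQ
  Pool.Agent.Lib.MP_361a6f_ag.PP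

variable {k : Type u} [Field k] {W : CohomologyData.{u, 0, w} k ℂ} {𝒱 : VarietyClass k}

/-- The class of the diagonal is algebraic. -/
theorem diag_alg (hW : IsWeilCohomology W 𝒱) {Y : Sch k} {d : ℕ} (hY : 𝒱.mem Y d) :
    W.IsAlg (Y.prod Y) d (W.pf (lift (𝟙 Y) (𝟙 Y)) (1 : W.coh Y)) :=
  hW.push_alg hY (𝒱.prod hY hY) _ (hW.one_alg hY) (by omega)

/-- The class of the diagonal acts as the identity. -/
theorem act_diag (hW : IsWeilCohomology W 𝒱) {Y : Sch k} {d : ℕ} (hY : 𝒱.mem Y d)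
    (x : W.coh Y) : act W (W.pf (lift (𝟙 Y) (𝟙 Y)) (1 : W.coh Y)) x = x := by
  have hYY := 𝒱.prod hY hY
  have hD := diag_alg hW hY
  rw [← sub_eq_zero]
  refine hW.duality hY _ fun y => ?_
  rw [sub_mul, map_sub, sub_eq_zero]
  show W.tr Y (W.push (snd Y Y) (W.pull (fst Y Y) x * W.push (lift (𝟙 Y) (𝟙 Y)) 1) * y) = _
  rw [hW.push_adj hYY hY, ← hW.alg_comm hYY hD, mul_assoc]
  show W.tr (Y ⊗ Y) (W.push (lift (𝟙 Y) (𝟙 Y)) 1 * (W.pull (fst Y Y) x * W.pull (snd Y Y) y)) = _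
  rw [hW.push_adj hY hYY, one_mul, map_mul]
  have h1 : W.pull (lift (𝟙 Y) (𝟙 Y)) (W.pull (fst Y Y) x) = x := by
    rw [← W.pull_comp, lift_fst, W.pull_id]
  have h2 : W.pull (lift (𝟙 Y) (𝟙 Y)) (W.pull (snd Y Y) y) = y := by
    rw [← W.pull_comp, lift_snd, W.pull_id]
  exact congrArg (W.tr Y) (congrArg₂ (· * ·) h1 h2)

variable {m : ℕ} {X : Fin m → Sch k} {n : Fin m → ℕ}

/-- The class of the diagonal is even. -/
theorem diag_even {C : ZMod 2 → ∀ P : Prd m, ℕ → W.coh (P.obj X) → Prop} (G : Grading W X n C)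
    (P : Prd m) : C 0 (.prod P P) (P.dim n) (W.pf (lift (𝟙 (P.obj X)) (𝟙 (P.obj X))) 1) :=
  G.pf P (.prod P P) _ (CoordMor.diag P (le_refl 3)) 0 0 (P.dim n) 1
    (by show 0 + (P.dim n + P.dim n) = P.dim n + P.dim n; omega) (G.one P)

end Pool.Agent.Lib.MP_361a6f_ag.FL
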