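import Pool.Agent.Lib.MP_361a6f_ag.FL.Z.Mot

/-!
# `Q1` and the odd classes, for the motives cut out by even projectors
-/

open CategoryTheory AlgebraicGeometry MonoidalCategory CartesianMonoidalCategory
open Filter Topology

universe u v w

set_option autoImplicit false
set_option linter.unusedSectionVars false

namespace Pool.Agent.Lib.MP_361a6f_ag.FL

open Pool.Agent.Lib.MP_361a6f_ag.H3 Pool.Agent.Lib.MP_361a6f_ag.SQ
  Pool.Agent.Lib.MP_361a6f_ag.IP2 Pool.Agent.Lib.MP_361a6f_ag.PP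

namespace MotZ

open ZE

variable {k : Type u} [Field k] {m : ℕ} {W : CohomologyData.{u, 0, w} k ℂ} {𝒱 : VarietyClass k}
  (H : Host W 𝒱 m)

/-- **Row MOT, for even projectors.** -/
theorem motive' (ge : H.GeFacts) (a1 : Alg1) (par : ∀ (P : Prd m)
      (z : W.coh (P.obj H.X)), z ∈ tot W (P.obj H.X) → jT H.D (jT H.D (H.tc P z)) = H.tc P z)
    (hS : Sl2Statement.{w}) (hT : StaStatement.{w})
    {C : ZMod 2 → ∀ P : Prd m, ℕ → Submodule ℝ (W.coh (P.obj H.X))}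
    (sup : ∀ P l, C 0 P l ⊔ C 1 P l = algR W (P.obj H.X) l)
    (inf : ∀ P l, C 0 P l ⊓ C 1 P l = numR W (P.obj H.X) l)
    (cup : ∀ P ε ε' l l' z z', z ∈ C ε P l → z' ∈ C ε' P l' →
      W.cup z z' ∈ C (ε + ε') P (l + l'))
    (pb : ∀ P Q f, CoordMor H.X 3 P Q f → ∀ ε l z, z ∈ C ε Q l → W.pb f z ∈ C ε P l)
    (pf : ∀ P Q f, CoordMor H.X 3 P Q f → ∀ ε l l' z, l + Q.dim H.n = l' + P.dim H.n →
      z ∈ C ε P l → W.pf f z ∈ C ε Q l')
    (form : ∀ P η, IsPol W H.ξ P η → ∀ ε l z, 2 * l ≤ P.dim H.n → z ∈ C ε P l →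
      W.cup (η ^ (P.dim H.n - 2 * l + 1)) z ∈ numR W (P.obj H.X) (P.dim H.n - l + 1) →
      z ∉ numR W (P.obj H.X) l → ∃ r : ℝ, 0 < r ∧
        (-1) ^ (l + ε.val) * W.Tr (W.cup (η ^ (P.dim H.n - 2 * l)) (W.cup z z)) = (r : ℂ))
    (odd : ∀ P l z, z ∈ C 1 P l → ∃ r : ℝ, 0 ≤ r ∧ H.psiP P z z = ((-r : ℝ) : ℂ))
    (P : Prd m) (γ : W.coh ((P.obj H.X).prod (P.obj H.X)))
    (hγC : γ ∈ C 0 (.prod P P) (P.dim H.n))
    (hγ : W.IsAlg ((P.obj H.X).prod (P.obj H.X)) (P.dim H.n) γ)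
    (huu : ∀ x, act W γ (act W γ x) = act W γ x)
    (hL : ∀ x, act W γ (W.cup (P.pol W H.ξ) x) = W.cup (P.pol W H.ξ) (act W γ x))
    (i : ℕ) :
    (∀ l ≤ i, HodgeOp W (P.obj H.X) (P.dim H.n) (P.pol W H.ξ) (act W γ) l) ↔
      ∀ l ≤ i, ∀ z ∈ C 1 P l, act W γ z = 0 := by
  have hP := H.memP P
  have hPP := H.memP (.prod P P)
  have hγg : γ ∈ W.gr (P.obj H.X ⊗ P.obj H.X) (2 * P.dim H.n) := H.hW.alg_gr hPP hγ
  obtain ⟨u, hu⟩ : ∃ u : Module.End ℂ (W.coh (P.obj H.X)),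
      u = cor W (X := P.obj H.X) (Y := P.obj H.X) γ := ⟨_, rfl⟩
  have heu : ∀ x, act W γ x = u x := fun x => by rw [hu]; rfl
  have hg : ∀ i x, x ∈ W.gr (P.obj H.X) i → u x ∈ W.gr (P.obj H.X) i := by
    intro i x hx
    rw [← heu]
    refine push_gr H.hW hPP hP (snd (P.obj H.X) (P.obj H.X))
      (show i + 2 * P.dim H.n + 2 * P.dim H.n = i + 2 * (P.dim H.n + P.dim H.n) by omega) ?_
    exact H.hW.mul_gr hPP (H.hW.pull_gr hPP hP (fst (P.obj H.X) (P.obj H.X)) hx) hγg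
  have ha : ∀ l x, x ∈ W.alg (P.obj H.X) l → u x ∈ W.alg (P.obj H.X) l := by
    intro l x hx
    rw [← heu]
    refine H.hW.push_alg hPP hP (snd (P.obj H.X) (P.obj H.X)) (i := l + P.dim H.n) ?_
      (show l + P.dim H.n + P.dim H.n = l + (P.dim H.n + P.dim H.n) by omega)
    exact H.hW.mul_alg hPP (H.hW.pull_alg hPP hP (fst (P.obj H.X) (P.obj H.X)) hx) hγ
  have hC : ∀ ε l z, z ∈ C ε P l → u z ∈ C ε P l := by
    intro ε l z hz
    rw [← heu]
    refine pf (.prod P P) P (Sch.pr₂ (P.obj H.X) (P.obj H.X)) (CoordMor.pr₂ P P) ε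
      (l + P.dim H.n) l _ (show l + P.dim H.n + P.dim H.n = l + (P.dim H.n + P.dim H.n) by omega) ?_
    have h1 := cup (.prod P P) ε 0 l (P.dim H.n) (W.pb (Sch.pr₁ (P.obj H.X) (P.obj H.X)) z) γ
      (pb (.prod P P) P (Sch.pr₁ (P.obj H.X) (P.obj H.X)) (CoordMor.pr₁ P P) ε l z hz) hγC
    rw [add_zero] at h1
    exact h1
  have huu' : ∀ x, u (u x) = u x := fun x => by
    rw [← heu, ← heu]
    exact huu x
  have hL' : ∀ x, u (P.pol W H.ξ * x) = P.pol W H.ξ * u x := fun x => by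
    rw [← heu, ← heu]
    exact hL x
  constructor
  · intro hH l hl z hz
    rw [heu]
    by_contra h0
    have hzA : z ∈ algR W (P.obj H.X) l := by
      rw [← sup]
      exact Submodule.mem_sup_right hz
    have h1 : u z ∈ Submodule.span ℝ {x | x ∈ W.alg (P.obj H.X) l ∧ u x = x} :=
      algR_ind (Submodule.span ℝ {x | x ∈ W.alg (P.obj H.X) l ∧ u x = x}) u
        (fun x hx => Submodule.subset_span ⟨ha l x hx, huu' x⟩) hzA
    obtain ⟨r, hr, h2⟩ := psi_pos H ge a1 par hS hT P hg hL' (l := l)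
      (fun i hi hi2 x hx hx1 hx2 hx0 => hH i (hi.trans hl) hi2 x hx (by rw [heu, hx1]) hx2 hx0)
      h1 h0
    obtain ⟨s, hs, h3⟩ := odd P l _ (hC 1 l z hz)
    rw [h2] at h3
    have h4 : r = -s := by exact_mod_cast h3
    linarith
  · intro hO l hl hl2 x hx hx1 hx2 hx0
    rw [heu] at hx1
    have hxA : x ∈ C 0 P l ⊔ C 1 P l := by
      rw [sup]
      exact algR_alg hx
    obtain ⟨a, ha0, b, hb, hab⟩ := Submodule.mem_sup.1 hxA
    have hx3 : x = u a := by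
      have h1 : u b = 0 := by
        rw [← heu]
        exact hO l hl b hb
      rw [← hx1, ← hab, map_add, h1, add_zero]
    have hxe : x ∈ C 0 P l := by
      rw [hx3]
      exact hC 0 l a ha0
    have hxN : x ∉ numR W (P.obj H.X) l := by
      intro hN
      rw [← inf] at hN
      refine hx0 ?_
      rw [← hx1, ← heu]
      exact hO l hl x hN.2
    obtain ⟨r, hr, h⟩ := form P (P.pol W H.ξ) (HodgeZ.isPol H.ξ P) 0 l x hl2 hxe
      (by rw [hx2]; exact zero_mem _) hxN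
    have h1 : l + (0 : ZMod 2).val = l := by rw [ZMod.val_zero, add_zero]
    rw [h1] at h
    have hξ : P.pol W H.ξ ∈ W.alg (P.obj H.X) 1 := (H.lamP P).2
    obtain ⟨q, hq⟩ : ∃ q : ℚ, W.tr (P.obj H.X)
        (P.pol W H.ξ ^ (P.dim H.n - 2 * l) * (x * x)) = (q : ℂ) := by
      refine tot_tr H.hW hP (tot_mul H.hW hP ?_ (tot_mul H.hW hP (alg_le_tot H.hW _ l hx)
        (alg_le_tot H.hW _ l hx)))
      exact alg_le_tot H.hW _ _ (H.hW.pow_alg hP hξ _)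
    refine ⟨(-1) ^ l * q, ?_, ?_⟩
    · have h2 : (((-1) ^ l * q : ℚ) : ℂ) = (r : ℂ) := by
        rw [← h]
        push_cast
        rw [← hq]
      have h3 : (((-1) ^ l * q : ℚ) : ℝ) = r := by exact_mod_cast h2
      exact_mod_cast h3.symm ▸ hr
    · change (-1) ^ l * W.tr (P.obj H.X) (P.pol W H.ξ ^ (P.dim H.n - 2 * l) * (x * x)) = _
      rw [hq]
      push_cast
      rfl

end MotZ

end Pool.Agent.Lib.MP_361a6f_ag.FL
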