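import Pool.Agent.Lib.MP_361a6f_ag.FL.Z.Num
import Pool.Agent.Lib.MP_361a6f_ag.FL.Z.Mot2
import Pool.Agent.Lib.MP_361a6f_ag.FL.Z.Diag

/-!
# The even and odd classes form a parity
-/

open CategoryTheory AlgebraicGeometry MonoidalCategory CartesianMonoidalCategory
open Filter Topology

universe u v w

set_option autoImplicit false

namespace Pool.Agent.Lib.MP_361a6f_ag.FL

open Pool.Agent.Lib.MP_361a6f_ag.H3 Pool.Agent.Lib.MP_361a6f_ag.SQ
  Pool.Agent.Lib.MP_361a6f_ag.IP2 Pool.Agent.Lib.MP_361a6f_ag.PP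

namespace ParZ

open ZE Pool.Agent.Lib.MP_361a6f_ag.FL.ZNum

variable {k : Type u} [Field k] {W : CohomologyData.{u, 0, w} k ℂ} {𝒱 : VarietyClass k} {m : ℕ}
  (H : Host W 𝒱 m)
  {J : ∀ P : Prd m, W.coh (P.obj H.X) →ₛₗ[starRingEnd ℂ] W.coh (P.obj H.X)}
  {A : ℕ → ∀ P : Prd m, Module.End ℂ (W.coh (P.obj H.X))}
  {K : ∀ P : Prd m, Module.End ℂ (W.coh (P.obj H.X))} {F : Filter ℕ}

/-- `ψ` on the odd classes -/
theorem odd [F.NeBot] (ge : H.GeFacts) (hJ : H.J0Facts J) (hA : ∀ j, ∃ x, ZOps H J x (A j))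
    (P : Prd m) (l : ℕ) (z : W.coh (P.obj H.X)) (hz : z ∈ CZ H J A K F 1 P l) :
    ∃ r : ℝ, 0 ≤ r ∧ H.psiP P z z = ((-r : ℝ) : ℂ) := by
  obtain ⟨-, s, h1, -, -⟩ := hz.1
  by_cases h0 : s = 0
  · refine ⟨0, le_refl _, ?_⟩
    rw [psi_lim H ge hJ hA h1 h1, h0, neg_zero, Complex.ofReal_zero]
    have h3 := psiP_smul H P (0 : W.coh (P.obj H.X)) 0 0
    rw [smul_zero, zero_mul] at h3
    exact h3
  · obtain ⟨q, hq, h3⟩ := CZ_psi H ge hJ hA hz h1 h0
    refine ⟨q, hq.le, ?_⟩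
    rw [h3, show (1 : ZMod 2).val = 1 from rfl, pow_one, neg_one_mul]

/-- **The parity.** -/
theorem parity [F.NeBot] (ge : H.GeFacts) (hJ : H.J0Facts J)
    (hA : ∀ j, ∃ x, ZOps H J x (A j)) (hK : ∃ x, ZOps H J x K)
    (hKJ : ∀ (P : Prd m) (s : W.coh (P.obj H.X)), K P (J P s) = J P (K P s))
    (hF : ∀ P, Fit H J A K F P) (hadp : H.Adp J) (a1 : Alg1)
    (par : ∀ (P : Prd m) (z : W.coh (P.obj H.X)), z ∈ tot W (P.obj H.X) →
      jT H.D (jT H.D (H.tc P z)) = H.tc P z)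
    (hS : Sl2Statement.{w}) (hT : StaStatement.{w}) (hRsp : RspStatement.{u, w})
    (hRsc : RscStatement.{u, w}) (hRsq : RsqStatement.{u, w}) :
    Grading W H.X H.n (fun ε P l z => z ∈ CZ H J A K F ε P l) ∧
      Parity W H.X H.n H.ξ J (fun ε P l z => z ∈ CZ H J A K F ε P l) :=
  have sup := fun P l => CZ_sup H ge hJ hA hK P l (fit_sup H hKJ (hF P))
  have inf := fun P l => CZ_inf H ge hJ hA (hF P) l
  have form := fun P η hη ε l z hl hz h1 h2 =>
    CZ_form H ge hJ hA hRsp hRsc hRsq hadp (hF P) η hη ε l z hl hz h1 h2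
  have G : Grading W H.X H.n (fun ε P l z => z ∈ CZ H J A K F ε P l) :=
   { lin := fun ε P l => ⟨CZ H J A K F ε P l, fun _ => Iff.rfl⟩
     sum := fun P l z => by
      rw [isAlgR_iff, ← sup P l, Submodule.mem_sup]
      exact ⟨fun ⟨x, hx, y, hy, h⟩ => ⟨x, y, hx, hy, h.symm⟩,
        fun ⟨x, y, hx, hy, h⟩ => ⟨x, hx, y, hy, h.symm⟩⟩
     num := fun P l z => by rw [isNumR_iff, ← inf P l, Submodule.mem_inf]
     one := CZ_one H hJ hA hK
     cup := CZ_cup H ge hJ hA hK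
     pb := CZ_pb H ge hJ hA hK
     pf := CZ_pf H ge hJ hA hK }
  ⟨G, { fix := fun P l z hz hJz => CZ_fix H hA hK hz hJz
        form := form
        diag := fun P => ⟨_, ⟨diag_alg H.hW (H.memP P), diag_even G P, fun x => by
          rw [act_diag H.hW (H.memP P), act_diag H.hW (H.memP P)], fun x => by
          rw [act_diag H.hW (H.memP P), act_diag H.hW (H.memP P)]⟩, act_diag H.hW (H.memP P)⟩
        hodge := fun P e he i => MotZ.motive' H ge a1 par hS hT sup inf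
          (CZ_cup H ge hJ hA hK) (CZ_pb H ge hJ hA hK) (CZ_pf H ge hJ hA hK) form
          (odd H ge hJ hA) P e he.even he.alg he.idem he.comm i }⟩

end ParZ

end Pool.Agent.Lib.MP_361a6f_ag.FL
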