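import Pool.Agent.Lib.MP_361a6f_ag.FL.B.Jh
import Pool.Agent.Lib.MP_361a6f_ag.FL.B.Jl85
import Pool.Agent.Lib.MP_361a6f_ag.FL.B.Hri
import Pool.Agent.Lib.MP_361a6f_ag.FL.GTI
import Pool.Agent.Lib.MP_361a6f_ag.FL.A.Stat

/-!
# Elements of the group that fix the small diagonals are ring automorphisms

`J` and `J'` are two systems of Hodge-Riemann structures. An element of the group that fixes the
algebraic classes on the products of three factors fixed by `J` and `J'` acts by a ring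
automorphism on the cohomology of the factors. So two such elements commute if they commute on
generators of the cohomology algebras.
-/

open CategoryTheory AlgebraicGeometry MonoidalCategory CartesianMonoidalCategory

universe u v w

set_option autoImplicit false
set_option linter.unusedSectionVars false

namespace Pool.Agent.Lib.MP_361a6f_ag.FL

open Pool.Agent.Lib.MP_361a6f_ag.H3 Pool.Agent.Lib.MP_361a6f_ag.SQ
  Pool.Agent.Lib.MP_361a6f_ag.IP2 Pool.Agent.Lib.MP_361a6f_ag.PP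

namespace WGen

variable {k : Type u} [Field k] {W : CohomologyData.{u, 0, w} k ℂ} {𝒱 : VarietyClass k} {m : ℕ}
  (H : Host W 𝒱 m)

/-- the properties of the tensor products of Hodge-Riemann structures that do not depend on
coordinates -/
structure GeoSys (J : ∀ P : Prd m, W.coh (P.obj H.X) →ₛₗ[starRingEnd ℂ] W.coh (P.obj H.X)) :
    Prop where
  surj : ∀ P, Function.Surjective (J P)
  gr : ∀ (P : Prd m) (i : ℕ) (x : W.coh (P.obj H.X)), x ∈ W.gr (P.obj H.X) i →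
    J P x ∈ W.gr (P.obj H.X) i
  one : ∀ P, J P 1 = 1
  mul : ∀ (P : Prd m) (x y : W.coh (P.obj H.X)), J P (x * y) = J P x * J P y
  pol : ∀ P, J P (P.pol W H.ξ) = P.pol W H.ξ
  pull : ∀ (P Q : Prd m) (f : Sch.Mor (P.obj H.X) (Q.obj H.X)), CoordMor H.X 3 P Q f →
    ∀ z, J P (W.pb f z) = W.pb f (J Q z)
  push : ∀ (P Q : Prd m) (f : Sch.Mor (P.obj H.X) (Q.obj H.X)), CoordMor H.X 3 P Q f →
    ∀ z, J Q (W.pf f z) = W.pf f (J P z)

variable {H}

theorem GeoSys.of_j0 {J : ∀ P : Prd m, W.coh (P.obj H.X) →ₛₗ[starRingEnd ℂ] W.coh (P.obj H.X)}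
    (hJ : H.J0Facts J) : GeoSys H J where
  surj P := Jl85.surj_of_rs H (hJ.rs P)
  gr P := (hJ.rs P).gr
  one P := (hJ.rs P).one
  mul := hJ.mul
  pol P := Jl85.pol_fixed (hJ.rs P)
  pull := hJ.pull
  push := hJ.push

/-- the tensor products of Hodge-Riemann structures -/
theorem GeoSys.of_hr (hpos : ∀ a, PositiveDivisor W (H.X a) (H.n a) (H.ξ a))
    {J : ∀ P : Prd m, W.coh (P.obj H.X) →ₛₗ[starRingEnd ℂ] W.coh (P.obj H.X)}
    (hr : ∀ a, HRStr W (H.X a) (H.n a) (H.ξ a) (J (.leaf a)))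
    (prod : ∀ (P Q : Prd m) (y : W.coh (P.obj H.X)) (x : W.coh (Q.obj H.X)),
      J (.prod P Q) (W.pull (fst (P.obj H.X) (Q.obj H.X)) y
          * W.pull (snd (P.obj H.X) (Q.obj H.X)) x)
        = W.pull (fst (P.obj H.X) (Q.obj H.X)) (J P y)
          * W.pull (snd (P.obj H.X) (Q.obj H.X)) (J Q x)) :
    GeoSys H J ∧
      ∀ P : Prd m, IsRS W (P.obj H.X) (P.dim H.n) (P.pol W H.ξ) (H.LamP P) (J P) := by
  have sta : StaStatement.{w} := staB
  have stp' : StpStatement := stp sl2 sta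
  have lmp' : LmpStatement := lmp tal
  have rs := JH.rs_all (rsp lmp' stp') prod fun a => hri H.hW (H.mem a) (hpos a) (H.lam a) _ (hr a)
  have sys : GM.JSys W H.X J :=
    ⟨fun P => (rs P).gr, fun P => (rs P).one, fun P => (rs P).tr,
      fun P => Jl85.surj_of_rs H (rs P), prod⟩
  have mul : ∀ (P : Prd m) (x y : W.coh (P.obj H.X)), J P (x * y) = J P x * J P y := by
    intro P
    induction P with
    | leaf a => exact (hr a).cup
    | prod P Q hP hQ =>
      exact GMpre.mul_prod H.hW (H.memP P) (H.memP Q) (J P) (J Q) (J (.prod P Q))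
        (prod P Q) (rs P).gr (rs Q).gr hP hQ
  have hpb := fun (P Q : Prd m) (f : Sch.Mor (P.obj H.X) (Q.obj H.X))
      (hf : CoordMor H.X 3 P Q f) =>
    GM.pull_coord H.hW H.mem sys (fun _ => mul) P Q f hf
  exact ⟨⟨sys.surj, sys.gr, sys.one, mul, fun P => Jl85.pol_fixed (rs P), hpb, fun P Q f hf =>
    GMpre.push_comm H.hW (H.memP P) (H.memP Q) (J P) (J Q) (sys.tr P) (sys.tr Q) (sys.surj Q) f
      (hpb P Q f hf)⟩, rs⟩

/-- the kernel of an operator that commutes with `J` is fixed by `J` -/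
theorem GeoSys.ker {J : ∀ P : Prd m, W.coh (P.obj H.X) →ₛₗ[starRingEnd ℂ] W.coh (P.obj H.X)}
    (hJ : GeoSys H J) (P Q : Prd m) (γ : W.coh (P.obj H.X ⊗ Q.obj H.X))
    (hc : ∀ s, J Q (cor W γ s) = cor W γ (J P s)) : J (.prod P Q) γ = γ := by
  refine cor_injective H.hW (H.memP P) (H.memP Q) (LinearMap.ext fun s => ?_)
  obtain ⟨s, rfl⟩ := hJ.surj P s
  rw [← hc, cor_apply, cor_apply]
  have h1 : J (.prod P Q) (W.pull (fst (P.obj H.X) (Q.obj H.X)) s)
      = W.pull (fst (P.obj H.X) (Q.obj H.X)) (J P s) :=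
    hJ.pull (.prod P Q) P _ (CoordMor.pr₁ P Q) s
  have h2 : J Q (W.push (snd (P.obj H.X) (Q.obj H.X))
        (W.pull (fst (P.obj H.X) (Q.obj H.X)) s * γ))
      = W.push (snd (P.obj H.X) (Q.obj H.X)) (J (.prod P Q)
        (W.pull (fst (P.obj H.X) (Q.obj H.X)) s * γ)) :=
    hJ.push (.prod P Q) Q _ (CoordMor.pr₂ P Q) _
  have h3 : J (.prod P Q) (W.pull (fst (P.obj H.X) (Q.obj H.X)) s * γ)
      = J (.prod P Q) (W.pull (fst (P.obj H.X) (Q.obj H.X)) s) * J (.prod P Q) γ :=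
    hJ.mul (.prod P Q) _ _
  rw [h2, h3, h1]
  rfl

theorem GeoSys.star {J : ∀ P : Prd m, W.coh (P.obj H.X) →ₛₗ[starRingEnd ℂ] W.coh (P.obj H.X)}
    (hJ : GeoSys H J) (P : Prd m) (s : W.coh (P.obj H.X)) :
    J P (PP.star (H.lamP P).1.slm.internal (Lop W (P.obj H.X) (P.pol W H.ξ)) (H.LamP P) s)
      = PP.star (H.lamP P).1.slm.internal (Lop W (P.obj H.X) (P.pol W H.ξ)) (H.LamP P) (J P s) :=
  HrPsi.j_star H.hW (H.memP P) (H.lamP P).2 (H.lamP P).1 (J P) (hJ.mul P) (hJ.gr P) (hJ.pol P) s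

variable (H)

/-! ### The action of an element of the group -/

variable (a1 : Alg1) (a2 : Alg2) (ge : H.GeFacts) {x : Matrix H.I H.I ℂ} (hx : IsG H.D x)

include ge hx in
theorem psi_gP (P : Prd m) (y z : W.coh (P.obj H.X)) :
    H.psiP P (GTI.gP H a1 x P y) (GTI.gP H a1 x P z) = H.psiP P y z := by
  rw [← ge.psi_tc, ← ge.psi_tc, GTI.tc_gP H a1 hx ge, GTI.tc_gP H a1 hx ge, a1.psiT_gT _ _ _ _ hx]

variable {J J' : ∀ P : Prd m, W.coh (P.obj H.X) →ₛₗ[starRingEnd ℂ] W.coh (P.obj H.X)}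
  (hJ : GeoSys H J) (hJ' : GeoSys H J')
  (hfix : ∀ P : Prd m, P.size ≤ 3 → ∀ z : W.coh (P.obj H.X), z ∈ tot W (P.obj H.X) →
    J P z = z → J' P z = z → GTI.gP H a1 x P z = z)

include a2 ge hx hJ hJ' hfix in
/-- commutation with the algebraic operators that commute with `J` and `J'` -/
theorem comm_gP (hsta : StaStatement.{w}) (P Q : Prd m) (hPQ : P.size + Q.size ≤ 3)
    {u : W.coh (P.obj H.X) →ₗ[ℂ] W.coh (Q.obj H.X)}
    (hu : AlgCor W (P.obj H.X) (Q.obj H.X) u) (hc : ∀ s, J Q (u s) = u (J P s))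
    (hc' : ∀ s, J' Q (u s) = u (J' P s)) (s : W.coh (P.obj H.X)) :
    GTI.gP H a1 x Q (u s) = u (GTI.gP H a1 x P s) := by
  have hSS : ∀ x, PP.star (H.lamP P).1.slm.internal (Lop W (P.obj H.X) (P.pol W H.ξ)) (H.LamP P)
      (PP.star (H.lamP P).1.slm.internal (Lop W (P.obj H.X) (P.pol W H.ξ)) (H.LamP P) x) = x :=
    (hsta (H.lamP P).1.slm).2.1
  have hu' : AlgCor W (P.obj H.X) (Q.obj H.X)
      (u ∘ₗ PP.star (H.lamP P).1.slm.internal (Lop W (P.obj H.X) (P.pol W H.ξ)) (H.LamP P)) :=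
    AlgCor.comp H.hW (H.memP P) (H.memP P) (H.memP Q) hu
      (algOp_star H.hW (H.memP P) (H.lamP P).2 (H.lamP P).1)
  obtain ⟨γ, hγ, h⟩ := hu'.exists_cor
  have h0 : ∀ x, cor W γ x
      = u (PP.star (H.lamP P).1.slm.internal (Lop W (P.obj H.X) (P.pol W H.ξ)) (H.LamP P) x) :=
    fun x => (LinearMap.congr_fun h x).symm
  have h3 : ∀ x, u x = cor W γ
      (PP.star (H.lamP P).1.slm.internal (Lop W (P.obj H.X) (P.pol W H.ξ)) (H.LamP P) x) := by
    intro x
    rw [h0, hSS]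
  have k1 : J (.prod P Q) γ = γ := hJ.ker P Q γ fun s => by
    rw [h0, h0, hc, hJ.star]
  have k2 : J' (.prod P Q) γ = γ := hJ'.ker P Q γ fun s => by
    rw [h0, h0, hc', hJ'.star]
  have k3 : GTI.gP H a1 x (.prod P Q) γ = γ := hfix (.prod P Q) hPQ γ hγ k1 k2
  obtain ⟨M, a, b, hab⟩ := TRC.exists_sum H.hW (H.memP P) (H.memP Q) γ
  have hab' : γ = ∑ ν, W.pull (fst (P.obj H.X) (Q.obj H.X)) (GTI.gP H a1 x P (a ν))
      * W.pull (snd (P.obj H.X) (Q.obj H.X)) (GTI.gP H a1 x Q (b ν)) := by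
    conv_lhs => rw [← k3, hab]
    refine (map_sum (GTI.gP H a1 x (.prod P Q)) _ _).trans ?_
    exact Finset.sum_congr rfl fun ν _ => GTI.gP_prod H a1 a2 hx ge P Q _ _
  have h4 : u s = ∑ ν, H.psiP P s (a ν) • b ν := by
    rw [h3]
    conv_lhs => rw [hab]
    exact GeoJ.cor_sum_star hsta H.hW (H.memP P) (H.memP Q) (H.lamP P).2 (H.lamP P).1 a b s
  have h5 : u (GTI.gP H a1 x P s) = ∑ ν, H.psiP P (GTI.gP H a1 x P s) (GTI.gP H a1 x P (a ν))
      • GTI.gP H a1 x Q (b ν) := by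
    rw [h3]
    conv_lhs => rw [hab']
    exact GeoJ.cor_sum_star hsta H.hW (H.memP P) (H.memP Q) (H.lamP P).2 (H.lamP P).1 _ _ _
  rw [h4, h5, map_sum]
  refine Finset.sum_congr rfl fun ν _ => ?_
  rw [map_smul, psi_gP H a1 ge hx]

include a2 ge hx hJ hJ' hfix in
/-- the action on the cohomology of a factor is multiplicative -/
theorem mul_gP (hsta : StaStatement.{w}) (a : Fin m) (y z : W.coh (H.X a)) :
    GTI.gP H a1 x (.leaf a) (y * z)
      = GTI.gP H a1 x (.leaf a) y * GTI.gP H a1 x (.leaf a) z := by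
  let P : Prd m := .prod (.leaf a) (.leaf a)
  let δ : H.X a ⟶ H.X a ⊗ H.X a := lift (𝟙 (H.X a)) (𝟙 (H.X a))
  have hδ : ∀ y z : W.coh (H.X a), W.pull δ (W.pull (fst (H.X a) (H.X a)) y
      * W.pull (snd (H.X a) (H.X a)) z) = y * z := by
    intro y z
    rw [map_mul (W.pull δ), ← W.pull_comp, ← W.pull_comp, lift_fst, lift_snd, W.pull_id, W.pull_id]
  have h1 : AlgCor W (P.obj H.X) ((Prd.leaf a).obj H.X)
      (W.pull (X := H.X a) (Y := H.X a ⊗ H.X a) δ).toLinearMap :=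
    AlgCor.pull H.hW (H.memP P) (H.mem a) δ
  have h2 := comm_gP H a1 a2 ge hx hJ hJ' hfix hsta P (.leaf a) (by change 1 + 1 + 1 ≤ 3; omega) h1
    (fun s => hJ.pull (.leaf a) P δ (CoordMor.diag (.leaf a) le_rfl) s)
    (fun s => hJ'.pull (.leaf a) P δ (CoordMor.diag (.leaf a) le_rfl) s)
    (W.pull (fst (H.X a) (H.X a)) y * W.pull (snd (H.X a) (H.X a)) z)
  have h3 : GTI.gP H a1 x P (W.pull (fst (H.X a) (H.X a)) y * W.pull (snd (H.X a) (H.X a)) z)
      = W.pull (fst (H.X a) (H.X a)) (GTI.gP H a1 x (.leaf a) y)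
        * W.pull (snd (H.X a) (H.X a)) (GTI.gP H a1 x (.leaf a) z) :=
    GTI.gP_prod H a1 a2 hx ge (.leaf a) (.leaf a) y z
  rw [h3] at h2
  have h4 : GTI.gP H a1 x (.leaf a) (W.pull δ (W.pull (fst (H.X a) (H.X a)) y
      * W.pull (snd (H.X a) (H.X a)) z)) = W.pull δ (W.pull (fst (H.X a) (H.X a))
        (GTI.gP H a1 x (.leaf a) y) * W.pull (snd (H.X a) (H.X a))
        (GTI.gP H a1 x (.leaf a) z)) := h2
  rw [hδ, hδ] at h4
  exact h4

include hJ hJ' hfix in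
theorem one_gP (a : Fin m) : GTI.gP H a1 x (.leaf a) 1 = 1 :=
  hfix (.leaf a) (by change 1 ≤ 3; omega) 1 (one_tot H.hW (H.mem a)) (hJ.one (.leaf a))
    (hJ'.one (.leaf a))

/-! ### Two elements of the group -/

/-- two multiplicative operators commute if they commute on generators -/
theorem comm_adjoin {R : Type*} [Ring R] [Algebra ℂ R] (f g : R →ₗ[ℂ] R)
    (mf : ∀ x y, f (x * y) = f x * f y) (mg : ∀ x y, g (x * y) = g x * g y) (f1 : f 1 = 1)
    (g1 : g 1 = 1) (s : Set R) (h : ∀ x ∈ s, f (g x) = g (f x)) (x : R)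
    (hx : x ∈ Algebra.adjoin ℂ s) : f (g x) = g (f x) := by
  induction hx using Algebra.adjoin_induction with
  | mem x hx => exact h x hx
  | algebraMap c =>
    rw [Algebra.algebraMap_eq_smul_one, map_smul, map_smul, map_smul, map_smul, f1, g1, f1]
  | add x y _ _ hx hy => rw [map_add, map_add, map_add, map_add, hx, hy]
  | mul x y _ _ hx hy => rw [mg, mf, mf, mg, hx, hy]

section ten

variable {I Λ : Type} [Fintype I] [DecidableEq I] [DecidableEq Λ] (D : Dat I Λ)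

/-- two matrices that agree on some letters agree on the tensors supported on these letters -/
theorem gT_congr {A B : Matrix I I ℂ} (hA : ∀ i j, D.typ i ≠ D.typ j → A i j = 0)
    (hB : ∀ i j, D.typ i ≠ D.typ j → B i j = 0) (Λ₀ : Set Λ)
    (hAB : ∀ i j, D.typ i ∈ Λ₀ → D.typ j ∈ Λ₀ → A i j = B i j) {L : ℕ} (u : Ten I L)
    (hu : ∀ w, u w ≠ 0 → ∀ l, D.typ (w l) ∈ Λ₀) : gT A u = gT B u := by
  funext w
  refine Finset.sum_congr rfl fun w' _ => ?_
  by_cases h0 : u w' = 0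
  · rw [h0, mul_zero, mul_zero]
  · congr 1
    refine Finset.prod_congr rfl fun l _ => ?_
    by_cases h : D.typ (w l) = D.typ (w' l)
    · exact hAB _ _ (by rw [h]; exact hu w' h0 l) (hu w' h0 l)
    · rw [hA _ _ h, hB _ _ h]

omit [DecidableEq Λ] in
theorem gT_single (A : Matrix I I ℂ) {L : ℕ} (w₀ w : Fin L → I) :
    gT A (Pi.single w₀ 1 : Ten I L) w = ∏ l, A (w l) (w₀ l) := by
  rw [gT, Finset.sum_eq_single w₀]
  · rw [Pi.single_eq_same, mul_one]
  · intro b _ hb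
    rw [Pi.single_eq_of_ne hb, mul_zero]
  · intro h
    exact absurd (Finset.mem_univ _) h

end ten

include a2 ge hJ hJ' in
/-- two elements of the group that act by ring automorphisms commute if they commute on
generators -/
theorem comm_of_gen (hsta : StaStatement.{w}) {p q : Matrix H.I H.I ℂ} (hp : IsG H.D p)
    (hq : IsG H.D q)
    (fp : ∀ P : Prd m, P.size ≤ 3 → ∀ z : W.coh (P.obj H.X), z ∈ tot W (P.obj H.X) →
      J P z = z → J' P z = z → GTI.gP H a1 p P z = z)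
    (fq : ∀ P : Prd m, P.size ≤ 3 → ∀ z : W.coh (P.obj H.X), z ∈ tot W (P.obj H.X) →
      J P z = z → J' P z = z → GTI.gP H a1 q P z = z)
    (d : Fin m → ℕ)
    (hd : ∀ a (x : W.coh (H.X a)), x ∈ Algebra.adjoin ℂ {v : W.coh (H.X a) |
      ∃ i ≤ d a, W.Deg (H.X a) i v})
    (h : ∀ i j, H.D.typ i ∈ {α : Fin m × ℕ | α.2 ≤ d α.1} →
      H.D.typ j ∈ {α : Fin m × ℕ | α.2 ≤ d α.1} → (p * q) i j = (q * p) i j) :
    p * q = q * p := by
  have hpq := a1.G_mul H.D p q hp hq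
  have hqp := a1.G_mul H.D q p hq hp
  have key : ∀ (a : Fin m) (v : W.coh (H.X a)),
      gT (p * q) (H.tc (.leaf a) v) = gT (q * p) (H.tc (.leaf a) v) →
      GTI.gP H a1 p (.leaf a) (GTI.gP H a1 q (.leaf a) v)
        = GTI.gP H a1 q (.leaf a) (GTI.gP H a1 p (.leaf a) v) := by
    intro a v hv
    refine ge.inj (.leaf a) ?_
    rw [GTI.tc_gP H a1 hp ge, GTI.tc_gP H a1 hq ge, GTI.tc_gP H a1 hq ge, GTI.tc_gP H a1 hp ge,
      ← a1.gT_mul, ← a1.gT_mul]
    exact hv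
  have all : ∀ (a : Fin m) (v : W.coh (H.X a)),
      GTI.gP H a1 p (.leaf a) (GTI.gP H a1 q (.leaf a) v)
        = GTI.gP H a1 q (.leaf a) (GTI.gP H a1 p (.leaf a) v) := by
    intro a v
    have mp := mul_gP H a1 a2 ge hp hJ hJ' fp hsta a
    have mq := mul_gP H a1 a2 ge hq hJ hJ' fq hsta a
    have op := one_gP H a1 hJ hJ' fp a
    have oq := one_gP H a1 hJ hJ' fq a
    refine comm_adjoin (R := W.coh (H.X a)) (GTI.gP H a1 p (.leaf a)) (GTI.gP H a1 q (.leaf a))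
      mp mq op oq _ ?_ v (hd a v)
    rintro v ⟨i, hi, hv⟩
    refine key a v (gT_congr H.D hpq.1 hqp.1 _ h _ fun w hw l => ?_)
    have h1 : (H.D.typ (w l)).1 = a := by
      by_contra hcon
      exact hw (ge.tc_off (.leaf a) v w ⟨l, hcon⟩)
    have h2 : ∑ l, (H.D.typ (w l)).2 = i := by
      by_contra hcon
      exact hw (GJ.tc_gr H ge hsta (.leaf a) hv w hcon)
    have h3 : (H.D.typ (w l)).2 = i := by
      rw [← h2]
      have h4 : l = (0 : Fin 1) := Subsingleton.elim (α := Fin 1) _ _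
      rw [h4]
      exact (Fin.sum_univ_one (fun i : Fin 1 => (H.D.typ (w i)).2)).symm
    change (H.D.typ (w l)).2 ≤ d (H.D.typ (w l)).1
    rw [h3, h1]
    exact hi
  ext i j
  by_cases hij : H.D.typ i = H.D.typ j
  swap
  · rw [hpq.1 i j hij, hqp.1 i j hij]
  obtain ⟨a, ha⟩ : ∃ a, a = (H.D.typ j).1 := ⟨_, rfl⟩
  let w₀ : Fin (Prd.leaf a).size → H.I := fun _ => j
  let w₁ : Fin (Prd.leaf a).size → H.I := fun _ => i
  have hoff : ¬ H.Off (.leaf a) w₀ := by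
    rintro ⟨_, h⟩
    exact h ha.symm
  obtain ⟨z, h1⟩ : ∃ z : W.coh ((Prd.leaf a).obj H.X), H.tc (.leaf a) z = Pi.single w₀ 1 := by
    refine ⟨_, ge.tc_sum (.leaf a) (Pi.single w₀ 1) fun w hw => ?_⟩
    rw [Pi.single_eq_of_ne]
    rintro rfl
    exact hoff hw
  have h2 : H.tc (.leaf a) (GTI.gP H a1 p (.leaf a) (GTI.gP H a1 q (.leaf a) z))
      = H.tc (.leaf a) (GTI.gP H a1 q (.leaf a) (GTI.gP H a1 p (.leaf a) z)) :=
    congrArg (H.tc (.leaf a)) (all a z)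
  rw [GTI.tc_gP H a1 hp ge, GTI.tc_gP H a1 hq ge, GTI.tc_gP H a1 hq ge, GTI.tc_gP H a1 hp ge,
    ← a1.gT_mul, ← a1.gT_mul, h1] at h2
  have h3 := congrFun h2 w₁
  rw [gT_single, gT_single] at h3
  have h4 : ∀ A : Matrix H.I H.I ℂ, ∏ l, A (w₁ l) (w₀ l) = A i j := fun A =>
    Fin.prod_univ_one (fun _ : Fin 1 => A i j)
  rwa [h4, h4] at h3

include a1 a2 ge in
/-- **Row (B4).** An element of the group that fixes the members of length at most `3` fixed by
`J₀` and `y J₀ y⁻¹` commutes with `k` if it commutes with `k` on the letters that belong to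
generators of the cohomology of the factors. -/
theorem hgen (hsta : StaStatement.{w}) (hJ0 : H.J0Facts J) (hJ' : GeoSys H J')
    {y : Matrix H.I H.I ℂ}
    (htc : ∀ (P : Prd m) (z : W.coh (P.obj H.X)), H.tc P (J' P z)
      = gT y (jT H.D (gT y⁻¹ (H.tc P z)))) {k : Matrix H.I H.I ℂ} (hk : IsG H.D k)
    (hkf : ∀ (L : ℕ) (u : Ten H.I L), u ∈ H.At L → jT H.D u = u → gT k u = u)
    (d : Fin m → ℕ)
    (hd : ∀ a (x : W.coh (H.X a)), x ∈ Algebra.adjoin ℂ {v : W.coh (H.X a) |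
      ∃ i ≤ d a, W.Deg (H.X a) i v}) (p : Matrix H.I H.I ℂ) (hp : IsG H.D p)
    (hpf : ∀ L ≤ 3, ∀ u : Ten H.I L, u ∈ H.At L → jT H.D u = u →
      gT y (jT H.D (gT y⁻¹ u)) = u → gT p u = u)
    (h : ∀ i j, H.D.typ i ∈ {α : Fin m × ℕ | α.2 ≤ d α.1} →
      H.D.typ j ∈ {α : Fin m × ℕ | α.2 ≤ d α.1} → (p * k) i j = (k * p) i j) :
    p * k = k * p := by
  have hmem : ∀ (P : Prd m) (z : W.coh (P.obj H.X)), z ∈ tot W (P.obj H.X) →
      H.tc P z ∈ H.At P.size := fun P z hz =>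
    AddSubgroup.subset_closure (Or.inr ⟨P, rfl, z, hz, rfl⟩)
  refine comm_of_gen H a1 a2 ge (GeoSys.of_j0 hJ0) hJ' hsta hp hk ?_ ?_ d hd h
  · intro P hP z hz h1 h2
    refine ge.inj P ?_
    rw [GTI.tc_gP H a1 hp ge]
    exact hpf P.size hP _ (hmem P z hz) (by rw [← hJ0.tc, h1]) (by rw [← htc, h2])
  · intro P _ z hz h1 _
    refine ge.inj P ?_
    rw [GTI.tc_gP H a1 hk ge]
    exact hkf P.size _ (hmem P z hz) (by rw [← hJ0.tc, h1])

/-- the cohomology algebra of an abelian variety is generated in degree one -/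
theorem adjoin_of_abelianType {X : Sch k} {g : ℕ} (hA : AbelianType W X g) (x : W.coh X) :
    x ∈ Algebra.adjoin ℂ {v : W.coh X | ∃ i ≤ 1, W.Deg X i v} := by
  have h : ({v : W.coh X | W.Deg X 1 v} : Set (W.coh X)) ⊆
      {v : W.coh X | ∃ i ≤ 1, W.Deg X i v} := fun v hv => ⟨1, le_rfl, hv⟩
  exact Algebra.adjoin_mono h (hA.gen x)

end WGen

end Pool.Agent.Lib.MP_361a6f_ag.FL
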