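import Pool.Agent.Lib.MP_361a6f_ag.FL.Qps

/-!
# Statement of the abstract part of the theorem that the grading does not depend on the lift
-/

open Filter Topology

set_option autoImplicit false

namespace Pool.Agent.Lib.MP_361a6f_ag.FL

/-- **Row WABS.** Let `g j` and `k` be as in the graded form, for all lengths, and `J' = y J₀ y⁻¹`
for an element `y` of the group. Suppose that `k` fixes the limits of the members of length `2`
that are supported on the pairs of equal letters in `Λ₀`, and that an element `p` of the group that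
fixes the members of length at most `M` fixed by `J₀` and `J'` commutes with `k` as soon as it
commutes with `k` on the letters in `Λ₀`. Then `k` fixes the limits of all members that are fixed
by `J'`. -/
def WAbsStatement : Prop :=
  ∀ {I Λ : Type} [Fintype I] [DecidableEq I] [DecidableEq Λ] {D : Dat I Λ}
    {At : (L : ℕ) → Ten I L → Prop}, ASys D At → ∀ (F : Filter ℕ) [F.NeBot]
    (g : ℕ → Matrix I I ℂ) (k : Matrix I I ℂ), (∀ j, IsG D (g j)) → IsK D k →
    (∀ (L : ℕ) (u : Ten I L), At L u → jT D u = u → ∀ j, gT (g j) u = u) →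
    (∀ (L : ℕ) (u : Ten I L), At L u → ∃ v u' : Ten I L,
      Tendsto (fun j => gT (g j) u) F (𝓝 v) ∧ jT D v = gT k v ∧ gT k (gT k v) = v ∧
      u' ∈ Submodule.span ℝ {x : Ten I L | At L x} ∧
      Tendsto (fun j => gT (g j) u') F (𝓝 (gT k v))) →
    ∀ (y : Matrix I I ℂ), IsG D y → ∀ (M : ℕ) (Λ₀ : Set Λ),
    (∀ u v : Ten I 2, At 2 u →
      (∀ w, ¬ (D.typ (w 0) = D.typ (w 1) ∧ D.typ (w 0) ∈ Λ₀) → u w = 0) →
      Tendsto (fun j => gT (g j) u) F (𝓝 v) → gT k v = v) →
    (∀ p : Matrix I I ℂ, IsG D p →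
      (∀ L ≤ M, ∀ u : Ten I L, At L u → jT D u = u → gT y (jT D (gT y⁻¹ u)) = u → gT p u = u) →
      (∀ i j, D.typ i ∈ Λ₀ → D.typ j ∈ Λ₀ → (p * k) i j = (k * p) i j) → p * k = k * p) →
    ∀ (L : ℕ) (u v : Ten I L), At L u → gT y (jT D (gT y⁻¹ u)) = u →
      Tendsto (fun j => gT (g j) u) F (𝓝 v) → gT k v = v

end Pool.Agent.Lib.MP_361a6f_ag.FL
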