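import Pool.Agent.Lib.MP_361a6f_ag.FL.C.Car
import Pool.Agent.Lib.MP_361a6f_ag.FL.B.Jl

/-!
# Two real structures: abstract part

`γ` is an element of the group such that `J' = γ J₀` is positive for `ψ`. Then `γ` is positive
definite and `J' = y J₀ y⁻¹` for its positive square root `y`.
-/

set_option autoImplicit false
set_option linter.unusedSectionVars false

open Matrix
open scoped MatrixOrder ComplexOrder

namespace Pool.Agent.Lib.MP_361a6f_ag.FL

namespace WGeo

variable {I Λ : Type} [Fintype I] [DecidableEq I] [DecidableEq Λ] {D : Dat I Λ}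

/-- `J₀ g = (g*)⁻¹ J₀` -/
theorem jT_gT' {g : Matrix I I ℂ} (hg : IsG D g) {L : ℕ} (u : Ten I L) :
    jT D (gT g u) = gT (gᴴ)⁻¹ (jT D u) := by
  have hgH := Car.isG_adj D hg
  have hi := alg1.G_inv D _ hgH
  have key : ∀ x : Ten I L, psiT D x (jT D (gT g u)) = psiT D x (gT (gᴴ)⁻¹ (jT D u)) := by
    intro x
    have h1 : gT gᴴ (gT (gᴴ)⁻¹ (jT D u)) = jT D u := by
      rw [← alg1.gT_mul, hi.2.1, alg1.gT_one]
    calc psiT D x (jT D (gT g u)) = hT x (gT g u) := alg1.psiT_jT D _ _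
      _ = starRingEnd ℂ (hT (gT g u) x) := (alg1.hT_conj _ _).symm
      _ = starRingEnd ℂ (hT u (gT gᴴ x)) := by rw [alg1.hT_gT]
      _ = hT (gT gᴴ x) u := alg1.hT_conj _ _
      _ = psiT D (gT gᴴ x) (jT D u) := (alg1.psiT_jT D _ _).symm
      _ = psiT D (gT gᴴ x) (gT gᴴ (gT (gᴴ)⁻¹ (jT D u))) := by rw [h1]
      _ = psiT D x (gT (gᴴ)⁻¹ (jT D u)) := alg1.psiT_gT D _ _ _ hgH
  -- the form `ψ` is nondegenerate
  have nd : ∀ v v' : Ten I L, (∀ x, psiT D x v = psiT D x v') → v = v' := by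
    intro v v' h
    have h4 : ∀ v : Ten I L, jT D (jT D (jT D (jT D v))) = v := JlT.jT4 D
    have e : ∀ v x : Ten I L, hT (jT D (jT D (jT D v))) x = starRingEnd ℂ (psiT D x v) := by
      intro v x
      rw [← alg1.hT_conj x _, ← alg1.psiT_jT D, h4]
    have h5 : jT D (jT D (jT D v)) = jT D (jT D (jT D v')) :=
      Car.eq_of_hT fun x => by rw [e, e, h]
    rw [← h4 v, h5, h4]
  exact nd _ _ key

/-- conjugation of `J₀` by the positive square root -/
theorem root {γ : Matrix I I ℂ} (hγ : IsG D γ) (hp : γ.PosDef) :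
    ∃ y, IsG D y ∧ ∀ (L : ℕ) (u : Ten I L), gT y (jT D (gT y⁻¹ u)) = gT γ (jT D u) := by
  have hy : IsG D (CFC.sqrt γ) :=
    (Car.St.sqrt (κ := Empty) (ln := fun _ => 0) (b := fun x => x.elim) hp
      ⟨hγ, fun x => x.elim⟩).1
  refine ⟨CFC.sqrt γ, hy, fun L u => ?_⟩
  have hi := alg1.G_inv D _ hy
  rw [jT_gT' hi.1, ← alg1.gT_mul]
  congr 1
  rw [Matrix.conjTranspose_nonsing_inv, Car.sqrt_herm hp]
  have h1 : (CFC.sqrt γ)⁻¹⁻¹ = CFC.sqrt γ := by
    refine Matrix.inv_eq_right_inv hi.2.2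
  rw [h1, Car.sqrt_mul hp]

/-- a matrix with a real quadratic form is hermitian -/
theorem herm_of_real {M : Matrix I I ℂ} (h : ∀ v : I → ℂ, (star v ⬝ᵥ (M *ᵥ v)).im = 0) :
    M.IsHermitian := by
  rw [← Matrix.isSymmetric_toEuclideanLin_iff, LinearMap.isSymmetric_iff_inner_map_self_real]
  intro v
  have h1 : inner ℂ (M.toEuclideanLin v) v = starRingEnd ℂ (star v.ofLp ⬝ᵥ (M *ᵥ v.ofLp)) := by
    rw [EuclideanSpace.inner_eq_star_dotProduct]
    have h2 : (M.toEuclideanLin v).ofLp = M *ᵥ v.ofLp := rfl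
    rw [h2, dotProduct_star, dotProduct_comm]
    rfl
  rw [h1, Complex.conj_conj]
  exact (Complex.conj_eq_iff_im.2 (h _)).symm

/-- the part of a tensor of length one on a block -/
def cut {μ : Type} [DecidableEq μ] (lab : I → μ) (a : μ) (u : Ten I 1) : Ten I 1 :=
  fun w => if lab (w 0) = a then u w else 0

/-- a matrix with blocks -/
theorem hT_blocks {μ : Type} [Fintype μ] [DecidableEq μ] (lab : I → μ) {M : Matrix I I ℂ}
    (hM : ∀ i j, lab i ≠ lab j → M i j = 0) (u : Ten I 1) :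
    hT (gT M u) u = ∑ a : μ, hT (gT M (cut lab a u)) (cut lab a u) := by
  have h1 : ∀ (v : Ten I 1) (w : Fin 1 → I), gT M v w = ∑ w', M (w 0) (w' 0) * v w' := by
    intro v w
    rw [gT]
    exact Finset.sum_congr rfl fun w' _ => by rw [Fin.prod_univ_one]
  simp only [hT]
  rw [Finset.sum_comm]
  refine Finset.sum_congr rfl fun w _ => ?_
  rw [Finset.sum_eq_single (lab (w 0))]
  · have h2 : gT M (cut lab (lab (w 0)) u) w = gT M u w := by
      rw [h1, h1]
      refine Finset.sum_congr rfl fun w' _ => ?_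
      by_cases h : lab (w' 0) = lab (w 0)
      · rw [cut, if_pos h]
      · rw [hM _ _ (fun h' => h h'.symm), zero_mul, zero_mul]
    rw [h2, cut, if_pos rfl]
  · intro a _ ha
    rw [cut, if_neg (fun h => ha h.symm), map_zero, mul_zero]
  · intro h
    exact absurd (Finset.mem_univ _) h

/-- positive definiteness from positivity on every block -/
theorem posDef_of_blocks {μ : Type} [Fintype μ] [DecidableEq μ] (lab : I → μ)
    {M : Matrix I I ℂ} (hM : ∀ i j, lab i ≠ lab j → M i j = 0)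
    (h : ∀ (a : μ) (u : Ten I 1), (∀ w, lab (w 0) ≠ a → u w = 0) → u ≠ 0 →
      ∃ r : ℝ, 0 < r ∧ hT (gT M u) u = (r : ℂ)) : M.PosDef := by
  have key : ∀ v : I → ℂ, v ≠ 0 → ∃ r : ℝ, 0 < r ∧ star v ⬝ᵥ (M *ᵥ v) = (r : ℂ) := by
    intro v hv
    obtain ⟨u, hu⟩ : ∃ u : Ten I 1, u = fun w => v (w 0) := ⟨_, rfl⟩
    have e : star v ⬝ᵥ (M *ᵥ v) = hT (gT M u) u := by
      rw [hT, dotProduct, ← Equiv.sum_comp (Equiv.funUnique (Fin 1) I)]
      refine Finset.sum_congr rfl fun w _ => ?_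
      have e1 : gT M u w = (M *ᵥ v) (w 0) := by
        rw [gT, mulVec, dotProduct, ← Equiv.sum_comp (Equiv.funUnique (Fin 1) I)]
        refine Finset.sum_congr rfl fun w' _ => ?_
        rw [Fin.prod_univ_one, hu]
        rfl
      rw [e1, hu, mul_comm]
      rfl
    have h0 : ∀ a, hT (gT M (cut lab a u)) (cut lab a u) = 0 ∨
        ∃ r : ℝ, 0 < r ∧ hT (gT M (cut lab a u)) (cut lab a u) = (r : ℂ) := by
      intro a
      by_cases hc : cut lab a u = 0
      · left
        rw [hc, hT]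
        exact Finset.sum_eq_zero fun w _ => by rw [Pi.zero_apply, map_zero, mul_zero]
      · right
        refine h a _ (fun w hw => ?_) hc
        rw [cut, if_neg (fun h => hw h)]
    obtain ⟨x, hx⟩ : ∃ x, v x ≠ 0 := by
      by_contra hcon
      push Not at hcon
      exact hv (funext hcon)
    have hx' : cut lab (lab x) u ≠ 0 := by
      intro h1
      have h2 := congrFun h1 (fun _ => x)
      rw [cut, if_pos rfl, hu] at h2
      exact hx h2
    have h3 : ∀ a, ∃ r : ℝ, 0 ≤ r ∧ (lab x = a → 0 < r) ∧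
        hT (gT M (cut lab a u)) (cut lab a u) = (r : ℂ) := by
      intro a
      by_cases ha : lab x = a
      · subst ha
        obtain ⟨r, hr, h4⟩ := h (lab x) _ (fun w hw => by rw [cut, if_neg (fun h => hw h)]) hx'
        exact ⟨r, hr.le, fun _ => hr, h4⟩
      · rcases h0 a with h4 | ⟨r, hr, h4⟩
        · exact ⟨0, le_refl _, fun h => absurd h ha, by rw [h4, Complex.ofReal_zero]⟩
        · exact ⟨r, hr.le, fun h => absurd h ha, h4⟩
    choose r hr hr' hrr using h3
    refine ⟨∑ a, r a, ?_, ?_⟩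
    · exact Finset.sum_pos' (fun a _ => hr a) ⟨lab x, Finset.mem_univ _, hr' _ rfl⟩
    · rw [e, hT_blocks lab hM, Complex.ofReal_sum]
      exact Finset.sum_congr rfl fun a _ => hrr a
  refine Matrix.PosDef.of_dotProduct_mulVec_pos (herm_of_real fun v => ?_) fun v hv => ?_
  · by_cases hv : v = 0
    · rw [hv, star_zero, zero_dotProduct, Complex.zero_im]
    · obtain ⟨r, -, h1⟩ := key v hv
      rw [h1, Complex.ofReal_im]
  · obtain ⟨r, hr, h1⟩ := key v hv
    rw [h1]
    exact_mod_cast hr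

end WGeo

end Pool.Agent.Lib.MP_361a6f_ag.FL
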