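import Pool.Agent.Lib.MP_361a6f_ag.FL.C.Gam
import Pool.Agent.Lib.MP_361a6f_ag.FL.B.Hri
import Pool.Agent.Lib.MP_361a6f_ag.FL.B.PosL
import Pool.Agent.Lib.MP_361a6f_ag.FL.B.TalB
import Pool.Agent.Lib.MP_361a6f_ag.FL.A.Let
import Pool.Agent.Lib.MP_361a6f_ag.FL.Z.WGeoA
import Pool.Agent.Lib.MP_361a6f_ag.FL.Z.WDef
import Pool.Agent.Lib.MP_361a6f_ag.FL.Z.Ze3

/-!
# The grading does not depend on the lift: geometric part
-/

open CategoryTheory AlgebraicGeometry MonoidalCategory CartesianMonoidalCategory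
open Filter Topology
open scoped MatrixOrder ComplexOrder

universe u v w

set_option autoImplicit false
set_option linter.unusedSectionVars false

namespace Pool.Agent.Lib.MP_361a6f_ag.FL

open Pool.Agent.Lib.MP_361a6f_ag.H3 Pool.Agent.Lib.MP_361a6f_ag.SQ
  Pool.Agent.Lib.MP_361a6f_ag.IP2 Pool.Agent.Lib.MP_361a6f_ag.PP

namespace WGeo

variable {k : Type u} [Field k] {W : CohomologyData.{u, 0, w} k ℂ} {𝒱 : VarietyClass k} {m : ℕ}
  (H : Host W 𝒱 m) (ge : H.GeFacts) (hsta : StaStatement.{w}) (a1 : Alg1) (a2 : Alg2)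
  {J J' : ∀ P : Prd m, W.coh (P.obj H.X) →ₛₗ[starRingEnd ℂ] W.coh (P.obj H.X)}
  (hJ : H.J0Facts J)
  (hp : ∀ (P Q : Prd m) (y : W.coh (P.obj H.X)) (z : W.coh (Q.obj H.X)),
    J (.prod P Q) (W.ext y z) = W.ext (J P y) (J Q z))
  (hJ' : ∀ a, HRStr W (H.X a) (H.n a) (H.ξ a) (J' (.leaf a)))
  (hp' : ∀ (P Q : Prd m) (y : W.coh (P.obj H.X)) (z : W.coh (Q.obj H.X)),
    J' (.prod P Q) (W.ext y z) = W.ext (J' P y) (J' Q z))
  (hpos : ∀ a, PositiveDivisor W (H.X a) (H.n a) (H.ξ a))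

/-- the operators `J' J⁻¹` -/
noncomputable def Fop (J J' : ∀ P : Prd m, W.coh (P.obj H.X) →ₛₗ[starRingEnd ℂ]
    W.coh (P.obj H.X)) (P : Prd m) : W.coh (P.obj H.X) →ₗ[ℂ] W.coh (P.obj H.X) :=
  ((J' P).comp (J P)).comp ((J P).comp (J P))

theorem Fop_apply (P : Prd m) (z : W.coh (P.obj H.X)) :
    Fop H J J' P z = J' P (J P (J P (J P z))) := rfl

include hp hp' in
theorem Fop_ext (P Q : Prd m) (y : W.coh (P.obj H.X)) (z : W.coh (Q.obj H.X)) :
    Fop H J J' (.prod P Q) (W.ext y z) = W.ext (Fop H J J' P y) (Fop H J J' Q z) := by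
  rw [Fop_apply, hp, hp, hp, hp']
  rfl

include ge hJ in
theorem Fop_J (P : Prd m) (z : W.coh (P.obj H.X)) : Fop H J J' P (J P z) = J' P z := by
  rw [Fop_apply]
  congr 1
  refine ge.inj P ?_
  rw [hJ.tc, hJ.tc, hJ.tc, hJ.tc, JlT.jT4]

include hJ hJ' in
theorem Fop_sym (a : Fin m) : SymStr W (H.X a) (H.n a) (H.ξ a) 1 (Fop H J J' (.leaf a)) where
  cup x y := by
    have h1 : ∀ x y : W.coh (H.X a), J (.leaf a) (W.cup x y)
        = W.cup (J (.leaf a) x) (J (.leaf a) y) := hJ.mul (.leaf a)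
    have h2 : ∀ x y : W.coh (H.X a), J' (.leaf a) (W.cup x y)
        = W.cup (J' (.leaf a) x) (J' (.leaf a) y) := (hJ' a).cup
    change J' (.leaf a) (J (.leaf a) (J (.leaf a) (J (.leaf a) (W.cup x y)))) = _
    rw [h1, h1, h1, h2]
    rfl
  deg i x hx := (hJ' a).deg i _ ((hJ.rs (.leaf a)).gr i _ ((hJ.rs (.leaf a)).gr i _
    ((hJ.rs (.leaf a)).gr i _ hx)))
  pol := by
    have h1 : J (.leaf a) (H.ξ a) = H.ξ a := Jl85.pol_fixed (hJ.rs (.leaf a))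
    change J' (.leaf a) (J (.leaf a) (J (.leaf a) (J (.leaf a) (H.ξ a)))) = _
    have h2 : J' (.leaf a) (H.ξ a) = H.ξ a := (hJ' a).pol
    rw [h1, h1, h1, h2, Rat.cast_one]
    exact (one_smul ℂ (H.ξ a)).symm
  tr x := by
    have h1 : ∀ x : W.coh ((Prd.leaf a).obj H.X), W.tr ((Prd.leaf a).obj H.X) (J (.leaf a) x)
        = starRingEnd ℂ (W.tr ((Prd.leaf a).obj H.X) x) := PhiF.tr_of_rs (hJ.rs (.leaf a))
    have h2 : ∀ x : W.coh ((Prd.leaf a).obj H.X), W.tr ((Prd.leaf a).obj H.X) (J' (.leaf a) x)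
        = starRingEnd ℂ (W.tr ((Prd.leaf a).obj H.X) x) := (hJ' a).tr
    have h3 : W.tr ((Prd.leaf a).obj H.X) (J' (.leaf a) (J (.leaf a) (J (.leaf a)
        (J (.leaf a) x)))) = W.tr ((Prd.leaf a).obj H.X) x := by
      rw [h2, h1, h1, h1, Complex.conj_conj, Complex.conj_conj]
    refine h3.trans ?_
    rw [Rat.cast_one, one_pow, one_mul]
    rfl

include ge hsta a1 a2 hJ hp hJ' hp' in
/-- the operators `J'` in coordinates -/
theorem tc_J' (P : Prd m) (z : W.coh (P.obj H.X)) :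
    H.tc P (J' P z) = gT (PhiF.gam H 1 (Fop H J J')) (jT H.D (H.tc P z)) := by
  have hF := Fop_sym H hJ hJ'
  have hFp := Fop_ext H hp hp'
  have h1 : ∀ z : W.coh (P.obj H.X), J' P z = PhiF.K H a1 (PhiF.gam H 1 (Fop H J J')) P z := by
    intro z
    refine H.hW.hom_induction (H.memP P)
      (P := fun z => J' P z = PhiF.K H a1 (PhiF.gam H 1 (Fop H J J')) P z) z ?_ ?_ ?_
    · intro d z hz
      rw [PhiF.K_eq H ge hsta a1 a2 one_ne_zero hF hFp hJ P hz, Fop_J H ge hJ, one_pow, inv_one,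
        one_smul]
    · rw [map_zero, map_zero]
    · intro y y' h h'
      rw [map_add, map_add, h, h']
  rw [h1, PhiF.tc_K H a1 (PhiF.gam_letters H ge hsta hF) ge]

include ge hsta a1 a2 hJ hp hJ' hp' hpos in
/-- **(B1)** `J'` is a conjugate of `J₀` -/
theorem exists_y : ∃ y, IsG H.D y ∧ ∀ (P : Prd m) (z : W.coh (P.obj H.X)),
    H.tc P (J' P z) = gT y (jT H.D (gT y⁻¹ (H.tc P z))) := by
  have hF := Fop_sym H hJ hJ'
  have hFp := Fop_ext H hp hp'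
  obtain ⟨γ, hγd⟩ : ∃ γ, γ = PhiF.gam H 1 (Fop H J J') := ⟨_, rfl⟩
  have hG : IsG H.D γ := by
    rw [hγd]
    exact PhiF.gam_G H ge hsta a1 a2 one_ne_zero (by rw [Rat.cast_one, one_pow]) hF hFp hJ
  have htc := tc_J' H ge hsta a1 a2 hJ hp hJ' hp'
  rw [← hγd] at htc
  have hi := a1.G_inv H.D _ hG
  have hpd : (γ⁻¹).PosDef := by
    refine posDef_of_blocks (fun i => (H.D.typ i).1)
      (fun i j h => hi.1.1 i j fun h' => h (by rw [h'])) fun a u hu h0 => ?_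
    obtain ⟨z, hz⟩ : ∃ z : W.coh ((Prd.leaf a).obj H.X), H.tc (.leaf a) z = u := by
      refine ⟨_, ge.tc_sum (.leaf a) u fun w hw => ?_⟩
      obtain ⟨i, hi⟩ := hw
      exact hu w fun h' => hi ((congrArg (fun i => (H.D.typ (w i)).1)
        (Subsingleton.elim (α := Fin 1) i 0)).trans h')
    have hz0 : z ≠ 0 := by
      rintro rfl
      rw [map_zero] at hz
      exact h0 hz.symm
    obtain ⟨r, hr, h1⟩ := (hri H.hW (H.mem a) (hpos a) (H.lam a) (J' (.leaf a)) (hJ' a)).pos z hz0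
    refine ⟨r, hr, ?_⟩
    have h2 : H.psiP (.leaf a) z (J' (.leaf a) z) = (r : ℂ) := h1
    rw [← ge.psi_tc, htc, hz] at h2
    have h3 : gT γ (gT γ⁻¹ u) = u := by rw [← a1.gT_mul, hi.2.1, a1.gT_one]
    calc hT (gT γ⁻¹ u) u = psiT H.D (gT γ⁻¹ u) (jT H.D u) := (a1.psiT_jT H.D _ _).symm
      _ = psiT H.D (gT γ (gT γ⁻¹ u)) (gT γ (jT H.D u)) := (a1.psiT_gT H.D _ _ _ hG).symm
      _ = psiT H.D u (gT γ (jT H.D u)) := by rw [h3]
      _ = (r : ℂ) := h2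
  have hpd' : γ.PosDef := by
    have h1 := hpd.inv
    rwa [Matrix.inv_eq_right_inv hi.2.2] at h1
  obtain ⟨y, hy, h⟩ := root hG hpd'
  exact ⟨y, hy, fun P z => by rw [htc, h]⟩

/-! ### The classes of small codimension on `X_a × X_a` -/

theorem prW_lim {F : Filter ℕ} {I Λ : Type} [Fintype I] [DecidableEq I] [DecidableEq Λ]
    {D : Dat I Λ} {L : ℕ} (α : Fin L → Λ) {y : ℕ → Ten I L} {v : Ten I L}
    (h : Tendsto y F (𝓝 v)) : Tendsto (fun j => prW D α (y j)) F (𝓝 (prW D α v)) := by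
  rw [tendsto_pi_nhds] at h ⊢
  intro w
  simp only [TalB.prW_apply]
  by_cases hw : ∀ i, D.typ (w i) = α i
  · simp only [if_pos hw]
    exact h w
  · simp only [if_neg hw]
    exact tendsto_const_nhds

theorem lw_two (a : Fin m) (j : Fin (Prd.prod (.leaf a) (.leaf a) : Prd m).size) :
    (Prd.prod (.leaf a) (.leaf a) : Prd m).lw j = a := by
  have h : ∀ j : Fin (1 + 1), Fin.append (fun _ : Fin 1 => a) (fun _ : Fin 1 => a) j = a := by
    intro j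
    refine Fin.addCases (fun i => ?_) (fun i => ?_) j
    · rw [Fin.append_left]
    · rw [Fin.append_right]
  exact h j

variable {F : Filter ℕ} [F.NeBot] {g : ℕ → Matrix H.I H.I ℂ} {κ : Matrix H.I H.I ℂ}
  {A : ℕ → ∀ P : Prd m, Module.End ℂ (W.coh (P.obj H.X))}
  {K : ∀ P : Prd m, Module.End ℂ (W.coh (P.obj H.X))}
  (hg : ∀ j, IsG H.D (g j)) (hκ : IsK H.D κ)
  (hA : ∀ j, ZOps H J (g j) (A j)) (hK : ZOps H J κ K) (d : Fin m → ℕ)
  (hev : ∀ a, ∀ l ≤ d a, ∀ z, W.IsAlg ((Prd.prod (.leaf a) (.leaf a) : Prd m).obj H.X) l z →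
    z ∈ ZE.CZ H J A K F 0 (.prod (.leaf a) (.leaf a)) l)

include ge hg hA hK hev in
theorem ev_letter (gr : H.RelFacts) {u v : Ten H.I 2} (hu : u ∈ H.At 2)
    (hl : Tendsto (fun j => gT (g j) u) F (𝓝 v)) (α : Fin m × ℕ) (hα : α.2 ≤ d α.1) :
    gT κ (prW H.D (fun _ : Fin 2 => α) v) = prW H.D (fun _ : Fin 2 => α) v := by
  obtain ⟨u', hu'⟩ : ∃ u', u' = prW H.D (fun _ : Fin 2 => α) u := ⟨_, rfl⟩
  have hat : u' ∈ H.At 2 := by
    rw [hu']
    exact LET.at_letters H (fun _ : Fin 2 => α) hu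
  obtain ⟨z, hz, htc⟩ := PosL.at_word H gr ge (.prod (.leaf α.1) (.leaf α.1)) (fun _ => α)
    (fun j => (lw_two α.1 j).symm) α.2 (by
      rw [Finset.sum_const, Finset.card_univ, Fintype.card_fin, smul_eq_mul]
      rfl) (u := u') hat (fun w hw => by
      rw [hu']
      exact TalB.prW_on (fun _ : Fin 2 => α) u w hw)
  obtain ⟨⟨-, s, h1, -, h3⟩, -⟩ := (ZE.CZ_zero H).1 (hev α.1 α.2 hα z hz)
  rw [Complex.ofReal_one, one_smul] at h3
  have h4 : Tendsto (fun j => gT (g j) u') F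
      (𝓝 (H.tc (.prod (.leaf α.1) (.leaf α.1)) s : Ten H.I 2)) := by
    have e : (fun j => H.tc (.prod (.leaf α.1) (.leaf α.1)) (A j (.prod (.leaf α.1)
        (.leaf α.1)) z)) = fun j => gT (g j) u' := by
      funext j
      rw [(hA j).tc, htc]
      rfl
    rw [← e]
    exact h1
  have h5 : Tendsto (fun j => gT (g j) u') F (𝓝 (prW H.D (fun _ : Fin 2 => α) v)) := by
    have e : (fun j => gT (g j) u') = fun j => prW H.D (fun _ : Fin 2 => α) (gT (g j) u) := by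
      funext j
      rw [TalB.prW_gT _ (hg j), hu']
    rw [e]
    exact prW_lim _ hl
  rw [← tendsto_nhds_unique h4 h5]
  have h6 := hK.tc (.prod (.leaf α.1) (.leaf α.1)) s
  rw [h3] at h6
  exact h6.symm

include ge hg hκ hA hK hev in
/-- **(B2)** -/
theorem ev_two (gr : H.RelFacts) (u v : Ten H.I 2) (hu : u ∈ H.At 2)
    (hs : ∀ w, ¬ (H.D.typ (w 0) = H.D.typ (w 1) ∧ H.D.typ (w 0) ∈ {α : Fin m × ℕ | α.2 ≤ d α.1}) →
      u w = 0) (hl : Tendsto (fun j => gT (g j) u) F (𝓝 v)) : gT κ v = v := by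
  have hS : ∀ w w' : Fin 2 → H.I, (∀ i, H.D.typ (w i) = H.D.typ (w' i)) →
      ¬ (H.D.typ (w 0) = H.D.typ (w 1) ∧ H.D.typ (w 0) ∈ {α : Fin m × ℕ | α.2 ≤ d α.1}) →
      ¬ (H.D.typ (w' 0) = H.D.typ (w' 1) ∧
        H.D.typ (w' 0) ∈ {α : Fin m × ℕ | α.2 ≤ d α.1}) := by
    intro w w' h hw hw'
    rw [← h 0, ← h 1] at hw'
    exact hw hw'
  have hv : ∀ w : Fin 2 → H.I, ¬ (H.D.typ (w 0) = H.D.typ (w 1) ∧
      H.D.typ (w 0) ∈ {α : Fin m × ℕ | α.2 ≤ d α.1}) → v w = 0 := by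
    intro w hw
    have h1 := (tendsto_pi_nhds.mp hl) w
    have h2 : (fun j => gT (g j) u w) = fun _ => 0 := by
      funext j
      exact GJ.gT_supp H.D (hg j) _ hS hs w hw
    rw [h2] at h1
    exact tendsto_nhds_unique h1 tendsto_const_nhds
  funext w
  by_cases hw : H.D.typ (w 0) = H.D.typ (w 1) ∧ H.D.typ (w 0) ∈ {α : Fin m × ℕ | α.2 ≤ d α.1}
  · have h1 := ev_letter H ge hg hA hK d hev gr hu hl (H.D.typ (w 0)) hw.2
    have hw' : ∀ i : Fin 2, H.D.typ (w i) = (fun _ : Fin 2 => H.D.typ (w 0)) i := by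
      intro i
      fin_cases i
      · rfl
      · exact hw.1.symm
    have h2 := congrFun h1 w
    rw [← TalB.prW_gT _ hκ.1, TalB.prW_apply, TalB.prW_apply, if_pos hw', if_pos hw'] at h2
    exact h2
  · rw [hv w hw]
    exact GJ.gT_supp H.D hκ.1 _ hS hv w hw

include ge hsta a1 a2 hJ hp hJ' hp' hpos hg hκ hA hK hev in
/-- **(B3)** The classes fixed by `J'` are even. -/
theorem wgeo (hw : WAbsStatement) (gr : H.RelFacts)
    (S : ASys H.D fun L u => u ∈ H.At L)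
    (hfix : ∀ (L : ℕ) (u : Ten H.I L), u ∈ H.At L → jT H.D u = u → ∀ j, gT (g j) u = u)
    (hlim : ∀ (L : ℕ) (u : Ten H.I L), u ∈ H.At L → ∃ v u' : Ten H.I L,
      Tendsto (fun j => gT (g j) u) F (𝓝 v) ∧ jT H.D v = gT κ v ∧ gT κ (gT κ v) = v ∧
      u' ∈ Submodule.span ℝ {x : Ten H.I L | x ∈ H.At L} ∧
      Tendsto (fun j => gT (g j) u') F (𝓝 (gT κ v)))
    (hgen : ∀ y : Matrix H.I H.I ℂ, IsG H.D y →
      (∀ (P : Prd m) (z : W.coh (P.obj H.X)),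
        H.tc P (J' P z) = gT y (jT H.D (gT y⁻¹ (H.tc P z)))) →
      ∀ p : Matrix H.I H.I ℂ, IsG H.D p →
      (∀ L ≤ 3, ∀ u : Ten H.I L, u ∈ H.At L → jT H.D u = u →
        gT y (jT H.D (gT y⁻¹ u)) = u → gT p u = u) →
      (∀ i j, H.D.typ i ∈ {α : Fin m × ℕ | α.2 ≤ d α.1} →
        H.D.typ j ∈ {α : Fin m × ℕ | α.2 ≤ d α.1} → (p * κ) i j = (κ * p) i j) →
      p * κ = κ * p) :
    ∀ (P : Prd m) (l : ℕ) (z : W.coh (P.obj H.X)), W.IsAlg (P.obj H.X) l z → J' P z = z →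
      z ∈ ZE.CZ H J A K F 0 P l := by
  obtain ⟨y, hy, hyJ⟩ := exists_y H ge hsta a1 a2 hJ hp hJ' hp' hpos
  intro P l z hz hJz
  have hu : H.tc P z ∈ H.At P.size :=
    AddSubgroup.subset_closure (Or.inr ⟨P, rfl, z, alg_le_tot H.hW _ l hz, rfl⟩)
  obtain ⟨v, u', h1, h2, h3, -, -⟩ := hlim P.size _ hu
  have h4 : gT κ v = v := by
    refine hw S F g κ hg hκ hfix hlim y hy 3 {α : Fin m × ℕ | α.2 ≤ d α.1}
      (ev_two H ge hg hκ hA hK d hev gr) (hgen y hy hyJ) P.size _ v hu ?_ h1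
    rw [← hyJ, hJz]
  -- the limit is the tensor of a class
  have hoff : ∀ w, H.Off P w → v w = 0 := by
    intro w hw
    have h5 := (tendsto_pi_nhds.mp h1) w
    have h6 : (fun j => gT (g j) (H.tc P z) w) = fun _ => 0 := by
      funext j
      refine GJ.gT_supp H.D (hg j) (H.Off P) ?_ (fun w hw => ge.tc_off P z w hw) w hw
      rintro w w' h ⟨i, hi⟩
      exact ⟨i, by rw [← h i]; exact hi⟩
    rw [h6] at h5
    exact tendsto_nhds_unique h5 tendsto_const_nhds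
  have hs : H.tc P (∑ w, v w • H.E P w) = v := ge.tc_sum P v hoff
  refine (ZE.CZ_zero H).2 ⟨⟨AR_alg hz, ∑ w, v w • H.E P w, ?_, ?_, ?_⟩, ZE.algR_alg hz⟩
  · have e : (fun j => H.tc P (A j P z)) = fun j => gT (g j) (H.tc P z) := by
      funext j
      exact (hA j).tc P z
    show Tendsto (fun j => H.tc P (A j P z)) F (𝓝 (H.tc P (∑ w, v w • H.E P w)))
    rw [e, hs]
    exact h1
  · rw [Complex.ofReal_one, one_smul]
    refine ge.inj P ?_
    rw [hJ.tc, hs, h2, h4]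
  · rw [Complex.ofReal_one, one_smul]
    refine ge.inj P ?_
    rw [hK.tc, hs, h4]

end WGeo

end Pool.Agent.Lib.MP_361a6f_ag.FL
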