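import Pool.Agent.Lib.MP_361a6f_ag.FL.Z.WAbs
import Pool.Agent.Lib.MP_361a6f_ag.FL.B.MainL

/-!
# Row WABS, assembly
-/

set_option autoImplicit false

namespace Pool.Agent.Lib.MP_361a6f_ag.FL

/-- the graded form at a finite level -/
theorem mainZAbs {I Λ : Type} [Fintype I] [DecidableEq I] [DecidableEq Λ] {D : Dat I Λ}
    {At : (L : ℕ) → Ten I L → Prop} (S : ASys D At) (N : ℕ) : ZConc D At fun L => L ≤ N :=
  have hvol : VolbStatement := volb alg1
  have hpha : PhabStatement := phab alg1 (tanb alg1)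
  have havg : AvgbStatement := avgb mainFfb alg1 alg2
  zAbs alg1 alg2 (algB alg1 alg2) cptbH (minb alg1) (l1b alg1 hvol hpha havg)
    (l2b alg1 hvol hpha havg) S N

/-- Row WABS. -/
theorem mainWAbs : WAbsStatement :=
  have hvol : VolStatement := vol alg1
  have hpha : PhaStatement := pha alg1 tan
  have havg : AvgStatement := avg fft alg1 alg2
  have hclo : CloStatement := clo alg1 alg2 hvol hpha havg
  WAbs.wabs alg1 alg2 cpt (FL.min alg1) hclo hvol hpha havg
    (thmX alg1 alg2 cpt (FL.min alg1) hclo (l2 alg1 hvol hpha havg)) mainFfb car mainZAbs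

end Pool.Agent.Lib.MP_361a6f_ag.FL
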