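import Pool.Agent.Lib.MP_361a6f_ag.FL.B.MainL
import Pool.Agent.Lib.MP_361a6f_ag.FL.Z.Par
import Pool.Agent.Lib.MP_361a6f_ag.FL.Z.Fit
import Pool.Agent.Lib.MP_361a6f_ag.FL.Z.Inf
import Pool.Agent.Lib.MP_361a6f_ag.FL.Z.WGeo
import Pool.Agent.Lib.MP_361a6f_ag.FL.Z.WGen
import Pool.Agent.Lib.MP_361a6f_ag.FL.Z.WMain

/-!
# Theorem Z: assembly
-/

open CategoryTheory AlgebraicGeometry MonoidalCategory CartesianMonoidalCategory
open Filter Topology

universe u v w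

set_option autoImplicit false

namespace Pool.Agent.Lib.MP_361a6f_ag.FL

open Pool.Agent.Lib.MP_361a6f_ag.H3 Pool.Agent.Lib.MP_361a6f_ag.SQ
  Pool.Agent.Lib.MP_361a6f_ag.IP2 Pool.Agent.Lib.MP_361a6f_ag.PP

/-- The limit row: the graded form for all lengths at once. -/
def ZInfStatement : Prop :=
  ∀ {I Λ : Type} [Fintype I] [DecidableEq I] [DecidableEq Λ] {D : Dat I Λ}
    {At : (L : ℕ) → Ten I L → Prop}, ASys D At → ZConc D At fun _ => True

/-- Theorem Z from its rows. -/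
theorem thmZ (hLam : LamStatement.{u, w}) (hri : HriStatement.{u, w}) (gbj : GbjStatement.{u, w})
    (jh : JhStatement.{u, w}) (gr : GrStatement.{u, w}) (ge : GeStatement.{u, w})
    (hS : Sl2Statement.{w}) (hT : StaStatement.{w}) (a1 : Alg1) (a2 : Alg2)
    (hAt : AtStatement.{u, w}) (hRsp : RspStatement.{u, w})
    (hRsc : RscStatement.{u, w}) (hRsq : RsqStatement.{u, w}) (zinf : ZInfStatement)
    (wabs : WAbsStatement) : ThmZStatement.{u, w} := by
  intro k _ W 𝒱 hW m X n hX ξ hpos hHL hAL J hJJ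
  have hJ := hJJ.leaf
  have hprod := hJJ.prod
  choose Lam D using fun a => hLam hW (hX a) (hpos a).1 (hHL a) (hAL a)
  have hrs : ∀ a, IsRS W (X a) (n a) (ξ a) (Lam a) (J (.leaf a)) := fun a =>
    hri hW (hX a) (hpos a) (D a) (J (.leaf a)) (hJ a)
  obtain ⟨I, fin, dec, Dt, e, h1, h2, h3, h4, h5, h6⟩ := gbj hW hX (fun a => (hpos a).1) D
    (fun a => J (.leaf a)) hrs
  let H : Host W 𝒱 m :=
    { hW := hW, X := X, n := n, mem := hX, ξ := ξ, ξ_alg := fun a => (hpos a).1, Lam := Lam,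
      lam := D, I := I, fin := fin, dec := dec, D := Dt, odd_iff := h1, e := e, e_ne := h2,
      e_gr := h3, e_psi := h4, e_span := h5 }
  have hA : H.Adp J := ⟨hJ, hprod, h6⟩
  have hF : H.J0Facts J := jh H J hA hrs
  have hC : ZConc H.D (fun L u => u ∈ H.At L) fun _ => True := zinf (aSys_at (hAt H))
  obtain ⟨F, hN, g, y, hg, hy, hfix, hlim⟩ := hC
  obtain ⟨hOA, hOK, hKJ, hZ⟩ := ZFit.zfit' H hT a1 a2 (gr H) (ge H) hF hg hy hfix hlim
  have par : ∀ (P : Prd m) (z : W.coh (P.obj H.X)), z ∈ tot W (P.obj H.X) →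
      jT H.D (jT H.D (H.tc P z)) = H.tc P z := fun P z hz =>
    (hAt H).par P.size (H.tc P z) (AddSubgroup.subset_closure (Or.inr ⟨P, rfl, z, hz, rfl⟩))
  obtain ⟨hG, hP⟩ := ParZ.parity H (ge H) hF (fun j => ⟨g j, hOA j⟩) ⟨y, hOK⟩ hKJ
    (fun P => hZ P trivial) hA a1 par hS hT hRsp hRsc hRsq
  exact ⟨_, hG, hP, fun J' d hJ' hd hev => { hP with
    fix := WGeo.wgeo H (ge H) hT a1 a2 hF hprod hJ'.leaf hJ'.prod hpos hg hy hOA hOK d hev wabs
      (gr H) (aSys_at (hAt H)) (fun L u hu h => (hfix L u hu h).1)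
      (fun L u hu => hlim L u trivial hu)
      fun y' _ htc p hp hpf h => WGen.hgen H a1 a2 (ge H) hT hF
        (WGen.GeoSys.of_hr hpos hJ'.leaf hJ'.prod).1 htc hy.1
        (fun L u hu h => (hfix L u hu h).2) d hd p hp hpf h }⟩

/-- Theorem Z. -/
theorem mainZ : ThmZStatement.{u, w} :=
  thmZ lam hri gbj jh (gr ge) ge sl2 staB alg1 alg2 at_ mainRsp (rsc staB) (rsq sl2 staB)
    (fun S => zinf S) mainWAbs

end Pool.Agent.Lib.MP_361a6f_ag.FL
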