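import Pool.Agent.Lib.MP_361a6f_ag.FL.HL.Book
import Pool.Agent.Lib.MP_361a6f_ag.FL.HL.Cmp
import Pool.Agent.Lib.MP_361a6f_ag.FL.HL.Cnt
import Pool.Agent.Lib.MP_361a6f_ag.FL.HL.Str
import Pool.Agent.Lib.MP_361a6f_ag.FL.HL.AbsC
import Pool.Agent.Lib.MP_361a6f_ag.FL.O.Ab
import Pool.Agent.Lib.MP_361a6f_ag.FL.PT.EndPol

/-!
# The half law on all products of abelian varieties
-/

open CategoryTheory AlgebraicGeometry MonoidalCategory CartesianMonoidalCategory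

universe u v w

set_option autoImplicit false
set_option linter.unusedSectionVars false

namespace Pool.Agent.Lib.MP_361a6f_ag.FL

open Pool.Agent.Lib.MP_361a6f_ag.H3 Pool.Agent.Lib.MP_361a6f_ag.SQ
  Pool.Agent.Lib.MP_361a6f_ag.PP

namespace ZHull

open GB26 in
/-- a host whose leaves are given varieties with given operators `Λ` -/
theorem gbLam {k : Type u} [Field k] {W : CohomologyData.{u, 0, w} k ℂ} {𝒱 : VarietyClass k}
    (hW : IsWeilCohomology W 𝒱) {m : ℕ} {X : Fin m → Sch k} {n : Fin m → ℕ}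
    (mem : ∀ a, 𝒱.mem (X a) (n a)) {ξ : ∀ a, W.coh (X a)} (hξ : ∀ a, ξ a ∈ W.alg (X a) 1)
    {Lam : ∀ a, Module.End ℂ (W.coh (X a))} (hLam : ∀ a, LamData W (X a) (n a) (ξ a) (Lam a)) :
    ∃ H : Host W 𝒱 m, H.X = X ∧ H.n = n ∧ HEq H.ξ ξ := by
  have hfin : ∀ a, FiniteDimensional ℂ (W.coh (X a)) := fun a => hW.finite (mem a)
  obtain ⟨N, b, t, D0, htyp, hodd, hτ, hgram⟩ := exists_dat.{w} (Λ := Σ a : Fin m, Fin (2 * n a + 1))
    (fun α => W.gr (X α.1) (α.2 : ℕ)) (fun α => Odd (α.2 : ℕ))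
    (fun α => ps (hLam α.1) (α.2 : ℕ))
    (fun α x y ho => by
      rw [ps_apply, ps_apply, symm_gr hW (mem α.1) (hξ α.1) (hLam α.1) x.2, ho.neg_one_pow]
      ring)
    (fun α x y ho => by
      rw [ps_apply, ps_apply, symm_gr hW (mem α.1) (hξ α.1) (hLam α.1) x.2,
        (Nat.not_odd_iff_even.1 ho).neg_one_pow]
      ring)
    (fun α x h => nondeg_gr hW (mem α.1) (hξ α.1) (hLam α.1) _ x h)
  classical
  let I : Type := Σ α : (Σ a : Fin m, Fin (2 * n a + 1)), Fin (N α)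
  let D : Dat I (Fin m × ℕ) :=
    { typ := fun x => (x.1.1, (x.1.2 : ℕ))
      odd := fun l => Odd l.2
      τ := D0.τ
      s := D0.s
      τ_τ := D0.τ_τ
      typ_τ := fun x => by
        have h := congrArg (fun z : I => ((z.1.1, (z.1.2 : ℕ)) : Fin m × ℕ)) (hτ x)
        exact h
      s_val := D0.s_val
      even_τ := fun x hx => D0.even_τ x (by rw [hodd, htyp]; exact hx)
      odd_τ := fun x hx => D0.odd_τ x (by rw [hodd, htyp]; exact hx) }
  let e : ∀ a, I → W.coh (X a) := fun a x =>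
    Pi.single (M := fun a => W.coh (X a)) x.1.1 ((b x.1 x.2 : W.gr (X x.1.1) (x.1.2 : ℕ)) :
      W.coh (X x.1.1)) a
  have he : ∀ (a : Fin m) (i : Fin (2 * n a + 1)) (p : Fin (N ⟨a, i⟩)),
      e a ⟨⟨a, i⟩, p⟩ = (b ⟨a, i⟩ p : W.coh (X a)) := fun a i p => Pi.single_eq_same _ _
  refine ⟨{ hW := hW, X := X, n := n, mem := mem, ξ := ξ, ξ_alg := hξ, Lam := Lam, lam := hLam,
            I := I, fin := inferInstance, dec := inferInstance, D := D,
            odd_iff := fun _ => Iff.rfl, e := e, e_ne := ?_, e_gr := ?_, e_psi := ?_,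
            e_span := ?_ }, rfl, rfl, HEq.rfl⟩
  · intro a x hx
    exact Pi.single_eq_of_ne (Ne.symm hx) _
  · intro a x
    by_cases hx : x.1.1 = a
    · obtain ⟨⟨a', i⟩, p⟩ := x
      obtain rfl : a' = a := hx
      rw [he]
      exact (b ⟨a', i⟩ p).2
    · have : e a x = 0 := Pi.single_eq_of_ne (Ne.symm hx) _
      rw [this]
      exact zero_mem _
  · intro a x y hx hy
    obtain ⟨⟨a', i⟩, p⟩ := x
    obtain rfl : a' = a := hx
    obtain ⟨⟨a'', j⟩, q⟩ := y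
    obtain rfl : a'' = a' := hy
    rw [he, he]
    by_cases hij : i = j
    · subst hij
      have h1 := hgram ⟨a'', i⟩ p q
      rw [ps_apply] at h1
      rw [h1]
      refine if_congr ?_ rfl rfl
      change q = t ⟨a'', i⟩ p ↔ (⟨⟨a'', i⟩, q⟩ : I) = D0.τ ⟨⟨a'', i⟩, p⟩
      rw [hτ]
      constructor
      · rintro rfl; rfl
      · intro h
        simpa using h
    · rw [orth hW (mem a'') (hξ a'') (hLam a'') (b _ p).2 (b _ q).2
        (fun h => hij (Fin.ext h)), if_neg]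
      change ¬ (⟨⟨a'', j⟩, q⟩ : I) = D0.τ ⟨⟨a'', i⟩, p⟩
      rw [hτ]
      intro h
      apply hij
      have h2 := congrArg (fun z : I => z.1) h
      simp only [Sigma.mk.injEq, heq_eq_eq, true_and] at h2
      exact h2.symm
  · intro a
    rw [eq_top_iff]
    rintro x -
    refine hW.hom_induction (mem a) (P := fun x => x ∈ Submodule.span ℂ (Set.range (e a))) x
      ?_ (zero_mem _) (fun _ _ h h' => add_mem h h')
    intro i x hx
    by_cases hi : i ≤ 2 * n a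
    · have h1 := (b ⟨a, ⟨i, by omega⟩⟩).mem_span ⟨x, hx⟩
      have h2 : (Submodule.span ℂ (Set.range (b ⟨a, ⟨i, by omega⟩⟩))).map
          (W.gr (X a) i).subtype ≤ Submodule.span ℂ (Set.range (e a)) := by
        rw [Submodule.map_span, Submodule.span_le]
        rintro _ ⟨_, ⟨p, rfl⟩, rfl⟩
        refine Submodule.subset_span ⟨⟨⟨a, ⟨i, by omega⟩⟩, p⟩, ?_⟩
        exact he a ⟨i, by omega⟩ p
      exact h2 ⟨⟨x, hx⟩, h1, rfl⟩
    · rw [hW.top_gr (mem a) hx (by omega)]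
      exact zero_mem _

/-- the signature and the half law for one variety of abelian type -/
theorem one {k : Type u} [Field k] {W : CohomologyData.{u, 0, w} k ℂ} {𝒱 : VarietyClass k}
    (hW : IsWeilCohomology W 𝒱) {X : Sch k} {g : ℕ} (hX : 𝒱.mem X g)
    (hA : AbelianType W X g) {ξ : W.coh X} (hξ : PositiveDivisor W X g ξ)
    {Lam : Module.End ℂ (W.coh X)} (hLam : LamData W X g ξ Lam) :
    ∃ p q : ℕ → ℕ, (∀ j, HL.Sig (fun x => (OStr.Gf W X g ξ j x x).re) (OStr.PrR W X g ξ j)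
        (p j) (q j)) ∧ (∀ j, 2 * j ≤ g → HasSig W X g ξ j (p j) (q j)) ∧
      HL.InHull g fun t => ∑ l ∈ Finset.range (g + 1),
        ((HL.pl g p l : ℝ) - HL.pl g q l) * t ^ (2 * l) := by
  have hfin : Module.Finite ℂ (W.coh X) := hW.graded.finite hX
  have hfinR : Module.Finite ℝ (W.coh X) := Module.Finite.trans ℂ (W.coh X)
  choose p q hpq using fun j => HL.exists_sig (fun x => (OStr.Gf W X g ξ j x x).re)
    (OStr.PrR W X g ξ j)
  refine ⟨p, q, hpq, fun j hj => HL.hasSig_of hW hX hξ.1 hj (hpq j), ?_⟩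
  obtain ⟨H, hHX, hHn, hHξ⟩ := gbLam hW (m := 1) (X := fun _ => X) (n := fun _ => g)
    (fun _ => hX) (ξ := fun _ => ξ) (fun _ => hξ.1) (Lam := fun _ => Lam) (fun _ => hLam)
  have key : ∀ (X' : Fin 1 → Sch k) (n' : Fin 1 → ℕ) (ξ' : ∀ a, W.coh (X' a)), X' = H.X →
      n' = H.n → HEq ξ' H.ξ → AbelianType W (X' 0) (n' 0) →
      PositiveDivisor W (X' 0) (n' 0) (ξ' 0) →
      (∀ j, 2 * j ≤ n' 0 → HL.Sig (fun x => (OStr.Gf W (X' 0) (n' 0) (ξ' 0) j x x).re)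
        (OStr.PrR W (X' 0) (n' 0) (ξ' 0) j) (p j) (q j)) →
      HL.InHull (n' 0) fun t => ∑ L ∈ Finset.range (2 * n' 0 + 1),
        ((HL.pL (n' 0) p L : ℝ) - HL.pL (n' 0) q L) * t ^ L := by
    intro X' n' ξ' h1 h2 h3 h4 h5 h6
    subst h1 h2
    obtain rfl := eq_of_heq h3
    exact HL.half_host HL.cmpRow HL.cntRow HL.str HL.absRow H h4 h5 p q h6
  obtain ⟨w, hw1, hw2, hw3⟩ := key (fun _ => X) (fun _ => g) (fun _ => ξ) hHX.symm hHn.symm
    hHξ.symm hA hξ fun j _ => hpq j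
  refine ⟨w, hw1, hw2, fun t => ?_⟩
  rw [← hw3 t]
  dsimp only
  rw [HL.sum_even_odd (fun L => ((HL.pL g p L : ℝ) - HL.pL g q L) * t ^ L) g,
    Finset.sum_eq_zero (s := Finset.range g), add_zero]
  · refine Finset.sum_congr rfl fun l _ => ?_
    rw [HL.pL_even, HL.pL_even]
  · intro l _
    rw [HL.pL_odd, HL.pL_odd, Nat.cast_zero, sub_zero, zero_mul]

/-- **Row H1.** The signatures on a product of varieties of abelian type. -/
theorem host {k : Type u} [Field k] {m : ℕ} {W : CohomologyData.{u, 0, w} k ℂ}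
    {𝒱 : VarietyClass k} (H : Host W 𝒱 m) (hAb : ∀ a, AbelianType W (H.X a) (H.n a))
    (hpd : ∀ a, PositiveDivisor W (H.X a) (H.n a) (H.ξ a)) (P : Prd m)
    {η : W.coh (P.obj H.X)} (hη : IsPol W H.ξ P η) :
    ∃ p q : ℕ → ℕ,
      (∀ j, HL.Sig (fun x => (OStr.Gf W (P.obj H.X) (P.dim H.n) η j x x).re)
        (OStr.PrR W (P.obj H.X) (P.dim H.n) η j) (p j) (q j)) ∧
      (∀ j, 2 * j ≤ P.dim H.n → HasSig W (P.obj H.X) (P.dim H.n) η j (p j) (q j)) ∧
      HL.InHull (P.dim H.n) fun t => ∑ l ∈ Finset.range (P.dim H.n + 1),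
        ((HL.pl (P.dim H.n) p l : ℝ) - HL.pl (P.dim H.n) q l) * t ^ (2 * l) := by
  obtain ⟨Lam, D, -, -, -, -, -, -, -, hA, hp⟩ := EndFr.exists_frm H hAb hpd hη
  exact one H.hW (H.memP P) hA hp D

/-- **Row H1.** The signatures on a product of varieties with unital laws. -/
theorem sigs {k : Type u} [Field k] {m : ℕ} {W : CohomologyData.{u, 0, w} k ℂ}
    {𝒱 : VarietyClass k} (hW : IsWeilCohomology W 𝒱) {X : Fin m → Sch k} {n : Fin m → ℕ}
    (hX : ∀ a, 𝒱.mem (X a) (n a))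
    (h0 : ∀ a, ∀ x, W.Deg (X a) 0 x → ∃ c : ℂ, x = W.scal c 1) (hU : ∀ a, UnitalLaw (X a))
    {ξ : ∀ a, W.coh (X a)} (hξ : ∀ a, PositiveDivisor W (X a) (n a) (ξ a)) (P : Prd m)
    {η : W.coh (P.obj X)} (hη : IsPol W ξ P η) :
    ∃ p q : ℕ → ℕ, (∀ j, 2 * j ≤ P.dim n → HasSig W (P.obj X) (P.dim n) η j (p j) (q j)) ∧
      HL.InHull (P.dim n) fun t => ∑ l ∈ Finset.range (P.dim n + 1),
        ((HL.pl (P.dim n) p l : ℝ) - HL.pl (P.dim n) q l) * t ^ (2 * l) := by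
  have hA : ∀ a, AbelianType W (X a) (n a) := fun a =>
    abelianType_of_unital hW (hX a) (h0 a) (hU a) (hξ a)
  obtain ⟨H, hHX, hHn, hHξ⟩ := gb26 hW hX (fun a => (hξ a).1)
    (fun a => (AbV.main hW (hX a) (hA a) (hU a) (hξ a)).1)
    (fun a => (AbV.main hW (hX a) (hA a) (hU a) (hξ a)).2)
  subst hHX hHn
  obtain rfl := eq_of_heq hHξ
  obtain ⟨p, q, -, h1, h2⟩ := host H hA hξ P hη
  exact ⟨p, q, h1, h2⟩

end ZHull

end Pool.Agent.Lib.MP_361a6f_ag.FL
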