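import Pool.Agent.Lib.MP_361a6f_ag.FL.Z.Ze3

/-!
# Row NUM: numerically trivial classes

`A j` are operator systems such that all real algebraic classes have a limit along a filter `F`.
The limit of a class is zero if and only if the class is numerically trivial, and the clause on
the sign of the form on the even and the odd classes.
-/

open CategoryTheory AlgebraicGeometry MonoidalCategory CartesianMonoidalCategory
open Filter Topology

universe u v w

set_option autoImplicit false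
set_option linter.unusedSectionVars false

namespace Pool.Agent.Lib.MP_361a6f_ag.FL

open Pool.Agent.Lib.MP_361a6f_ag.H3 Pool.Agent.Lib.MP_361a6f_ag.SQ
  Pool.Agent.Lib.MP_361a6f_ag.IP2 Pool.Agent.Lib.MP_361a6f_ag.PP

namespace ZNum

open ZE

/-! ### Real algebraic classes -/

section ar

variable {k : Type u} [Field k] {W : CohomologyData.{u, 0, w} k ℂ} {𝒱 : VarietyClass k}

/-- the classes in `numR` -/
theorem mem_numR {Y : Sch k} {l : ℕ} {z : W.coh Y} :
    z ∈ numR W Y l ↔ z ∈ algR W Y l ∧ ∀ w ∈ AR W Y, W.tr Y (z * w) = 0 := by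
  constructor
  · rintro ⟨h1, h2⟩
    refine ⟨h1, fun w hw => ?_⟩
    refine Submodule.span_induction (p := fun w _ => W.tr Y (z * w) = 0) ?_ ?_ ?_ ?_ hw
    · rintro w ⟨j, hj⟩
      exact h2 j w hj
    · rw [mul_zero, map_zero]
    · intro a b _ _ ha hb
      rw [mul_add, map_add, ha, hb, add_zero]
    · intro r a _ ha
      rw [← AR_smul_real, mul_smul_comm, map_smul, ha, smul_zero]
  · rintro ⟨h1, h2⟩
    exact ⟨h1, fun j w hw => h2 w (AR_alg hw)⟩

end ar

variable {k : Type u} [Field k] {W : CohomologyData.{u, 0, w} k ℂ} {𝒱 : VarietyClass k} {m : ℕ}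
  (H : Host W 𝒱 m) {F : Filter ℕ}

section main

variable (ge : H.GeFacts)
  {J : ∀ P : Prd m, W.coh (P.obj H.X) →ₛₗ[starRingEnd ℂ] W.coh (P.obj H.X)}
  {A : ℕ → ∀ P : Prd m, Module.End ℂ (W.coh (P.obj H.X))}
  {K : ∀ P : Prd m, Module.End ℂ (W.coh (P.obj H.X))}
  (hJ : H.J0Facts J) (hA : ∀ j, ∃ x, ZOps H J x (A j))

/-- all real algebraic classes on `P` have limits, `K` is the real structure on the limits, and
it preserves the set of the limits -/
def Fit (J : ∀ P : Prd m, W.coh (P.obj H.X) →ₛₗ[starRingEnd ℂ] W.coh (P.obj H.X))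
    (A : ℕ → ∀ P : Prd m, Module.End ℂ (W.coh (P.obj H.X)))
    (K : ∀ P : Prd m, Module.End ℂ (W.coh (P.obj H.X))) (F : Filter ℕ) (P : Prd m) : Prop :=
  ∀ z ∈ AR W (P.obj H.X), ∃ s z', z' ∈ AR W (P.obj H.X) ∧
    CLim H F P (fun j => A j P z) s ∧ J P s = K P s ∧ K P (K P s) = s ∧
      CLim H F P (fun j => A j P z') (K P s)

/-- the star operator preserves the real algebraic classes -/
theorem AR_star (P : Prd m) {z : W.coh (P.obj H.X)} (hz : z ∈ AR W (P.obj H.X)) :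
    H.starP P z ∈ AR W (P.obj H.X) :=
  AR_cor H.hW (H.memP P) (H.memP P) (algOp_star H.hW (H.memP P) (H.lamP P).2 (H.lamP P).1) hz

include ge hJ hA in
/-- the limit of a numerically trivial class is zero -/
theorem lim_zero [F.NeBot] {P : Prd m} (hF : Fit H J A K F P) {z s : W.coh (P.obj H.X)}
    (hz : z ∈ AR W (P.obj H.X)) (hn : ∀ w ∈ AR W (P.obj H.X), W.tr (P.obj H.X) (z * w) = 0)
    (hs : CLim H F P (fun j => A j P z) s) : s = 0 := by
  obtain ⟨s', z', hz', h1, h2, _, h4⟩ := hF z hz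
  obtain rfl := clim_uniq H ge hs h1
  have h5 : H.psiP P s (J P s) = 0 := by
    rw [h2, ← psi_lim H ge hJ hA h1 h4]
    exact hn _ (AR_star H P hz')
  by_contra h0
  obtain ⟨r, hr, h6⟩ := (hJ.rs P).pos s h0
  have h7 : (r : ℂ) = 0 := h6.symm.trans h5
  exact hr.ne' (by exact_mod_cast h7)

include ge hA in
/-- a class with the limit zero is numerically trivial -/
theorem num_of_lim_zero [F.NeBot] {P : Prd m} (hF : Fit H J A K F P)
    {z : W.coh (P.obj H.X)} (hs : CLim H F P (fun j => A j P z) 0) {w : W.coh (P.obj H.X)}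
    (hw : w ∈ AR W (P.obj H.X)) : W.tr (P.obj H.X) (z * w) = 0 := by
  obtain ⟨t, _, _, h1, _⟩ := hF w hw
  rw [tr_lim H ge hA hs h1, zero_mul, map_zero]

include ge hJ hA in
/-- **(N1)** A class is numerically trivial if and only if its limit is zero. -/
theorem num_iff [F.NeBot] {P : Prd m} (hF : Fit H J A K F P) {l : ℕ}
    {z s : W.coh (P.obj H.X)} (hz : z ∈ algR W (P.obj H.X) l)
    (hs : CLim H F P (fun j => A j P z) s) : z ∈ numR W (P.obj H.X) l ↔ s = 0 := by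
  rw [mem_numR]
  constructor
  · rintro ⟨_, h⟩
    exact lim_zero H ge hJ hA hF (algR_AR hz) h hs
  · rintro rfl
    exact ⟨hz, fun w hw => num_of_lim_zero H ge hA hF hs hw⟩

include ge hJ hA in
/-- **(N2)** The classes whose limit `s` satisfies `J s = s` and `J s = - s` are the numerically
trivial ones. -/
theorem inf_iff [F.NeBot] {P : Prd m} (hF : Fit H J A K F P) {l : ℕ}
    {z : W.coh (P.obj H.X)} (hz : z ∈ algR W (P.obj H.X) l) :
    ((∃ s, CLim H F P (fun j => A j P z) s ∧ J P s = s ∧ K P s = s) ∧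
      ∃ s, CLim H F P (fun j => A j P z) s ∧ J P s = -s ∧ K P s = -s) ↔
      z ∈ numR W (P.obj H.X) l := by
  constructor
  · rintro ⟨⟨s, h1, h2, _⟩, ⟨s', h3, h4, _⟩⟩
    obtain rfl := clim_uniq H ge h1 h3
    rw [num_iff H ge hJ hA hF hz h1]
    have h5 : s = -s := h2.symm.trans h4
    have h6 : (2 : ℂ) • s = 0 := by
      rw [two_smul]
      nth_rewrite 2 [h5]
      exact add_neg_cancel s
    exact (smul_eq_zero.1 h6).resolve_left two_ne_zero
  · intro h
    obtain ⟨s, _, _, h1, _⟩ := hF z (algR_AR hz)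
    have h0 := (num_iff H ge hJ hA hF hz h1).1 h
    subst h0
    exact ⟨⟨0, h1, map_zero _, map_zero _⟩,
      ⟨0, h1, by rw [map_zero, neg_zero], by rw [map_zero, neg_zero]⟩⟩

include ge hA in
/-- the limit of a product with a power of a polarisation -/
theorem lm_pol {P : Prd m} {η : W.coh (P.obj H.X)} (hη : η ∈ W.alg (P.obj H.X) 1)
    (hJη : J P η = η) (a : ℕ) {z s : W.coh (P.obj H.X)}
    (hs : CLim H F P (fun j => A j P z) s) : CLim H F P (fun j => A j P (η ^ a * z)) (η ^ a * s) := by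
  have h1 : ∀ j (y : W.coh (P.obj H.X)), A j P (η ^ a * y) = η ^ a * A j P y := by
    intro j y
    obtain ⟨x, hx⟩ := hA j
    have h2 : A j P η = η := hx.fix P 1 η hη hJη
    have h3 : ∀ b : ℕ, A j P (η ^ b) = η ^ b := by
      intro b
      induction b with
      | zero => rw [pow_zero]; exact hx.one P
      | succ b ih => rw [pow_succ, hx.mul, ih, h2]
    rw [hx.mul, h3]
  have h2 : (fun j => A j P (η ^ a * z)) = fun j => LinearMap.mulLeft ℂ (η ^ a) (A j P z) := by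
    funext j
    exact h1 j z
  rw [h2]
  exact clim_lin H ge (LinearMap.mulLeft ℂ (η ^ a)) hs

include ge hJ hA in
/-- **(N3)** The sign of the form: clause `form` of `Parity`. -/
theorem form [F.NeBot] (hRsp : RspStatement.{u, w})
    (hRsc : RscStatement.{u, w}) (hRsq : RsqStatement.{u, w}) (hadp : H.Adp J) {P : Prd m}
    (hF : Fit H J A K F P) {η : W.coh (P.obj H.X)} (hη : IsPol W H.ξ P η) (ε : ZMod 2) {l : ℕ}
    {z s : W.coh (P.obj H.X)} (hl : 2 * l ≤ P.dim H.n) (hz : z ∈ algR W (P.obj H.X) l)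
    (hs : CLim H F P (fun j => A j P z) s) (hJs : J P s = ((-1 : ℂ) ^ ε.val) • s)
    (h1 : η ^ (P.dim H.n - 2 * l + 1) * z ∈ numR W (P.obj H.X) (P.dim H.n - l + 1))
    (h2 : z ∉ numR W (P.obj H.X) l) : ∃ r : ℝ, 0 < r ∧
      (-1) ^ (l + ε.val) * W.tr (P.obj H.X) (η ^ (P.dim H.n - 2 * l) * (z * z)) = (r : ℂ) := by
  have hηa := GQ.pol_alg H hη
  obtain ⟨L, hL⟩ := ZSgn.pol_rs hRsp hRsc H hJ.rs hadp.prod hη
  have hJη : J P η = η := by
    have h3 := hL.map_L 1
    rwa [mul_one, hL.one, mul_one] at h3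
  -- the limit is homogeneous, primitive and not zero
  have hs0 : s ≠ 0 := fun h => h2 ((num_iff H ge hJ hA hF hz hs).2 h)
  have hsg : s ∈ W.gr (P.obj H.X) (2 * l) := by
    exact clim_algR H hA ge hz hs
  have hsp : η ^ (P.dim H.n - 2 * l + 1) * s = 0 :=
    (num_iff H ge hJ hA hF (mem_numR.1 h1).1 (lm_pol H ge hA hηa hJη _ hs)).1 h1
  -- the trace
  have htr : W.tr (P.obj H.X) (η ^ (P.dim H.n - 2 * l) * (z * z))
      = W.tr (P.obj H.X) (η ^ (P.dim H.n - 2 * l) * (s * s)) := by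
    have h3 : CLim H F P (fun j => A j P (z * z)) (s * s) := by
      have h4 := clim_mul H ge hs hs
      have h5 : (fun j => A j P z * A j P z) = fun j => A j P (z * z) := by
        funext j
        obtain ⟨x, hx⟩ := hA j
        rw [hx.mul]
      rwa [h5] at h4
    have h4 := clim_fun H ge (W.tr (P.obj H.X)) (lm_pol H ge hA hηa hJη (P.dim H.n - 2 * l) h3)
    have h5 : (fun j => W.tr (P.obj H.X) (A j P (η ^ (P.dim H.n - 2 * l) * (z * z))))
        = fun _ => W.tr (P.obj H.X) (η ^ (P.dim H.n - 2 * l) * (z * z)) := by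
      funext j
      obtain ⟨x, hx⟩ := hA j
      exact hx.tr P _
    rw [h5] at h4
    exact tendsto_nhds_unique tendsto_const_nhds h4
  rw [htr]
  have hε : ∀ e : ZMod 2, e = 0 ∨ e = 1 := by decide
  rcases hε ε with rfl | rfl
  · have h3 : (0 : ZMod 2).val = 0 := rfl
    rw [h3, pow_zero, one_smul] at hJs
    obtain ⟨r, hr, h4⟩ := ZSgn.even hRsp hRsc hRsq H hJ.rs hadp.prod hη hl hsg hsp hs0 hJs
    exact ⟨r, hr, by rw [h3, add_zero]; exact h4⟩
  · have h3 : (1 : ZMod 2).val = 1 := rfl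
    rw [h3, pow_one, neg_one_smul] at hJs
    obtain ⟨r, hr, h4⟩ := ZSgn.odd hRsp hRsc hRsq H hJ.rs hadp.prod hη hl hsg hsp hs0 hJs
    refine ⟨r, hr, ?_⟩
    rw [h3, pow_succ, mul_neg_one, neg_mul, h4, neg_neg]

/-- the hypothesis of `CZ_sup` -/
theorem fit_sup (hKJ : ∀ (P : Prd m) (s : W.coh (P.obj H.X)), K P (J P s) = J P (K P s))
    {P : Prd m} (hF : Fit H J A K F P) (z : W.coh (P.obj H.X)) (hz : z ∈ AR W (P.obj H.X)) :
    z ∈ ZC H J A K F 1 P ⊔ ZC H J A K F (-1) P := by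
  obtain ⟨s, z', hz', h1, h2, h3, h4⟩ := hF z hz
  exact ZC_sup H (hKJ P) hz hz' h1 h4 h2 h3

/-- **clause `inf` of `Parity`** -/
theorem CZ_inf [F.NeBot] (ge : H.GeFacts) (hJ : H.J0Facts J) (hA : ∀ j, ∃ x, ZOps H J x (A j))
    {P : Prd m} (hF : Fit H J A K F P) (l : ℕ) :
    CZ H J A K F 0 P l ⊓ CZ H J A K F 1 P l = numR W (P.obj H.X) l := by
  ext z
  constructor
  · rintro ⟨h0, h1⟩
    obtain ⟨⟨-, s, a1, a2, a3⟩, hz⟩ := (CZ_zero H).1 h0
    obtain ⟨⟨-, t, b1, b2, b3⟩, -⟩ := (CZ_one' H).1 h1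
    refine (inf_iff H ge hJ hA hF hz).1 ⟨⟨s, a1, ?_, ?_⟩, ⟨t, b1, ?_, ?_⟩⟩
    · rw [a2, Complex.ofReal_one, one_smul]
    · rw [a3, Complex.ofReal_one, one_smul]
    · rw [b2, Complex.ofReal_neg, Complex.ofReal_one, neg_one_smul]
    · rw [b3, Complex.ofReal_neg, Complex.ofReal_one, neg_one_smul]
  · intro h
    have hz := (mem_numR.1 h).1
    obtain ⟨⟨s, a1, a2, a3⟩, ⟨t, b1, b2, b3⟩⟩ := (inf_iff H ge hJ hA hF hz).2 h
    refine ⟨(CZ_zero H).2 ⟨⟨algR_AR hz, s, a1, ?_, ?_⟩, hz⟩,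
      (CZ_one' H).2 ⟨⟨algR_AR hz, t, b1, ?_, ?_⟩, hz⟩⟩
    · rw [a2, Complex.ofReal_one, one_smul]
    · rw [a3, Complex.ofReal_one, one_smul]
    · rw [b2, Complex.ofReal_neg, Complex.ofReal_one, neg_one_smul]
    · rw [b3, Complex.ofReal_neg, Complex.ofReal_one, neg_one_smul]

/-- **clause `form` of `Parity`** -/
theorem CZ_form [F.NeBot] (ge : H.GeFacts) (hJ : H.J0Facts J)
    (hA : ∀ j, ∃ x, ZOps H J x (A j)) (hRsp : RspStatement.{u, w}) (hRsc : RscStatement.{u, w})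
    (hRsq : RsqStatement.{u, w}) (hadp : H.Adp J) {P : Prd m} (hF : Fit H J A K F P)
    (η : W.coh (P.obj H.X)) (hη : IsPol W H.ξ P η) (ε : ZMod 2) (l : ℕ) (z : W.coh (P.obj H.X))
    (hl : 2 * l ≤ P.dim H.n) (hz : z ∈ CZ H J A K F ε P l)
    (h1 : W.cup (η ^ (P.dim H.n - 2 * l + 1)) z ∈ numR W (P.obj H.X) (P.dim H.n - l + 1))
    (h2 : z ∉ numR W (P.obj H.X) l) : ∃ r : ℝ, 0 < r ∧
      (-1) ^ (l + ε.val) * W.Tr (W.cup (η ^ (P.dim H.n - 2 * l)) (W.cup z z)) = (r : ℂ) := by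
  obtain ⟨⟨-, s, a1, a2, -⟩, hz'⟩ := hz
  rw [cast_pow] at a2
  exact form H ge hJ hA hRsp hRsc hRsq hadp hF hη ε hl hz' a1 a2 h1 h2

end main

end ZNum

end Pool.Agent.Lib.MP_361a6f_ag.FL
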