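import Pool.Agent.Lib.MP_361a6f_ag.FL.B.Stat

/-!
# Even and odd algebraic classes: the definitions used in the statement
-/

open CategoryTheory AlgebraicGeometry MonoidalCategory CartesianMonoidalCategory

universe u v w

namespace Pool.Agent.Lib.MP_361a6f_ag.FL

open Pool.Agent.Lib.MP_361a6f_ag.H3 Pool.Agent.Lib.MP_361a6f_ag.SQ
  Pool.Agent.Lib.MP_361a6f_ag.PP

noncomputable section

variable {k : Type u} [Field k] {m : ℕ}

/-- `z` is a linear combination with real coefficients of algebraic classes of codimension `l`. -/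
def IsAlgR (W : CohomologyData.{u, 0, w} k ℂ) (Y : Sch k) (l : ℕ) (z : W.coh Y) : Prop :=
  z ∈ Submodule.span ℝ {x | W.IsAlg Y l x}

/-- `z` is such a class, and it is numerically equivalent to `0`. -/
def IsNumR (W : CohomologyData.{u, 0, w} k ℂ) (Y : Sch k) (l : ℕ) (z : W.coh Y) : Prop :=
  IsAlgR W Y l z ∧ ∀ j x, W.IsAlg Y j x → W.Tr (W.cup z x) = 0

/-- The operator on `H^*(Y)` that is given by the class `e` on `Y × Y`. -/
def act (W : CohomologyData.{u, 0, w} k ℂ) {Y : Sch k} (e : W.coh (Y.prod Y)) (x : W.coh Y) :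
    W.coh Y :=
  W.pf (Sch.pr₂ Y Y) (W.cup (W.pb (Sch.pr₁ Y Y) x) e)

/-- The algebra `H^*(Y)` is generated by its elements of degree at most `d`. -/
def GenDeg (W : CohomologyData.{u, 0, w} k ℂ) (Y : Sch k) (d : ℕ) : Prop :=
  ∀ x : W.coh Y, x ∈ Algebra.adjoin ℂ {v | ∃ i ≤ d, W.Deg Y i v}

/-- `J (.leaf a)` is a Hodge-Riemann structure on `H^*(X_a)`, for all `a`, and the operator `J P`
on `H^*(P)` is the tensor product of these, for all products `P`. -/
structure HRSys (W : CohomologyData.{u, 0, w} k ℂ) (X : Fin m → Sch k) (n : Fin m → ℕ)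
    (ξ : ∀ a, W.coh (X a))
    (J : ∀ P : Prd m, W.coh (P.obj X) →ₛₗ[starRingEnd ℂ] W.coh (P.obj X)) : Prop where
  leaf : ∀ a, HRStr W (X a) (n a) (ξ a) (J (.leaf a))
  prod : ∀ (P Q : Prd m) (y : W.coh (P.obj X)) (x : W.coh (Q.obj X)),
    J (.prod P Q) (W.ext y x) = W.ext (J P y) (J Q x)

/-- `e` is an even algebraic class of codimension `dim P` on `P × P`, and its operator on `H^*(P)`
is idempotent and commutes with the multiplication by `∑ pr_i^* ξ_i`. -/
structure EvenProj (W : CohomologyData.{u, 0, w} k ℂ) (X : Fin m → Sch k) (n : Fin m → ℕ)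
    (ξ : ∀ a, W.coh (X a)) (C : ZMod 2 → ∀ P : Prd m, ℕ → W.coh (P.obj X) → Prop) (P : Prd m)
    (e : W.coh ((P.obj X).prod (P.obj X))) : Prop where
  alg : W.IsAlg ((P.obj X).prod (P.obj X)) (P.dim n) e
  even : C 0 (.prod P P) (P.dim n) e
  idem : ∀ x, act W e (act W e x) = act W e x
  comm : ∀ x, act W e (W.cup (P.pol W ξ) x) = W.cup (P.pol W ξ) (act W e x)

/-- `C 0 P l` and `C 1 P l` are the even and the odd classes of codimension `l` on the product
`P`, for all products `P` of the varieties `X_a` and all `l`; they form real subspaces. The sums of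
even and odd classes are exactly the real combinations of algebraic classes, and the classes that
are even and odd are the numerically trivial ones. The parity is multiplicative, and pull-backs and
push-forwards along the morphisms composed of projections, permutations of the factors and
diagonals preserve it. -/
structure Grading (W : CohomologyData.{u, 0, w} k ℂ) (X : Fin m → Sch k) (n : Fin m → ℕ)
    (C : ZMod 2 → ∀ P : Prd m, ℕ → W.coh (P.obj X) → Prop) : Prop where
  lin : ∀ ε P l, ∃ V : Submodule ℝ (W.coh (P.obj X)), ∀ z, C ε P l z ↔ z ∈ V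
  sum : ∀ P l z, IsAlgR W (P.obj X) l z ↔ ∃ x y, C 0 P l x ∧ C 1 P l y ∧ z = x + y
  num : ∀ P l z, IsNumR W (P.obj X) l z ↔ C 0 P l z ∧ C 1 P l z
  one : ∀ P, C 0 P 0 1
  cup : ∀ P ε ε' l l' z z', C ε P l z → C ε' P l' z' → C (ε + ε') P (l + l') (W.cup z z')
  pb : ∀ P Q f, CoordMor X 3 P Q f → ∀ ε l z, C ε Q l z → C ε P l (W.pb f z)
  pf : ∀ P Q f, CoordMor X 3 P Q f → ∀ ε l l' z, l + Q.dim n = l' + P.dim n → C ε P l z →
    C ε Q l' (W.pf f z)

/-- The algebraic classes fixed by `J` are even. For all polarisations `η = ∑ c_i pr_i^* ξ_i` the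
form `(-1)^l Tr(η^(n - 2 l) z z)` is positive on the even classes and negative on the odd classes
that are numerically primitive and not numerically trivial. Let `e` be an idempotent algebraic
correspondence of degree `0` on `P` that is even (for instance fixed by `J`) and commutes with
`ξ = ∑ pr_i^* ξ_i`; one of them acts as the identity. `Q1` holds in codimension at most `i` for the
algebraic classes `x` with `e x = x` if and only if `e z = 0` for all odd classes `z` of codimension
at most `i`. -/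
structure Parity (W : CohomologyData.{u, 0, w} k ℂ) (X : Fin m → Sch k) (n : Fin m → ℕ)
    (ξ : ∀ a, W.coh (X a))
    (J : ∀ P : Prd m, W.coh (P.obj X) →ₛₗ[starRingEnd ℂ] W.coh (P.obj X))
    (C : ZMod 2 → ∀ P : Prd m, ℕ → W.coh (P.obj X) → Prop) : Prop where
  fix : ∀ P l z, W.IsAlg (P.obj X) l z → J P z = z → C 0 P l z
  form : ∀ P η, IsPol W ξ P η → ∀ ε l z, 2 * l ≤ P.dim n → C ε P l z →
    IsNumR W (P.obj X) (P.dim n - l + 1) (W.cup (η ^ (P.dim n - 2 * l + 1)) z) →
    ¬ IsNumR W (P.obj X) l z → ∃ r : ℝ, 0 < r ∧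
      (-1) ^ (l + ε.val) * W.Tr (W.cup (η ^ (P.dim n - 2 * l)) (W.cup z z)) = (r : ℂ)
  diag : ∀ P, ∃ e, EvenProj W X n ξ C P e ∧ ∀ x, act W e x = x
  hodge : ∀ P e, EvenProj W X n ξ C P e → ∀ i,
    (∀ l ≤ i, 2 * l ≤ P.dim n → ∀ x, W.IsAlg (P.obj X) l x → act W e x = x →
      W.cup (P.pol W ξ ^ (P.dim n - 2 * l + 1)) x = 0 → x ≠ 0 →
      RatPos ((-1) ^ l * W.Tr (W.cup (P.pol W ξ ^ (P.dim n - 2 * l)) (W.cup x x)))) ↔
    ∀ l ≤ i, ∀ z, C 1 P l z → act W e z = 0

end

/-- Theorem Z. The last part says that one and the same grading serves all lifts: the algebraic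
classes fixed by the tensor products `J'` of other Hodge-Riemann structures are even, too, if the
algebraic classes on `X_a × X_a` of codimension at most `d_a` are even, where `H^*(X_a)` is
generated in degrees at most `d_a`. -/
def ThmZStatement : Prop :=
  ∀ {k : Type u} [Field k] (W : CohomologyData.{u, 0, w} k ℂ) (𝒱 : VarietyClass k)
    (_ : IsWeilCohomology W 𝒱) {m : ℕ} {X : Fin m → Sch k} {n : Fin m → ℕ}
    (_ : ∀ a, 𝒱.mem (X a) (n a))
    {ξ : ∀ a, W.coh (X a)} (_ : ∀ a, PositiveDivisor W (X a) (n a) (ξ a))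
    (_ : ∀ a, HardLefschetz W (X a) (n a) (ξ a))
    (_ : ∀ a, AlgebraicLambda W (X a) (n a) (ξ a))
    (J : ∀ P : Prd m, W.coh (P.obj X) →ₛₗ[starRingEnd ℂ] W.coh (P.obj X))
    (_ : HRSys W X n ξ J),
    ∃ C : ZMod 2 → ∀ P : Prd m, ℕ → W.coh (P.obj X) → Prop,
      Grading W X n C ∧ Parity W X n ξ J C ∧
      ∀ J' (d : Fin m → ℕ), HRSys W X n ξ J' → (∀ a, GenDeg W (X a) (d a)) →
        (∀ a, ∀ l ≤ d a, ∀ z, W.IsAlg ((X a).prod (X a)) l z →
          C 0 (.prod (.leaf a) (.leaf a)) l z) →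
        Parity W X n ξ J' C

end Pool.Agent.Lib.MP_361a6f_ag.FL
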