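import Pool.Agent.Lib.MP_361a6f_ag.FL.Z.LnkA
import Pool.Agent.Lib.MP_361a6f_ag.FL.Z.Num
import Pool.Agent.Lib.MP_361a6f_ag.FL.Z.StatP
import Pool.Agent.Lib.MP_361a6f_ag.FL.Z.Hodge
import Pool.Agent.Lib.MP_361a6f_ag.FL.O.Dec
import Pool.Agent.Lib.MP_361a6f_ag.FL.HL.StatH
import Pool.Agent.Lib.MP_361a6f_ag.FL.B.MainL

/-!
# The dimensions of the even and of the odd classes and the signature of Grothendieck's form

Let `E^l`, `O^l` be the even and the odd classes of a `Grading` with `Parity`, and `(p j, q j)` the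
signature of Grothendieck's form on the primitive classes of codimension `j`. Then
`dim E^l = dim N^l + ∑ p j` and `dim O^l = dim N^l + ∑ q j`, the sums over `j ≤ min (l, d - l)`.
-/

open CategoryTheory AlgebraicGeometry MonoidalCategory CartesianMonoidalCategory

universe u v w

set_option autoImplicit false
set_option linter.unusedSectionVars false

namespace Pool.Agent.Lib.MP_361a6f_ag.FL

open Pool.Agent.Lib.MP_361a6f_ag.H3 Pool.Agent.Lib.MP_361a6f_ag.SQ
  Pool.Agent.Lib.MP_361a6f_ag.IP2 Pool.Agent.Lib.MP_361a6f_ag.PP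

namespace Lnk

open OStr Module PSI

variable {k : Type u} [Field k] {W : CohomologyData.{u, 0, w} k ℂ} {𝒱 : VarietyClass k}

section one

variable (hW : IsWeilCohomology W 𝒱) {Z : Sch k} {e : ℕ} (hZ : 𝒱.mem Z e)
  {η : W.coh Z} (hη : η ∈ W.alg Z 1) {Lam : Module.End ℂ (W.coh Z)}
  (D : LamData W Z e η Lam) (hT : StaStatement.{w})

/-- the multiplication by `η` -/
abbrev Lr (W : CohomologyData.{u, 0, w} k ℂ) (Z : Sch k) (η : W.coh Z) : Module.End ℝ (W.coh Z) :=
  LinearMap.mulLeft ℝ η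

theorem Lr_pow (r : ℕ) (x : W.coh Z) : (Lr W Z η ^ r) x = η ^ r * x := by
  rw [LinearMap.pow_mulLeft]
  rfl

include hW hZ in
theorem finR : Module.Finite ℝ (W.coh Z) := by
  have hfin : Module.Finite ℂ (W.coh Z) := hW.graded.finite hZ
  exact Module.Finite.trans ℂ (W.coh Z)

include hW hZ hη in
theorem mul_algR {l : ℕ} {x : W.coh Z} (hx : x ∈ algR W Z l) : η * x ∈ algR W Z (l + 1) := by
  refine Submodule.span_induction (p := fun x _ => η * x ∈ algR W Z (l + 1)) ?_ ?_ ?_ ?_ hx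
  · intro x hx
    have h1 := hW.mul_alg hZ hη hx
    rw [add_comm 1 l] at h1
    exact Submodule.subset_span h1
  · rw [mul_zero]; exact zero_mem _
  · intro a b _ _ ha hb
    rw [mul_add]; exact add_mem ha hb
  · intro r a _ ha
    rw [mul_smul_comm]; exact Submodule.smul_mem _ r ha

include hW hZ hη D hT in
theorem star_algR {l : ℕ} (hl : l ≤ e) {x : W.coh Z} (hx : x ∈ algR W Z l) :
    star D.slm.internal (Lop W Z η) Lam x ∈ algR W Z (e - l) := by
  refine Submodule.span_induction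
    (p := fun x _ => star D.slm.internal (Lop W Z η) Lam x ∈ algR W Z (e - l)) ?_ ?_ ?_ ?_ hx
  · intro x hx
    have hg := hW.alg_gr hZ hx
    have h1 := (hT D.slm).1 (2 * l) x (by omega) hg
    rw [show 2 * e - 2 * l = 2 * (e - l) by omega] at h1
    exact Submodule.subset_span (tot_alg hW hZ (star_tot hW hZ hη D (alg_le_tot hW Z l hx) hg) h1)
  · rw [map_zero]; exact zero_mem _
  · intro a b _ _ ha hb
    rw [map_add]; exact add_mem ha hb
  · intro r a _ ha
    rw [← AR_smul_real, map_smul, AR_smul_real]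
    exact Submodule.smul_mem _ r ha

include hW hZ hη D hT in
/-- **hard Lefschetz for the real algebraic classes** -/
theorem lefA : Lef (Lr W Z η) e (algR W Z) := by
  have := finR hW hZ
  have hinj : ∀ l, 2 * l ≤ e → ∀ x ∈ algR W Z l, (Lr W Z η ^ (e - 2 * l)) x = 0 → x = 0 := by
    intro l hl x hx h
    rw [Lr_pow] at h
    refine SL2.inj D.slm (2 * l) x (by omega) (span_gr hW hZ hx) ?_
    rw [Lop_pow hW hZ]
    exact h
  have hmap : ∀ l, ∀ x ∈ algR W Z l, Lr W Z η x ∈ algR W Z (l + 1) := fun l x hx =>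
    mul_algR hW hZ hη hx
  refine ⟨hmap, hinj, ?_, ?_⟩
  · intro l hl y hy
    -- the dimensions agree
    have h1 : finrank ℝ (algR W Z (e - l)) ≤ finrank ℝ (algR W Z l) := by
      let s : W.coh Z →ₗ[ℝ] W.coh Z :=
        (star D.slm.internal (Lop W Z η) Lam).restrictScalars ℝ
      let g : algR W Z (e - l) →ₗ[ℝ] algR W Z l :=
        (s.domRestrict (algR W Z (e - l))).codRestrict (algR W Z l) (fun x => by
          have := star_algR hW hZ hη D hT (l := e - l) (by omega) x.2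
          rw [show e - (e - l) = l by omega] at this
          exact this)
      refine LinearMap.finrank_le_finrank_of_injective (f := g) ?_
      intro a b hab
      have h2 : star D.slm.internal (Lop W Z η) Lam (a : W.coh Z)
          = star D.slm.internal (Lop W Z η) Lam (b : W.coh Z) := congrArg Subtype.val hab
      have h3 := congrArg (star D.slm.internal (Lop W Z η) Lam) h2
      rw [(hT D.slm).2.1, (hT D.slm).2.1] at h3
      exact Subtype.ext h3
    have h2 : (algR W Z l).map (Lr W Z η ^ (e - 2 * l)) ≤ algR W Z (e - l) := by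
      rintro _ ⟨x, hx, rfl⟩
      have h3 : ∀ r m, ∀ x ∈ algR W Z m, (Lr W Z η ^ r) x ∈ algR W Z (m + r) := by
        intro r
        induction r with
        | zero => intro m x hx; simpa using hx
        | succ r ih =>
          intro m x hx
          rw [pow_succ', Module.End.mul_apply, ← add_assoc]
          exact hmap _ _ (ih m x hx)
      have h4 := h3 (e - 2 * l) l x hx
      rwa [show l + (e - 2 * l) = e - l by omega] at h4
    have h3 : finrank ℝ ((algR W Z l).map (Lr W Z η ^ (e - 2 * l))) = finrank ℝ (algR W Z l) := by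
      let g : algR W Z l →ₗ[ℝ] W.coh Z := (Lr W Z η ^ (e - 2 * l)) ∘ₗ (algR W Z l).subtype
      have hg : Function.Injective g := by
        rw [← LinearMap.ker_eq_bot, LinearMap.ker_eq_bot']
        intro x hx
        exact Subtype.ext (hinj l hl x x.2 hx)
      have h4 : (algR W Z l).map (Lr W Z η ^ (e - 2 * l)) = LinearMap.range g := by
        rw [LinearMap.range_comp, Submodule.range_subtype]
      rw [h4, LinearMap.finrank_range_of_inj hg]
    have h4 := Submodule.eq_of_le_of_finrank_le h2 (by rw [h3]; exact h1)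
    rw [← h4] at hy
    obtain ⟨x, hx, hxy⟩ := hy
    exact ⟨x, hx, hxy⟩
  · intro x hx
    rw [Lr_pow]
    have h1 := D.slm.top
    have h2 : η ^ (e + 1) * x ∈ W.gr Z (2 * (0 + (e + 1))) := by
      have h3 : ∀ r, η ^ r * x ∈ algR W Z (0 + r) := by
        intro r
        induction r with
        | zero => simpa using hx
        | succ r ih =>
          rw [pow_succ', mul_assoc, ← add_assoc]
          exact mul_algR hW hZ hη ih
      exact span_gr hW hZ (h3 (e + 1))
    exact hW.top_gr hZ h2 (by omega)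

include hW hZ hη D hT in
/-- numerically trivial classes and the Lefschetz isomorphism -/
theorem num_of {l : ℕ} (hl : 2 * l ≤ e) {x : W.coh Z} (hx : x ∈ algR W Z l)
    (hn : (Lr W Z η ^ (e - 2 * l)) x ∈ numR W Z (e - l)) : x ∈ numR W Z l := by
  refine ⟨hx, fun j w hw => ?_⟩
  change W.tr Z (x * w) = 0
  by_cases hj : j = e - l
  · subst hj
    have h1 : w ∈ algR W Z (e - l) := Submodule.subset_span hw
    obtain ⟨y, hy, hyw⟩ := (lefA hW hZ hη D hT).surj l hl w h1
    rw [Lr_pow] at hyw hn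
    have h2 := (ZNum.mem_numR.1 hn).2 y (ZE.algR_AR hy)
    have hcomm : ∀ (t : ℕ) (z : W.coh Z), z * η ^ t = η ^ t * z := fun t z => by
      induction t with
      | zero => rw [pow_zero, one_mul, mul_one]
      | succ t ih => rw [pow_succ, ← mul_assoc, ih, mul_assoc, mul_assoc, hW.alg_comm hZ hη z]
    rw [← hyw, ← mul_assoc, hcomm]
    exact h2
  · exact hW.tr_gr hZ (hW.mul_gr hZ (span_gr hW hZ hx) (hW.alg_gr hZ hw)) (by
      intro h
      exact hj (by omega))

end one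

/-! ### The grading -/

section grading

variable {m : ℕ} {X : Fin m → Sch k} {n : Fin m → ℕ}

/-- the standard polarisation and the unit are fixed by the real structure -/
theorem J_pol (hW : IsWeilCohomology W 𝒱) (hX : ∀ a, 𝒱.mem (X a) (n a))
    {ξ : ∀ a, W.coh (X a)} (hξ : ∀ a, PositiveDivisor W (X a) (n a) (ξ a))
    (hL : ∀ a, HardLefschetz W (X a) (n a) (ξ a)) (hΛ : ∀ a, AlgebraicLambda W (X a) (n a) (ξ a))
    {J : ∀ P : Prd m, W.coh (P.obj X) →ₛₗ[starRingEnd ℂ] W.coh (P.obj X)}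
    (hJ : HRSys W X n ξ J) : ∀ P : Prd m, J P 1 = 1 ∧ J P (P.pol W ξ) = P.pol W ξ
  | .leaf a => by
    obtain ⟨Lam, D⟩ := lam hW (hX a) (hξ a).1 (hL a) (hΛ a)
    exact ⟨(hri hW (hX a) (hξ a) D (J (.leaf a)) (hJ.leaf a)).one, (hJ.leaf a).pol⟩
  | .prod P Q => by
    obtain ⟨h1, h2⟩ := J_pol hW hX hξ hL hΛ hJ P
    obtain ⟨h3, h4⟩ := J_pol hW hX hξ hL hΛ hJ Q
    have e1 : (1 : W.coh ((Prd.prod P Q).obj X)) = W.ext 1 1 := by
      change (1 : W.coh ((P.obj X).prod (Q.obj X))) = W.pull _ 1 * W.pull _ 1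
      rw [map_one, map_one, mul_one]
    have e2 : (Prd.prod P Q).pol W ξ = W.ext (P.pol W ξ) 1 + W.ext 1 (Q.pol W ξ) := by
      change W.pull _ (P.pol W ξ) + W.pull _ (Q.pol W ξ)
        = W.pull _ (P.pol W ξ) * W.pull _ 1 + W.pull _ 1 * W.pull _ (Q.pol W ξ)
      rw [map_one, map_one, mul_one, one_mul]
    constructor
    · rw [e1, hJ.prod, h1, h3]
    · refine (congrArg (J (.prod P Q)) e2).trans (Eq.trans ?_ e2.symm)
      refine (map_add (J (.prod P Q)) (W.ext (P.pol W ξ) 1) (W.ext 1 (Q.pol W ξ))).trans ?_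
      exact congrArg₂ (fun a b : W.coh ((P.obj X).prod (Q.obj X)) => a + b)
        ((hJ.prod P Q _ _).trans (by rw [h2, h3])) ((hJ.prod P Q _ _).trans (by rw [h1, h4]))

/-- the spaces of the classes of the parity `ε` -/
noncomputable def CV {C : ZMod 2 → ∀ P : Prd m, ℕ → W.coh (P.obj X) → Prop}
    (G : Grading W X n C) (ε : ZMod 2) (P : Prd m) (l : ℕ) : Submodule ℝ (W.coh (P.obj X)) :=
  (G.lin ε P l).choose

theorem mem_CV {C : ZMod 2 → ∀ P : Prd m, ℕ → W.coh (P.obj X) → Prop}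
    (G : Grading W X n C) {ε : ZMod 2} {P : Prd m} {l : ℕ} {z : W.coh (P.obj X)} :
    z ∈ CV G ε P l ↔ C ε P l z := ((G.lin ε P l).choose_spec z).symm

theorem CV_eq {C : ZMod 2 → ∀ P : Prd m, ℕ → W.coh (P.obj X) → Prop}
    (G : Grading W X n C) {ε : ZMod 2} {P : Prd m} {l : ℕ} {V : Submodule ℝ (W.coh (P.obj X))}
    (hV : ∀ z, C ε P l z ↔ z ∈ V) : CV G ε P l = V := by
  ext z
  rw [mem_CV, hV]

section main

variable (hW : IsWeilCohomology W 𝒱) (hX : ∀ a, 𝒱.mem (X a) (n a))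
    {ξ : ∀ a, W.coh (X a)} (hξ : ∀ a, PositiveDivisor W (X a) (n a) (ξ a))
    (hL : ∀ a, HardLefschetz W (X a) (n a) (ξ a)) (hΛ : ∀ a, AlgebraicLambda W (X a) (n a) (ξ a))
    {J : ∀ P : Prd m, W.coh (P.obj X) →ₛₗ[starRingEnd ℂ] W.coh (P.obj X)}
    (hJ : HRSys W X n ξ J) {C : ZMod 2 → ∀ P : Prd m, ℕ → W.coh (P.obj X) → Prop}
    (G : Grading W X n C) (Pa : Parity W X n ξ J C) (P : Prd m)

include hW hX hξ hL hΛ in
/-- the data of a product -/
theorem data : 𝒱.mem (P.obj X) (P.dim n) ∧ P.pol W ξ ∈ W.alg (P.obj X) 1 ∧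
    ∃ Lam, LamData W (P.obj X) (P.dim n) (P.pol W ξ) Lam := by
  obtain ⟨H, hHX, hHn, hHξ⟩ := gb26 hW hX (fun a => (hξ a).1) hL hΛ
  subst hHX hHn
  obtain rfl := eq_of_heq hHξ
  exact ⟨H.memP P, (H.lamP P).2, _, (H.lamP P).1⟩

include hW hX hξ hL hΛ hJ Pa in
theorem pol_even : C 0 P 1 (P.pol W ξ) := by
  obtain ⟨_, hη, _⟩ := data hW hX hξ hL hΛ P
  exact Pa.fix P 1 _ hη (J_pol hW hX hξ hL hΛ hJ P).2

include hW hX hξ hL hΛ hJ Pa in
/-- the two halves of the real algebraic classes -/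
theorem halves : Halves (Lr W (P.obj X) (P.pol W ξ)) (P.dim n) (algR W (P.obj X))
    (CV G 0 P) (CV G 1 P) (numR W (P.obj X)) := by
  obtain ⟨hZ, hη, Lam, D⟩ := data hW hX hξ hL hΛ P
  have hpe := pol_even hW hX hξ hL hΛ hJ Pa P
  refine ⟨lefA hW hZ hη D staB, ?_, ?_, ?_, ?_, ?_⟩
  · intro l
    ext z
    rw [Submodule.mem_sup]
    constructor
    · intro hz
      obtain ⟨x, y, hx, hy, rfl⟩ := (G.sum P l z).1 hz
      exact ⟨x, (mem_CV G).2 hx, y, (mem_CV G).2 hy, rfl⟩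
    · rintro ⟨x, hx, y, hy, rfl⟩
      exact (G.sum P l _).2 ⟨x, y, (mem_CV G).1 hx, (mem_CV G).1 hy, rfl⟩
  · intro l
    ext z
    rw [Submodule.mem_inf, mem_CV, mem_CV]
    exact (G.num P l z).symm
  · intro l x hx
    have h1 := G.cup P 0 0 1 l _ x hpe ((mem_CV G).1 hx)
    rw [add_comm 1 l, add_zero] at h1
    exact (mem_CV G).2 h1
  · intro l x hx
    have h1 := G.cup P 0 1 1 l _ x hpe ((mem_CV G).1 hx)
    rw [add_comm 1 l, zero_add] at h1
    exact (mem_CV G).2 h1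
  · intro l hl x hx h
    exact num_of hW hZ hη D staB hl hx h

/-- membership in the primitive part -/
theorem mem_prim {A : ℕ → Submodule ℝ (W.coh (P.obj X))} {l : ℕ} {x : W.coh (P.obj X)} :
    x ∈ prim (Lr W (P.obj X) (P.pol W ξ)) (P.dim n) A l ↔
      x ∈ A l ∧ P.pol W ξ ^ (P.dim n - 2 * l + 1) * x = 0 := by
  rw [prim, Submodule.mem_inf, LinearMap.mem_ker, Lr_pow]

include hW hX hξ hL hΛ in
/-- the form is zero on numerically trivial classes -/
theorem form_num {l : ℕ} {x : W.coh (P.obj X)} (hx : x ∈ numR W (P.obj X) l) :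
    W.Tr (W.cup (P.pol W ξ ^ (P.dim n - 2 * l)) (W.cup x x)) = 0 := by
  obtain ⟨hZ, hη, Lam, D⟩ := data hW hX hξ hL hΛ P
  have h1 := ZNum.mem_numR.1 hx
  change W.tr (P.obj X) (P.pol W ξ ^ (P.dim n - 2 * l) * (x * x)) = 0
  have hpow : ∀ r, P.pol W ξ ^ r ∈ AR W (P.obj X) := by
    intro r
    induction r with
    | zero => rw [pow_zero]; exact AR_alg (hW.one_alg hZ)
    | succ r ih => rw [pow_succ']; exact AR_mul hW hZ (AR_alg hη) ih
  have hcomm : ∀ (t : ℕ) (z : W.coh (P.obj X)), z * P.pol W ξ ^ t = P.pol W ξ ^ t * z :=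
    fun t z => by
      induction t with
      | zero => rw [pow_zero, one_mul, mul_one]
      | succ t ih => rw [pow_succ, ← mul_assoc, ih, mul_assoc, mul_assoc, hW.alg_comm hZ hη z]
  rw [← mul_assoc, ← hcomm, mul_assoc]
  exact h1.2 _ (AR_mul hW hZ (hpow _) (ZE.algR_AR h1.1))

include hW hX hξ hL hΛ Pa in
/-- the sign of the form on the primitive classes of the parity `ε` -/
theorem form_pos (ε : ZMod 2) {l : ℕ} (hl : 2 * l ≤ P.dim n) {x : W.coh (P.obj X)}
    (hx : x ∈ prim (Lr W (P.obj X) (P.pol W ξ)) (P.dim n) (CV G ε P) l)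
    (h0 : x ∉ numR W (P.obj X) l) : ∃ r : ℝ, 0 < r ∧ (-1) ^ ε.val *
      ((-1) ^ l * W.Tr (W.cup (P.pol W ξ ^ (P.dim n - 2 * l)) (W.cup x x))) = (r : ℂ) := by
  rw [mem_prim] at hx
  obtain ⟨r, hr, h1⟩ := Pa.form P _ (HodgeZ.isPol ξ P) ε l x hl ((mem_CV G).1 hx.1) (by
    have h2 : W.cup (P.pol W ξ ^ (P.dim n - 2 * l + 1)) x = 0 := hx.2
    rw [h2]
    exact (numR W (P.obj X) (P.dim n - l + 1)).zero_mem) h0
  refine ⟨r, hr, ?_⟩
  rw [← h1, pow_add]
  ring

/-- the codimensions add up: the parity of a unit vector in `ZMod 2` -/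
theorem val01 : ((0 : ZMod 2).val = 0) ∧ ((1 : ZMod 2).val = 1) := ⟨rfl, rfl⟩

include hW hX hξ hL hΛ hJ G Pa in
/-- the signature is given by the dimensions of the primitive parts of the two halves -/
theorem sig_prim {l : ℕ} (hl : 2 * l ≤ P.dim n) {p q : ℕ}
    (h : HasSig W (P.obj X) (P.dim n) (P.pol W ξ) l p q) :
    p + finrank ℝ (prim (Lr W (P.obj X) (P.pol W ξ)) (P.dim n) (numR W (P.obj X)) l)
      = finrank ℝ (prim (Lr W (P.obj X) (P.pol W ξ)) (P.dim n) (CV G 0 P) l) ∧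
    q + finrank ℝ (prim (Lr W (P.obj X) (P.pol W ξ)) (P.dim n) (numR W (P.obj X)) l)
      = finrank ℝ (prim (Lr W (P.obj X) (P.pol W ξ)) (P.dim n) (CV G 1 P) l) := by
  obtain ⟨hZ, hη, Lam, D⟩ := data hW hX hξ hL hΛ P
  have := finR hW hZ
  have H := halves hW hX hξ hL hΛ hJ G Pa P
  have hle0 : ∀ l, CV G 0 P l ≤ algR W (P.obj X) l := fun l => by
    rw [H.sup]; exact le_sup_left
  have hle1 : ∀ l, CV G 1 P l ≤ algR W (P.obj X) l := fun l => by
    rw [H.sup]; exact le_sup_right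
  set F : W.coh (P.obj X) → ℂ := fun x =>
    (-1) ^ l * W.Tr (W.cup (P.pol W ξ ^ (P.dim n - 2 * l)) (W.cup x x)) with hF
  have hF0 : ∀ x ∈ numR W (P.obj X) l, F x = 0 := fun x hx => by
    simp only [hF]
    rw [form_num hW hX hξ hL hΛ P hx, mul_zero]
  have hE : ∀ x ∈ prim (Lr W (P.obj X) (P.pol W ξ)) (P.dim n) (CV G 0 P) l,
      x ∉ numR W (P.obj X) l → ∃ r : ℝ, 0 < r ∧ F x = (r : ℂ) := by
    intro x hx h0
    obtain ⟨r, hr, h1⟩ := form_pos hW hX hξ hL hΛ G Pa P 0 hl hx h0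
    rw [val01.1, pow_zero, one_mul] at h1
    exact ⟨r, hr, h1⟩
  have hO : ∀ x ∈ prim (Lr W (P.obj X) (P.pol W ξ)) (P.dim n) (CV G 1 P) l,
      x ∉ numR W (P.obj X) l → ∃ r : ℝ, 0 < r ∧ -F x = (r : ℂ) := by
    intro x hx h0
    obtain ⟨r, hr, h1⟩ := form_pos hW hX hξ hL hΛ G Pa P 1 hl hx h0
    rw [val01.2, pow_one, neg_one_mul] at h1
    exact ⟨r, hr, h1⟩
  have hprim : ∀ (ε : ℂ) (U : Submodule ℝ (W.coh (P.obj X))),
      Definite W (P.obj X) (P.dim n) (P.pol W ξ) l ε U →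
      U ≤ prim (Lr W (P.obj X) (P.pol W ξ)) (P.dim n) (algR W (P.obj X)) l :=
    fun ε U hU x hx => (mem_prim P).2 ⟨hU.real x hx, hU.prim x hx⟩
  constructor
  · -- the positive part
    have h1 : ∀ U, Definite W (P.obj X) (P.dim n) (P.pol W ξ) l 1 U →
        finrank ℝ U + finrank ℝ (prim (Lr W (P.obj X) (P.pol W ξ)) (P.dim n)
          (numR W (P.obj X)) l)
        ≤ finrank ℝ (prim (Lr W (P.obj X) (P.pol W ξ)) (P.dim n) (CV G 0 P) l) := by
      intro U hU
      refine H.le hl U (hprim _ U hU) fun x hx hxO => ?_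
      by_contra h0
      obtain ⟨t, ht, h2⟩ := hU.pos x hx h0
      rw [one_mul] at h2
      have h2' : F x = (t : ℂ) := h2
      by_cases hN : x ∈ numR W (P.obj X) l
      · rw [hF0 x hN] at h2'
        exact ht.ne (by exact_mod_cast h2')
      · obtain ⟨r, hr, h3⟩ := hO x hxO hN
        rw [h2'] at h3
        have h4 : -t = r := by exact_mod_cast h3
        linarith
    have h2 : ∃ U, Definite W (P.obj X) (P.dim n) (P.pol W ξ) l 1 U ∧
        finrank ℝ U + finrank ℝ (prim (Lr W (P.obj X) (P.pol W ξ)) (P.dim n)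
          (numR W (P.obj X)) l)
        = finrank ℝ (prim (Lr W (P.obj X) (P.pol W ξ)) (P.dim n) (CV G 0 P) l) := by
      obtain ⟨U, hU1, hU2, hU3⟩ := H.ex l
      refine ⟨U, ⟨fun x hx => hle0 l ((mem_prim P).1 (hU1 hx)).1,
        fun x hx => ((mem_prim P).1 (hU1 hx)).2, fun x hx h0 => ?_⟩, hU3⟩
      obtain ⟨r, hr, h3⟩ := hE x (hU1 hx) fun hN => h0 (hU2 x hx hN)
      exact ⟨r, hr, by rw [one_mul]; exact h3⟩
    obtain ⟨U, hU, hUp⟩ := h.pos
    obtain ⟨V, hV, hVe⟩ := h2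
    have h3 := h1 U hU
    have h4 := h.pos_le V hV
    omega
  · -- the negative part
    have h1 : ∀ U, Definite W (P.obj X) (P.dim n) (P.pol W ξ) l (-1) U →
        finrank ℝ U + finrank ℝ (prim (Lr W (P.obj X) (P.pol W ξ)) (P.dim n)
          (numR W (P.obj X)) l)
        ≤ finrank ℝ (prim (Lr W (P.obj X) (P.pol W ξ)) (P.dim n) (CV G 1 P) l) := by
      intro U hU
      refine H.symm.le hl U (hprim _ U hU) fun x hx hxE => ?_
      by_contra h0
      obtain ⟨t, ht, h2⟩ := hU.pos x hx h0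
      rw [neg_one_mul] at h2
      have h2' : -F x = (t : ℂ) := h2
      by_cases hN : x ∈ numR W (P.obj X) l
      · rw [hF0 x hN, neg_zero] at h2'
        exact ht.ne (by exact_mod_cast h2')
      · obtain ⟨r, hr, h3⟩ := hE x hxE hN
        rw [h3] at h2'
        have h4 : -r = t := by exact_mod_cast h2'
        linarith
    have h2 : ∃ U, Definite W (P.obj X) (P.dim n) (P.pol W ξ) l (-1) U ∧
        finrank ℝ U + finrank ℝ (prim (Lr W (P.obj X) (P.pol W ξ)) (P.dim n)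
          (numR W (P.obj X)) l)
        = finrank ℝ (prim (Lr W (P.obj X) (P.pol W ξ)) (P.dim n) (CV G 1 P) l) := by
      obtain ⟨U, hU1, hU2, hU3⟩ := H.symm.ex l
      refine ⟨U, ⟨fun x hx => hle1 l ((mem_prim P).1 (hU1 hx)).1,
        fun x hx => ((mem_prim P).1 (hU1 hx)).2, fun x hx h0 => ?_⟩, hU3⟩
      obtain ⟨r, hr, h3⟩ := hO x (hU1 hx) fun hN => h0 (hU2 x hx hN)
      exact ⟨r, hr, by rw [neg_one_mul]; exact h3⟩
    obtain ⟨U, hU, hUp⟩ := h.neg
    obtain ⟨V, hV, hVe⟩ := h2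
    have h3 := h1 U hU
    have h4 := h.neg_le V hV
    omega

include hW hX hξ hL hΛ hJ G Pa in
/-- **the link**: the dimensions of the even and of the odd classes of codimension `l` -/
theorem link {p q : ℕ → ℕ}
    (h : ∀ j, 2 * j ≤ P.dim n → HasSig W (P.obj X) (P.dim n) (P.pol W ξ) j (p j) (q j))
    {l : ℕ} (hl : l ≤ P.dim n) {E O : Submodule ℝ (W.coh (P.obj X))}
    (hE : ∀ z, C 0 P l z ↔ z ∈ E) (hO : ∀ z, C 1 P l z ↔ z ∈ O) :
    finrank ℝ E = finrank ℝ (numR W (P.obj X) l) +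
      ∑ j ∈ Finset.range (min l (P.dim n - l) + 1), p j ∧
    finrank ℝ O = finrank ℝ (numR W (P.obj X) l) +
      ∑ j ∈ Finset.range (min l (P.dim n - l) + 1), q j := by
  obtain ⟨hZ, hη, Lam, D⟩ := data hW hX hξ hL hΛ P
  have := finR hW hZ
  have H := halves hW hX hξ hL hΛ hJ G Pa P
  rw [← CV_eq G hE, ← CV_eq G hO]
  exact ⟨H.total (fun j hj => (sig_prim hW hX hξ hL hΛ hJ G Pa P hj (h j hj)).1) l hl,
    H.symm.total (fun j hj => (sig_prim hW hX hξ hL hΛ hJ G Pa P hj (h j hj)).2) l hl⟩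

end main

end grading

end Lnk

end Pool.Agent.Lib.MP_361a6f_ag.FL
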