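import Mathlib

/-!
# Even and odd dimensions and the signature, abstract part

`A l` are real vector spaces with an operator `L` that satisfies the hard Lefschetz theorem,
`A l = E l + O l`, `E l ∩ O l = N l`. A form on the primitive parts is positive on `E l` and
negative on `O l`, up to `N l`.
-/

set_option autoImplicit false

namespace Pool.Agent.Lib.MP_361a6f_ag.FL.Lnk

open Module

variable {V : Type*} [AddCommGroup V] [Module ℝ V] [FiniteDimensional ℝ V]

/-- the hard Lefschetz theorem for the family `A` -/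
structure Lef (L : Module.End ℝ V) (d : ℕ) (A : ℕ → Submodule ℝ V) : Prop where
  map : ∀ l, ∀ x ∈ A l, L x ∈ A (l + 1)
  inj : ∀ l, 2 * l ≤ d → ∀ x ∈ A l, (L ^ (d - 2 * l)) x = 0 → x = 0
  surj : ∀ l, 2 * l ≤ d → ∀ y ∈ A (d - l), ∃ x ∈ A l, (L ^ (d - 2 * l)) x = y
  zero : ∀ x ∈ A 0, (L ^ (d + 1)) x = 0

/-- the primitive part -/
def prim (L : Module.End ℝ V) (d : ℕ) (A : ℕ → Submodule ℝ V) (l : ℕ) : Submodule ℝ V :=
  A l ⊓ LinearMap.ker (L ^ (d - 2 * l + 1))

variable {L : Module.End ℝ V} {d : ℕ} {A : ℕ → Submodule ℝ V}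

theorem Lef.map_pow (h : Lef L d A) (r : ℕ) : ∀ l, ∀ x ∈ A l, (L ^ r) x ∈ A (l + r) := by
  induction r with
  | zero => intro l x hx; simpa using hx
  | succ r ih =>
    intro l x hx
    rw [pow_succ', Module.End.mul_apply, ← add_assoc]
    exact h.map _ _ (ih l x hx)

/-- a linear map between subspaces -/
theorem finrank_of {P Q : Submodule ℝ V} (f : Module.End ℝ V) (hf : ∀ x ∈ P, f x ∈ Q)
    (hs : ∀ y ∈ Q, ∃ x ∈ P, f x = y) :
    finrank ℝ P = finrank ℝ (P ⊓ LinearMap.ker f : Submodule ℝ V) + finrank ℝ Q := by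
  let g : P →ₗ[ℝ] Q := (f.domRestrict P).codRestrict Q (fun x => hf x x.2)
  have hg : Function.Surjective g := by
    rintro ⟨y, hy⟩
    obtain ⟨x, hx, h⟩ := hs y hy
    exact ⟨⟨x, hx⟩, Subtype.ext h⟩
  have h1 := LinearMap.finrank_range_add_finrank_ker g
  rw [LinearMap.range_eq_top.2 hg, finrank_top] at h1
  have h2 : finrank ℝ (LinearMap.ker g) = finrank ℝ (P ⊓ LinearMap.ker f : Submodule ℝ V) := by
    have h3 : (LinearMap.ker g).map P.subtype = P ⊓ LinearMap.ker f := by
      ext x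
      constructor
      · rintro ⟨y, hy, rfl⟩
        refine ⟨y.2, ?_⟩
        have : g y = 0 := hy
        have h4 : ((g y : Q) : V) = 0 := by rw [this]; rfl
        exact h4
      · rintro ⟨hx, hk⟩
        refine ⟨⟨x, hx⟩, ?_, rfl⟩
        have : g ⟨x, hx⟩ = 0 := Subtype.ext hk
        exact this
    rw [← h3]
    exact (Submodule.equivMapOfInjective _ P.injective_subtype _).finrank_eq
  omega

theorem Lef.dim_eq (h : Lef L d A) {l : ℕ} (hl : 2 * l ≤ d) :
    finrank ℝ (A (d - l)) = finrank ℝ (A l) := by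
  have h1 := finrank_of (P := A l) (Q := A (d - l)) (L ^ (d - 2 * l)) (fun x hx => by
    have := h.map_pow (d - 2 * l) l x hx
    rwa [show l + (d - 2 * l) = d - l by omega] at this) (h.surj l hl)
  have h2 : (A l ⊓ LinearMap.ker (L ^ (d - 2 * l)) : Submodule ℝ V) = ⊥ := by
    rw [Submodule.eq_bot_iff]
    rintro x ⟨h3, h4⟩
    exact h.inj l hl x h3 h4
  rw [h2, finrank_bot] at h1
  omega

theorem Lef.dim_succ (h : Lef L d A) {l : ℕ} (hl : 2 * (l + 1) ≤ d) :
    finrank ℝ (A (l + 1)) = finrank ℝ (prim L d A (l + 1)) + finrank ℝ (A l) := by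
  have h1 := finrank_of (P := A (l + 1)) (Q := A (d - l)) (L ^ (d - 2 * (l + 1) + 1))
    (fun x hx => by
      have := h.map_pow (d - 2 * (l + 1) + 1) (l + 1) x hx
      rwa [show l + 1 + (d - 2 * (l + 1) + 1) = d - l by omega] at this) (fun y hy => by
      obtain ⟨x, hx, hxy⟩ := h.surj l (by omega) y hy
      refine ⟨L x, h.map l x hx, ?_⟩
      rw [← Module.End.mul_apply, ← pow_succ,
        show d - 2 * (l + 1) + 1 + 1 = d - 2 * l by omega]
      exact hxy)
  rw [h1, h.dim_eq (by omega)]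
  rfl

theorem Lef.dim_zero (h : Lef L d A) : prim L d A 0 = A 0 := by
  refine le_antisymm inf_le_left fun x hx => ⟨hx, ?_⟩
  have := h.zero x hx
  rwa [show d + 1 = d - 2 * 0 + 1 by omega] at this

/-- the two halves -/
structure Halves (L : Module.End ℝ V) (d : ℕ) (A E O N : ℕ → Submodule ℝ V) : Prop where
  lef : Lef L d A
  sup : ∀ l, A l = E l ⊔ O l
  inf : ∀ l, E l ⊓ O l = N l
  mapE : ∀ l, ∀ x ∈ E l, L x ∈ E (l + 1)
  mapO : ∀ l, ∀ x ∈ O l, L x ∈ O (l + 1)
  num : ∀ l, 2 * l ≤ d → ∀ x ∈ A l, (L ^ (d - 2 * l)) x ∈ N (d - l) → x ∈ N l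

variable {E O N : ℕ → Submodule ℝ V}

theorem Halves.symm (h : Halves L d A E O N) : Halves L d A O E N :=
  ⟨h.lef, fun l => by rw [h.sup, sup_comm], fun l => by rw [← h.inf, inf_comm], h.mapO, h.mapE,
    h.num⟩

theorem map_pow' (hE : ∀ l, ∀ x ∈ E l, L x ∈ E (l + 1)) (r : ℕ) :
    ∀ l, ∀ x ∈ E l, (L ^ r) x ∈ E (l + r) := by
  induction r with
  | zero => intro l x hx; simpa using hx
  | succ r ih =>
    intro l x hx
    rw [pow_succ', Module.End.mul_apply, ← add_assoc]
    exact hE _ _ (ih l x hx)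

theorem Halves.lefE (h : Halves L d A E O N) : Lef L d E := by
  have hEA : ∀ l, E l ≤ A l := fun l => by rw [h.sup]; exact le_sup_left
  have hNE : ∀ l, N l ≤ E l := fun l => by rw [← h.inf]; exact inf_le_left
  refine ⟨h.mapE, fun l hl x hx => h.lef.inj l hl x (hEA l hx), fun l hl y hy => ?_,
    fun x hx => h.lef.zero x (hEA 0 hx)⟩
  obtain ⟨x, hx, hxy⟩ := h.lef.surj l hl y (hEA _ hy)
  have hx' := hx
  rw [h.sup, Submodule.mem_sup] at hx'
  obtain ⟨a, ha, b, hb, rfl⟩ := hx'
  have h1 : (L ^ (d - 2 * l)) a ∈ E (d - l) := by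
    have := map_pow' h.mapE (d - 2 * l) l a ha
    rwa [show l + (d - 2 * l) = d - l by omega] at this
  have h2 : (L ^ (d - 2 * l)) b ∈ O (d - l) := by
    have := map_pow' h.mapO (d - 2 * l) l b hb
    rwa [show l + (d - 2 * l) = d - l by omega] at this
  have h3 : (L ^ (d - 2 * l)) b ∈ N (d - l) := by
    rw [← h.inf]
    refine ⟨?_, h2⟩
    have : (L ^ (d - 2 * l)) b = y - (L ^ (d - 2 * l)) a := by rw [← hxy, map_add]; abel
    rw [this]
    exact sub_mem hy h1
  have h4 : b ∈ N l := h.num l hl b (by rw [h.sup]; exact Submodule.mem_sup_right hb) h3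
  exact ⟨a + b, add_mem ha (hNE l h4), hxy⟩

theorem Halves.lefN (h : Halves L d A E O N) : Lef L d N := by
  have hE := h.lefE
  have hO := h.symm.lefE
  have hmem : ∀ l x, x ∈ N l ↔ x ∈ E l ∧ x ∈ O l := fun l x => by rw [← h.inf]; rfl
  refine ⟨fun l x hx => ?_, fun l hl x hx => hE.inj l hl x ((hmem _ _).1 hx).1,
    fun l hl y hy => ?_, fun x hx => hE.zero x ((hmem _ _).1 hx).1⟩
  · obtain ⟨h1, h2⟩ := (hmem _ _).1 hx
    exact (hmem _ _).2 ⟨h.mapE l x h1, h.mapO l x h2⟩
  · obtain ⟨h1, h2⟩ := (hmem _ _).1 hy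
    obtain ⟨x, hx, hxy⟩ := hE.surj l hl y h1
    refine ⟨x, h.num l hl x (by rw [h.sup]; exact Submodule.mem_sup_left hx) ?_, hxy⟩
    rw [hxy]
    exact hy

/-- the primitive parts of the two halves -/
theorem Halves.prim_dim (h : Halves L d A E O N) {l : ℕ} (hl : 2 * l ≤ d) :
    finrank ℝ (prim L d A l) + finrank ℝ (prim L d N l) =
      finrank ℝ (prim L d E l) + finrank ℝ (prim L d O l) := by
  have hA := h.lef
  have hE := h.lefE
  have hO := h.symm.lefE
  have hN := h.lefN
  have hdim : ∀ l, finrank ℝ (A l) + finrank ℝ (N l) = finrank ℝ (E l) + finrank ℝ (O l) := by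
    intro l
    rw [h.sup, ← h.inf]
    exact Submodule.finrank_sup_add_finrank_inf_eq _ _
  rcases Nat.eq_zero_or_pos l with rfl | h0
  · rw [hA.dim_zero, hE.dim_zero, hO.dim_zero, hN.dim_zero]
    exact hdim 0
  · obtain ⟨r, rfl⟩ : ∃ r, l = r + 1 := ⟨l - 1, by omega⟩
    have h1 := hA.dim_succ hl
    have h2 := hE.dim_succ hl
    have h3 := hO.dim_succ hl
    have h4 := hN.dim_succ hl
    have h5 := hdim (r + 1)
    have h6 := hdim r
    omega

/-- the primitive classes are sums of even and odd primitive classes -/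
theorem Halves.prim_sup (h : Halves L d A E O N) {l : ℕ} (hl : 2 * l ≤ d) :
    prim L d A l = prim L d E l ⊔ prim L d O l := by
  have h1 : prim L d E l ⊔ prim L d O l ≤ prim L d A l := by
    refine sup_le ?_ ?_
    · rintro x ⟨hx, hk⟩
      exact ⟨by rw [h.sup]; exact Submodule.mem_sup_left hx, hk⟩
    · rintro x ⟨hx, hk⟩
      exact ⟨by rw [h.sup]; exact Submodule.mem_sup_right hx, hk⟩
  have h2 : prim L d E l ⊓ prim L d O l = prim L d N l := by
    ext x
    constructor
    · rintro ⟨⟨a, b⟩, c, -⟩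
      exact ⟨by rw [← h.inf]; exact ⟨a, c⟩, b⟩
    · rintro ⟨a, b⟩
      rw [← h.inf] at a
      exact ⟨⟨a.1, b⟩, a.2, b⟩
  refine (Submodule.eq_of_le_of_finrank_eq h1 ?_).symm
  have h3 := Submodule.finrank_sup_add_finrank_inf_eq (prim L d E l) (prim L d O l)
  rw [h2] at h3
  have h4 := h.prim_dim hl
  omega

/-- a definite space of primitive classes is at most as large as the half with this sign -/
theorem Halves.le (h : Halves L d A E O N) {l : ℕ} (hl : 2 * l ≤ d) (U : Submodule ℝ V)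
    (hU : U ≤ prim L d A l) (hd : ∀ x ∈ U, x ∈ prim L d O l → x = 0) :
    finrank ℝ U + finrank ℝ (prim L d N l) ≤ finrank ℝ (prim L d E l) := by
  have h1 : U ⊓ prim L d O l = ⊥ := by
    rw [Submodule.eq_bot_iff]
    rintro x ⟨a, b⟩
    exact hd x a b
  have h2 := Submodule.finrank_sup_add_finrank_inf_eq U (prim L d O l)
  rw [h1, finrank_bot] at h2
  have h3 : finrank ℝ (U ⊔ prim L d O l : Submodule ℝ V) ≤ finrank ℝ (prim L d A l) := by
    refine Submodule.finrank_mono (sup_le hU ?_)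
    rw [h.prim_sup hl]
    exact le_sup_right
  have h4 := h.prim_dim hl
  omega

/-- a space of even primitive classes without numerically trivial elements -/
theorem Halves.ex (h : Halves L d A E O N) (l : ℕ) :
    ∃ U : Submodule ℝ V, U ≤ prim L d E l ∧ (∀ x ∈ U, x ∈ N l → x = 0) ∧
      finrank ℝ U + finrank ℝ (prim L d N l) = finrank ℝ (prim L d E l) := by
  have hNE : prim L d N l ≤ prim L d E l := by
    rintro x ⟨a, b⟩
    rw [← h.inf] at a
    exact ⟨a.1, b⟩
  obtain ⟨U', hU'⟩ := ((prim L d N l).submoduleOf (prim L d E l)).exists_isCompl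
  refine ⟨U'.map (prim L d E l).subtype, ?_, ?_, ?_⟩
  · rintro _ ⟨x, _, rfl⟩
    exact x.2
  · rintro _ ⟨x, hx, rfl⟩ hN
    have h1 : x ∈ (prim L d N l).submoduleOf (prim L d E l) := by
      rw [Submodule.submoduleOf, Submodule.mem_comap]
      exact ⟨hN, x.2.2⟩
    have h2 : x ∈ (prim L d N l).submoduleOf (prim L d E l) ⊓ U' := ⟨h1, hx⟩
    rw [hU'.inf_eq_bot, Submodule.mem_bot] at h2
    rw [h2, map_zero]
  · have h1 := Submodule.finrank_sup_add_finrank_inf_eq
      ((prim L d N l).submoduleOf (prim L d E l)) U'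
    rw [hU'.inf_eq_bot, hU'.sup_eq_top, finrank_bot, finrank_top,
      (Submodule.submoduleOfEquivOfLe hNE).finrank_eq] at h1
    have h2 : finrank ℝ (U'.map (prim L d E l).subtype) = finrank ℝ U' :=
      (Submodule.equivMapOfInjective _ (prim L d E l).injective_subtype U').finrank_eq.symm
    omega

/-- from the primitive parts to all codimensions -/
theorem Halves.total (h : Halves L d A E O N) {p : ℕ → ℕ}
    (hp : ∀ l, 2 * l ≤ d → p l + finrank ℝ (prim L d N l) = finrank ℝ (prim L d E l)) (l : ℕ)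
    (hl : l ≤ d) : finrank ℝ (E l) = finrank ℝ (N l) +
      ∑ j ∈ Finset.range (min l (d - l) + 1), p j := by
  have hE := h.lefE
  have hN := h.lefN
  have low : ∀ l, 2 * l ≤ d → finrank ℝ (E l) = finrank ℝ (N l) +
      ∑ j ∈ Finset.range (l + 1), p j := by
    intro l
    induction l with
    | zero =>
      intro _
      have h1 := hp 0 (by omega)
      rw [hE.dim_zero, hN.dim_zero] at h1
      rw [zero_add, Finset.sum_range_one, ← h1, add_comm]
    | succ l ih =>
      intro hl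
      have h1 := hp (l + 1) hl
      have h2 := hE.dim_succ hl
      have h3 := hN.dim_succ hl
      have h4 := ih (by omega)
      rw [Finset.sum_range_succ]
      omega
  by_cases hc : 2 * l ≤ d
  · rw [min_eq_left (by omega)]
    exact low l hc
  · rw [min_eq_right (by omega)]
    have h1 := low (d - l) (by omega)
    have h2 := hE.dim_eq (l := d - l) (by omega)
    have h3 := hN.dim_eq (l := d - l) (by omega)
    rw [show d - (d - l) = l by omega] at h2 h3
    omega

end Pool.Agent.Lib.MP_361a6f_ag.FL.Lnk
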