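import Pool.Agent.Lib.MP_361a6f_ag.FL.Z.Size
import Pool.Agent.Lib.MP_361a6f_ag.FL.O.ShareX44

/-!
# The share of the even classes tends to one, one half or zero
-/

open CategoryTheory AlgebraicGeometry MonoidalCategory CartesianMonoidalCategory
open Filter Topology

universe u v w

set_option autoImplicit false
set_option linter.unusedSectionVars false

namespace Pool.Agent.Lib.MP_361a6f_ag.FL

open Pool.Agent.Lib.MP_361a6f_ag.H3 Pool.Agent.Lib.MP_361a6f_ag.SQ
  Pool.Agent.Lib.MP_361a6f_ag.IP2 Pool.Agent.Lib.MP_361a6f_ag.PP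

namespace ZSize

open Module

open ZE Pool.Agent.Lib.MP_361a6f_ag.FL.ZNum OL

section share

variable {k : Type u} [Field k] {W : CohomologyData.{u, 0, w} k ℂ} {𝒱 : VarietyClass k}
  (H : Host W 𝒱 1)
  {J : ∀ P : Prd 1, W.coh (P.obj H.X) →ₛₗ[starRingEnd ℂ] W.coh (P.obj H.X)}
  {A : ℕ → ∀ P : Prd 1, Module.End ℂ (W.coh (P.obj H.X))}
  {K : ∀ P : Prd 1, Module.End ℂ (W.coh (P.obj H.X))} {F : Filter ℕ}

/-- without numerically trivial classes -/
theorem NN_bot {P : Prd 1} (h : numC W (P.obj H.X) = ⊥) : NN H P = ⊥ := by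
  refine (Submodule.eq_bot_iff _).2 fun z hz => ?_
  obtain ⟨h1, h2⟩ := NN_tr H hz
  have h3 : z ∈ numC W (P.obj H.X) := by
    refine ⟨Submodule.span_subset_span ℝ ℂ _ h1, fun l y hy => h2 y (Submodule.subset_span ⟨l, hy⟩)⟩
  rw [h] at h3
  exact (Submodule.mem_bot ℂ).1 h3

variable (hJ : H.J0Facts J) (hA : ∀ j, ∃ x, ZOps H J x (A j)) (hK : ∃ x, ZOps H J x K)
  (G : Grading W H.X H.n (fun ε P l z => z ∈ CZ H J A K F ε P l))

include hJ hA hK G in
/-- the number of the even classes is the positive part of the signature -/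
theorem parDim_sig [F.NeBot] (hF : ∀ P, Fit H J A K F P) (P : Prd 1) {p q : ℕ}
    (h : IsSig H.D (HostR.AtP H) P.size p q) :
    parDim W H.X (fun ε P l z => z ∈ CZ H J A K F ε P l) 0 P = p := by
  have hge : H.GeFacts := ge H
  have hgr : H.RelFacts := gr ge H
  have hfin : ∀ P : Prd 1, Module.Finite ℝ (W.coh (P.obj H.X)) := fun P =>
    have := H.hW.graded.finite (H.memP P)
    Module.Finite.trans ℂ (W.coh (P.obj H.X))
  have hAR : AR W (P.obj H.X) = HostR.totR W (P.obj H.X) := (totR_eq H.hW).symm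
  have hinf := CC_inf H hge hJ hA hK G (hF P)
  have hN0 : NN H P ≤ CC H F J A K 0 P := hinf ▸ inf_le_left
  show finrank ℝ (CC H F J A K 0 P) - finrank ℝ (NN H P) = p
  refine le_antisymm ?_ ?_
  · obtain ⟨T, hT1, hT2, hT3⟩ := lin_ex hN0 (q := fun z => (H.psiP P z z).re)
      fun z hz hzn => pos_even H hge hJ hA hK (hF P) hz hzn
    have hTA : T ≤ HostR.totR W (P.obj H.X) := hAR ▸ hT1.trans (CC_AR H)
    have h1 := h.pos_le _ (HostR.map_le H hgr hge P hTA) ((HostR.posU_map H hge P T).2 hT2)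
    rw [HostR.finrank_map H hge P] at h1
    omega
  · obtain ⟨U₀, hU1, hU2, hU3⟩ := h.pos
    obtain ⟨T, hT1, rfl⟩ := HostR.exists_map H hgr hge P hU1
    rw [HostR.finrank_map H hge P] at hU3
    have h1 := lin_le (CC_sup H G P) hinf (q := fun z => (H.psiP P z z).re)
      (fun z hz => neg_odd H hge hJ hA hz) (hAR ▸ hT1) ((HostR.posU_map H hge P T).1 hU2)
    omega

include hJ hA hK G in
/-- a negative class and an odd class -/
theorem negAt_iff [F.NeBot] (hF : ∀ P, Fit H J A K F P) (P : Prd 1) :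
    SX44.NegAt H P ↔ ∃ l, ∃ z ∈ CZ H J A K F 1 P l, z ∉ NN H P := by
  have hge : H.GeFacts := ge H
  have hgr : H.RelFacts := gr ge H
  have hAR : AR W (P.obj H.X) = HostR.totR W (P.obj H.X) := (totR_eq H.hW).symm
  constructor
  · rintro ⟨u, hu, hneg⟩
    by_contra hcon
    push Not at hcon
    obtain ⟨z, hz, rfl⟩ := (HostR.mem_RA H hgr hge P _).1 hu
    rw [hge.psi_tc] at hneg
    have h1 : CC H F J A K 1 P ≤ NN H P := Submodule.span_le.2 fun z ⟨l, hl⟩ => hcon l z hl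
    have h2 : NN H P ≤ CC H F J A K 0 P := CC_inf H hge hJ hA hK G (hF P) ▸ inf_le_left
    have h3 : z ∈ CC H F J A K 0 P := by
      have h4 : z ∈ CC H F J A K 0 P ⊔ CC H F J A K 1 P := by
        rw [CC_sup H G P, hAR]
        exact hz
      exact (sup_le le_rfl (h1.trans h2)) h4
    by_cases hzN : z ∈ NN H P
    · have h5 : H.psiP P z z = 0 := (NN_tr H hzN).2 _ (AR_star H P (hAR.symm ▸ hz))
      rw [h5, Complex.zero_re] at hneg
      exact lt_irrefl _ hneg
    · exact absurd (pos_even H hge hJ hA hK (hF P) h3 hzN) (not_lt.2 hneg.le)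
  · rintro ⟨l, z, hz, hn⟩
    refine ⟨H.tc P z, (HostR.mem_RA H hgr hge P _).2 ⟨z, hAR ▸ hz.1.1, rfl⟩, ?_⟩
    rw [hge.psi_tc]
    exact neg_odd' H hge hJ hA hK (hF P) (Submodule.subset_span ⟨l, hz⟩) hn

include hJ hA hK G in
/-- **The share of the even classes.** -/
theorem share [F.NeBot] (hF : ∀ P, Fit H J A K F P)
    (hpos : PositiveDivisor W (H.X 0) (H.n 0) (H.ξ 0)) :
    ShareC W H.X (fun ε P l z => z ∈ CZ H J A K F ε P l) := by
  have hge : H.GeFacts := ge H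
  have hgr : H.RelFacts := gr ge H
  obtain ⟨c, hc, h⟩ := SX44.share_host H hge hgr hpos
    (fun P => parDim W H.X (fun ε P l z => z ∈ CZ H J A K F ε P l) 0 P)
    (fun P p q hpq => parDim_sig H hJ hA hK G hF P hpq)
  have hn := negAt_iff H hJ hA hK G hF
  refine ⟨c, hc, ?_⟩
  rcases h with ⟨h1, hnum, h2⟩ | ⟨h1, hnum, R, h2⟩ | h
  · refine Or.inl ⟨h1, hnum, fun R l z hz => ?_⟩
    by_contra h0
    exact h2 R ((hn R).2 ⟨l, z, hz, by rw [NN_bot H (hnum R), Submodule.mem_bot]; exact h0⟩)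
  · obtain ⟨l, z, hz, h0⟩ := (hn R).1 h2
    exact Or.inr (Or.inl ⟨h1, hnum, R, l, z, hz, fun h3 => h0 (h3 ▸ zero_mem _)⟩)
  · exact Or.inr (Or.inr h)

end share

end ZSize

end Pool.Agent.Lib.MP_361a6f_ag.FL
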