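import Pool.Agent.Lib.MP_361a6f_ag.FL.AlgC
import Pool.Agent.Lib.MP_361a6f_ag.FL.B.UnL
import Pool.Agent.Lib.MP_361a6f_ag.FL.Z.StatP
import Pool.Agent.Lib.MP_361a6f_ag.FL.Z.MidDef

/-!
# The signs of the algebraic classes: the statement
-/

open CategoryTheory AlgebraicGeometry MonoidalCategory CartesianMonoidalCategory

universe u v w

namespace Pool.Agent.Lib.MP_361a6f_ag.FL

open Pool.Agent.Lib.MP_361a6f_ag.H3 Pool.Agent.Lib.MP_361a6f_ag.SQ
  Pool.Agent.Lib.MP_361a6f_ag.PP

noncomputable section

variable {k : Type u} [Field k] {m : ℕ}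

/-- For all polarisations `η = ∑ c_i pr_i^* ξ_i` the form `(-1)^l Tr(η^(n - 2 l) z z)` is positive
on the even classes and negative on the odd classes that are numerically primitive and not
numerically trivial. Let `e` be an idempotent algebraic correspondence of degree `0` on `P` that is
even and commutes with `ξ = ∑ pr_i^* ξ_i`; one of them acts as the identity. `Q1` holds in
codimension at most `i` for the algebraic classes `x` with `e x = x` if and only if `e z = 0` for
all odd classes `z` of codimension at most `i`. -/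
structure Signs (W : CohomologyData.{u, 0, w} k ℂ) (X : Fin m → Sch k) (n : Fin m → ℕ)
    (ξ : ∀ a, W.coh (X a)) (C : ZMod 2 → ∀ P : Prd m, ℕ → W.coh (P.obj X) → Prop) : Prop where
  form : ∀ P η, IsPol W ξ P η → ∀ ε l z, 2 * l ≤ P.dim n → C ε P l z →
    IsNumR W (P.obj X) (P.dim n - l + 1) (W.cup (η ^ (P.dim n - 2 * l + 1)) z) →
    ¬ IsNumR W (P.obj X) l z → ∃ r : ℝ, 0 < r ∧
      (-1) ^ (l + ε.val) * W.Tr (W.cup (η ^ (P.dim n - 2 * l)) (W.cup z z)) = (r : ℂ)
  diag : ∀ P, ∃ e, EvenProj W X n ξ C P e ∧ ∀ x, act W e x = x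
  hodge : ∀ P e, EvenProj W X n ξ C P e → ∀ i,
    (∀ l ≤ i, 2 * l ≤ P.dim n → ∀ x, W.IsAlg (P.obj X) l x → act W e x = x →
      W.cup (P.pol W ξ ^ (P.dim n - 2 * l + 1)) x = 0 → x ≠ 0 →
      RatPos ((-1) ^ l * W.Tr (W.cup (P.pol W ξ ^ (P.dim n - 2 * l)) (W.cup x x)))) ↔
    ∀ l ≤ i, ∀ z, C 1 P l z → act W e z = 0

/-- The dimension of the real space of the even (`ε = 0`) or odd (`ε = 1`) classes of codimension
`l` on `P`. -/
def dimC (W : CohomologyData.{u, 0, w} k ℂ) (X : Fin m → Sch k)
    (C : ZMod 2 → ∀ P : Prd m, ℕ → W.coh (P.obj X) → Prop) (ε : ZMod 2) (P : Prd m) (l : ℕ) : ℕ :=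
  Module.finrank ℝ (Submodule.span ℝ {z : W.coh (P.obj X) | C ε P l z})

/-- The number of the even (`ε = 0`) or odd (`ε = 1`) classes on `P`: the sum over all
codimensions `l` of the dimension of the space of the even or odd classes modulo the numerically
trivial ones. -/
def numb (W : CohomologyData.{u, 0, w} k ℂ) (X : Fin m → Sch k) (n : Fin m → ℕ)
    (C : ZMod 2 → ∀ P : Prd m, ℕ → W.coh (P.obj X) → Prop) (ε : ZMod 2) (P : Prd m) : ℕ :=
  ∑ l ∈ Finset.range (P.dim n + 1), (dimC W X C ε P l -
    Module.finrank ℝ (Submodule.span ℝ {z : W.coh (P.obj X) | IsNumR W (P.obj X) l z}))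

/-- The number of the even classes on `P`, divided by the dimension of the complex span of the
algebraic classes, tends to `c` if the number of the factors of `P` tends to `∞`. -/
def EvenShare (W : CohomologyData.{u, 0, w} k ℂ) (X : Fin m → Sch k) (n : Fin m → ℕ)
    (C : ZMod 2 → ∀ P : Prd m, ℕ → W.coh (P.obj X) → Prop) (c : ℝ) : Prop :=
  ∀ δ : ℝ, 0 < δ → ∃ n₀ : ℕ, ∀ P : Prd m, n₀ ≤ P.size →
    |(numb W X n C 0 P : ℝ) - c * Module.finrank ℂ (algC W (P.obj X))| ≤
      δ * Module.finrank ℂ (algC W (P.obj X))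

/-- The proportion of the even classes tends to `1`, `1/2` or `0`: to `1` if numerical equivalence
is homological equivalence and `0` is the only odd class, on all products, to `1/2` if numerical
equivalence is homological equivalence on all products and there is another odd class on one, and to
`0` if numerical equivalence is not homological equivalence on one of them. -/
def OneHalfZero (W : CohomologyData.{u, 0, w} k ℂ) (X : Fin m → Sch k) (n : Fin m → ℕ)
    (C : ZMod 2 → ∀ P : Prd m, ℕ → W.coh (P.obj X) → Prop) : Prop :=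
  (EvenShare W X n C 1 ∧ (∀ R : Prd m, numC W (R.obj X) = ⊥) ∧ ∀ R l z, C 1 R l z → z = 0) ∨
  (EvenShare W X n C (1 / 2) ∧ (∀ R : Prd m, numC W (R.obj X) = ⊥) ∧
    ∃ R l z, C 1 R l z ∧ z ≠ 0) ∨
  (EvenShare W X n C 0 ∧ ∃ R : Prd m, numC W (R.obj X) ≠ ⊥)

/-- How many even and odd classes there are. `half`: if all `X a` have a unital law, then on every
product there are at least as many even classes as odd classes. Now let `P` be the `n`-th power of
one variety `X a`, and `d = dim H^*(X a)`. `grow`: there are at least `d^n / (600 d^3 n)^(d^2)` even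
and odd classes. `gap`: if there is an odd class that is not numerically trivial on the `r`-th
power, then for all `n` the number of the even classes exceeds the number of the odd classes by at
most `(d - 2 / r^2)^n`. `share`: the proportion of the even classes in the complex span of the
algebraic classes tends to `1`, `1/2` or `0`, and each case is characterised. -/
structure Sizes (W : CohomologyData.{u, 0, w} k ℂ) (X : Fin m → Sch k) (n : Fin m → ℕ)
    (C : ZMod 2 → ∀ P : Prd m, ℕ → W.coh (P.obj X) → Prop) : Prop where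
  half : (∀ a, UnitalLaw (X a)) → ∀ P : Prd m, numb W X n C 1 P ≤ numb W X n C 0 P
  grow : m = 1 → ∀ (a : Fin m) (P : Prd m), (Module.finrank ℂ (W.coh (X a)) : ℝ) ^ P.size ≤
    (600 * (Module.finrank ℂ (W.coh (X a)) : ℝ) ^ 3 * P.size) ^
      (Module.finrank ℂ (W.coh (X a)) ^ 2) * (numb W X n C 0 P + numb W X n C 1 P)
  gap : m = 1 → ∀ (a : Fin m) (R : Prd m) (l : ℕ) (z : W.coh (R.obj X)), C 1 R l z →
    ¬ IsNumR W (R.obj X) l z → ∀ P : Prd m, (numb W X n C 0 P : ℝ) ≤ numb W X n C 1 P +
      ((Module.finrank ℂ (W.coh (X a)) : ℝ) - 2 / (R.size : ℝ) ^ 2) ^ P.size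
  share : m = 1 → OneHalfZero W X n C

end

/-- **The signs of the algebraic classes.** For all products of varieties `X a` with
`H^0(X a) = ℂ` that have a unital law (abelian varieties), or for which `H^i(X a)` consists of
multiples of powers of `ξ a` for `i ≠ n a > 0` (curves, surfaces with `b_1 = 0`, complete
intersections), there is a grading of the algebraic classes by signs, which measures the failure of
`Q1`, and for the powers of one `X` the proportion of the even classes in the algebraic classes tends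
to `1`, `1/2` or `0`, which decides `Q1` for all powers. -/
def SignStatement : Prop :=
  ∀ {k : Type u} [Field k] (W : CohomologyData.{u, 0, w} k ℂ) (𝒱 : VarietyClass k)
    (_ : IsWeilCohomology W 𝒱) {m : ℕ} {X : Fin m → Sch k} {n : Fin m → ℕ}
    (_ : ∀ a, 𝒱.mem (X a) (n a)) (_ : ∀ a x, W.Deg (X a) 0 x → ∃ c : ℂ, x = W.scal c 1)
    {ξ : ∀ a, W.coh (X a)} (_ : ∀ a, PositiveDivisor W (X a) (n a) (ξ a))
    (_ : ∀ a, UnitalLaw (X a) ∨ OnlyMiddle W (X a) (n a) (ξ a)),
    ∃ C : ZMod 2 → ∀ P : Prd m, ℕ → W.coh (P.obj X) → Prop,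
      Grading W X n C ∧ Signs W X n ξ C ∧ Sizes W X n C

end Pool.Agent.Lib.MP_361a6f_ag.FL
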