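import Pool.Agent.Lib.MP_361a6f_ag.FL.Z.MainB
import Pool.Agent.Lib.MP_361a6f_ag.FL.Z.StatG
import Pool.Agent.Lib.MP_361a6f_ag.FL.Z.Hull
import Pool.Agent.Lib.MP_361a6f_ag.FL.Z.Lnk
import Pool.Agent.Lib.MP_361a6f_ag.FL.PT.HR
import Pool.Agent.Lib.MP_361a6f_ag.FL.Z.Mid

/-!
# The signs of the algebraic classes: assembly
-/

open CategoryTheory AlgebraicGeometry MonoidalCategory CartesianMonoidalCategory

universe u v w

set_option autoImplicit false
set_option linter.unusedSectionVars false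

namespace Pool.Agent.Lib.MP_361a6f_ag.FL

open Pool.Agent.Lib.MP_361a6f_ag.H3 Pool.Agent.Lib.MP_361a6f_ag.SQ
  Pool.Agent.Lib.MP_361a6f_ag.IP2 Pool.Agent.Lib.MP_361a6f_ag.PP

namespace ZG

open Module

section lin

variable {k : Type u} [Field k] {W : CohomologyData.{u, 0, w} k ℂ} {𝒱 : VarietyClass k}

/-- the dimension of a sum of spaces in different degrees -/
theorem finrank_span (hW : IsWeilCohomology W 𝒱) {Y : Sch k} {d : ℕ} (hY : 𝒱.mem Y d)
    (V : ℕ → Submodule ℝ (W.coh Y)) (hV : ∀ l, ∀ z ∈ V l, z ∈ W.gr Y (2 * l)) :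
    finrank ℝ (Submodule.span ℝ {z | ∃ l, z ∈ V l}) =
      ∑ l ∈ Finset.range (d + 1), finrank ℝ (V l) := by
  have hf := hW.graded.finite hY
  have hfin : Module.Finite ℝ (W.coh Y) := Module.Finite.trans ℂ (W.coh Y)
  have hind := (hW.graded.internal hY).submodule_iSupIndep
  let S : ℕ → Submodule ℝ (W.coh Y) := fun n => Submodule.span ℝ {z | ∃ l < n, z ∈ V l}
  have hS0 : S 0 = ⊥ := by
    rw [eq_bot_iff]
    refine Submodule.span_le.2 ?_
    rintro z ⟨l, hl, -⟩
    exact absurd hl (Nat.not_lt_zero l)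
  have hSs : ∀ n, S (n + 1) = S n ⊔ V n := by
    intro n
    refine le_antisymm (Submodule.span_le.2 ?_) (sup_le (Submodule.span_mono ?_) ?_)
    · rintro z ⟨l, hl, hz⟩
      rcases Nat.lt_succ_iff_lt_or_eq.1 hl with h | rfl
      · exact Submodule.mem_sup_left (Submodule.subset_span ⟨l, h, hz⟩)
      · exact Submodule.mem_sup_right hz
    · rintro z ⟨l, hl, hz⟩
      exact ⟨l, by omega, hz⟩
    · intro z hz
      exact Submodule.subset_span ⟨n, by omega, hz⟩
  have hSd : ∀ n, S n ⊓ V n = ⊥ := by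
    intro n
    rw [eq_bot_iff]
    rintro z ⟨h1, h2⟩
    have h3 : z ∈ ⨆ j, ⨆ (_ : j ≠ 2 * n), W.gr Y j := by
      refine Submodule.span_induction (p := fun z _ => z ∈ ⨆ j, ⨆ (_ : j ≠ 2 * n), W.gr Y j)
        ?_ ?_ ?_ ?_ h1
      · rintro z ⟨l, hl, hz⟩
        exact Submodule.mem_iSup_of_mem (2 * l)
          (Submodule.mem_iSup_of_mem (by omega) (hV l z hz))
      · exact zero_mem _
      · exact fun a b _ _ ha hb => add_mem ha hb
      · intro r a _ ha
        exact Submodule.smul_mem _ (r : ℂ) ha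
    exact (Submodule.mem_bot ℝ).2 (Submodule.disjoint_def.1 (hind (2 * n)) z (hV n z h2) h3)
  have hSf : ∀ n, finrank ℝ (S n) = ∑ l ∈ Finset.range n, finrank ℝ (V l) := by
    intro n
    induction n with
    | zero => rw [hS0, finrank_bot, Finset.sum_range_zero]
    | succ n ih =>
      have h1 := Submodule.finrank_sup_add_finrank_inf_eq (S n) (V n)
      rw [← hSs, hSd, finrank_bot, ih] at h1
      rw [Finset.sum_range_succ]
      omega
  have hSt : Submodule.span ℝ {z | ∃ l, z ∈ V l} = S (d + 1) := by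
    refine le_antisymm (Submodule.span_le.2 ?_) (Submodule.span_mono ?_)
    · rintro z ⟨l, hz⟩
      by_cases h : l < d + 1
      · exact Submodule.subset_span ⟨l, h, hz⟩
      · have h0 : z = 0 := hW.top_gr hY (hV l z hz) (by omega)
        rw [h0]
        exact zero_mem _
    · rintro z ⟨l, -, hz⟩
      exact ⟨l, hz⟩
  rw [hSt, hSf]

end lin

section gr

variable {k : Type u} [Field k] {W : CohomologyData.{u, 0, w} k ℂ} {𝒱 : VarietyClass k}
  (hW : IsWeilCohomology W 𝒱) {m : ℕ} {X : Fin m → Sch k} {n : Fin m → ℕ}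
  {C : ZMod 2 → ∀ P : Prd m, ℕ → W.coh (P.obj X) → Prop} (G : Grading W X n C)

include G in
theorem dimC_eq (ε : ZMod 2) (P : Prd m) (l : ℕ) :
    dimC W X C ε P l = finrank ℝ (Lnk.CV G ε P l) := by
  have h : {z : W.coh (P.obj X) | C ε P l z} = (Lnk.CV G ε P l : Set (W.coh (P.obj X))) := by
    ext z
    exact (Lnk.mem_CV G).symm
  rw [dimC, h, Submodule.span_eq]

theorem dimN_eq (P : Prd m) (l : ℕ) :
    finrank ℝ (Submodule.span ℝ {z : W.coh (P.obj X) | IsNumR W (P.obj X) l z}) =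
      finrank ℝ (numR W (P.obj X) l) := by
  have h : {z : W.coh (P.obj X) | IsNumR W (P.obj X) l z} =
      (numR W (P.obj X) l : Set (W.coh (P.obj X))) := rfl
  rw [h, Submodule.span_eq]

include G in
theorem num_le (ε : ZMod 2) (P : Prd m) (l : ℕ) : numR W (P.obj X) l ≤ Lnk.CV G ε P l := by
  intro z hz
  have h := (G.num P l z).1 (isNumR_iff.2 hz)
  rw [Lnk.mem_CV]
  have : ε = 0 ∨ ε = 1 := by
    revert ε
    decide
  rcases this with rfl | rfl
  · exact h.1
  · exact h.2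

include G in
theorem CV_algR (ε : ZMod 2) (P : Prd m) (l : ℕ) {z : W.coh (P.obj X)}
    (hz : z ∈ Lnk.CV G ε P l) : z ∈ algR W (P.obj X) l := by
  rw [Lnk.mem_CV] at hz
  have h0 : ∀ δ, C δ P l 0 := fun δ => (Lnk.mem_CV G).1 (zero_mem (Lnk.CV G δ P l))
  have : ε = 0 ∨ ε = 1 := by
    clear hz
    revert ε
    decide
  rcases this with rfl | rfl
  · exact (G.sum P l z).2 ⟨z, 0, hz, h0 1, (add_zero z).symm⟩
  · exact (G.sum P l z).2 ⟨0, z, h0 0, hz, (zero_add z).symm⟩

include hW G in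
/-- the number of the classes of all codimensions is the sum over the codimensions -/
theorem parDim_eq {P : Prd m} (hP : 𝒱.mem (P.obj X) (P.dim n)) (ε : ZMod 2) :
    parDim W X C ε P = numb W X n C ε P := by
  have hf := hW.graded.finite hP
  have hfin : Module.Finite ℝ (W.coh (P.obj X)) := Module.Finite.trans ℂ (W.coh (P.obj X))
  have h1 := finrank_span hW hP (fun l => Lnk.CV G ε P l) fun l z hz =>
    ZE.algR_gr hW hP (CV_algR G ε P l hz)
  have h2 := finrank_span hW hP (fun l => numR W (P.obj X) l) fun l z hz =>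
    ZE.algR_gr hW hP hz.1
  have e1 : {z : W.coh (P.obj X) | ∃ l, C ε P l z} = {z | ∃ l, z ∈ Lnk.CV G ε P l} := by
    ext z
    exact exists_congr fun l => (Lnk.mem_CV G).symm
  have e2 : {z : W.coh (P.obj X) | ∃ l, IsNumR W (P.obj X) l z} =
      {z | ∃ l, z ∈ numR W (P.obj X) l} := rfl
  rw [parDim, e1, e2, h1, h2, numb, ← Finset.sum_tsub_distrib]
  · refine Finset.sum_congr rfl fun l _ => ?_
    rw [dimC_eq G, dimN_eq]
  · intro l _
    exact Submodule.finrank_mono (num_le G ε P l)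

end gr

/-- the Lefschetz theorems and a Hodge-Riemann structure for varieties with a unital law and for
varieties whose cohomology outside of the middle degree is generated by a divisor class -/
theorem leafOK {k : Type u} [Field k] {W : CohomologyData.{u, 0, w} k ℂ} {𝒱 : VarietyClass k}
    (hW : IsWeilCohomology W 𝒱) {Y : Sch k} {d : ℕ} {p : W.coh Y} (hY : 𝒱.mem Y d)
    (h0 : ∀ x, W.Deg Y 0 x → ∃ c : ℂ, x = W.scal c 1) (hp : PositiveDivisor W Y d p)
    (h : UnitalLaw Y ∨ OnlyMiddle W Y d p) : HardLefschetz W Y d p ∧ AlgebraicLambda W Y d p ∧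
      ∃ j : W.coh Y →ₛₗ[starRingEnd ℂ] W.coh Y, HRStr W Y d p j := by
  rcases h with h | h
  · exact unital hW hY h0 h hp
  · exact mid hW hY h hp

end ZG

/-- **The signs of the algebraic classes.** -/
theorem mainSign : SignStatement.{u, w} := by
  intro k _ W 𝒱 hW m X n hX h0 ξ hξ hU
  have hu := fun a => ZG.leafOK hW (hX a) (h0 a) (hξ a) (hU a)
  choose j hj using fun a => (hu a).2.2
  obtain ⟨J, hJ⟩ := PTG.exists_hrSys hW hX hξ (fun a => (hu a).1) (fun a => (hu a).2.1) j hj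
  obtain ⟨C, hG, hP, hB, -⟩ := mainZB W 𝒱 hW hX hξ (fun a => (hu a).1) (fun a => (hu a).2.1) J hJ
  have hmem : ∀ P : Prd m, 𝒱.mem (P.obj X) (P.dim n) := fun P =>
    (Lnk.data hW hX hξ (fun a => (hu a).1) (fun a => (hu a).2.1) P).1
  have hfin : ∀ P : Prd m, Module.Finite ℝ (W.coh (P.obj X)) := fun P =>
    have := hW.graded.finite (hmem P)
    Module.Finite.trans ℂ (W.coh (P.obj X))
  have hull : (∀ a, UnitalLaw (X a)) → ∀ P : Prd m, HL.InHull (P.dim n) fun t =>
      ∑ l ∈ Finset.range (P.dim n + 1),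
        ((dimC W X C 0 P l : ℝ) - dimC W X C 1 P l) * t ^ (2 * l) := by
    intro hU' P
    obtain ⟨p, q, hpq, hh⟩ := ZHull.sigs hW hX h0 hU' hξ P (HodgeZ.isPol ξ P)
    obtain ⟨w, hw0, hw1, hw⟩ := hh
    refine ⟨w, hw0, hw1, fun t => ?_⟩
    rw [← hw t]
    refine Finset.sum_congr rfl fun l hl => ?_
    have hl' : l ≤ P.dim n := by
      have := Finset.mem_range.1 hl
      omega
    obtain ⟨h1, h2⟩ := Lnk.link hW hX hξ (fun a => (hu a).1) (fun a => (hu a).2.1) hJ hG hP P hpq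
      hl' (E := Lnk.CV hG 0 P l) (O := Lnk.CV hG 1 P l) (fun z => (Lnk.mem_CV hG).symm)
      fun z => (Lnk.mem_CV hG).symm
    rw [ZG.dimC_eq hG, ZG.dimC_eq hG, h1, h2]
    congr 1
    unfold HL.pl
    push_cast
    ring
  refine ⟨C, hG, ⟨hP.form, hP.diag, hP.hodge⟩, ⟨?_, ?_, ?_, ?_⟩⟩
  · intro hU' P
    obtain ⟨w, hw0, -, hw⟩ := hull hU' P
    have h1 := hw 1
    have h2 : (0 : ℝ) ≤ ∑ i ∈ Finset.range (P.dim n + 1),
        w i * ((1 + 1) ^ (2 * i) * (1 - 1) ^ (2 * (P.dim n - i))) :=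
      Finset.sum_nonneg fun i _ => mul_nonneg (hw0 i) (mul_nonneg (by positivity)
        (by rw [sub_self, pow_mul]; positivity))
    rw [← h1] at h2
    simp only [one_pow, mul_one, Finset.sum_sub_distrib] at h2
    have h3 : ∑ l ∈ Finset.range (P.dim n + 1), dimC W X C 1 P l ≤
        ∑ l ∈ Finset.range (P.dim n + 1), dimC W X C 0 P l := by
      have h4 := sub_nonneg.1 h2
      exact_mod_cast h4
    have h5 : ∀ ε, numb W X n C ε P + ∑ l ∈ Finset.range (P.dim n + 1),
        Module.finrank ℝ (Submodule.span ℝ {z : W.coh (P.obj X) | IsNumR W (P.obj X) l z}) =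
        ∑ l ∈ Finset.range (P.dim n + 1), dimC W X C ε P l := by
      intro ε
      rw [numb, ← Finset.sum_add_distrib]
      refine Finset.sum_congr rfl fun l _ => ?_
      have h6 : Module.finrank ℝ (Submodule.span ℝ
          {z : W.coh (P.obj X) | IsNumR W (P.obj X) l z}) ≤ dimC W X C ε P l := by
        rw [ZG.dimC_eq hG, ZG.dimN_eq]
        exact Submodule.finrank_mono (ZG.num_le hG ε P l)
      omega
    have h6 := h5 0
    have h7 := h5 1
    omega
  · intro hm a P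
    have h := (hB hm).1.grow a P
    rwa [ZG.parDim_eq hW hG (hmem P), ZG.parDim_eq hW hG (hmem P)] at h
  · intro hm a R l z hz hn P
    have h := (hB hm).1.gap a R l z hz hn P
    rwa [ZG.parDim_eq hW hG (hmem P), ZG.parDim_eq hW hG (hmem P)] at h
  · intro hm
    obtain ⟨c, hc, h⟩ := (hB hm).2
    have hc' : EvenShare W X n C c := by
      intro δ hδ
      obtain ⟨n₀, h1⟩ := hc δ hδ
      refine ⟨n₀, fun P hP => ?_⟩
      have h2 := h1 P hP
      rwa [ZG.parDim_eq hW hG (hmem P)] at h2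
    rcases h with ⟨rfl, h⟩ | ⟨rfl, h⟩ | ⟨rfl, h⟩
    · exact Or.inl ⟨hc', h⟩
    · exact Or.inr (Or.inl ⟨hc', h⟩)
    · exact Or.inr (Or.inr ⟨hc', h⟩)

end Pool.Agent.Lib.MP_361a6f_ag.FL
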