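import Pool.Agent.Lib.MP_361a6f_ag.FL.Z.Mid

/-!
# Curves, and surfaces without odd cohomology, have only middle cohomology besides the powers of a
divisor class
-/

open CategoryTheory AlgebraicGeometry MonoidalCategory CartesianMonoidalCategory

universe u v w w'

set_option autoImplicit false

namespace Pool.Agent.Lib.MP_361a6f_ag.FL.Mid

open Pool.Agent.Lib.MP_361a6f_ag.H3 Pool.Agent.Lib.MP_361a6f_ag.SQ
  Pool.Agent.Lib.MP_361a6f_ag.PP

variable {k : Type u} [Field k] {W : CohomologyData.{u, 0, w} k ℂ} {𝒱 : VarietyClass k}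
  (hW : IsWeilCohomology W 𝒱) {Y : Sch k} {n : ℕ} {p : W.coh Y} (hY : 𝒱.mem Y n)
  (h0 : ∀ x, W.Deg Y 0 x → ∃ c, x = W.scal c 1) (hp : PositiveDivisor W Y n p)

include hW hY h0 hp in
/-- the classes of the top degree -/
theorem gr_top {z : W.coh Y} (hz : z ∈ W.gr Y (2 * n)) :
    z = (W.tr Y z / W.tr Y (p ^ n)) • p ^ n := by
  have hq := tr_ne hp
  rw [← sub_eq_zero]
  refine hW.duality hY _ fun v => ?_
  refine hW.hom_induction hY
    (P := fun v => W.tr Y ((z - (W.tr Y z / W.tr Y (p ^ n)) • p ^ n) * v) = 0) v ?_ ?_ ?_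
  · intro i v hv
    rcases Nat.eq_zero_or_pos i with rfl | hi
    · obtain ⟨c, hc⟩ := h0 v hv
      rw [hc]
      change W.tr Y ((z - (W.tr Y z / W.tr Y (p ^ n)) • p ^ n) * (c • (1 : W.coh Y))) = 0
      rw [mul_smul_comm, mul_one, map_smul, map_sub, map_smul, smul_eq_mul, smul_eq_mul,
        div_mul_cancel₀ _ hq, sub_self, mul_zero]
    · rw [hW.top_gr hY (hW.mul_gr hY (sub_mem hz (Submodule.smul_mem _ _
        (pow_gr hW hY hp n))) hv) (by omega), map_zero]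
  · simp
  · intro x y hx hy
    rw [mul_add, map_add, hx, hy, add_zero]

end Pool.Agent.Lib.MP_361a6f_ag.FL.Mid

namespace Pool.Agent.Lib.MP_361a6f_ag.FL

open Pool.Agent.Lib.MP_361a6f_ag.H3 Pool.Agent.Lib.MP_361a6f_ag.SQ
  Pool.Agent.Lib.MP_361a6f_ag.PP

variable {k : Type u} [Field k] {W : CohomologyData.{u, 0, w} k ℂ} {𝒱 : VarietyClass k}

/-- Curves with `H^0 = ℂ`. -/
theorem onlyMiddle_curve (hW : IsWeilCohomology W 𝒱) {Y : Sch k} {p : W.coh Y} (hY : 𝒱.mem Y 1)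
    (h0 : ∀ x, W.Deg Y 0 x → ∃ c, x = W.scal c 1) (hp : PositiveDivisor W Y 1 p) :
    OnlyMiddle W Y 1 p := by
  refine ⟨Nat.one_pos, fun i x hi hx => ?_⟩
  rcases Nat.lt_or_ge i 3 with h | h
  · interval_cases i
    · obtain ⟨c, hc⟩ := h0 x hx
      exact Or.inr ⟨0, c, rfl, by rw [hc, pow_zero]⟩
    · exact absurd rfl hi
    · exact Or.inr ⟨1, _, rfl, Mid.gr_top hW hY h0 hp hx⟩
  · exact Or.inl (hW.top_gr hY hx (by omega))

/-- Surfaces with `H^0 = ℂ` and `H^1 = 0`. -/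
theorem onlyMiddle_surface (hW : IsWeilCohomology W 𝒱) {Y : Sch k} {p : W.coh Y} (hY : 𝒱.mem Y 2)
    (h0 : ∀ x, W.Deg Y 0 x → ∃ c, x = W.scal c 1) (h1 : ∀ x, W.Deg Y 1 x → x = 0)
    (hp : PositiveDivisor W Y 2 p) : OnlyMiddle W Y 2 p := by
  refine ⟨Nat.two_pos, fun i x hi hx => ?_⟩
  rcases Nat.lt_or_ge i 5 with h | h
  · interval_cases i
    · obtain ⟨c, hc⟩ := h0 x hx
      exact Or.inr ⟨0, c, rfl, by rw [hc, pow_zero]⟩
    · exact Or.inl (h1 x hx)
    · exact absurd rfl hi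
    · left
      refine hW.duality hY _ fun v => ?_
      refine hW.hom_induction hY (P := fun v => W.tr Y (x * v) = 0) v ?_ ?_ ?_
      · intro j v hv
        by_cases hj : j = 1
        · subst hj
          rw [h1 v hv, mul_zero, map_zero]
        · exact hW.tr_gr hY (hW.mul_gr hY hx hv) (by omega)
      · simp
      · intro a b ha hb
        rw [mul_add, map_add, ha, hb, add_zero]
    · exact Or.inr ⟨2, _, rfl, Mid.gr_top hW hY h0 hp hx⟩
  · exact Or.inl (hW.top_gr hY hx (by omega))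

end Pool.Agent.Lib.MP_361a6f_ag.FL
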