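import Pool.Agent.Lib.MP_361a6f_ag.FL.B.HrPsi
import Pool.Agent.Lib.MP_361a6f_ag.FL.B.PosL

/-!
# Operators that commute with the Lefschetz operator, and positivity on stable subgroups
-/

open CategoryTheory AlgebraicGeometry MonoidalCategory CartesianMonoidalCategory

universe u v w

set_option autoImplicit false
set_option linter.unusedSectionVars false

namespace Pool.Agent.Lib.MP_361a6f_ag.FL

open Pool.Agent.Lib.MP_361a6f_ag.H3 Pool.Agent.Lib.MP_361a6f_ag.SQ
  Pool.Agent.Lib.MP_361a6f_ag.IP2 Pool.Agent.Lib.MP_361a6f_ag.PP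

namespace MotZ

open PSI

section abs

variable {M : Type w} [AddCommGroup M] [Module ℂ M] {gr : ℕ → Submodule ℂ M} {n : ℕ}
  {L Λ : Module.End ℂ M} (S : Slm gr n L Λ) {e : Module.End ℂ M}
  (hg : ∀ i x, x ∈ gr i → e x ∈ gr i) (hL : ∀ x, e (L x) = L (e x))

include hL in
theorem e_pow (s : ℕ) (x : M) : e ((L ^ s) x) = (L ^ s) (e x) := by
  induction s with
  | zero => simp
  | succ s ih => rw [pow_succ', Module.End.mul_apply, Module.End.mul_apply, ← ih, hL]

include S hg hL

theorem e_prim {i : ℕ} (hi : i ≤ n) {v : M} (hv : v ∈ gr i) (hΛ : Λ v = 0) : Λ (e v) = 0 := by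
  refine (sl2 S).2.2.2.2.2.1 i (e v) hi (hg i v hv) ?_
  rw [← e_pow hL, (sl2 S).2.2.2.1 i v hi hv hΛ, map_zero]

theorem e_Lam (x : M) : e (Λ x) = Λ (e x) := by
  refine HrPsi.str_ind S (p := fun x => e (Λ x) = Λ (e x)) ?_ ?_ ?_ ?_ x
  · intro i s v hi hs hv hΛ
    have hΛ' := e_prim S hg hL hi hv hΛ
    rw [e_pow hL]
    cases s with
    | zero => rw [pow_zero, Module.End.one_apply, Module.End.one_apply, hΛ, hΛ', map_zero]
    | succ r =>
      rw [(sl2 S).2.2.1 i v r hv hΛ, (sl2 S).2.2.1 i (e v) r (hg i v hv) hΛ', map_smul,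
        e_pow hL]
  · intro c x hx
    rw [map_smul, map_smul, hx, map_smul, map_smul]
  · simp only [map_zero]
  · intro x y hx hy
    simp only [map_add, hx, hy]

theorem e_star (x : M) : e (star S.internal L Λ x) = star S.internal L Λ (e x) := by
  refine HrPsi.str_ind S (p := fun x => e (star S.internal L Λ x)
    = star S.internal L Λ (e x)) ?_ ?_ ?_ ?_ x
  · intro i s v hi hs hv hΛ
    have hΛ' := e_prim S hg hL hi hv hΛ
    have h1 : ∀ s : ℕ, ∀ y, e ((Λ ^ s) y) = (Λ ^ s) (e y) := by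
      intro s
      induction s with
      | zero => intro y; simp
      | succ s ih =>
        intro y
        rw [pow_succ', Module.End.mul_apply, Module.End.mul_apply, ← ih, e_Lam S hg hL]
    have h2 : ∀ v, v ∈ gr i → Λ v = 0 → star S.internal L Λ v
        = (sgn i * ((n - i).factorial : ℂ)⁻¹) • (L ^ (n - i)) v := by
      intro v hv hΛ
      rw [PP.star, Module.End.mul_apply, gop_apply _ _ hv, map_smul,
        (wey S).2.2.2.2 i v hi hv hΛ, smul_smul]
    rw [e_pow hL, PSI.star_pow staB S, PSI.star_pow staB S, h1, h2 v hv hΛ,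
      h2 (e v) (hg i v hv) hΛ', map_smul, e_pow hL]
  · intro c x hx
    rw [map_smul, map_smul, hx, map_smul, map_smul]
  · simp only [map_zero]
  · intro x y hx hy
    simp only [map_add, hx, hy]

end abs

section codim

variable {k : Type u} [Field k] {W : CohomologyData.{u, 0, w} k ℂ} {𝒱 : VarietyClass k}
  (hW : IsWeilCohomology W 𝒱) {Z : Sch k} {e : ℕ} (hZ : 𝒱.mem Z e)
include hW hZ

variable {η : W.coh Z} (hη : η ∈ W.alg Z 1) {Lam : Module.End ℂ (W.coh Z)}
  (D : LamData W Z e η Lam) (hS : Sl2Statement.{w}) (hT : StaStatement.{w})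
  {C : AddSubgroup (W.coh Z)} (hC : C ≤ tot W Z) (hCL : ∀ x ∈ C, Lop W Z η x ∈ C)
  (hCΛ : ∀ x ∈ C, Lam x ∈ C) (hCq : ∀ (q : ℚ), ∀ x ∈ C, (q : ℂ) • x ∈ C)

include hη D hS hT hC hCL hCΛ hCq

/-- positivity in the degrees at most `e`, on a stable subgroup -/
theorem pos_low {j : ℕ} (hH : ∀ i ≤ j, 2 * i ≤ e → ∀ x ∈ C, x ∈ W.alg Z i →
      η ^ (e - 2 * i + 1) * x = 0 → x ≠ 0 →
      RatPos ((-1) ^ i * W.tr Z (η ^ (e - 2 * i) * (x * x))))
    (hj : 2 * j ≤ e) {z : W.coh Z} (hz : z ∈ W.alg Z j) (hzC : z ∈ C) (hz0 : z ≠ 0) :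
    RatPos (psi W Z η Lam D.slm.internal z z) := by
  classical
  set L := Lop W Z η with hLdef
  obtain ⟨f, hfC, hfg, hf0, hfΛ, hsum⟩ := (hS D.slm).2.2.2.2.2.2 C hCL hCΛ hCq (2 * j) z hj
    (hW.alg_gr hZ hz) hzC
  -- the primitive components
  have hfg' : ∀ r, r ≤ j → f r ∈ W.gr Z (2 * (j - r)) := fun r hr => by
    have := hfg r (by omega)
    rwa [show 2 * j - 2 * r = 2 * (j - r) by omega] at this
  have hfa : ∀ r, r ≤ j → f r ∈ W.alg Z (j - r) := fun r hr =>
    tot_alg hW hZ (hC (hfC r)) (hfg' r hr)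
  have hfz : ∀ r, j < r → f r = 0 := fun r hr => hf0 r (by omega)
  have hprim : ∀ r, r ≤ j → η ^ (e - 2 * (j - r) + 1) * f r = 0 := fun r hr => by
    have := (hS D.slm).2.2.2.1 (2 * (j - r)) (f r) (by omega) (hfg' r hr) (hfΛ r)
    rwa [Lop_pow hW hZ] at this
  -- the star operator
  have hstar : ∀ s, ∃ q : ℚ, 0 < q ∧ (s ≤ j → star D.slm.internal L Lam ((L ^ s) (f s))
      = ((-1 : ℂ) ^ (j - s) * (q : ℂ)) • (η ^ (e - 2 * (j - s) - s) * f s)) := by
    intro s
    by_cases hs : s ≤ j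
    · obtain ⟨q, hq, h1⟩ := star_string hS hT D.slm (i := j - s) (by omega) (hfg' s hs) (hfΛ s) s
        (by omega)
      refine ⟨q, hq, fun _ => ?_⟩
      rw [h1, Lop_pow hW hZ]
    · exact ⟨1, one_pos, fun h => absurd h hs⟩
  choose q hq hstar using hstar
  have hpair : ∀ r s, psi W Z η Lam D.slm.internal ((L ^ r) (f r)) ((L ^ s) (f s)) =
      if r = s ∧ s ≤ j then (q s : ℂ) * ((-1 : ℂ) ^ (j - s) *
        W.tr Z (η ^ (e - 2 * (j - s)) * (f s * f s))) else 0 := by
    intro r s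
    by_cases hr : r ≤ j
    swap
    · rw [hfz r (by omega), psi, map_zero, zero_mul, map_zero, if_neg (by omega)]
    by_cases hs : s ≤ j
    swap
    · rw [hfz s (by omega), psi, map_zero, map_zero, mul_zero, map_zero, if_neg (by omega)]
    have h1 : psi W Z η Lam D.slm.internal ((L ^ r) (f r)) ((L ^ s) (f s)) =
        ((-1 : ℂ) ^ (j - s) * (q s : ℂ)) *
          W.tr Z (η ^ (r + (e - 2 * (j - s) - s)) * (f r * f s)) := by
      rw [psi, hstar s hs, mul_smul_comm, map_smul, smul_eq_mul, Lop_pow hW hZ]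
      congr 2
      rw [pow_add, mul_assoc, mul_assoc, ← mul_assoc (f r),
        hW.alg_comm hZ (hfa r hr) (η ^ (e - 2 * (j - s) - s)), mul_assoc]
    rw [h1]
    rcases lt_trichotomy r s with h | h | h
    · -- `f r` is killed
      rw [if_neg (by omega)]
      have h2 : η ^ (r + (e - 2 * (j - s) - s)) * (f r * f s) = 0 := by
        have h3 : r + (e - 2 * (j - s) - s) =
            (r + (e - 2 * (j - s) - s) - (e - 2 * (j - r) + 1)) + (e - 2 * (j - r) + 1) := by
          omega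
        rw [h3, pow_add, mul_assoc, ← mul_assoc (η ^ (e - 2 * (j - r) + 1)), hprim r hr,
          zero_mul, mul_zero]
      rw [h2, map_zero, mul_zero]
    · subst h
      rw [if_pos ⟨rfl, hs⟩, show r + (e - 2 * (j - r) - r) = e - 2 * (j - r) by omega]
      ring
    · rw [if_neg (by omega)]
      have h2 : η ^ (r + (e - 2 * (j - s) - s)) * (f r * f s) = 0 := by
        have h3 : r + (e - 2 * (j - s) - s) =
            (r + (e - 2 * (j - s) - s) - (e - 2 * (j - s) + 1)) + (e - 2 * (j - s) + 1) := by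
          omega
        rw [hW.alg_comm hZ (hfa r hr) (f s), h3, pow_add, mul_assoc,
          ← mul_assoc (η ^ (e - 2 * (j - s) + 1)), hprim s hs, zero_mul, mul_zero]
      rw [h2, map_zero, mul_zero]
  have hpsi : psi W Z η Lam D.slm.internal z z = ∑ r ∈ Finset.range (e + 1),
      if r ≤ j then (q r : ℂ) * ((-1 : ℂ) ^ (j - r) *
        W.tr Z (η ^ (e - 2 * (j - r)) * (f r * f r))) else 0 := by
    have h1 : psi W Z η Lam D.slm.internal z z = ∑ r ∈ Finset.range (e + 1),
        ∑ s ∈ Finset.range (e + 1),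
          psi W Z η Lam D.slm.internal ((L ^ r) (f r)) ((L ^ s) (f s)) := by
      rw [hsum]
      simp only [psi, map_sum, Finset.sum_mul, Finset.mul_sum]
      exact Finset.sum_comm
    rw [h1]
    refine Finset.sum_congr rfl fun r hr => ?_
    rw [Finset.sum_eq_single r]
    · rw [hpair]
      simp
    · intro s _ hsr
      rw [hpair, if_neg (fun h => hsr h.1.symm)]
    · intro h
      exact absurd hr h
  rw [hpsi]
  have hterm : ∀ r, r ≤ j → f r ≠ 0 → RatPos ((q r : ℂ) * ((-1 : ℂ) ^ (j - r) *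
        W.tr Z (η ^ (e - 2 * (j - r)) * (f r * f r)))) := fun r hr hne =>
    ratPos_mul ⟨q r, hq r, rfl⟩ (hH (j - r) (by omega) (by omega) (f r) (hfC r) (hfa r hr)
      (hprim r hr) hne)
  refine ratPos_sum' _ _ ?_ ?_
  · intro r _
    by_cases hr : r ≤ j
    · rw [if_pos hr]
      by_cases h0 : f r = 0
      · left; rw [h0]; simp
      · right; exact hterm r hr h0
    · left; rw [if_neg hr]
  · by_contra hcon
    push Not at hcon
    refine hz0 (hsum.trans (Finset.sum_eq_zero fun r hr => ?_))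
    have h1 := hcon r hr
    by_cases hrj : r ≤ j
    · by_cases h0 : f r = 0
      · rw [h0, map_zero]
      · rw [if_pos hrj] at h1
        obtain ⟨t, ht, h2⟩ := hterm r hrj h0
        rw [h2] at h1
        exact absurd (by exact_mod_cast h1 : t = 0) ht.ne'
    · rw [hfz r (by omega), map_zero]

/-- positivity in one degree, on a stable subgroup -/
theorem pos_hom {j : ℕ} (hH : ∀ i ≤ j, 2 * i ≤ e → ∀ x ∈ C, x ∈ W.alg Z i →
      η ^ (e - 2 * i + 1) * x = 0 → x ≠ 0 →
      RatPos ((-1) ^ i * W.tr Z (η ^ (e - 2 * i) * (x * x))))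
    (hCs : ∀ x ∈ C, star D.slm.internal (Lop W Z η) Lam x ∈ C)
    {z : W.coh Z} (hz : z ∈ W.alg Z j) (hzC : z ∈ C) (hz0 : z ≠ 0) :
    RatPos (psi W Z η Lam D.slm.internal z z) := by
  by_cases hj : 2 * j ≤ e
  · exact pos_low hW hZ hη D hS hT hC hCL hCΛ hCq hH hj hz hzC hz0
  have hje : j ≤ e := by
    by_contra h
    exact hz0 (hW.top_gr hZ (hW.alg_gr hZ hz) (by omega))
  set y := star D.slm.internal (Lop W Z η) Lam z with hy
  have hzz : star D.slm.internal (Lop W Z η) Lam y = z := (hT D.slm).2.1 z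
  have hyg : y ∈ W.gr Z (2 * (e - j)) := by
    have := (hT D.slm).1 (2 * j) z (by omega) (hW.alg_gr hZ hz)
    rwa [show 2 * e - 2 * j = 2 * (e - j) by omega] at this
  have hya : y ∈ W.alg Z (e - j) :=
    tot_alg hW hZ (star_tot hW hZ hη D (alg_le_tot hW Z j hz) (hW.alg_gr hZ hz)) hyg
  have hy0 : y ≠ 0 := fun h => hz0 (by rw [← hzz, h, map_zero])
  have h1 := pos_low hW hZ hη D hS hT hC hCL hCΛ hCq (j := e - j)
    (fun i hi => hH i (by omega)) (by omega) hya (hCs z hzC) hy0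
  have h2 : psi W Z η Lam D.slm.internal z z = psi W Z η Lam D.slm.internal y y := by
    rw [psi, psi, hzz, ← hy, hW.alg_comm hZ hya]
  rw [h2]
  exact h1

end codim

end MotZ

end Pool.Agent.Lib.MP_361a6f_ag.FL
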