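import Pool.Agent.Lib.MP_361a6f_ag.FL.AlgC
import Pool.Agent.Lib.MP_361a6f_ag.FL.Z.StatP

/-!
# Even and odd algebraic classes: how many there are
-/

open CategoryTheory AlgebraicGeometry MonoidalCategory CartesianMonoidalCategory

universe u v w

namespace Pool.Agent.Lib.MP_361a6f_ag.FL

open Pool.Agent.Lib.MP_361a6f_ag.H3 Pool.Agent.Lib.MP_361a6f_ag.SQ
  Pool.Agent.Lib.MP_361a6f_ag.PP

noncomputable section

variable {k : Type u} [Field k] {m : ℕ}

/-- The number of the even (`ε = 0`) or odd (`ε = 1`) classes on `P`: the dimension of the real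
space of these classes, of all codimensions, modulo the numerically trivial ones. -/
def parDim (W : CohomologyData.{u, 0, w} k ℂ) (X : Fin m → Sch k)
    (C : ZMod 2 → ∀ P : Prd m, ℕ → W.coh (P.obj X) → Prop) (ε : ZMod 2) (P : Prd m) : ℕ :=
  Module.finrank ℝ (Submodule.span ℝ {z : W.coh (P.obj X) | ∃ l, C ε P l z}) -
    Module.finrank ℝ (Submodule.span ℝ {z : W.coh (P.obj X) | ∃ l, IsNumR W (P.obj X) l z})

/-- For the powers of one variety `X a`, with `d = dim H^*(X a)`: on an even power there are at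
least as many even classes as odd classes, and on the `n`-th power there are at least
`d^n / (600 d^3 n)^(d^2)` even and odd classes. If there is an odd class that is not numerically
trivial on the `r`-th power, then on the `n`-th power, for all `n`, the number of the even classes
exceeds the number of the odd classes by at most `(d - 2 / r^2)^n`, and it is at most
`1 + 80 r d^3 / √n` times the number of the odd classes if `80 r d^3 ≤ √n`. -/
structure Balance (W : CohomologyData.{u, 0, w} k ℂ) (X : Fin m → Sch k)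
    (C : ZMod 2 → ∀ P : Prd m, ℕ → W.coh (P.obj X) → Prop) : Prop where
  half : ∀ P : Prd m, Even P.size → parDim W X C 1 P ≤ parDim W X C 0 P
  grow : ∀ (a : Fin m) (P : Prd m), (Module.finrank ℂ (W.coh (X a)) : ℝ) ^ P.size ≤
    (600 * (Module.finrank ℂ (W.coh (X a)) : ℝ) ^ 3 * P.size) ^
      (Module.finrank ℂ (W.coh (X a)) ^ 2) * (parDim W X C 0 P + parDim W X C 1 P)
  gap : ∀ (a : Fin m) (R : Prd m) (l : ℕ) (z : W.coh (R.obj X)), C 1 R l z →
    ¬ IsNumR W (R.obj X) l z → ∀ P : Prd m, (parDim W X C 0 P : ℝ) ≤ parDim W X C 1 P +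
      ((Module.finrank ℂ (W.coh (X a)) : ℝ) - 2 / (R.size : ℝ) ^ 2) ^ P.size
  equi : ∀ (a : Fin m) (R : Prd m) (l : ℕ) (z : W.coh (R.obj X)), C 1 R l z →
    ¬ IsNumR W (R.obj X) l z → ∀ P : Prd m,
    80 * R.size * (Module.finrank ℂ (W.coh (X a)) : ℝ) ^ 3 ≤ Real.sqrt P.size →
    (parDim W X C 0 P : ℝ) ≤ (1 + 80 * R.size * (Module.finrank ℂ (W.coh (X a)) : ℝ) ^ 3 /
      Real.sqrt P.size) * parDim W X C 1 P

/-- The proportion of the even classes in the algebraic classes of the powers of one variety tends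
to `1`, `1/2` or `0`: to `1` if and only if numerical equivalence is homological equivalence and
`0` is the only odd class, on all powers, to `1/2` if and only if numerical equivalence is
homological equivalence on all powers and there is another odd class on one, and to `0` if and only
if numerical equivalence is not homological equivalence on one power. -/
def ShareC (W : CohomologyData.{u, 0, w} k ℂ) (X : Fin m → Sch k)
    (C : ZMod 2 → ∀ P : Prd m, ℕ → W.coh (P.obj X) → Prop) : Prop :=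
  ∃ c : ℝ, (∀ δ : ℝ, 0 < δ → ∃ n₀ : ℕ, ∀ P : Prd m, n₀ ≤ P.size →
      |(parDim W X C 0 P : ℝ) - c * Module.finrank ℂ (algC W (P.obj X))| ≤
        δ * Module.finrank ℂ (algC W (P.obj X))) ∧
    ((c = 1 ∧ (∀ R : Prd m, numC W (R.obj X) = ⊥) ∧ ∀ R l z, C 1 R l z → z = 0) ∨
      (c = 1 / 2 ∧ (∀ R : Prd m, numC W (R.obj X) = ⊥) ∧ ∃ R l z, C 1 R l z ∧ z ≠ 0) ∨
      c = 0 ∧ ∃ R : Prd m, numC W (R.obj X) ≠ ⊥)

end

/-- Theorem Z with the number of the even and odd classes on the powers of one variety. -/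
def ThmZBStatement : Prop :=
  ∀ {k : Type u} [Field k] (W : CohomologyData.{u, 0, w} k ℂ) (𝒱 : VarietyClass k)
    (_ : IsWeilCohomology W 𝒱) {m : ℕ} {X : Fin m → Sch k} {n : Fin m → ℕ}
    (_ : ∀ a, 𝒱.mem (X a) (n a))
    {ξ : ∀ a, W.coh (X a)} (_ : ∀ a, PositiveDivisor W (X a) (n a) (ξ a))
    (_ : ∀ a, HardLefschetz W (X a) (n a) (ξ a))
    (_ : ∀ a, AlgebraicLambda W (X a) (n a) (ξ a))
    (J : ∀ P : Prd m, W.coh (P.obj X) →ₛₗ[starRingEnd ℂ] W.coh (P.obj X))
    (_ : HRSys W X n ξ J),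
    ∃ C : ZMod 2 → ∀ P : Prd m, ℕ → W.coh (P.obj X) → Prop,
      Grading W X n C ∧ Parity W X n ξ J C ∧ (m = 1 → Balance W X C ∧ ShareC W X C) ∧
      ∀ J' (d : Fin m → ℕ), HRSys W X n ξ J' → (∀ a, GenDeg W (X a) (d a)) →
        (∀ a, ∀ l ≤ d a, ∀ z, W.IsAlg ((X a).prod (X a)) l z →
          C 0 (.prod (.leaf a) (.leaf a)) l z) →
        Parity W X n ξ J' C

end Pool.Agent.Lib.MP_361a6f_ag.FL
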