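import Pool.Agent.Lib.MP_361a6f_ag.FL.Z.Par
import Pool.Agent.Lib.MP_361a6f_ag.FL.Z.StatB
import Pool.Agent.Lib.MP_361a6f_ag.FL.O.Half
import Pool.Agent.Lib.MP_361a6f_ag.FL.O.T2M
import Pool.Agent.Lib.MP_361a6f_ag.FL.O.Grow52
import Pool.Agent.Lib.MP_361a6f_ag.FL.O.SigX44

/-!
# The number of the even and odd classes on the powers of one variety
-/

open CategoryTheory AlgebraicGeometry MonoidalCategory CartesianMonoidalCategory
open Filter Topology

universe u v w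

set_option autoImplicit false
set_option linter.unusedSectionVars false

namespace Pool.Agent.Lib.MP_361a6f_ag.FL

open Pool.Agent.Lib.MP_361a6f_ag.H3 Pool.Agent.Lib.MP_361a6f_ag.SQ
  Pool.Agent.Lib.MP_361a6f_ag.IP2 Pool.Agent.Lib.MP_361a6f_ag.PP

namespace ZSize

open Module

section lin

variable {V : Type*} [AddCommGroup V] [Module ℝ V] [Module.Finite ℝ V] {A E O N T : Submodule ℝ V}

/-- a positive definite subspace is not larger than `E / N` -/
theorem lin_le (hsup : E ⊔ O = A) (hinf : E ⊓ O = N) {q : V → ℝ} (hO : ∀ z ∈ O, q z ≤ 0)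
    (hT : T ≤ A) (hq : ∀ z ∈ T, z ≠ 0 → 0 < q z) : finrank ℝ T + finrank ℝ N ≤ finrank ℝ E := by
  have h1 : T ⊓ O = ⊥ := by
    rw [eq_bot_iff]
    intro z hz
    rw [Submodule.mem_bot]
    by_contra h0
    exact absurd (hq z hz.1 h0) (not_lt.2 (hO z hz.2))
  have h2 := Submodule.finrank_sup_add_finrank_inf_eq T O
  have h3 := Submodule.finrank_sup_add_finrank_inf_eq E O
  have h4 : finrank ℝ (T ⊔ O : Submodule ℝ V) ≤ finrank ℝ A :=
    Submodule.finrank_mono (sup_le hT (hsup ▸ le_sup_right))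
  rw [h1, finrank_bot] at h2
  rw [hsup, hinf] at h3
  omega

/-- there is a positive definite subspace of the size of `E / N` -/
theorem lin_ex (hN : N ≤ E) {q : V → ℝ} (hE : ∀ z ∈ E, z ∉ N → 0 < q z) :
    ∃ T ≤ E, (∀ z ∈ T, z ≠ 0 → 0 < q z) ∧ finrank ℝ T + finrank ℝ N = finrank ℝ E := by
  obtain ⟨C, hC⟩ := N.exists_isCompl
  refine ⟨C ⊓ E, inf_le_right, fun z hz h0 => hE z hz.2 fun hzN => h0 ?_, ?_⟩
  · have h1 : z ∈ N ⊓ C := ⟨hzN, hz.1⟩
    rwa [hC.inf_eq_bot, Submodule.mem_bot] at h1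
  · have h1 : N ⊔ C ⊓ E = E := by
      rw [← sup_inf_assoc_of_le C hN, hC.sup_eq_top, top_inf_eq]
    have h2 : N ⊓ (C ⊓ E) = ⊥ := by
      rw [← inf_assoc, hC.inf_eq_bot, bot_inf_eq]
    have h3 := Submodule.finrank_sup_add_finrank_inf_eq N (C ⊓ E)
    rw [h1, h2, finrank_bot] at h3
    omega

end lin

open ZE Pool.Agent.Lib.MP_361a6f_ag.FL.ZNum

section cls

variable {k : Type u} [Field k] {W : CohomologyData.{u, 0, w} k ℂ} {𝒱 : VarietyClass k} {m : ℕ}
  (H : Host W 𝒱 m)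
  {J : ∀ P : Prd m, W.coh (P.obj H.X) →ₛₗ[starRingEnd ℂ] W.coh (P.obj H.X)}
  {A : ℕ → ∀ P : Prd m, Module.End ℂ (W.coh (P.obj H.X))}
  {K : ∀ P : Prd m, Module.End ℂ (W.coh (P.obj H.X))} {F : Filter ℕ}

/-- the numerically trivial classes -/
noncomputable def NN (P : Prd m) : Submodule ℝ (W.coh (P.obj H.X)) :=
  Submodule.span ℝ {z | ∃ l, IsNumR W (P.obj H.X) l z}

/-- a class is the sum of its components -/
theorem sum_cmp (P : Prd m) {z : W.coh (P.obj H.X)} (hz : z ∈ AR W (P.obj H.X)) :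
    ∑ l ∈ Finset.range (P.dim H.n + 1), cmpP H P (2 * l) z = z := by
  refine Submodule.span_induction (p := fun z _ =>
    ∑ l ∈ Finset.range (P.dim H.n + 1), cmpP H P (2 * l) z = z) ?_ ?_ ?_ ?_ hz
  · rintro z ⟨l, hl⟩
    have hgr : z ∈ W.gr (P.obj H.X) (2 * l) := H.hW.alg_gr (H.memP P) hl
    by_cases h : l ≤ P.dim H.n
    · rw [Finset.sum_eq_single l, cmpP_self H hgr]
      · intro l' _ hl'
        exact cmpP_ne H (by omega) hgr
      · intro h'
        exact absurd (Finset.mem_range.2 (by omega)) h'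
    · have h0 : z = 0 := H.hW.top_gr (H.memP P) hgr (by omega)
      rw [h0]
      exact Finset.sum_eq_zero fun l _ => map_zero _
  · exact Finset.sum_eq_zero fun l _ => map_zero _
  · intro a b _ _ ha hb
    simp only [map_add, Finset.sum_add_distrib]
    rw [ha, hb]
  · intro r a _ ha
    rw [← AR_smul_real]
    simp only [map_smul]
    rw [← Finset.smul_sum, ha]

variable (ge : H.GeFacts) (hJ : H.J0Facts J) (hA : ∀ j, ∃ x, ZOps H J x (A j))
  (hK : ∃ x, ZOps H J x K)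

include ge hJ hA hK in
/-- a class that is even and odd is numerically trivial -/
theorem mem_NN [F.NeBot] {P : Prd m} (hF : Fit H J A K F P) {z : W.coh (P.obj H.X)}
    (h1 : z ∈ ZC H J A K F 1 P) (h2 : z ∈ ZC H J A K F (-1) P) : z ∈ NN H P := by
  rw [← sum_cmp H P h1.1]
  refine Submodule.sum_mem _ fun l _ => Submodule.subset_span ⟨l, ?_⟩
  rw [isNumR_iff, ← CZ_inf H ge hJ hA hF l]
  exact ⟨CZ_cmp H ge hJ hA hK l (by rw [ZMod.val_zero, pow_zero]) h1,
    CZ_cmp H ge hJ hA hK l (by rw [show (1 : ZMod 2).val = 1 from rfl, pow_one]) h2⟩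

/-- the numerically trivial classes are algebraic and orthogonal to all algebraic classes -/
theorem NN_tr {P : Prd m} {z : W.coh (P.obj H.X)} (hz : z ∈ NN H P) :
    z ∈ AR W (P.obj H.X) ∧ ∀ x ∈ AR W (P.obj H.X), W.tr (P.obj H.X) (z * x) = 0 := by
  refine Submodule.span_induction (p := fun z _ => z ∈ AR W (P.obj H.X) ∧
    ∀ x ∈ AR W (P.obj H.X), W.tr (P.obj H.X) (z * x) = 0) ?_ ?_ ?_ ?_ hz
  · rintro z ⟨l, hl⟩
    have h1 := mem_numR.1 (isNumR_iff.1 hl)
    exact ⟨algR_AR h1.1, h1.2⟩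
  · exact ⟨zero_mem _, fun x _ => by rw [zero_mul, map_zero]⟩
  · rintro a b _ _ ⟨ha, ha'⟩ ⟨hb, hb'⟩
    exact ⟨add_mem ha hb, fun x hx => by rw [add_mul, map_add, ha' x hx, hb' x hx, add_zero]⟩
  · rintro r a _ ⟨ha, ha'⟩
    refine ⟨Submodule.smul_mem _ _ ha, fun x hx => ?_⟩
    rw [← AR_smul_real, smul_mul_assoc, map_smul, ha' x hx, smul_zero]

include ge hJ hA hK in
/-- and conversely -/
theorem NN_of_tr [F.NeBot] {P : Prd m} (hF : Fit H J A K F P) {z : W.coh (P.obj H.X)}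
    (hz : z ∈ AR W (P.obj H.X)) (h : ∀ x ∈ AR W (P.obj H.X), W.tr (P.obj H.X) (z * x) = 0) :
    z ∈ NN H P := by
  obtain ⟨s, -, -, h1, -⟩ := hF z hz
  have h0 : s = 0 := lim_zero H ge hJ hA hF hz h h1
  subst h0
  exact mem_NN H ge hJ hA hK hF ⟨hz, 0, h1, by rw [map_zero, smul_zero],
    by rw [map_zero, smul_zero]⟩ ⟨hz, 0, h1, by rw [map_zero, smul_zero],
    by rw [map_zero, smul_zero]⟩

variable (F) in
/-- the even or odd classes of all codimensions -/
noncomputable def CC (J : ∀ P : Prd m, W.coh (P.obj H.X) →ₛₗ[starRingEnd ℂ] W.coh (P.obj H.X))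
    (A : ℕ → ∀ P : Prd m, Module.End ℂ (W.coh (P.obj H.X)))
    (K : ∀ P : Prd m, Module.End ℂ (W.coh (P.obj H.X))) (ε : ZMod 2) (P : Prd m) :
    Submodule ℝ (W.coh (P.obj H.X)) :=
  Submodule.span ℝ {z | ∃ l, z ∈ CZ H J A K F ε P l}

theorem CC_le0 {P : Prd m} : CC H F J A K 0 P ≤ ZC H J A K F 1 P :=
  Submodule.span_le.2 fun _ ⟨_, hl⟩ => ((CZ_zero H).1 hl).1

theorem CC_le1 {P : Prd m} : CC H F J A K 1 P ≤ ZC H J A K F (-1) P :=
  Submodule.span_le.2 fun _ ⟨_, hl⟩ => ((CZ_one' H).1 hl).1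

theorem CC_AR {ε : ZMod 2} {P : Prd m} : CC H F J A K ε P ≤ AR W (P.obj H.X) :=
  Submodule.span_le.2 fun _ ⟨_, hl⟩ => hl.1.1

variable (G : Grading W H.X H.n (fun ε P l z => z ∈ CZ H J A K F ε P l))

include G in
theorem CC_sup (P : Prd m) : CC H F J A K 0 P ⊔ CC H F J A K 1 P = AR W (P.obj H.X) := by
  refine le_antisymm (sup_le (CC_AR H) (CC_AR H)) (Submodule.span_le.2 ?_)
  rintro z ⟨l, hl⟩
  obtain ⟨x, y, hx, hy, rfl⟩ := (G.sum P l z).1 (Submodule.subset_span hl)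
  exact Submodule.add_mem_sup (Submodule.subset_span ⟨l, hx⟩) (Submodule.subset_span ⟨l, hy⟩)

include ge hJ hA hK G in
theorem CC_inf [F.NeBot] {P : Prd m} (hF : Fit H J A K F P) :
    CC H F J A K 0 P ⊓ CC H F J A K 1 P = NN H P := by
  refine le_antisymm (fun z hz => mem_NN H ge hJ hA hK hF (CC_le0 H hz.1) (CC_le1 H hz.2))
    (Submodule.span_le.2 ?_)
  rintro z ⟨l, hl⟩
  obtain ⟨h0, h1⟩ := (G.num P l z).1 hl
  exact ⟨Submodule.subset_span ⟨l, h0⟩, Submodule.subset_span ⟨l, h1⟩⟩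

include ge hJ hA hK in
/-- the sign of the form on the even classes -/
theorem pos_even [F.NeBot] {P : Prd m} (hF : Fit H J A K F P) {z : W.coh (P.obj H.X)}
    (hz : z ∈ CC H F J A K 0 P) (hn : z ∉ NN H P) : 0 < (H.psiP P z z).re := by
  obtain ⟨h1, s, h2, h3, h4⟩ := CC_le0 H hz
  have h0 : s ≠ 0 := by
    rintro rfl
    exact hn (mem_NN H ge hJ hA hK hF ⟨h1, 0, h2, h3, h4⟩ ⟨h1, 0, h2,
      by rw [map_zero, smul_zero], by rw [map_zero, smul_zero]⟩)
  obtain ⟨q, hq, h5⟩ := psi_sign H ge hJ hA (by norm_num) h2 h3 h0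
  rw [h5, Complex.ofReal_re, one_mul]
  exact hq

include ge hJ hA hK in
/-- the sign of the form on the odd classes that are not numerically trivial -/
theorem neg_odd' [F.NeBot] {P : Prd m} (hF : Fit H J A K F P) {z : W.coh (P.obj H.X)}
    (hz : z ∈ CC H F J A K 1 P) (hn : z ∉ NN H P) : (H.psiP P z z).re < 0 := by
  obtain ⟨h1, s, h2, h3, h4⟩ := CC_le1 H hz
  have h0 : s ≠ 0 := by
    rintro rfl
    exact hn (mem_NN H ge hJ hA hK hF ⟨h1, 0, h2, by rw [map_zero, smul_zero],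
      by rw [map_zero, smul_zero]⟩ ⟨h1, 0, h2, h3, h4⟩)
  obtain ⟨q, hq, h5⟩ := psi_sign H ge hJ hA (by norm_num) h2 h3 h0
  rw [h5, Complex.ofReal_re]
  linarith

include ge hJ hA in
/-- the sign of the form on the odd classes -/
theorem neg_odd [F.NeBot] {P : Prd m} {z : W.coh (P.obj H.X)} (hz : z ∈ CC H F J A K 1 P) :
    (H.psiP P z z).re ≤ 0 := by
  obtain ⟨h1, s, h2, h3, h4⟩ := CC_le1 H hz
  by_cases h0 : s = 0
  · subst h0
    rw [psi_lim H ge hJ hA h2 h2]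
    have h3 := psiP_smul H P (0 : W.coh (P.obj H.X)) 0 0
    rw [smul_zero, zero_mul] at h3
    rw [h3, Complex.zero_re]
  · obtain ⟨q, hq, h5⟩ := psi_sign H ge hJ hA (by norm_num) h2 h3 h0
    rw [h5, Complex.ofReal_re]
    linarith

end cls

section host

open OL

/-- the gap, abstract form (as `gap_abs` in `FL/O/Main.lean`) -/
theorem gap_abs {I Λ : Type} [Fintype I] [DecidableEq I] [DecidableEq Λ] {D : Dat I Λ}
    {At : (L : ℕ) → Ten I L → Prop} (S : ASys D At) (hpos : ∃ u ∈ RA At 1, 0 < (psiT D u u).re)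
    {r : ℕ} (hneg : ∃ u ∈ RA At r, (psiT D u u).re < 0) (n : ℕ) (U : Submodule ℝ (Ten I n))
    (hU : U ≤ RA At n) (hdef : PosU D U) :
    (2 * Module.finrank ℝ U : ℝ) ≤ rkA D At n +
      ((Fintype.card I : ℝ) - 2 / (r : ℝ) ^ 2) ^ n := by
  obtain ⟨β, _, lb, b, H, g, k, L⟩ := LevO.lev (D := D) alg1 alg2 (algB alg1 alg2) cptbH
    (minb alg1) T2A.hl1 T2A.hl2 S (n + r + 1)
  have hc : n ≤ n + r + 1 := by omega
  obtain ⟨_, _, hsig⟩ := sig_bound L alg1 hc (by omega : r ≤ n + r + 1) (by omega) hpos hneg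
  obtain ⟨hsum, _⟩ := eig_int L alg1 hc
  have hsum' : (Module.finrank ℝ (eigR L alg1 hc 1) : ℝ) + Module.finrank ℝ (eigR L alg1 hc (-1)) =
      rkA D At n := by exact_mod_cast hsum
  have h7 : (Module.finrank ℝ U : ℝ) ≤ Module.finrank ℝ (eigR L alg1 hc 1) := by
    exact_mod_cast pos_le L alg1 hc U hU hdef
  have h8 := (abs_le.1 hsig).2
  linarith

variable {k : Type u} [Field k] {W : CohomologyData.{u, 0, w} k ℂ} {𝒱 : VarietyClass k}
  (H : Host W 𝒱 1)
  {J : ∀ P : Prd 1, W.coh (P.obj H.X) →ₛₗ[starRingEnd ℂ] W.coh (P.obj H.X)}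
  {A : ℕ → ∀ P : Prd 1, Module.End ℂ (W.coh (P.obj H.X))}
  {K : ∀ P : Prd 1, Module.End ℂ (W.coh (P.obj H.X))} {F : Filter ℕ}

theorem totR_eq {Y : Sch k} (hW : IsWeilCohomology W 𝒱) : HostR.totR W Y = AR W Y := by
  refine le_antisymm (Submodule.span_le.2 fun z hz => ?_) (Submodule.span_mono ?_)
  · exact tot_induction hW (P := fun z => z ∈ AR W Y) hz (fun l z hz => AR_alg hz)
      fun a b ha hb => add_mem ha hb
  · rintro z ⟨l, hl⟩
    exact alg_le_tot hW _ l hl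

variable (hJ : H.J0Facts J) (hA : ∀ j, ∃ x, ZOps H J x (A j)) (hK : ∃ x, ZOps H J x K)

include hJ hA hK in
/-- the numerically trivial classes in coordinates -/
theorem map_NN [F.NeBot] {P : Prd 1} (hF : Fit H J A K F P) :
    (NN H P).map (HostR.tcR H P) = numA H.D (HostR.AtP H) P.size := by
  have hge : H.GeFacts := ge H
  have hgr : H.RelFacts := gr ge H
  have hAR : AR W (P.obj H.X) = HostR.totR W (P.obj H.X) := (totR_eq H.hW).symm
  ext u
  constructor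
  · rintro ⟨z, hz, rfl⟩
    obtain ⟨h1, h2⟩ := NN_tr H hz
    refine ⟨(HostR.mem_RA H hgr hge P _).2 ⟨z, hAR ▸ h1, rfl⟩, fun w hw => ?_⟩
    obtain ⟨y, hy, rfl⟩ := (HostR.mem_RA H hgr hge P w).1 hw
    rw [HostR.tcR_apply, hge.psi_tc]
    exact h2 _ (AR_star H P (hAR.symm ▸ hy))
  · rintro ⟨hu, hw⟩
    obtain ⟨z, hz, rfl⟩ := (HostR.mem_RA H hgr hge P u).1 hu
    refine ⟨z, NN_of_tr H hge hJ hA hK hF (hAR.symm ▸ hz) fun x hx => ?_, rfl⟩
    have h1 := hw (H.tc P (H.starP P x))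
      ((HostR.mem_RA H hgr hge P _).2 ⟨_, hAR ▸ AR_star H P hx, rfl⟩)
    rw [hge.psi_tc] at h1
    have h2 : H.starP P (H.starP P x) = x := (staB (H.lamP P).1.slm).2.1 x
    have h3 : W.tr (P.obj H.X) (z * H.starP P (H.starP P x)) = 0 := h1
    rwa [h2] at h3

include hJ hA hK in
/-- the rank -/
theorem rk_eq [F.NeBot] {P : Prd 1} (hF : Fit H J A K F P) :
    rkA H.D (HostR.AtP H) P.size =
      finrank ℝ (AR W (P.obj H.X)) - finrank ℝ (NN H P) := by
  rw [rkA, ← map_NN H hJ hA hK hF, HostR.finrank_map H (ge H) P, HostR.finrank_RA H (gr ge H) (ge H) P,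
    totR_eq H.hW]

variable (G : Grading W H.X H.n (fun ε P l z => z ∈ CZ H J A K F ε P l))

include hJ hA hK G in
/-- **The number of the even and odd classes.** -/
theorem balance [F.NeBot] (hF : ∀ P, Fit H J A K F P)
    (hpos : PositiveDivisor W (H.X 0) (H.n 0) (H.ξ 0)) :
    Balance W H.X (fun ε P l z => z ∈ CZ H J A K F ε P l) := by
  have hge : H.GeFacts := ge H
  have hgr : H.RelFacts := gr ge H
  have hS : ASys H.D (HostR.AtP H) := aSys_at (at_ H)
  have hfin : ∀ P : Prd 1, Module.Finite ℝ (W.coh (P.obj H.X)) := fun P =>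
    have := H.hW.graded.finite (H.memP P)
    Module.Finite.trans ℂ (W.coh (P.obj H.X))
  have hAR : ∀ P : Prd 1, AR W (P.obj H.X) = HostR.totR W (P.obj H.X) := fun P =>
    (totR_eq H.hW).symm
  have hu := OStr.unit_pos H hge 0 hpos
  have hcard := HostR.card_I H hge
  have hsup := fun P => CC_sup H G P
  have hinf := fun P => CC_inf H hge hJ hA hK G (hF P)
  -- the numbers
  let e : Prd 1 → ℕ := fun P => finrank ℝ (CC H F J A K 0 P) - finrank ℝ (NN H P)
  let o : Prd 1 → ℕ := fun P => finrank ℝ (CC H F J A K 1 P) - finrank ℝ (NN H P)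
  have hN0 : ∀ P, NN H P ≤ CC H F J A K 0 P := fun P => hinf P ▸ inf_le_left
  have hN1 : ∀ P, NN H P ≤ CC H F J A K 1 P := fun P => hinf P ▸ inf_le_right
  have hle0 : ∀ P, finrank ℝ (NN H P) ≤ finrank ℝ (CC H F J A K 0 P) := fun P =>
    Submodule.finrank_mono (hN0 P)
  have hle1 : ∀ P, finrank ℝ (NN H P) ≤ finrank ℝ (CC H F J A K 1 P) := fun P =>
    Submodule.finrank_mono (hN1 P)
  have hrk : ∀ P, rkA H.D (HostR.AtP H) P.size = e P + o P := by
    intro P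
    have h1 := Submodule.finrank_sup_add_finrank_inf_eq (CC H F J A K 0 P) (CC H F J A K 1 P)
    rw [hsup, hinf] at h1
    rw [rk_eq H hJ hA hK (hF P)]
    have h2 := hle0 P
    have h3 := hle1 P
    show _ = (finrank ℝ (CC H F J A K 0 P) - finrank ℝ (NN H P)) +
      (finrank ℝ (CC H F J A K 1 P) - finrank ℝ (NN H P))
    omega
  -- a negative element
  have hneg : ∀ (R : Prd 1) (l : ℕ) (z : W.coh (R.obj H.X)), z ∈ CZ H J A K F 1 R l →
      ¬ IsNumR W (R.obj H.X) l z → ∃ u ∈ RA (HostR.AtP H) R.size, (psiT H.D u u).re < 0 := by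
    intro R l z hz hn
    have hzN : z ∉ NN H R := fun h => hn (isNumR_iff.2 (mem_numR.2 ⟨hz.2, (NN_tr H h).2⟩))
    refine ⟨H.tc R z, (HostR.mem_RA H hgr hge R _).2 ⟨z, hAR R ▸ hz.1.1, rfl⟩, ?_⟩
    rw [hge.psi_tc]
    exact neg_odd' H hge hJ hA hK (hF R) (Submodule.subset_span ⟨l, hz⟩) hzN
  -- a positive space of the size of the even classes
  have hps : ∀ P : Prd 1, ∃ U : Submodule ℝ (Ten H.I P.size), U ≤ RA (HostR.AtP H) P.size ∧
      PosU H.D U ∧ finrank ℝ U = e P := by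
    intro P
    obtain ⟨T, hT1, hT2, hT3⟩ := lin_ex (hN0 P) (q := fun z => (H.psiP P z z).re)
      fun z hz hzn => pos_even H hge hJ hA hK (hF P) hz hzn
    have hTA : T ≤ HostR.totR W (P.obj H.X) := hAR P ▸ hT1.trans (CC_AR H)
    refine ⟨T.map (HostR.tcR H P), HostR.map_le H hgr hge P hTA, (HostR.posU_map H hge P T).2 hT2,
      ?_⟩
    rw [HostR.finrank_map H hge P]
    show _ = finrank ℝ (CC H F J A K 0 P) - finrank ℝ (NN H P)
    omega
  refine ⟨fun P hP => ?_, fun a P => ?_, fun a R l z hz hn P => ?_, fun a R l z hz hn P hl => ?_⟩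
  · show o P ≤ e P
    obtain ⟨U₀, hU1, hU2, hU3⟩ := half_even alg1 alg2 (algB alg1 alg2) cptbH (minb alg1)
      (l1b alg1 (volb alg1) (phab alg1 (tanb alg1)) (avgb mainFfb alg1 alg2))
      (l2b alg1 (volb alg1) (phab alg1 (tanb alg1)) (avgb mainFfb alg1 alg2)) hS hP
    obtain ⟨T, hT1, rfl⟩ := HostR.exists_map H hgr hge P hU1
    rw [HostR.finrank_map H hge P, hrk] at hU3
    have h1 := lin_le (hsup P) (hinf P) (q := fun z => (H.psiP P z z).re)
      (fun z hz => neg_odd H hge hJ hA hz) (hAR P ▸ hT1) ((HostR.posU_map H hge P T).1 hU2)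
    have h2 : finrank ℝ T ≤ e P := by
      show finrank ℝ T ≤ finrank ℝ (CC H F J A K 0 P) - finrank ℝ (NN H P)
      omega
    omega
  · obtain rfl : a = 0 := Subsingleton.elim _ _
    obtain ⟨u, hu1, hu2⟩ := hu
    have h1 := O52.grow_c alg1 alg2 (algB alg1 alg2) cptbH (minb alg1) T2A.hl1 T2A.hl2 hS
      ⟨u, hu1, u, hu1, fun h0 => by rw [h0, Complex.zero_re] at hu2; exact hu2.ne rfl⟩ P.size
      P.size_posC
    rw [hrk, hcard] at h1
    push_cast at h1
    exact h1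
  · obtain rfl : a = 0 := Subsingleton.elim _ _
    show (e P : ℝ) ≤ o P + _
    obtain ⟨U, hU1, hU2, hU3⟩ := hps P
    have h1 := gap_abs hS hu (hneg R l z hz hn) P.size U hU1 hU2
    rw [hU3, hrk, hcard] at h1
    push_cast at h1
    linarith
  · obtain rfl : a = 0 := Subsingleton.elim _ _
    show (e P : ℝ) ≤ (1 + _) * (o P : ℝ)
    obtain ⟨U, hU1, hU2, hU3⟩ := hps P
    have hd0 : 0 < Fintype.card H.I := OX.card_pos (OX.ne_of_pos hu)
    rw [← hcard] at hl ⊢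
    have hd : (1 : ℝ) ≤ Fintype.card H.I := by exact_mod_cast hd0
    have hd3 : (1 : ℝ) ≤ (Fintype.card H.I : ℝ) ^ 3 := one_le_pow₀ hd
    have hr : (1 : ℝ) ≤ R.size := by exact_mod_cast R.size_posC
    have hx : (0 : ℝ) < 80 * R.size * (Fintype.card H.I : ℝ) ^ 3 := by positivity
    have hs : (0 : ℝ) < Real.sqrt P.size := hx.trans_le hl
    have hn' : (20 * Fintype.card H.I ^ 3) ^ 2 ≤ P.size := by
      have h2 : (20 * (Fintype.card H.I : ℝ) ^ 3) ≤ Real.sqrt P.size :=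
        le_trans (by nlinarith) hl
      have h3 : (20 * (Fintype.card H.I : ℝ) ^ 3) ^ 2 ≤ (P.size : ℝ) :=
        (pow_le_pow_left₀ (by positivity) h2 2).trans_eq (Real.sq_sqrt (Nat.cast_nonneg _))
      exact_mod_cast h3
    have h1 := OX.gapX alg1 alg2 (algB alg1 alg2) cptbH (minb alg1) T2A.hl1 T2A.hl2 hS hu
      (hneg R l z hz hn) (ε := 80 * R.size * (Fintype.card H.I : ℝ) ^ 3 / Real.sqrt P.size)
      (div_pos hx hs) ((div_le_one hs).2 hl) hn' (by rw [div_mul_cancel₀ _ hs.ne']) U hU1 hU2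
    rw [hU3, hrk] at h1
    push_cast at h1
    linarith

end host

end ZSize

end Pool.Agent.Lib.MP_361a6f_ag.FL
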