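import Pool.Agent.Lib.MP_361a6f_ag.FL.Z.Abs
import Pool.Agent.Lib.MP_361a6f_ag.FL.Z.WDef
import Pool.Agent.Lib.MP_361a6f_ag.FL.C.Car
import Pool.Agent.Lib.MP_361a6f_ag.FL.L12
import Pool.Agent.Lib.MP_361a6f_ag.FL.Al2
import Pool.Agent.Lib.MP_361a6f_ag.FL.XY

/-!
# Row WABS: the grading does not depend on the lift, abstract part

Two systems `At` and `y⁻¹ At` have graded forms with limit tuples `e₁` and `e₂` (a finite level is
enough for the second one). The form `ψ` is nondegenerate on the diagrams at `e₁` and `e₂`, so both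
lie in the orbit of a critical tuple, and the critical tuples have the same invariants: they are
conjugate under the compact group. By Cartan's fixed point theorem the element `w` of the group with
`w e₁ = e₂` can be chosen such that `w wᴴ` commutes with the unitary stabiliser of `e₂`. Then
`p = wᴴ w` is a value of a diagram at `e₁`, it commutes with `k₁` by the hypothesis in length `2`,
and `J₀ z = p z = k₁ z` for the limits `z` of the members fixed by `y J₀ y⁻¹`.
-/

open Filter Topology MeasureTheory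
open scoped Matrix ComplexOrder MatrixOrder

set_option autoImplicit false
set_option linter.unusedSectionVars false
set_option linter.unusedVariables false

namespace Pool.Agent.Lib.MP_361a6f_ag.FL

namespace WAbs

/-! ### Critical tuples with the same invariants -/

section crit

open L12 Pool.Agent.Lib.MP_361a6f_ag.RR

variable {I Λ ι : Type} [Fintype I] [DecidableEq I] [DecidableEq Λ] [Fintype ι] {len : ι → ℕ}
  {D : Dat I Λ} (H : HM D) (a1 : Alg1)

include a1

theorem ph_le' {s' s : Tup I len} (hs : ‖emb s‖ ≠ 0) (h : ‖emb s'‖ ≤ ‖emb s‖) (k : H.K) :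
    ‖ph H s' s k‖ ≤ 1 := by
  have hs0 : 0 < ‖emb s‖ ^ 2 := by positivity
  unfold ph
  rw [norm_div, Complex.norm_real, Real.norm_eq_abs, abs_of_pos hs0, div_le_one hs0, hS_eq]
  refine (norm_inner_le_norm _ _).trans ?_
  rw [norm_gS H a1, sq]
  exact mul_le_mul_of_nonneg_left h (norm_nonneg _)

theorem ph_eq_one' {s' s : Tup I len} (hs : ‖emb s‖ ≠ 0) (h : ‖emb s'‖ ≤ ‖emb s‖) {k : H.K}
    (hk : ph H s' s k = 1) : gS (H.mat k) s = s' := by
  have hs0 : 0 < ‖emb s‖ ^ 2 := by positivity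
  have h1 : hS (gS (H.mat k⁻¹) s') s = ((‖emb s‖ ^ 2 : ℝ) : ℂ) := by
    unfold ph at hk
    rw [div_eq_one_iff_eq] at hk
    · exact hk
    · exact_mod_cast hs0.ne'
  have h2 : ‖emb (gS (H.mat k⁻¹) s') - emb s‖ ^ 2 =
      ‖emb (gS (H.mat k⁻¹) s')‖ ^ 2 - 2 * (hS (gS (H.mat k⁻¹) s') s).re + ‖emb s‖ ^ 2 := by
    have h2 := @norm_sub_sq ℂ _ _ _ _ (emb (gS (H.mat k⁻¹) s')) (emb s)
    have h3 : (hS (gS (H.mat k⁻¹) s') s).re =
        RCLike.re (inner ℂ (emb (gS (H.mat k⁻¹) s')) (emb s)) := by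
      rw [hS_eq]
      exact inner_re_symm (𝕜 := ℂ) _ _
    rw [h2, h3]
  rw [norm_gS H a1, h1, Complex.ofReal_re] at h2
  have h3 : ‖emb (gS (H.mat k⁻¹) s') - emb s‖ ^ 2 ≤ 0 := by
    rw [h2]
    have h4 : ‖emb s'‖ ^ 2 ≤ ‖emb s‖ ^ 2 := by gcongr
    linarith
  have h4 : gS (H.mat k⁻¹) s' = s := by
    apply emb_inj
    rw [← sub_eq_zero, ← norm_eq_zero]
    exact pow_eq_zero_iff two_ne_zero |>.mp (le_antisymm h3 (by positivity))
  rw [← h4, gS_inv H a1]

/-- a critical tuple and a tuple with the same invariants that is not longer are conjugate -/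
theorem l1s (hvol : VolStatement) (hpha : PhaStatement) (havg : AvgStatement)
    {s s' : Tup I len} (hmin : Minimal D s) (hs : hS s s ≠ 0) (hn : ‖emb s'‖ ≤ ‖emb s‖)
    (hinv : ∀ (l : List ι) (m : Ten I ((l.map len).sum + 0)), IsMatch D _ m →
      dm D 0 l m s' = dm D 0 l m s) : ∃ k, gS (H.mat k) s = s' := by
  have hs1 : ‖emb s‖ ≠ 0 := by
    intro h0
    rw [hS_self, h0] at hs
    simp at hs
  obtain ⟨p, hp⟩ := peak H a1 hvol hpha hmin hs1
  obtain ⟨k, hk⟩ := hp.exists_eq_one (ψ := ph H s' s) (ph_cont H a1 s' s)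
    (ph_le' H a1 hs1 hn) (by
    intro d
    have h1 := avg_mem H a1 havg s (fun _ => (1 : ℂ) : Ten I 0) d
    -- invariants agree
    have h2 : ∀ f ∈ DM D len 0, f s' = f s := by
      intro f hf
      unfold DM at hf
      induction hf using Submodule.span_induction with
      | mem x hx =>
        obtain ⟨l, m, hm, rfl⟩ := hx
        exact hinv l m hm
      | zero => rfl
      | add x y _ _ hx hy => rw [Pi.add_apply, Pi.add_apply, hx, hy]
      | smul a x _ hx => rw [Pi.smul_apply, Pi.smul_apply, hx]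
    have h3 := h2 _ h1
    simp only [L12.gT_zero_len] at h3
    have h4 := congrArg (fun u : Ten I 0 => u Fin.elim0) h3
    have hc : ∀ s'' : Tup I len, (∫ k, (hS (gS (H.mat k⁻¹) s'') s ^ d) •
        ((fun _ => (1 : ℂ)) : Ten I 0) ∂H.μ) Fin.elim0 =
        ∫ k, hS (gS (H.mat k⁻¹) s'') s ^ d ∂H.μ := by
      intro s''
      rw [integral_smul_const]
      simp
    simp only [hc] at h4
    unfold ph
    simp only [div_pow, integral_div, h4])
  exact ⟨k, ph_eq_one' H a1 hs1 hn hk⟩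

include H in
/-- critical tuples with the same invariants are conjugate under the group -/
theorem conj (hvol : VolStatement) (hpha : PhaStatement) (havg : AvgStatement)
    {s s' : Tup I len} (hmin : Minimal D s) (hs : hS s s ≠ 0) (hmin' : Minimal D s')
    (hs' : hS s' s' ≠ 0)
    (hinv : ∀ (l : List ι) (m : Ten I ((l.map len).sum + 0)), IsMatch D _ m →
      dm D 0 l m s' = dm D 0 l m s) : ∃ x, IsG D x ∧ gS x s = s' := by
  rcases le_total ‖emb s'‖ ‖emb s‖ with h | h
  · obtain ⟨k, hk⟩ := l1s H a1 hvol hpha havg hmin hs h hinv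
    exact ⟨H.mat k, (H.mem k).1, hk⟩
  · obtain ⟨k, hk⟩ := l1s H a1 hvol hpha havg hmin' hs' h fun l m hm => (hinv l m hm).symm
    refine ⟨H.mat k⁻¹, (H.mem k⁻¹).1, ?_⟩
    rw [← hk, L12.inv_gS H a1]

end crit

/-! ### Limit tuples -/

section good

open Qps

variable {I Λ ι : Type} [Fintype I] [DecidableEq I] [DecidableEq Λ] [Fintype ι] {len : ι → ℕ}

/-- the limit `e` of a tuple `T` of members in a graded form in the lengths of `T` -/
structure Good (D : Dat I Λ) (At : (L : ℕ) → Ten I L → Prop) (F : Filter ℕ)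
    (g : ℕ → Matrix I I ℂ) (k : Matrix I I ℂ) (T e : Tup I len) : Prop where
  ne : F.NeBot
  hg : ∀ j, IsG D (g j)
  hk : IsK D k
  mem : ∀ i, At (len i) (T i)
  lim : Tendsto (fun j => gS (g j) T) F (𝓝 e)
  full : ∀ i u, At (len i) u → ∃ v ∈ MT D e (len i), Tendsto (fun j => gT (g j) u) F (𝓝 v) ∧
    jT D v = gT k v ∧ ∃ u' ∈ Submodule.span ℝ {x : Ten I (len i) | At (len i) x},
      Tendsto (fun j => gT (g j) u') F (𝓝 (gT k v))
  unit : ∃ i, len i = 0 ∧ ∀ w, T i w = 1

variable {D : Dat I Λ} {At : (L : ℕ) → Ten I L → Prop} {F : Filter ℕ} {g : ℕ → Matrix I I ℂ}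
  {k : Matrix I I ℂ} {T e : Tup I len} (a1 : Alg1) (a2 : Alg2) (S : ASys D At)
  (G : Good D At F g k T e)

include a1 in
theorem jj_lim [F.NeBot] (hg : ∀ j, IsG D (g j)) {L : ℕ} {u x : Ten I L}
    (hu : jT D (jT D u) = u) (hx : Tendsto (fun j => gT (g j) u) F (𝓝 x)) :
    jT D (jT D x) = x := by
  have h1 : Tendsto (fun j => jT D (jT D (gT (g j) u))) F (𝓝 (jT D (jT D x))) :=
    ((ZAbs.jT_cont.comp ZAbs.jT_cont).tendsto x).comp hx
  have h2 : (fun j => jT D (jT D (gT (g j) u))) = fun j => gT (g j) u := by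
    funext j
    rw [XY.jT_jT_gT D _ (hg j), hu]
  rw [h2] at h1
  exact tendsto_nhds_unique h1 hx

include a1 in
theorem jT_zero {L : ℕ} : jT D (0 : Ten I L) = 0 := by
  have := a1.jT_smul D 0 (0 : Ten I L)
  rwa [zero_smul, map_zero, zero_smul] at this

include a2 G in
/-- limits of diagrams -/
theorem dm_lim (c : ℕ) (l : List ι) (m : Ten I ((l.map len).sum + c)) (hm : IsMatch D _ m) :
    Tendsto (fun j => gT (g j) (dm D c l m T)) F (𝓝 (dm D c l m e)) := by
  have h1 : (fun j => gT (g j) (dm D c l m T)) = fun j => dm D c l m (gS (g j) T) := by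
    funext j
    exact (a2.dm_gS D c l m _ _ hm (G.hg j)).symm
  rw [h1]
  exact ((a2.dm_cont D c l m).tendsto e).comp G.lim

include a2 S G in
/-- the diagrams at `e` are combinations of limits of members -/
theorem mt_lim {c : ℕ} {v : Ten I c} (hv : v ∈ MT D e c) :
    v ∈ Submodule.span ℂ {v : Ten I c | ∃ u, At c u ∧ Tendsto (fun j => gT (g j) u) F (𝓝 v)} := by
  refine Submodule.span_mono ?_ hv
  rintro _ ⟨l, m, hm, rfl⟩
  exact ⟨_, dm_mem S G.mem c l hm, dm_lim a2 G c l m hm⟩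

include a1 a2 S G in
theorem jj_MT {c : ℕ} {v : Ten I c} (hv : v ∈ MT D e c) : jT D (jT D v) = v := by
  have := G.ne
  have h := mt_lim a2 S G hv
  clear hv
  induction h using Submodule.span_induction with
  | mem v hv =>
    obtain ⟨u, hu, hlu⟩ := hv
    exact jj_lim a1 G.hg (S.even c u hu) hlu
  | zero => rw [jT_zero a1, jT_zero a1]
  | add x y _ _ hx hy => rw [a1.jT_add, a1.jT_add, hx, hy]
  | smul a x _ hx => rw [a1.jT_smul, a1.jT_smul, hx, Complex.conj_conj]

include a1 G in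
/-- limits of real combinations of members, in the lengths of the tuple -/
theorem span_lim (i : ι) {u' : Ten I (len i)}
    (hu : u' ∈ Submodule.span ℝ {x : Ten I (len i) | At (len i) x}) :
    ∃ v ∈ MT D e (len i), Tendsto (fun j => gT (g j) u') F (𝓝 v) := by
  induction hu using Submodule.span_induction with
  | mem u hu =>
    obtain ⟨v, h1, h2, _⟩ := G.full i u hu
    exact ⟨v, h1, h2⟩
  | zero =>
    refine ⟨0, zero_mem _, ?_⟩
    have : (fun j => gT (g j) (0 : Ten I (len i))) = fun _ => 0 := by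
      funext j
      exact YPi.gT_zero a1 _
    rw [this]
    exact tendsto_const_nhds
  | add x y _ _ hx hy =>
    obtain ⟨x', h1, h2⟩ := hx
    obtain ⟨y', h3, h4⟩ := hy
    refine ⟨x' + y', add_mem h1 h3, ?_⟩
    have : (fun j => gT (g j) (x + y)) = fun j => gT (g j) x + gT (g j) y := by
      funext j
      exact a1.gT_add _ _ _
    rw [this]
    exact h2.add h4
  | smul c x _ hx =>
    obtain ⟨x', h1, h2⟩ := hx
    refine ⟨(c : ℂ) • x', Submodule.smul_mem _ _ h1, ?_⟩
    have : (fun j => gT (g j) (c • x)) = fun j => (c : ℂ) • gT (g j) x := by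
      funext j
      rw [real_smul]
      exact a1.gT_smul _ _ _
    rw [this]
    exact h2.const_smul _

include a1 a2 S G in
/-- `J₀` preserves the diagrams at `e`, in the lengths of the tuple -/
theorem jst_len (i : ι) {v : Ten I (len i)} (hv : v ∈ MT D e (len i)) :
    jT D v ∈ MT D e (len i) := by
  have := G.ne
  have h := mt_lim a2 S G hv
  clear hv
  induction h using Submodule.span_induction with
  | mem v hv =>
    obtain ⟨u, hu, hlu⟩ := hv
    obtain ⟨v', h1, h2, h3, u', h4, h5⟩ := G.full i u hu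
    obtain rfl := tendsto_nhds_unique h2 hlu
    obtain ⟨v'', h6, h7⟩ := span_lim a1 G i h4
    rw [h3, tendsto_nhds_unique h5 h7]
    exact h6
  | zero => rw [jT_zero a1]; exact zero_mem _
  | add x y hx' hy' hx hy => 
    rw [a1.jT_add]
    exact add_mem hx hy
  | smul a x _ hx =>
    rw [a1.jT_smul]
    exact Submodule.smul_mem _ _ hx

include a1 in
/-- the hermitian form is definite -/
theorem hT_zero {L : ℕ} {u : Ten I L} (h : hT u u = 0) : u = 0 := by
  rw [a1.hT_self] at h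
  have h4 : (∑ x, ‖u x‖ ^ 2 : ℝ) = 0 := by exact_mod_cast h
  funext x
  have h6 := (Finset.sum_eq_zero_iff_of_nonneg (fun x _ => by positivity)).1 h4 x
    (Finset.mem_univ x)
  exact norm_eq_zero.1 (pow_eq_zero_iff two_ne_zero |>.1 h6)

include a1 a2 S G in
theorem nd (i : ι) : NdAt D e (len i) := by
  intro u hu hne
  refine ⟨jT D u, jst_len a1 a2 S G i hu, fun h => hne ?_⟩
  rw [a1.psiT_jT] at h
  exact hT_zero a1 h

include G in
theorem unit_e : ∃ i, len i = 0 ∧ ∀ w, e i w = 1 := by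
  have := G.ne
  obtain ⟨i, h0, h1⟩ := G.unit
  refine ⟨i, h0, fun w => ?_⟩
  have h2 : Tendsto (fun j => gS (g j) T i) F (𝓝 (e i)) := (tendsto_pi_nhds.mp G.lim) i
  have h3 : (fun j => gS (g j) T i) = fun _ => T i := by
    funext j
    exact XY.gT_zero_len h0 (g j) (T i)
  rw [h3] at h2
  rw [← tendsto_nhds_unique tendsto_const_nhds h2]
  exact h1 w

include a1 a2 S G in
/-- tensors fixed by the stabiliser of `e` in the group are diagrams at `e` -/
theorem of_fix (hX : XStatement) {c : ℕ} {v : Ten I c}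
    (h : ∀ x, IsG D x → gS x e = e → gT x v = v) : v ∈ MT D e c := by
  obtain ⟨x, _, hx⟩ := hX D e (nd a1 a2 S G) (unit_e G)
  exact (hx c v h).1

include a1 a2 in
theorem fix_of {c : ℕ} {v : Ten I c} (hv : v ∈ MT D e c) {x : Matrix I I ℂ} (hx : IsG D x)
    (h : gS x e = e) : gT x v = v :=
  YPi.MT_fix a1 a2 hv hx h

include a1 a2 S G in
theorem e_mem (hX : XStatement) (i : ι) : e i ∈ MT D e (len i) :=
  of_fix a1 a2 S G hX fun x _ h => congrFun h i

/-- `ψ` is nondegenerate -/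
theorem psi_inj {L : ℕ} {u v : Ten I L} (h : ∀ a, psiT D a u = psiT D a v) : u = v := by
  classical
  funext w
  have h1 := h (Pi.single (D.τ ∘ w) 1)
  have hτ : D.τ ∘ (D.τ ∘ w) = w := by
    funext i
    exact D.τ_τ (w i)
  have h2 : ∀ v : Ten I L, psiT D (Pi.single (D.τ ∘ w) 1) v = sg D (D.τ ∘ w) * v w := by
    intro v
    rw [psiT, Finset.sum_eq_single (D.τ ∘ w)]
    · rw [Pi.single_eq_same, one_mul, hτ]
    · intro w' _ hw'
      rw [Pi.single_eq_of_ne hw', zero_mul, mul_zero]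
    · intro h
      exact absurd (Finset.mem_univ _) h
  rw [h2, h2] at h1
  refine mul_left_cancel₀ ?_ h1
  unfold sg
  refine Finset.prod_ne_zero_iff.2 fun i _ => ?_
  rcases D.s_val ((D.τ ∘ w) i) with h3 | h3 <;> rw [h3] <;> norm_num

include a1 in
/-- `J₀ g = (gᴴ)⁻¹ J₀` -/
theorem jT_gT' {x : Matrix I I ℂ} (hx : IsG D x) {L : ℕ} (u : Ten I L) :
    jT D (gT x u) = gT (xᴴ)⁻¹ (jT D u) := by
  have hxa : IsG D xᴴ := Car.isG_adj D hx
  refine psi_inj (D := D) fun a => ?_
  rw [a1.psiT_jT]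
  have h1 : hT (gT xᴴ a) u = hT a (gT x u) := by
    rw [a1.hT_gT, Matrix.conjTranspose_conjTranspose]
  rw [← h1, ← a1.psiT_jT D, ← a1.psiT_gT D xᴴ a _ hxa, XY.gT_inv a1 hxa]

include a1 a2 S G in
/-- `J₀` preserves the diagrams at `e`, in all lengths -/
theorem jst (hX : XStatement) {c : ℕ} {v : Ten I c} (hv : v ∈ MT D e c) :
    jT D v ∈ MT D e c := by
  refine of_fix a1 a2 S G hX fun x hx h => ?_
  have hxa : IsG D xᴴ := Car.isG_adj D hx
  have hxi : IsG D (xᴴ)⁻¹ := (a1.G_inv D _ hxa).1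
  have h1 : ((xᴴ)⁻¹ᴴ)⁻¹ = x := by
    rw [Matrix.conjTranspose_nonsing_inv, Matrix.conjTranspose_conjTranspose]
    exact Matrix.nonsing_inv_nonsing_inv _ (by
      have := (a1.G_inv D x hx).2.1
      exact (Matrix.isUnit_iff_isUnit_det x).1 ⟨⟨x, x⁻¹, this, (a1.G_inv D x hx).2.2⟩, rfl⟩)
  have h2 : gS (xᴴ)⁻¹ e = e := by
    funext i
    have h3 : gT x (jT D (e i)) = jT D (e i) :=
      fix_of a1 a2 (jst_len a1 a2 S G i (e_mem a1 a2 S G hX i)) hx h
    have h4 : jT D (gT (xᴴ)⁻¹ (e i)) = jT D (e i) := by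
      rw [jT_gT' a1 hxi, h1, h3]
    have h5 := congrArg (jT D) h4
    have h6 : jT D (jT D (e i)) = e i := jj_MT a1 a2 S G (e_mem a1 a2 S G hX i)
    rw [h6, XY.jT_jT_gT D _ hxi, h6] at h5
    exact h5
  have h3 : gT (xᴴ)⁻¹ v = v := fix_of a1 a2 hv hxi h2
  have h4 := jT_gT' a1 hxi v
  rw [h1, h3] at h4
  exact h4.symm

include a1 in
/-- a linear map that fixes the real and the imaginary part of a tensor fixes the tensor -/
theorem fix_parts {x : Matrix I I ℂ} {c : ℕ} {v : Ten I c}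
    (h1 : gT x (v + jT D v) = v + jT D v)
    (h2 : gT x (Complex.I • (v - jT D v)) = Complex.I • (v - jT D v)) : gT x v = v := by
  have h3 : gT x (v - jT D v) = v - jT D v := by
    rw [a1.gT_smul] at h2
    exact smul_right_injective _ Complex.I_ne_zero h2
  have h4 : gT x (v + jT D v) + gT x (v - jT D v) = (2 : ℂ) • gT x v := by
    rw [← a1.gT_add, ← a1.gT_smul]
    congr 1
    rw [two_smul]
    abel
  rw [h1, h3] at h4
  have h5 : (2 : ℂ) • v = (2 : ℂ) • gT x v := by
    rw [← h4, two_smul]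
    abel
  exact (smul_right_injective _ two_ne_zero h5).symm

include a1 a2 S G in
/-- tensors fixed by the unitary stabiliser of `e` are diagrams at `e` -/
theorem of_kfix (hX : XStatement) (ffb : FfbStatement) {c : ℕ} {v : Ten I c}
    (h : ∀ x, IsK D x → gS x e = e → gT x v = v) : v ∈ MT D e c := by
  classical
  let lb : Option (ι ⊕ ι) → ℕ := fun i => match i with
    | none => 0
    | some (.inl i) => len i
    | some (.inr i) => len i
  let b : Tup I lb := fun i => match i with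
    | none => fun _ => 1
    | some (.inl i) => e i + jT D (e i)
    | some (.inr i) => Complex.I • (e i - jT D (e i))
  have hjj : ∀ i, jT D (jT D (e i)) = e i := fun i => jj_MT a1 a2 S G (e_mem a1 a2 S G hX i)
  have hb : IsBase D b := by
    refine ⟨?_, none, rfl, fun _ => rfl⟩
    funext i
    match i with
    | none => exact ZAbs.jT_one
    | some (.inl i) =>
      show jT D (e i + jT D (e i)) = e i + jT D (e i)
      rw [a1.jT_add, hjj, add_comm]
    | some (.inr i) =>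
      show jT D (Complex.I • (e i - jT D (e i))) = Complex.I • (e i - jT D (e i))
      have h1 : e i - jT D (e i) = e i + (-1 : ℂ) • jT D (e i) := by
        rw [neg_one_smul]
        abel
      rw [h1, a1.jT_smul, a1.jT_add, a1.jT_smul, hjj, Complex.conj_I, map_neg, map_one, smul_add,
        smul_add, smul_smul, smul_smul, add_comm]
      congr 2 <;> ring
  have hbe : ∀ x, gS x b = b → gS x e = e := by
    intro x hx
    funext i
    exact fix_parts a1 (congrFun hx (some (.inl i))) (congrFun hx (some (.inr i)))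
  have h1 : v ∈ MT D b c := ffb D b hb c v fun x hx => h x hx.1 (hbe x hx.2)
  refine of_fix a1 a2 S G hX fun x hx hxe => YPi.MT_fix a1 a2 h1 hx ?_
  have hxi : ∀ i, gT x (e i) = e i := fun i => congrFun hxe i
  have hxj : ∀ i, gT x (jT D (e i)) = jT D (e i) := fun i =>
    fix_of a1 a2 (jst_len a1 a2 S G i (e_mem a1 a2 S G hX i)) hx hxe
  funext i
  match i with
  | none => exact XY.gT_zero_len rfl _ _
  | some (.inl i) =>
    show gT x (e i + jT D (e i)) = e i + jT D (e i)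
    rw [a1.gT_add, hxi, hxj]
  | some (.inr i) =>
    show gT x (Complex.I • (e i - jT D (e i))) = Complex.I • (e i - jT D (e i))
    rw [a1.gT_smul, L12.gT_sub a1, hxi, hxj]

include a2 G in
/-- the invariants at `e` and at `T` are equal -/
theorem dm_zero (l : List ι) (m : Ten I ((l.map len).sum + 0)) (hm : IsMatch D _ m) :
    dm D 0 l m e = dm D 0 l m T := by
  have := G.ne
  have h1 := dm_lim a2 G 0 l m hm
  have h2 : (fun j => gT (g j) (dm D 0 l m T)) = fun _ => dm D 0 l m T := by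
    funext j
    exact XY.gT_zero_len rfl _ _
  rw [h2] at h1
  exact (tendsto_nhds_unique tendsto_const_nhds h1).symm

include a1 a2 S G in
/-- the limits in two graded forms lie in one orbit -/
theorem same_orbit (cpt : CptStatement) (mn : MinStatement) (clo : CloStatement)
    (hvol : VolStatement) (hpha : PhaStatement) (havg : AvgStatement)
    {At₂ : (L : ℕ) → Ten I L → Prop} (S₂ : ASys D At₂) {F₂ : Filter ℕ}
    {g₂ : ℕ → Matrix I I ℂ} {k₂ : Matrix I I ℂ} {T₂ e₂ : Tup I len}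
    (G₂ : Good D At₂ F₂ g₂ k₂ T₂ e₂) {y : Matrix I I ℂ} (hy : IsG D y) (hT : gS y T₂ = T) :
    ∃ x, IsG D x ∧ gS x e = e₂ := by
  obtain ⟨H⟩ := cpt D
  obtain ⟨s₁, x₁, hmin₁, hne₁, hx₁, hs₁⟩ := XY.orbit a1 cpt mn clo e (nd a1 a2 S G) (unit_e G)
  obtain ⟨s₂, x₂, hmin₂, hne₂, hx₂, hs₂⟩ :=
    XY.orbit a1 cpt mn clo e₂ (nd a1 a2 S₂ G₂) (unit_e G₂)
  have h0 : ∀ (s e : Tup I len) (x : Matrix I I ℂ), IsG D x → gS x s = e → ∀ (l : List ι)
      (m : Ten I ((l.map len).sum + 0)), IsMatch D _ m → dm D 0 l m e = dm D 0 l m s := by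
    intro s e x hx h l m hm
    rw [← h, a2.dm_gS D 0 l m x s hm hx]
    exact XY.gT_zero_len rfl _ _
  obtain ⟨x, hx, hxs⟩ := conj H a1 hvol hpha havg hmin₁ hne₁ hmin₂ hne₂ (by
    intro l m hm
    rw [← h0 s₂ e₂ x₂ hx₂ hs₂ l m hm, ← h0 s₁ e x₁ hx₁ hs₁ l m hm, dm_zero a2 G l m hm,
      dm_zero a2 G₂ l m hm, h0 T₂ T y hy hT l m hm])
  refine ⟨x₂ * x * x₁⁻¹, a1.G_mul D _ _ (a1.G_mul D _ _ hx₂ hx) (a1.G_inv D _ hx₁).1, ?_⟩
  rw [L12.gS_mul a1, L12.gS_mul a1, XY.inv_gS a1 hx₁ hs₁, hxs, hs₂]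

end good

/-! ### Matrices as tensors of length two -/

section mat

variable {I Λ : Type} [Fintype I] [DecidableEq I] [DecidableEq Λ] (D : Dat I Λ)

/-- the tensor of a matrix -/
noncomputable def tq (A : Matrix I I ℂ) : Ten I 2 := fun w => (A * Psi D) (w 0) (w 1)

variable {D}

theorem gT_two (x V : Matrix I I ℂ) :
    gT x (fun w => V (w 0) (w 1) : Ten I 2) = fun w => (x * V * xᵀ) (w 0) (w 1) := by
  funext w
  rw [gT, ← (finTwoArrowEquiv I).symm.sum_comp, Fintype.sum_prod_type, Matrix.mul_apply,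
    Finset.sum_comm]
  refine Finset.sum_congr rfl fun b _ => ?_
  rw [Matrix.mul_apply, Finset.sum_mul]
  refine Finset.sum_congr rfl fun a _ => ?_
  rw [Fin.prod_univ_two, Matrix.transpose_apply]
  simp only [finTwoArrowEquiv_symm_apply, Matrix.cons_val_zero, Matrix.cons_val_one]
  ring

theorem psi_two {x : Matrix I I ℂ} (hx : IsG D x) : x * Psi D * xᵀ = Psi D := by
  have hPP := AL1B.psi_transpose_mul D
  have hPP' := AL1B.psi_mul_transpose D
  have h3 : ((Psi D)ᵀ * xᵀ * Psi D) * x = 1 := by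
    rw [Matrix.mul_assoc, Matrix.mul_assoc, ← Matrix.mul_assoc xᵀ, hx.2, hPP]
  have h4 : x * ((Psi D)ᵀ * xᵀ * Psi D) = 1 := mul_eq_one_comm.mp h3
  have h5 : x * (Psi D)ᵀ * xᵀ = (Psi D)ᵀ := by
    calc x * (Psi D)ᵀ * xᵀ = x * ((Psi D)ᵀ * xᵀ * Psi D) * (Psi D)ᵀ := by
          simp only [Matrix.mul_assoc, hPP', Matrix.mul_one]
      _ = (Psi D)ᵀ := by rw [h4, Matrix.one_mul]
  have h6 := congrArg Matrix.transpose h5
  rw [Matrix.transpose_mul, Matrix.transpose_mul, Matrix.transpose_transpose,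
    Matrix.transpose_transpose, ← Matrix.mul_assoc] at h6
  exact h6

theorem gT_tq (a1 : Alg1) {x : Matrix I I ℂ} (hx : IsG D x) (A : Matrix I I ℂ) :
    gT x (tq D A) = tq D (x * A * x⁻¹) := by
  have h1 := gT_two x (A * Psi D)
  have h2 : x * (A * Psi D) * xᵀ = x * A * x⁻¹ * Psi D := by
    have h3 : Psi D * xᵀ = x⁻¹ * Psi D := by
      calc Psi D * xᵀ = (x⁻¹ * x) * (Psi D * xᵀ) := by
            rw [(a1.G_inv D x hx).2.2, Matrix.one_mul]
        _ = x⁻¹ * (x * Psi D * xᵀ) := by simp only [Matrix.mul_assoc]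
        _ = x⁻¹ * Psi D := by rw [psi_two hx]
    calc x * (A * Psi D) * xᵀ = x * A * (Psi D * xᵀ) := by simp only [Matrix.mul_assoc]
      _ = x * A * x⁻¹ * Psi D := by rw [h3]; simp only [Matrix.mul_assoc]
  rw [h2] at h1
  exact h1

theorem tq_inj {A B : Matrix I I ℂ} (h : tq D A = tq D B) : A = B := by
  have h1 : A * Psi D = B * Psi D := by
    ext i j
    exact congrFun h ![i, j]
  calc A = A * (Psi D * (Psi D)ᵀ) := by rw [AL1B.psi_mul_transpose D, Matrix.mul_one]
    _ = B * (Psi D * (Psi D)ᵀ) := by rw [← Matrix.mul_assoc, h1, Matrix.mul_assoc]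
    _ = B := by rw [AL1B.psi_mul_transpose D, Matrix.mul_one]

theorem tq_apply (A : Matrix I I ℂ) (i l : I) : tq D A ![i, D.τ l] = A i l * D.s l := by
  show (A * Psi D) i (D.τ l) = A i l * D.s l
  rw [Matrix.mul_apply, Finset.sum_eq_single l]
  · rw [Psi, Matrix.of_apply, if_pos rfl]
  · intro l' _ hl
    rw [Psi, Matrix.of_apply, if_neg, mul_zero]
    intro h
    apply hl
    have h1 := congrArg D.τ h
    rwa [D.τ_τ, D.τ_τ, eq_comm] at h1
  · intro h
    exact absurd (Finset.mem_univ _) h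

theorem s_ne (i : I) : D.s i ≠ 0 := by
  rcases D.s_val i with h | h <;> rw [h] <;> norm_num

variable (D) in
open Classical in
/-- the part of a tensor of length two on the pairs of equal letters in `Λ₀` -/
noncomputable def prE (Λ₀ : Set Λ) (u : Ten I 2) : Ten I 2 :=
  fun w => if D.typ (w 0) = D.typ (w 1) ∧ D.typ (w 0) ∈ Λ₀ then u w else 0

theorem prE_off {Λ₀ : Set Λ} (u : Ten I 2) {w : Fin 2 → I}
    (h : ¬ (D.typ (w 0) = D.typ (w 1) ∧ D.typ (w 0) ∈ Λ₀)) : prE D Λ₀ u w = 0 := if_neg h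

theorem prE_on {Λ₀ : Set Λ} (u : Ten I 2) {w : Fin 2 → I}
    (h : D.typ (w 0) = D.typ (w 1) ∧ D.typ (w 0) ∈ Λ₀) : prE D Λ₀ u w = u w := if_pos h

theorem gT_prE {Λ₀ : Set Λ} {x : Matrix I I ℂ} (hx : IsG D x) (u : Ten I 2) :
    gT x (prE D Λ₀ u) = prE D Λ₀ (gT x u) := by
  funext w
  by_cases ho : D.typ (w 0) = D.typ (w 1) ∧ D.typ (w 0) ∈ Λ₀
  · rw [prE_on _ ho, gT, gT]
    refine Finset.sum_congr rfl fun w' _ => ?_
    by_cases h : ∀ i, D.typ (w i) = D.typ (w' i)
    · rw [prE_on]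
      rw [← h 0, ← h 1]
      exact ho
    · push Not at h
      obtain ⟨i, hi⟩ := h
      rw [Finset.prod_eq_zero (Finset.mem_univ i) (hx.1 _ _ hi), zero_mul, zero_mul]
  · rw [prE_off _ ho, gT]
    refine Finset.sum_eq_zero fun w' _ => ?_
    by_cases h : ∀ i, D.typ (w i) = D.typ (w' i)
    · rw [prE_off, mul_zero]
      rw [← h 0, ← h 1]
      exact ho
    · push Not at h
      obtain ⟨i, hi⟩ := h
      rw [Finset.prod_eq_zero (Finset.mem_univ i) (hx.1 _ _ hi), zero_mul]

theorem prE_add {Λ₀ : Set Λ} (u v : Ten I 2) : prE D Λ₀ (u + v) = prE D Λ₀ u + prE D Λ₀ v := by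
  funext w
  by_cases ho : D.typ (w 0) = D.typ (w 1) ∧ D.typ (w 0) ∈ Λ₀
  · rw [Pi.add_apply, prE_on _ ho, prE_on _ ho, prE_on _ ho, Pi.add_apply]
  · rw [Pi.add_apply, prE_off _ ho, prE_off _ ho, prE_off _ ho, add_zero]

theorem prE_smul {Λ₀ : Set Λ} (c : ℂ) (u : Ten I 2) : prE D Λ₀ (c • u) = c • prE D Λ₀ u := by
  funext w
  by_cases ho : D.typ (w 0) = D.typ (w 1) ∧ D.typ (w 0) ∈ Λ₀
  · rw [Pi.smul_apply, prE_on _ ho, prE_on _ ho, Pi.smul_apply]
  · rw [Pi.smul_apply, prE_off _ ho, prE_off _ ho, smul_zero]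

theorem prE_lim {Λ₀ : Set Λ} {F : Filter ℕ} {x : ℕ → Ten I 2} {v : Ten I 2}
    (h : Tendsto x F (𝓝 v)) : Tendsto (fun j => prE D Λ₀ (x j)) F (𝓝 (prE D Λ₀ v)) := by
  rw [tendsto_pi_nhds] at h ⊢
  intro w
  by_cases ho : D.typ (w 0) = D.typ (w 1) ∧ D.typ (w 0) ∈ Λ₀
  · simp only [prE_on _ ho]
    exact h w
  · simp only [prE_off _ ho]
    exact tendsto_const_nhds

/-- contraction with two invariant tensors is the projection to a pair of letters -/
theorem cont_om (u : Ten I 2) (α : Λ) (w : Fin 2 → I) :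
    cont D u (permT (Equiv.swap (1 : Fin (2 + 2)) 2) (outer (om D α) (om D α)) : Ten I (2 + 2)) w
      = if D.typ (w 0) = α ∧ D.typ (w 1) = α then u w else 0 := by
  have h0 : ∀ w' : Fin 2 → I,
      (permT (Equiv.swap (1 : Fin (2 + 2)) 2) (outer (om D α) (om D α)) : Ten I (2 + 2))
        (Fin.append (D.τ ∘ w') w) = om D α ![D.τ (w' 0), w 0] * om D α ![D.τ (w' 1), w 1] := by
    intro w'
    have e1 : (fun i : Fin 2 => (Fin.append (D.τ ∘ w') w ∘ (Equiv.swap (1 : Fin (2 + 2)) 2))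
        (Fin.castAdd 2 i)) = ![D.τ (w' 0), w 0] := by
      funext i
      fin_cases i <;> rfl
    have e2 : (fun i : Fin 2 => (Fin.append (D.τ ∘ w') w ∘ (Equiv.swap (1 : Fin (2 + 2)) 2))
        (Fin.natAdd 2 i)) = ![D.τ (w' 1), w 1] := by
      funext i
      fin_cases i <;> rfl
    rw [permT, outer, e1, e2]
  have h1 : ∀ a b : I, om D α ![D.τ a, b] = if D.typ b = α ∧ b = a then D.s (D.τ a) else 0 := by
    intro a b
    have e : om D α ![D.τ a, b]
        = if D.typ (D.τ a) = α ∧ b = D.τ (D.τ a) then D.s (D.τ a) else 0 := rfl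
    rw [e, D.τ_τ, D.typ_τ]
    by_cases h : b = a
    · subst h
      rfl
    · rw [if_neg fun h' => h h'.2, if_neg fun h' => h h'.2]
  rw [cont, Finset.sum_eq_single w]
  · rw [h0, h1, h1]
    by_cases h2 : D.typ (w 0) = α ∧ D.typ (w 1) = α
    · rw [if_pos h2, if_pos ⟨h2.1, rfl⟩, if_pos ⟨h2.2, rfl⟩, sg, Fin.prod_univ_two]
      have h3 : (D.s (w 0) * D.s (D.τ (w 0))) * (D.s (w 1) * D.s (D.τ (w 1))) = 1 := by
        rw [XY.s_typ D (h2.1.trans h2.2.symm)]
        by_cases ho : D.odd (D.typ (w 1))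
        · rw [(XY.s_mul D _).2 ho]; norm_num
        · rw [(XY.s_mul D _).1 ho]; norm_num
      linear_combination u w * h3
    · rw [if_neg h2]
      by_cases h3 : D.typ (w 0) = α
      · rw [if_neg (c := D.typ (w 1) = α ∧ w 1 = w 1) fun h' => h2 ⟨h3, h'.1⟩]
        ring
      · rw [if_neg (c := D.typ (w 0) = α ∧ w 0 = w 0) fun h' => h3 h'.1]
        ring
  · intro w' _ hne
    rw [h0, h1, h1]
    by_cases h2 : w 0 = w' 0
    · have h3 : w 1 ≠ w' 1 := by
        intro h3
        apply hne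
        funext i
        fin_cases i
        · exact h2.symm
        · exact h3.symm
      rw [if_neg (c := D.typ (w 1) = α ∧ w 1 = w' 1) fun h' => h3 h'.2]
      ring
    · rw [if_neg (c := D.typ (w 0) = α ∧ w 0 = w' 0) fun h' => h2 h'.2]
      ring
  · intro h
    exact absurd (Finset.mem_univ _) h

theorem prE_mem {At : (L : ℕ) → Ten I L → Prop} (S : ASys D At) (Λ₀ : Set Λ) {u : Ten I 2}
    (hu : At 2 u) : At 2 (prE D Λ₀ u) := by
  classical
  have h1 : ∀ s : Finset Λ, At 2 (fun w => ∑ α ∈ s, cont D u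
      (permT (Equiv.swap (1 : Fin (2 + 2)) 2) (outer (om D α) (om D α)) : Ten I (2 + 2)) w) := by
    intro s
    induction s using Finset.induction_on with
    | empty =>
      simp only [Finset.sum_empty]
      exact S.zero 2
    | insert a s ha ih =>
      have h2 := S.add 2 _ _ (S.cont 2 2 u _ hu
        (S.perm _ (Equiv.swap (1 : Fin (2 + 2)) 2) _ (S.outer 2 2 _ _ (S.om a) (S.om a)))) ih
      have h3 : (fun w => ∑ α ∈ insert a s, cont D u (permT (Equiv.swap (1 : Fin (2 + 2)) 2)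
          (outer (om D α) (om D α)) : Ten I (2 + 2)) w) = cont D u (permT (Equiv.swap
          (1 : Fin (2 + 2)) 2) (outer (om D a) (om D a)) : Ten I (2 + 2)) + fun w => ∑ α ∈ s,
          cont D u (permT (Equiv.swap (1 : Fin (2 + 2)) 2) (outer (om D α) (om D α)) :
            Ten I (2 + 2)) w := by
        funext w
        rw [Finset.sum_insert ha, Pi.add_apply]
      rw [h3]
      exact h2
  have h2 : prE D Λ₀ u = fun w => ∑ α ∈ (Finset.univ.image D.typ).filter (· ∈ Λ₀), cont D u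
      (permT (Equiv.swap (1 : Fin (2 + 2)) 2) (outer (om D α) (om D α)) : Ten I (2 + 2)) w := by
    funext w
    simp only [cont_om]
    by_cases ho : D.typ (w 0) = D.typ (w 1) ∧ D.typ (w 0) ∈ Λ₀
    · rw [prE_on _ ho, Finset.sum_eq_single (D.typ (w 0))]
      · rw [if_pos ⟨rfl, ho.1.symm⟩]
      · intro α _ hα
        rw [if_neg fun h => hα h.1.symm]
      · intro h
        exact absurd (Finset.mem_filter.2 ⟨Finset.mem_image_of_mem _ (Finset.mem_univ _), ho.2⟩) h
    · rw [prE_off _ ho]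
      symm
      refine Finset.sum_eq_zero fun α hα => if_neg fun h => ho ⟨h.1.trans h.2.symm, ?_⟩
      rw [h.1]
      exact (Finset.mem_filter.1 hα).2
  rw [h2]
  exact h1 _

end mat

/-! ### The element `p` -/

section core

open Qps

variable {I Λ ι : Type} [Fintype I] [DecidableEq I] [DecidableEq Λ] [Fintype ι] {len : ι → ℕ}
  {D : Dat I Λ} {At At₂ : (L : ℕ) → Ten I L → Prop} {F F₂ : Filter ℕ} {g g₂ : ℕ → Matrix I I ℂ}
  {k k₂ : Matrix I I ℂ} {T e T₂ e₂ : Tup I len}

/-- the element of the group that carries `e` to `e₂` can be chosen such that `wᴴ w` is a value of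
a diagram at `e` -/
theorem core (a1 : Alg1) (a2 : Alg2) (cpt : CptStatement) (mn : MinStatement)
    (clo : CloStatement) (hvol : VolStatement) (hpha : PhaStatement) (havg : AvgStatement)
    (hX : XStatement) (ffb : FfbStatement) (hcar : CarStatement) (S : ASys D At)
    (G : Good D At F g k T e) (S₂ : ASys D At₂) (G₂ : Good D At₂ F₂ g₂ k₂ T₂ e₂)
    {y : Matrix I I ℂ} (hy : IsG D y) (hT : gS y T₂ = T) :
    ∃ w, IsG D w ∧ gS w e = e₂ ∧ tq D (wᴴ * w) ∈ MT D e 2 := by
  obtain ⟨z, hz, hze⟩ := same_orbit a1 a2 S G cpt mn clo hvol hpha havg S₂ G₂ hy hT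
  have hzi := a1.G_inv D z hz
  have hzu : IsUnit z.det := (Matrix.isUnit_iff_isUnit_det z).1 ⟨⟨z, z⁻¹, hzi.2.1, hzi.2.2⟩, rfl⟩
  have hN : (zᴴ * z).PosDef := by
    have h1 : IsUnit (zᴴ).det := by
      rw [Matrix.det_conjTranspose]
      exact hzu.star
    have h2 := Car.posDef_mul_adj h1
    rwa [Matrix.conjTranspose_conjTranspose] at h2
  obtain ⟨x, hx, hxS, hxf⟩ := hcar D (fun L u => u ∈ MT D e L ∧ jT D u = u)
    (fun L u hu => hu.2) (zᴴ * z) hN
  have hxi := a1.G_inv D x hx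
  -- `x` fixes `e`
  have hxe : gS x e = e := by
    funext i
    have h1 := e_mem a1 a2 S G hX i
    have h2 := jst a1 a2 S G hX h1
    have h3 : jT D (jT D (e i)) = e i := jj_MT a1 a2 S G h1
    refine fix_parts (D := D) a1 (hxS _ _ ⟨add_mem h1 h2, ?_⟩)
      (hxS _ _ ⟨Submodule.smul_mem _ _ (sub_mem h1 h2), ?_⟩)
    · rw [a1.jT_add, h3, add_comm]
    · have h4 : e i - jT D (e i) = e i + (-1 : ℂ) • jT D (e i) := by
        rw [neg_one_smul]
        abel
      rw [h4, a1.jT_smul, a1.jT_add, a1.jT_smul, h3, Complex.conj_I, map_neg, map_one, smul_add,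
        smul_add, smul_smul, smul_smul, add_comm]
      congr 2 <;> ring
  have hw : IsG D (z * x) := a1.G_mul D _ _ hz hx
  have hwi := a1.G_inv D _ hw
  have hwe : gS (z * x) e = e₂ := by rw [L12.gS_mul a1, hxe, hze]
  obtain ⟨w, hwd⟩ : ∃ w, w = z * x := ⟨_, rfl⟩
  rw [← hwd] at hw hwi hwe
  refine ⟨w, hw, hwe, ?_⟩
  -- `w wᴴ` commutes with the unitary stabiliser of `e₂`
  have hq : tq D (w * wᴴ) ∈ MT D e₂ 2 := by
    refine of_kfix a1 a2 S₂ G₂ hX ffb fun u hu hue => ?_
    have hui := a1.G_inv D u hu.1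
    have hf : IsG D (z⁻¹ * u * z) := a1.G_mul D _ _ (a1.G_mul D _ _ hzi.1 hu.1) hz
    have hfe : gS (z⁻¹ * u * z) e = e := by
      rw [L12.gS_mul a1, L12.gS_mul a1, hze, hue]
      exact XY.inv_gS a1 hz hze
    have hr := hxf (z⁻¹ * u * z) hf (fun L v hv => fix_of a1 a2 hv.1 hf hfe) (by
      have h1 : z * (z⁻¹ * u * z) = u * z := by
        rw [← Matrix.mul_assoc, ← Matrix.mul_assoc, hzi.2.1, Matrix.one_mul]
      calc (z⁻¹ * u * z)ᴴ * (zᴴ * z) * (z⁻¹ * u * z)
          = (z * (z⁻¹ * u * z))ᴴ * (z * (z⁻¹ * u * z)) := by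
            rw [Matrix.conjTranspose_mul z]; simp only [Matrix.mul_assoc]
        _ = zᴴ * (uᴴ * u) * z := by
            rw [h1, Matrix.conjTranspose_mul]; simp only [Matrix.mul_assoc]
        _ = zᴴ * z := by rw [hu.2, Matrix.mul_one])
    obtain ⟨r, hrd⟩ : ∃ r, r = x⁻¹ * (z⁻¹ * u * z) * x := ⟨_, rfl⟩
    rw [← hrd] at hr
    have h1 : w * r = u * w := by
      calc w * r = z * (x * x⁻¹) * (z⁻¹ * u * z) * x := by
            rw [hwd, hrd]; simp only [Matrix.mul_assoc]
        _ = (z * z⁻¹) * u * z * x := by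
            rw [hxi.2.1, Matrix.mul_one]; simp only [Matrix.mul_assoc]
        _ = u * w := by rw [hzi.2.1, Matrix.one_mul, hwd, Matrix.mul_assoc]
    have h2 : r * rᴴ = 1 := mul_eq_one_comm.mp hr
    have h3 : u * (w * wᴴ) * uᴴ = w * wᴴ := by
      calc u * (w * wᴴ) * uᴴ = (u * w) * (u * w)ᴴ := by
            rw [Matrix.conjTranspose_mul u w]; simp only [Matrix.mul_assoc]
        _ = w * (r * rᴴ) * wᴴ := by
            rw [← h1, Matrix.conjTranspose_mul w r]; simp only [Matrix.mul_assoc]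
        _ = w * wᴴ := by rw [h2, Matrix.mul_one]
    have h4 : u⁻¹ = uᴴ := Matrix.inv_eq_left_inv hu.2
    rw [gT_tq a1 hu.1, h4, h3]
  -- transport
  have h1 : gT w⁻¹ (tq D (w * wᴴ)) = tq D (wᴴ * w) := by
    rw [gT_tq a1 hwi.1]
    congr 1
    have h2 : w⁻¹⁻¹ = w := Matrix.inv_eq_left_inv hwi.2.1
    rw [h2, ← Matrix.mul_assoc, hwi.2.2, Matrix.one_mul]
  rw [← h1]
  exact XY.gT_MT a1 a2 hwi.1 (XY.inv_gS a1 hw hwe) hq

end core

/-! ### Spanning tuples -/

section span

open Qps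

variable {I Λ : Type} [Fintype I] [DecidableEq I] [DecidableEq Λ]

/-- the components of a tuple are values of diagrams -/
theorem self_mem {ι : Type} [Fintype ι] {len : ι → ℕ} {D : Dat I Λ} (a1 : Alg1)
    (cpt : CptStatement) (havg : AvgStatement) (s : Tup I len) (i : ι) :
    s i ∈ MT D s (len i) := by
  obtain ⟨H⟩ := cpt D
  have h1 := havg H (len i) (fun s : Tup I len => s i)
    ⟨fun w => MvPolynomial.X ⟨i, w⟩, fun s w => by simp⟩
  have h2 : (fun s : Tup I len => ∫ k, gT (H.mat k) (gS (H.mat k⁻¹) s i) ∂H.μ)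
      = fun s => s i := by
    funext s
    have h3 : ∀ k : H.K, gT (H.mat k) (gS (H.mat k⁻¹) s i) = s i := fun k =>
      congrFun (L12.gS_inv H a1 k s) i
    simp only [h3]
    rw [MeasureTheory.integral_const]
    simp
  rw [h2] at h1
  exact L12.DM_val h1 s

/-- a tuple of members that contains the unit and spans the members of length at most `N` -/
structure Spn {ι : Type} [Fintype ι] {len : ι → ℕ} (At : (L : ℕ) → Ten I L → Prop) (N : ℕ)
    (T : Tup I len) : Prop where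
  mem : ∀ i, At (len i) (T i)
  unit : ∃ i, len i = 0 ∧ ∀ w, T i w = 1
  le : ∀ i, len i ≤ N
  span : ∀ M : ∀ L, Submodule ℂ (Ten I L), (∀ i, T i ∈ M (len i)) →
    ∀ L ≤ N, ∀ u, At L u → u ∈ M L

theorem exists_spn {D : Dat I Λ} {At : (L : ℕ) → Ten I L → Prop} (S : ASys D At) (N : ℕ) :
    ∃ (ι : Type) (_ : Fintype ι) (len : ι → ℕ) (T : Tup I len), Spn At N T := by
  classical
  have hB : ∀ L : ℕ, ∃ B : Set (Ten I L), B.Finite ∧ (∀ x ∈ B, At L x) ∧
      ∀ u, At L u → u ∈ Submodule.span ℂ B := by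
    intro L
    obtain ⟨B, hB1, hB2, hB3⟩ := exists_linearIndependent ℂ {u : Ten I L | At L u}
    exact ⟨B, hB3.setFinite, fun x hx => hB1 hx, fun u hu => by
      rw [hB2]; exact Submodule.subset_span hu⟩
  choose B hBf hBA hBs using hB
  have : ∀ L, Fintype (B L) := fun L => (hBf L).fintype
  let ι : Type := Option (Σ L : Fin (N + 1), B L)
  let len : ι → ℕ := fun i => i.elim 0 (fun x => x.1)
  let t : Tup I len := fun i => match i with
    | none => fun _ => 1
    | some x => x.2.1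
  refine ⟨ι, inferInstance, len, t, ?_, ⟨none, rfl, fun _ => rfl⟩, ?_, ?_⟩
  · intro i
    match i with
    | none => exact S.one
    | some x => exact hBA _ _ x.2.2
  · intro i
    match i with
    | none => exact Nat.zero_le N
    | some x => exact Nat.le_of_lt_succ x.1.2
  · intro M hM L hL u hu
    refine (Submodule.span_le.2 ?_) (hBs L u hu)
    intro x hx
    exact hM (some ⟨⟨L, Nat.lt_succ_of_le hL⟩, ⟨x, hx⟩⟩ : ι)

variable {ι : Type} [Fintype ι] {len : ι → ℕ} {D : Dat I Λ} {At : (L : ℕ) → Ten I L → Prop}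
  {N : ℕ} {T : Tup I len}

/-- transport of a spanning tuple -/
theorem Spn.transport (a1 : Alg1) (P : Spn At N T) {y : Matrix I I ℂ} (hy : IsG D y) :
    Spn (fun L v => At L (gT y v)) N (gS y⁻¹ T) where
  mem i := by
    show At (len i) (gT y (gT y⁻¹ (T i)))
    rw [XY.gT_inv a1 hy]
    exact P.mem i
  unit := by
    obtain ⟨i, h0, h1⟩ := P.unit
    refine ⟨i, h0, fun w => ?_⟩
    show gT y⁻¹ (T i) w = 1
    rw [XY.gT_zero_len h0]
    exact h1 w
  le := P.le
  span M hM L hL u hu := by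
    let f : ∀ L, Ten I L →ₗ[ℂ] Ten I L := fun L =>
      { toFun := fun v => gT y⁻¹ v
        map_add' := fun v v' => a1.gT_add _ _ _
        map_smul' := fun c v => a1.gT_smul _ _ _ }
    have h1 := P.span (fun L => (M L).comap (f L)) (fun i => hM i) L hL (gT y u) hu
    have h2 : gT y⁻¹ (gT y u) ∈ M L := h1
    rwa [XY.inv_gT a1 hy] at h2

/-- transport of a rational system -/
theorem asys_transport (a1 : Alg1) (a2 : Alg2) (S : ASys D At) {y : Matrix I I ℂ}
    (hy : IsG D y) : ASys D fun L v => At L (gT y v) where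
  zero L := by
    rw [YPi.gT_zero a1]
    exact S.zero L
  add L u v hu hv := by
    rw [a1.gT_add]
    exact S.add L _ _ hu hv
  qsmul L q u hu := by
    rw [a1.gT_smul]
    exact S.qsmul L q _ hu
  one := by
    rw [XY.gT_zero_len rfl]
    exact S.one
  rat u hu := by
    rw [XY.gT_zero_len rfl] at hu
    exact S.rat u hu
  perm L σ u hu := by
    have h1 := S.perm L σ _ hu
    rwa [← AL2.perm_gT] at h1
  outer p q u v hu hv := by
    rw [a2.outer_gT]
    exact S.outer p q _ _ hu hv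
  cont p c u m hu hm := by
    rw [a2.cont_gT D y u m hy]
    exact S.cont p c _ _ hu hm
  om α := by
    rw [a2.om_gT D y α hy]
    exact S.om α
  even L u hu := by
    have h1 := S.even L _ hu
    rw [XY.jT_jT_gT D y hy] at h1
    have h2 := congrArg (gT y⁻¹) h1
    rwa [XY.inv_gT a1 hy, XY.inv_gT a1 hy] at h2

/-- the tensors whose translates have a limit in `Q` -/
def limSub (a1 : Alg1) (F : Filter ℕ) (g : ℕ → Matrix I I ℂ) {L : ℕ}
    (Q : Submodule ℂ (Ten I L)) : Submodule ℂ (Ten I L) where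
  carrier := {x | ∃ v ∈ Q, Tendsto (fun j => gT (g j) x) F (𝓝 v)}
  add_mem' := by
    rintro x x' ⟨v, h1, h2⟩ ⟨v', h3, h4⟩
    refine ⟨v + v', add_mem h1 h3, ?_⟩
    have : (fun j => gT (g j) (x + x')) = fun j => gT (g j) x + gT (g j) x' := by
      funext j
      exact a1.gT_add _ _ _
    rw [this]
    exact h2.add h4
  zero_mem' := by
    refine ⟨0, zero_mem _, ?_⟩
    have : (fun j => gT (g j) (0 : Ten I L)) = fun _ => 0 := by
      funext j
      exact YPi.gT_zero a1 _
    rw [this]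
    exact tendsto_const_nhds
  smul_mem' := by
    rintro c x ⟨v, h1, h2⟩
    refine ⟨c • v, Submodule.smul_mem _ c h1, ?_⟩
    have : (fun j => gT (g j) (c • x)) = fun j => c • gT (g j) x := by
      funext j
      exact a1.gT_smul _ _ _
    rw [this]
    exact h2.const_smul c

/-- the tensors `x` such that the limits of `x` and `y⁻¹ x` correspond under `w` -/
def relSub (a1 : Alg1) (F F₂ : Filter ℕ) (g g₂ : ℕ → Matrix I I ℂ) (w y : Matrix I I ℂ)
    (L : ℕ) : Submodule ℂ (Ten I L) where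
  carrier := {x | ∃ v, Tendsto (fun j => gT (g j) x) F (𝓝 v) ∧
    Tendsto (fun j => gT (g₂ j) (gT y x)) F₂ (𝓝 (gT w v))}
  add_mem' := by
    rintro x x' ⟨v, h1, h2⟩ ⟨v', h3, h4⟩
    refine ⟨v + v', ?_, ?_⟩
    · have : (fun j => gT (g j) (x + x')) = fun j => gT (g j) x + gT (g j) x' := by
        funext j
        exact a1.gT_add _ _ _
      rw [this]
      exact h1.add h3
    · have : (fun j => gT (g₂ j) (gT y (x + x'))) =
          fun j => gT (g₂ j) (gT y x) + gT (g₂ j) (gT y x') := by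
        funext j
        rw [a1.gT_add, a1.gT_add]
      rw [this, a1.gT_add]
      exact h2.add h4
  zero_mem' := by
    refine ⟨0, ?_, ?_⟩
    · have : (fun j => gT (g j) (0 : Ten I L)) = fun _ => 0 := by
        funext j
        exact YPi.gT_zero a1 _
      rw [this]
      exact tendsto_const_nhds
    · have : (fun j => gT (g₂ j) (gT y (0 : Ten I L))) = fun _ => 0 := by
        funext j
        rw [YPi.gT_zero a1, YPi.gT_zero a1]
      rw [this, YPi.gT_zero a1]
      exact tendsto_const_nhds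
  smul_mem' := by
    rintro c x ⟨v, h1, h2⟩
    refine ⟨c • v, ?_, ?_⟩
    · have : (fun j => gT (g j) (c • x)) = fun j => c • gT (g j) x := by
        funext j
        exact a1.gT_smul _ _ _
      rw [this]
      exact h1.const_smul c
    · have : (fun j => gT (g₂ j) (gT y (c • x))) = fun j => c • gT (g₂ j) (gT y x) := by
        funext j
        rw [a1.gT_smul, a1.gT_smul]
      rw [this, a1.gT_smul]
      exact h2.const_smul c

/-- the limit tuple of a spanning tuple -/
theorem exists_good (a1 : Alg1) (cpt : CptStatement) (havg : AvgStatement) (P : Spn At N T)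
    {F : Filter ℕ} [F.NeBot] {g : ℕ → Matrix I I ℂ} {k : Matrix I I ℂ} (hg : ∀ j, IsG D (g j))
    (hk : IsK D k) (hlim : ∀ (L : ℕ) (u : Ten I L), L ≤ N → At L u → ∃ v u' : Ten I L,
      Tendsto (fun j => gT (g j) u) F (𝓝 v) ∧ jT D v = gT k v ∧ gT k (gT k v) = v ∧
      u' ∈ Submodule.span ℝ {x : Ten I L | At L x} ∧
      Tendsto (fun j => gT (g j) u') F (𝓝 (gT k v))) :
    ∃ e : Tup I len, Good D At F g k T e := by
  choose v u' h1 h2 h3 h4 h5 using hlim
  let e : Tup I len := fun i => v (len i) (T i) (P.le i) (P.mem i)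
  have hle : ∀ i, Tendsto (fun j => gT (g j) (T i)) F (𝓝 (e i)) := fun i => h1 _ _ _ _
  refine ⟨e, inferInstance, hg, hk, P.mem, tendsto_pi_nhds.2 hle, fun i u hu => ?_, P.unit⟩
  obtain ⟨v', hv', hlv'⟩ := P.span (fun L => limSub a1 F g (MT D e L))
    (fun i => ⟨e i, self_mem a1 cpt havg e i, hle i⟩) (len i) (P.le i) u hu
  have h6 := h1 (len i) u (P.le i) hu
  obtain rfl := tendsto_nhds_unique hlv' h6
  exact ⟨_, hv', h6, h2 _ _ _ _, _, h4 _ _ _ _, h5 _ _ _ _⟩

end span

/-! ### The theorem -/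

section main

open Qps

variable {I Λ : Type} [Fintype I] [DecidableEq I] [DecidableEq Λ] {D : Dat I Λ}

/-- a tensor fixed by the square of a positive definite matrix is fixed by the matrix -/
theorem pos_fix (a1 : Alg1) {p : Matrix I I ℂ} (hp : p.PosDef) (hG : IsG D p) {L : ℕ}
    {z : Ten I L} (h : gT p (gT p z) = z) : gT p z = z := by
  have hpp : (p * p).PosDef := by
    have h1 : (p * pᴴ).PosDef := Car.posDef_mul_adj
      ((Matrix.isUnit_iff_isUnit_det p).1 hp.isUnit)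
    rwa [show pᴴ = p from hp.isHermitian] at h1
  have h1 : Car.St D (fun _ : Unit => z) (p * p) :=
    ⟨a1.G_mul D _ _ hG hG, fun _ => by rw [a1.gT_mul, h]⟩
  have h2 := (h1.sqrt hpp).2 ()
  have h3 : CFC.sqrt (p * p) = p :=
    Car.pos_unique (Car.sqrt_pos hpp).posSemidef hp.posSemidef (Car.sqrt_mul hpp)
  rwa [h3] at h2

/-- `J₀ w v = (wᴴ)⁻¹ J₀ v`, so `J₀ v = wᴴ w v` if `J₀ w v = w v` -/
theorem jT_eq (a1 : Alg1) {w : Matrix I I ℂ} (hw : IsG D w) {L : ℕ} {v : Ten I L}
    (h : jT D (gT w v) = gT w v) : jT D v = gT (wᴴ * w) v := by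
  have hwa : IsG D wᴴ := Car.isG_adj D hw
  rw [jT_gT' a1 hw] at h
  have h1 := congrArg (gT wᴴ) h
  rw [XY.gT_inv a1 hwa] at h1
  rw [h1, a1.gT_mul]

end main

open Qps in
/-- **Row WABS.** -/
theorem wabs (a1 : Alg1) (a2 : Alg2) (cpt : CptStatement) (mn : MinStatement)
    (clo : CloStatement) (hvol : VolStatement) (hpha : PhaStatement) (havg : AvgStatement)
    (hX : XStatement) (ffb : FfbStatement) (hcar : CarStatement)
    (hz : ∀ {I Λ : Type} [Fintype I] [DecidableEq I] [DecidableEq Λ] {D : Dat I Λ}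
      {At : (L : ℕ) → Ten I L → Prop}, ASys D At → ∀ N, ZConc D At fun L => L ≤ N) :
    WAbsStatement := by
  intro I Λ _ _ _ D At S F _ g k hg hk hfix hlim y hy M Λ₀ hev hgen L u v hu hJu hv
  obtain ⟨N, hNL, hNM, hN2⟩ : ∃ N, L ≤ N ∧ M ≤ N ∧ 2 ≤ N :=
    ⟨L + M + 2, by omega, by omega, by omega⟩
  obtain ⟨ι, _, len, T, P⟩ := exists_spn S N
  have S₂ := asys_transport a1 a2 S hy
  have P₂ := P.transport a1 hy
  obtain ⟨F₂, _, g₂, k₂, hg₂, hk₂, hfix₂, hlim₂⟩ := hz S₂ N
  obtain ⟨e, G⟩ := exists_good a1 cpt havg P hg hk fun L u _ hu => hlim L u hu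
  obtain ⟨e₂, G₂⟩ := exists_good a1 cpt havg P₂ hg₂ hk₂ hlim₂
  have hyi := a1.G_inv D y hy
  have hT : gS y (gS y⁻¹ T) = T := by
    funext i
    exact XY.gT_inv a1 hy (T i)
  obtain ⟨w, hw, hwe, hp⟩ := core a1 a2 cpt mn clo hvol hpha havg hX ffb hcar S G S₂ G₂ hy hT
  have hwa : IsG D wᴴ := Car.isG_adj D hw
  have hpG : IsG D (wᴴ * w) := a1.G_mul D _ _ hwa hw
  have hwi := a1.G_inv D w hw
  have hpp : (wᴴ * w).PosDef := by
    have h1 : IsUnit (wᴴ).det := by
      rw [Matrix.det_conjTranspose]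
      exact ((Matrix.isUnit_iff_isUnit_det w).1 ⟨⟨w, w⁻¹, hwi.2.1, hwi.2.2⟩, rfl⟩).star
    have h2 := Car.posDef_mul_adj h1
    rwa [Matrix.conjTranspose_conjTranspose] at h2
  -- the limits in the two systems correspond
  have hrel : ∀ L ≤ N, ∀ u v, At L u → gT y (jT D (gT y⁻¹ u)) = u →
      Tendsto (fun j => gT (g j) u) F (𝓝 v) → jT D v = gT (wᴴ * w) v := by
    intro L hL u v hu hJu hv
    obtain ⟨v', h1, h2⟩ := P.span (fun L => relSub a1 F F₂ g g₂ w y⁻¹ L) (fun i => by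
      refine ⟨e i, (tendsto_pi_nhds.mp G.lim) i, ?_⟩
      have h3 : Tendsto (fun j => gS (g₂ j) (gS y⁻¹ T) i) F₂ (𝓝 (e₂ i)) :=
        (tendsto_pi_nhds.mp G₂.lim) i
      rw [← hwe] at h3
      exact h3) L hL u hu
    obtain rfl := tendsto_nhds_unique h1 hv
    -- the limit in the second system
    have h3 : jT D (gT y⁻¹ u) = gT y⁻¹ u := by
      have h4 := congrArg (gT y⁻¹) hJu
      rwa [XY.inv_gT a1 hy] at h4
    have h5 : At L (gT y (gT y⁻¹ u)) := by
      rw [XY.gT_inv a1 hy]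
      exact hu
    have h6 : (fun j => gT (g₂ j) (gT y⁻¹ u)) = fun _ => gT y⁻¹ u := by
      funext j
      exact (hfix₂ L (gT y⁻¹ u) h5 h3).1 j
    rw [h6] at h2
    have h7 : gT w v' = gT y⁻¹ u := tendsto_nhds_unique h2 tendsto_const_nhds |>.symm ▸ rfl
    refine jT_eq a1 hw ?_
    rw [h7, h3]
  -- `p` fixes the members fixed by `J₀` and `J'`
  have hpfix : ∀ L ≤ M, ∀ u : Ten I L, At L u → jT D u = u →
      gT y (jT D (gT y⁻¹ u)) = u → gT (wᴴ * w) u = u := by
    intro L hL u hu h1 h2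
    have h3 : (fun j => gT (g j) u) = fun _ => u := by
      funext j
      exact hfix L u hu h1 j
    have h4 := hrel L (hL.trans hNM) u u hu h2 (by rw [h3]; exact tendsto_const_nhds)
    rw [← h4, h1]
  -- `p` commutes with `k`
  have hkG : IsG D k := hk.1
  have hki := a1.G_inv D k hkG
  have hcomm : (wᴴ * w) * k = k * (wᴴ * w) := by
    refine hgen _ hpG hpfix ?_
    have h1 := mt_lim a2 S G hp
    have h2 : ∀ v ∈ Submodule.span ℂ {v : Ten I 2 | ∃ u, At 2 u ∧
        Tendsto (fun j => gT (g j) u) F (𝓝 v)}, gT k (prE D Λ₀ v) = prE D Λ₀ v := by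
      intro v hv
      induction hv using Submodule.span_induction with
      | mem v hv =>
        obtain ⟨u, hu, hlu⟩ := hv
        refine hev (prE D Λ₀ u) _ (prE_mem S Λ₀ hu) (fun w hw => prE_off u hw) ?_
        have h3 := prE_lim (D := D) (Λ₀ := Λ₀) hlu
        have h4 : (fun j => prE D Λ₀ (gT (g j) u)) = fun j => gT (g j) (prE D Λ₀ u) := by
          funext j
          exact (gT_prE (hg j) u).symm
        rwa [h4] at h3
      | zero =>
        have h3 : prE D Λ₀ (0 : Ten I 2) = 0 := by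
          have := prE_smul (D := D) (Λ₀ := Λ₀) 0 (0 : Ten I 2)
          rwa [zero_smul, zero_smul] at this
        rw [h3, YPi.gT_zero a1]
      | add x y _ _ hx hy => rw [prE_add, a1.gT_add, hx, hy]
      | smul c x _ hx => rw [prE_smul, a1.gT_smul, hx]
    have h3 := h2 _ h1
    rw [gT_prE hkG, gT_tq a1 hkG] at h3
    have h4 : ∀ i l, D.typ i ∈ Λ₀ → (k * (wᴴ * w) * k⁻¹) i l = (wᴴ * w) i l := by
      intro i l hi
      by_cases h : D.typ i = D.typ l
      · have hw' : D.typ ((![i, D.τ l] : Fin 2 → I) 0) = D.typ ((![i, D.τ l] : Fin 2 → I) 1) ∧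
            D.typ ((![i, D.τ l] : Fin 2 → I) 0) ∈ Λ₀ := by
          refine ⟨?_, hi⟩
          show D.typ i = D.typ (D.τ l)
          rw [D.typ_τ, h]
        have h5 := congrFun h3 ![i, D.τ l]
        rw [prE_on _ hw', prE_on _ hw', tq_apply, tq_apply] at h5
        exact mul_right_cancel₀ (s_ne l) h5
      · rw [hpG.1 i l h]
        exact (a1.G_mul D _ _ (a1.G_mul D _ _ hkG hpG) hki.1).1 i l h
    intro i j hi _
    calc (wᴴ * w * k) i j = ∑ l, (wᴴ * w) i l * k l j := Matrix.mul_apply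
      _ = ∑ l, (k * (wᴴ * w) * k⁻¹) i l * k l j :=
          Finset.sum_congr rfl fun l _ => by rw [h4 i l hi]
      _ = (k * (wᴴ * w) * k⁻¹ * k) i j := Matrix.mul_apply.symm
      _ = (k * (wᴴ * w)) i j := by rw [Matrix.mul_assoc, hki.2.2, Matrix.mul_one]
  -- the end
  obtain ⟨v', u', h1, h2, h3, _, _⟩ := hlim L u hu
  obtain rfl := tendsto_nhds_unique h1 hv
  have h4 := hrel L hNL u v' hu hJu hv
  have h5 : gT (wᴴ * w) (gT (wᴴ * w) v') = v' := by
    rw [← h4, h2, ← a1.gT_mul, hcomm, a1.gT_mul, ← h4, h2, h3]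
  rw [← h2, h4]
  exact pos_fix a1 hpp hpG h5

end WAbs

end Pool.Agent.Lib.MP_361a6f_ag.FL
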