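import Pool.Agent.Lib.MP_361a6f_ag.FL.Z.Ze

/-!
# Row ZE, part 2: algebraic correspondences, homogeneous components, the form `ψ`
-/

open CategoryTheory AlgebraicGeometry MonoidalCategory CartesianMonoidalCategory
open Filter Topology

universe u v w

set_option autoImplicit false
set_option linter.unusedSectionVars false

namespace Pool.Agent.Lib.MP_361a6f_ag.FL

open Pool.Agent.Lib.MP_361a6f_ag.H3 Pool.Agent.Lib.MP_361a6f_ag.SQ
  Pool.Agent.Lib.MP_361a6f_ag.IP2 Pool.Agent.Lib.MP_361a6f_ag.PP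

section ar

variable {k : Type u} [Field k] {W : CohomologyData.{u, 0, w} k ℂ} {𝒱 : VarietyClass k}

theorem AR_tot (hW : IsWeilCohomology W 𝒱) {Y : Sch k} {z : W.coh Y} (hz : z ∈ tot W Y) :
    z ∈ AR W Y :=
  tot_induction hW (P := fun z => z ∈ AR W Y) hz (fun _ _ hx => AR_alg hx)
    (fun _ _ hx hy => add_mem hx hy)

/-- algebraic correspondences -/
theorem AR_cor (hW : IsWeilCohomology W 𝒱) {Y Z : Sch k} {d e : ℕ} (hY : 𝒱.mem Y d)
    (hZ : 𝒱.mem Z e) {u : W.coh Y →ₗ[ℂ] W.coh Z} (hu : AlgCor W Y Z u) {z : W.coh Y}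
    (hz : z ∈ AR W Y) : u z ∈ AR W Z := by
  obtain ⟨γ, hγ, h⟩ := hu
  have hYZ := 𝒱.prod hY hZ
  refine Submodule.span_induction (p := fun z _ => u z ∈ AR W Z) ?_ ?_ ?_ ?_ hz
  · rintro z ⟨l, hl⟩
    rw [h]
    exact AR_tot hW (tot_push hW hYZ hZ _ (tot_mul hW hYZ
      (tot_pull hW hYZ hY _ (alg_le_tot hW Y l hl)) hγ))
  · rw [map_zero]; exact zero_mem _
  · intro a b _ _ ha hb
    rw [map_add]; exact add_mem ha hb
  · intro r a _ ha
    rw [← AR_smul_real, map_smul, AR_smul_real]; exact Submodule.smul_mem _ _ ha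

theorem AR_push (hW : IsWeilCohomology W 𝒱) {Y Z : Sch k} {d e : ℕ} (hY : 𝒱.mem Y d)
    (hZ : 𝒱.mem Z e) (f : Y ⟶ Z) {z : W.coh Y} (hz : z ∈ AR W Y) : W.push f z ∈ AR W Z :=
  AR_cor hW hY hZ (TAL.algCor_push hW hY hZ f) hz

end ar

namespace ZE

/-! ### Homogeneous components -/

section comp

variable {M : Type w} [AddCommGroup M] [Module ℂ M] {gr : ℕ → Submodule ℂ M}
  (h : DirectSum.IsInternal gr)

/-- the homogeneous component of degree `i` -/
noncomputable def cmp (i : ℕ) : Module.End ℂ M :=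
  gop h fun l => (((if l = i then 1 else 0 : ℚ)) : ℂ)

theorem cmp_self {i : ℕ} {x : M} (hx : x ∈ gr i) : cmp h i x = x := by
  rw [cmp, gop_apply h _ hx, if_pos rfl, Rat.cast_one, one_smul]

theorem cmp_ne {i l : ℕ} (hl : l ≠ i) {x : M} (hx : x ∈ gr l) : cmp h i x = 0 := by
  rw [cmp, gop_apply h _ hx, if_neg hl, Rat.cast_zero, zero_smul]

theorem cmp_mem (i : ℕ) (x : M) : cmp h i x ∈ gr i := by
  have hx : x ∈ ⨆ i, gr i := by rw [h.submodule_iSup_eq_top]; trivial
  refine Submodule.iSup_induction gr (motive := fun x => cmp h i x ∈ gr i) hx ?_ ?_ ?_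
  · intro l y hy
    by_cases hl : l = i
    · subst hl; rw [cmp_self h hy]; exact hy
    · rw [cmp_ne h hl hy]; exact zero_mem _
  · rw [map_zero]; exact zero_mem _
  · intro y z hy hz
    rw [map_add]; exact add_mem hy hz

theorem cmp_comm {M' : Type w} [AddCommGroup M'] [Module ℂ M'] {gr' : ℕ → Submodule ℂ M'}
    (h' : DirectSum.IsInternal gr') (j : M →+ M') (hj : ∀ i x, x ∈ gr i → j x ∈ gr' i) (i : ℕ)
    (x : M) : j (cmp h i x) = cmp h' i (j x) := by
  have hx : x ∈ ⨆ i, gr i := by rw [h.submodule_iSup_eq_top]; trivial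
  refine Submodule.iSup_induction gr (motive := fun x => j (cmp h i x) = cmp h' i (j x)) hx ?_ ?_
    ?_
  · intro l y hy
    by_cases hl : l = i
    · subst hl; rw [cmp_self h hy, cmp_self h' (hj _ _ hy)]
    · rw [cmp_ne h hl hy, cmp_ne h' hl (hj _ _ hy), map_zero]
  · simp only [map_zero]
  · intro y z hy hz
    rw [map_add, map_add, map_add, map_add, hy, hz]

end comp

section ev

variable {k : Type u} [Field k] {W : CohomologyData.{u, 0, w} k ℂ} {𝒱 : VarietyClass k} {m : ℕ}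
  (H : Host W 𝒱 m)
  {J : ∀ P : Prd m, W.coh (P.obj H.X) →ₛₗ[starRingEnd ℂ] W.coh (P.obj H.X)}
  {A : ℕ → ∀ P : Prd m, Module.End ℂ (W.coh (P.obj H.X))}
  {K : ∀ P : Prd m, Module.End ℂ (W.coh (P.obj H.X))} {F : Filter ℕ}
  (ge : H.GeFacts) (hJ : H.J0Facts J)
  (hA : ∀ j, ∃ x, ZOps H J x (A j)) (hK : ∃ x, ZOps H J x K)

/-- the homogeneous component of degree `i` of a class on a product -/
noncomputable def cmpP (P : Prd m) (i : ℕ) : Module.End ℂ (W.coh (P.obj H.X)) :=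
  cmp (H.lamP P).1.slm.internal i

theorem cmpP_self {P : Prd m} {i : ℕ} {x : W.coh (P.obj H.X)} (hx : x ∈ W.gr (P.obj H.X) i) :
    cmpP H P i x = x := cmp_self _ hx

theorem cmpP_ne {P : Prd m} {i l : ℕ} (hl : l ≠ i) {x : W.coh (P.obj H.X)}
    (hx : x ∈ W.gr (P.obj H.X) l) : cmpP H P i x = 0 := cmp_ne _ hl hx

theorem cmpP_mem (P : Prd m) (i : ℕ) (x : W.coh (P.obj H.X)) :
    cmpP H P i x ∈ W.gr (P.obj H.X) i := cmp_mem _ i x

theorem cmpP_alg (P : Prd m) (i : ℕ) : AlgCor W (P.obj H.X) (P.obj H.X) (cmpP H P i) :=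
  algOp_gop H.hW (H.memP P) (H.lamP P).2 (H.lamP P).1 _

include hJ in
theorem cmpP_J (P : Prd m) (i : ℕ) (x : W.coh (P.obj H.X)) :
    J P (cmpP H P i x) = cmpP H P i (J P x) :=
  cmp_comm (H.lamP P).1.slm.internal (H.lamP P).1.slm.internal (J P : _ →+ _)
    (hJ.rs P).gr i x

/-- the component of degree `2 l` of a real algebraic class is a real combination of algebraic
classes of codimension `l` -/
theorem cmpP_AR (P : Prd m) (l : ℕ) {z : W.coh (P.obj H.X)} (hz : z ∈ AR W (P.obj H.X)) :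
    cmpP H P (2 * l) z ∈ Submodule.span ℝ {z | W.IsAlg (P.obj H.X) l z} := by
  refine Submodule.span_induction (p := fun z _ => cmpP H P (2 * l) z ∈
    Submodule.span ℝ {z | W.IsAlg (P.obj H.X) l z}) ?_ ?_ ?_ ?_ hz
  · rintro z ⟨l', hl'⟩
    have hg := H.hW.alg_gr (H.memP P) hl'
    by_cases h : l' = l
    · subst h
      rw [cmpP_self H hg]
      exact Submodule.subset_span hl'
    · rw [cmpP_ne H (by omega) hg]
      exact zero_mem _
  · rw [map_zero]; exact zero_mem _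
  · intro a b _ _ ha hb
    rw [map_add]; exact add_mem ha hb
  · intro r a _ ha
    rw [← AR_smul_real, map_smul, AR_smul_real]; exact Submodule.smul_mem _ _ ha

include ge in
/-- limits of homogeneous classes -/
theorem clim_gr [F.NeBot] {P : Prd m} {i : ℕ} {y : ℕ → W.coh (P.obj H.X)}
    {s : W.coh (P.obj H.X)} (h : CLim H F P y s) (hy : ∀ j, y j ∈ W.gr (P.obj H.X) i) :
    s ∈ W.gr (P.obj H.X) i := by
  have h1 := clim_lin H ge (Q := P) (cmpP H P i) h
  have e : (fun j => cmpP H P i (y j)) = y := by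
    funext j; exact cmpP_self H (hy j)
  rw [e] at h1
  rw [← clim_uniq H ge h1 h]
  exact cmpP_mem H P i s

include ge hA in
/-- correspondences that commute with `J` -/
theorem clim_cor {P Q : Prd m} {u : W.coh (P.obj H.X) →ₗ[ℂ] W.coh (Q.obj H.X)}
    (hu : AlgCor W (P.obj H.X) (Q.obj H.X) u) (hJu : ∀ s, J Q (u s) = u (J P s))
    {z s : W.coh (P.obj H.X)} (h : CLim H F P (fun j => A j P z) s) :
    CLim H F Q (fun j => A j Q (u z)) (u s) := by
  have h1 := clim_lin H ge (Q := Q) u h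
  have e : (fun j => u (A j P z)) = fun j => A j Q (u z) := by
    funext j
    obtain ⟨_, hj⟩ := hA j
    rw [hj.cor P Q u hu hJu]
  rwa [e] at h1

include hA in
/-- products -/
theorem clim_mul' (ge : H.GeFacts) {P : Prd m} {y z s t : W.coh (P.obj H.X)}
    (h : CLim H F P (fun j => A j P y) s) (h' : CLim H F P (fun j => A j P z) t) :
    CLim H F P (fun j => A j P (y * z)) (s * t) := by
  have h1 := clim_mul H ge h h'
  have e : (fun j => A j P y * A j P z) = fun j => A j P (y * z) := by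
    funext j
    obtain ⟨_, hj⟩ := hA j
    rw [hj.mul]
  rwa [e] at h1

include hA in
/-- the algebraic classes fixed by `J` -/
theorem clim_fix {P : Prd m} {l : ℕ} {z : W.coh (P.obj H.X)} (hz : z ∈ W.alg (P.obj H.X) l)
    (h : J P z = z) : CLim H F P (fun j => A j P z) z := by
  have e : (fun j => A j P z) = fun _ => z := by
    funext j
    obtain ⟨_, hj⟩ := hA j
    exact hj.fix P l z hz h
  rw [e]
  exact clim_const H z

include ge hA in
theorem tr_lim1 [F.NeBot] {P : Prd m} {z s : W.coh (P.obj H.X)}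
    (h : CLim H F P (fun j => A j P z) s) : W.tr (P.obj H.X) z = W.tr (P.obj H.X) s := by
  have h1 := clim_fun H ge (W.tr (P.obj H.X)) h
  have e : (fun j => W.tr (P.obj H.X) (A j P z)) = fun _ => W.tr (P.obj H.X) z := by
    funext j
    obtain ⟨_, hj⟩ := hA j
    exact hj.tr P z
  rw [e] at h1
  exact tendsto_nhds_unique tendsto_const_nhds h1

include ge hA in
/-- the trace form of the limits -/
theorem tr_lim [F.NeBot] {P : Prd m} {y z s t : W.coh (P.obj H.X)}
    (h : CLim H F P (fun j => A j P y) s) (h' : CLim H F P (fun j => A j P z) t) :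
    W.tr (P.obj H.X) (y * z) = W.tr (P.obj H.X) (s * t) :=
  tr_lim1 H ge hA (clim_mul' H hA ge h h')

include ge hJ hA in
/-- the form `ψ` of the limits -/
theorem psi_lim [F.NeBot] {P : Prd m} {y z s t : W.coh (P.obj H.X)}
    (h : CLim H F P (fun j => A j P y) s) (h' : CLim H F P (fun j => A j P z) t) :
    H.psiP P y z = H.psiP P s t :=
  tr_lim H ge hA h (clim_cor H ge hA
    (algOp_star H.hW (H.memP P) (H.lamP P).2 (H.lamP P).1) (JlT.J_star H hJ P) h')

theorem psiP_smul (P : Prd m) (y z : W.coh (P.obj H.X)) (c : ℂ) :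
    H.psiP P y (c • z) = c * H.psiP P y z := by
  show W.tr _ (y * star _ _ _ (c • z)) = c * W.tr _ (y * star _ _ _ z)
  rw [map_smul, mul_smul_comm, map_smul, smul_eq_mul]

include ge hJ hA in
/-- the sign of `ψ` on the even and on the odd classes -/
theorem psi_sign [F.NeBot] {ε : ℝ} (hε : ε * ε = 1) {P : Prd m} {z s : W.coh (P.obj H.X)}
    (h : CLim H F P (fun j => A j P z) s) (hs : J P s = (ε : ℂ) • s) (h0 : s ≠ 0) :
    ∃ q : ℝ, 0 < q ∧ H.psiP P z z = ((ε * q : ℝ) : ℂ) := by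
  obtain ⟨r, hr, h1⟩ := (hJ.rs P).pos s h0
  refine ⟨r, hr, ?_⟩
  have h2 : H.psiP P s (J P s) = (r : ℂ) := h1
  rw [hs, psiP_smul] at h2
  rw [psi_lim H ge hJ hA h h]
  have h3 : ((ε : ℂ)) * (ε : ℂ) = 1 := by
    rw [← Complex.ofReal_mul, hε, Complex.ofReal_one]
  calc H.psiP P s s = ((ε : ℂ) * (ε : ℂ)) * H.psiP P s s := by rw [h3, one_mul]
    _ = (ε : ℂ) * ((ε : ℂ) * H.psiP P s s) := by ring
    _ = ((ε * r : ℝ) : ℂ) := by rw [h2, Complex.ofReal_mul]

/-! ### Even and odd classes -/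

include ge hA hK in
/-- parity and correspondences that commute with `J` -/
theorem ZC_cor {ε : ℝ} {P Q : Prd m} {u : W.coh (P.obj H.X) →ₗ[ℂ] W.coh (Q.obj H.X)}
    (hu : AlgCor W (P.obj H.X) (Q.obj H.X) u) (hJu : ∀ s, J Q (u s) = u (J P s))
    {z : W.coh (P.obj H.X)} (hz : z ∈ ZC H J A K F ε P) : u z ∈ ZC H J A K F ε Q := by
  obtain ⟨ha, s, h1, h2, h3⟩ := hz
  obtain ⟨x, hx⟩ := hK
  refine ⟨AR_cor H.hW (H.memP P) (H.memP Q) hu ha, u s, clim_cor H ge hA hu hJu h1, ?_, ?_⟩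
  · rw [hJu, h2, map_smul]
  · rw [hx.cor P Q u hu hJu, h3, map_smul]

include ge hJ hA hK in
theorem ZC_push {ε : ℝ} {P Q : Prd m} {f : Sch.Mor (P.obj H.X) (Q.obj H.X)}
    (hf : CoordMor H.X 3 P Q f) {z : W.coh (P.obj H.X)} (hz : z ∈ ZC H J A K F ε P) :
    W.pf f z ∈ ZC H J A K F ε Q :=
  ZC_cor H ge hA hK (u := W.push f) (TAL.algCor_push H.hW (H.memP P) (H.memP Q) f)
    (fun s => hJ.push P Q f hf s) hz

include ge hJ hA hK in
theorem ZC_cmp {ε : ℝ} {P : Prd m} (i : ℕ) {z : W.coh (P.obj H.X)}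
    (hz : z ∈ ZC H J A K F ε P) : cmpP H P i z ∈ ZC H J A K F ε P :=
  ZC_cor H ge hA hK (cmpP_alg H P i) (cmpP_J H hJ P i) hz

include ge hJ hA hK in
theorem ZC_ext {ε ε' : ℝ} {P Q : Prd m} {y : W.coh (P.obj H.X)} {z : W.coh (Q.obj H.X)}
    (hy : y ∈ ZC H J A K F ε P) (hz : z ∈ ZC H J A K F ε' Q) :
    W.ext y z ∈ ZC H J A K F (ε * ε') (.prod P Q) :=
  ZC_mul H J A K F ge hJ hA hK
    (ZC_pb H J A K F ge hJ hA hK (P := .prod P Q) (CoordMor.pr₁ P Q) hy)
    (ZC_pb H J A K F ge hJ hA hK (P := .prod P Q) (CoordMor.pr₂ P Q) hz)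

include hA hK in
/-- the algebraic classes fixed by `J` are even -/
theorem ZC_fix {P : Prd m} {l : ℕ} {z : W.coh (P.obj H.X)} (hz : z ∈ W.alg (P.obj H.X) l)
    (h : J P z = z) : z ∈ ZC H J A K F 1 P := by
  obtain ⟨x, hx⟩ := hK
  refine ⟨AR_alg hz, z, clim_fix H hA hz h, ?_, ?_⟩
  · rw [h, Complex.ofReal_one, one_smul]
  · rw [hx.fix P l z hz h, Complex.ofReal_one, one_smul]

include hJ hA hK in
theorem ZC_one (P : Prd m) : (1 : W.coh (P.obj H.X)) ∈ ZC H J A K F 1 P :=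
  ZC_fix H hA hK (H.hW.one_alg (H.memP P)) (hJ.rs P).one

/-- every class is a sum of an even and an odd class -/
theorem ZC_sup {P : Prd m} (hKJ : ∀ s, K P (J P s) = J P (K P s))
    {z z' s : W.coh (P.obj H.X)} (hz : z ∈ AR W (P.obj H.X)) (hz' : z' ∈ AR W (P.obj H.X))
    (h : CLim H F P (fun j => A j P z) s) (h' : CLim H F P (fun j => A j P z') (K P s))
    (hs : J P s = K P s) (hss : K P (K P s) = s) :
    z ∈ ZC H J A K F 1 P ⊔ ZC H J A K F (-1) P := by
  have hJK : J P (K P s) = s := by rw [← hKJ, hs, hss]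
  have hn : ∀ j, A j P (-z') = -(A j P z') := fun j => map_neg _ _
  have e1 : z + z' ∈ ZC H J A K F 1 P := by
    refine ⟨add_mem hz hz', s + K P s, ?_, ?_, ?_⟩
    · have h1 := clim_add H h h'
      have e : (fun j => A j P z + A j P z') = fun j => A j P (z + z') := by
        funext j; rw [map_add]
      rwa [e] at h1
    · rw [map_add, hJK, hs, Complex.ofReal_one, one_smul, add_comm]
    · rw [map_add, hss, Complex.ofReal_one, one_smul, add_comm]
  have e2 : z - z' ∈ ZC H J A K F (-1) P := by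
    refine ⟨sub_mem hz hz', s - K P s, ?_, ?_, ?_⟩
    · have h1 := clim_add H h (clim_smul H (-1 : ℂ) h')
      have e : (fun j => A j P z + (-1 : ℂ) • A j P z') = fun j => A j P (z - z') := by
        funext j; rw [map_sub, neg_one_smul, sub_eq_add_neg]
      rw [e, neg_one_smul, ← sub_eq_add_neg] at h1
      exact h1
    · rw [map_sub, hJK, hs, Complex.ofReal_neg, Complex.ofReal_one, neg_one_smul, neg_sub]
    · rw [map_sub, hss, Complex.ofReal_neg, Complex.ofReal_one, neg_one_smul, neg_sub]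
  have e3 : z = (2⁻¹ : ℝ) • (z + z') + (2⁻¹ : ℝ) • (z - z') := by
    rw [← smul_add, add_add_sub_cancel, ← two_smul ℝ z, smul_smul]
    norm_num
  rw [e3]
  exact Submodule.add_mem_sup (Submodule.smul_mem _ _ e1) (Submodule.smul_mem _ _ e2)

end ev

end ZE

end Pool.Agent.Lib.MP_361a6f_ag.FL
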