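import Pool.Agent.Lib.MP_361a6f_ag.FL.B.Jl
import Pool.Agent.Lib.MP_361a6f_ag.FL.GTI

/-!
# Row ZO: the operators of an element of the stabiliser of the base

`x` is an element of the group that fixes the algebraic tensors fixed by `J₀`. It acts on the
cohomology of all products of the factors. These operators are compatible with exterior products,
they commute with the algebraic correspondences that commute with `J`, so they are multiplicative,
commute with pull-backs and push-forwards along coordinate morphisms and with the Lefschetz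
operators and preserve the degree and the trace.
-/

open CategoryTheory AlgebraicGeometry MonoidalCategory CartesianMonoidalCategory

universe u v w

set_option autoImplicit false
set_option linter.unusedSectionVars false

namespace Pool.Agent.Lib.MP_361a6f_ag.FL

open Pool.Agent.Lib.MP_361a6f_ag.H3 Pool.Agent.Lib.MP_361a6f_ag.SQ
  Pool.Agent.Lib.MP_361a6f_ag.IP2 Pool.Agent.Lib.MP_361a6f_ag.PP

namespace Zo

open GJ GTI

/-! ### Lemmas on a single variety -/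

section gen

variable {k : Type u} [Field k] {W : CohomologyData.{u, 0, w} k ℂ} {𝒱 : VarietyClass k}

/-- multiplicativity from the compatibility with the diagonal -/
theorem mul_of_diag {X : Sch k} {j : W.coh X →ₗ[ℂ] W.coh X}
    {j2 : W.coh (X ⊗ X) →ₗ[ℂ] W.coh (X ⊗ X)}
    (h : ∀ z, j (W.pull (lift (𝟙 X) (𝟙 X)) z) = W.pull (lift (𝟙 X) (𝟙 X)) (j2 z))
    (hp : ∀ x y, j2 (W.pull (fst X X) x * W.pull (snd X X) y)
      = W.pull (fst X X) (j x) * W.pull (snd X X) (j y)) (x y : W.coh X) :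
    j (x * y) = j x * j y := by
  have hd : ∀ x y : W.coh X, W.pull (lift (𝟙 X) (𝟙 X))
      (W.pull (fst X X) x * W.pull (snd X X) y) = x * y := by
    intro x y
    rw [map_mul, ← W.pull_comp, ← W.pull_comp, lift_fst, lift_snd, W.pull_id, W.pull_id]
  have h1 := h (W.pull (fst X X) x * W.pull (snd X X) y)
  rwa [hd, hp, hd] at h1

/-- the operator of a sum of exterior products, composed with `*` -/
theorem comm1 (hsta : StaStatement.{w}) (hW : IsWeilCohomology W 𝒱) {X Y : Sch k} {n d : ℕ}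
    (hX : 𝒱.mem X n) (hY : 𝒱.mem Y d) {ξ : W.coh X} (hξ : ξ ∈ W.alg X 1)
    {Lam : Module.End ℂ (W.coh X)} (D : LamData W X n ξ Lam)
    {jX : W.coh X →ₗ[ℂ] W.coh X} {jY : W.coh Y →ₗ[ℂ] W.coh Y}
    (hconj : ∀ x y, psi W X ξ Lam D.slm.internal (jX x) (jX y)
      = psi W X ξ Lam D.slm.internal x y)
    {γ : W.coh (X ⊗ Y)} {N : ℕ} {a : Fin N → W.coh X} {b : Fin N → W.coh Y}
    (h1 : γ = ∑ ν, W.pull (fst X Y) (a ν) * W.pull (snd X Y) (b ν))
    (h2 : γ = ∑ ν, W.pull (fst X Y) (jX (a ν)) * W.pull (snd X Y) (jY (b ν)))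
    {u : W.coh X →ₗ[ℂ] W.coh Y}
    (h3 : ∀ x, u x = cor W γ (star D.slm.internal (Lop W X ξ) Lam x)) (s : W.coh X) :
    jY (u s) = u (jX s) := by
  have h4 : u s = ∑ ν, psi W X ξ Lam D.slm.internal s (a ν) • b ν := by
    rw [h3, h1, GeoJ.cor_sum_star hsta hW hX hY hξ D]
  have h5 : u (jX s) = ∑ ν, psi W X ξ Lam D.slm.internal (jX s) (jX (a ν)) • jY (b ν) := by
    rw [h3, h2, GeoJ.cor_sum_star hsta hW hX hY hξ D]
  rw [h4, h5, map_sum]
  refine Finset.sum_congr rfl fun ν _ => ?_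
  rw [map_smul, hconj]

end gen

variable {k : Type u} [Field k] {W : CohomologyData.{u, 0, w} k ℂ} {𝒱 : VarietyClass k} {m : ℕ}
  (H : Host W 𝒱 m) (a1 : Alg1) (a2 : Alg2) {x : Matrix H.I H.I ℂ} (hx : IsG H.D x)
  (ge : H.GeFacts)
  {J : ∀ P : Prd m, W.coh (P.obj H.X) →ₛₗ[starRingEnd ℂ] W.coh (P.obj H.X)}
  (hJ : H.J0Facts J)
  (hfix : ∀ (L : ℕ) (u : Ten H.I L), u ∈ H.At L → jT H.D u = u → gT x u = u)

include hx ge hJ hfix in
/-- the algebraic classes fixed by `J` are fixed -/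
theorem gP_fix (P : Prd m) (z : W.coh (P.obj H.X)) (hz : z ∈ tot W (P.obj H.X))
    (h : J P z = z) : gP H a1 x P z = z := by
  refine ge.inj P ?_
  rw [tc_gP H a1 hx ge]
  exact hfix _ _ (AddSubgroup.subset_closure (Or.inr ⟨P, rfl, z, hz, rfl⟩))
    (by rw [← hJ.tc, h])

include hx ge in
theorem gP_psi (P : Prd m) (y z : W.coh (P.obj H.X)) :
    H.psiP P (gP H a1 x P y) (gP H a1 x P z) = H.psiP P y z := by
  rw [← ge.psi_tc, ← ge.psi_tc, tc_gP H a1 hx ge, tc_gP H a1 hx ge, a1.psiT_gT H.D x _ _ hx]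

include a2 hx ge hJ hfix in
/-- the operators commute with the algebraic correspondences that commute with `J` -/
theorem gP_cor (hsta : StaStatement.{w}) (P Q : Prd m)
    {u : W.coh (P.obj H.X) →ₗ[ℂ] W.coh (Q.obj H.X)} (hu : AlgCor W (P.obj H.X) (Q.obj H.X) u)
    (hJu : ∀ s, J Q (u s) = u (J P s)) (s : W.coh (P.obj H.X)) :
    gP H a1 x Q (u s) = u (gP H a1 x P s) := by
  have hP := H.memP P
  have hQ := H.memP Q
  have hξ := (H.lamP P).2
  have D := (H.lamP P).1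
  have hSS : ∀ x, star D.slm.internal (Lop W (P.obj H.X) (P.pol W H.ξ)) (H.LamP P)
      (star D.slm.internal (Lop W (P.obj H.X) (P.pol W H.ξ)) (H.LamP P) x) = x :=
    (hsta D.slm).2.1
  have hu' : AlgCor W (P.obj H.X) (Q.obj H.X)
      (u ∘ₗ star D.slm.internal (Lop W (P.obj H.X) (P.pol W H.ξ)) (H.LamP P)) :=
    AlgCor.comp H.hW hP hP hQ hu (algOp_star H.hW hP hξ D)
  obtain ⟨γ, hγ, h⟩ := hu'.exists_cor
  have hk : J (.prod P Q) γ = γ := by
    refine JlT.ker_fix H ge hJ P Q fun s => ?_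
    rw [← h, LinearMap.comp_apply, LinearMap.comp_apply, hJu, JlT.J_star H hJ P s]
  have hk' : gP H a1 x (.prod P Q) γ = γ := gP_fix H a1 hx ge hJ hfix (.prod P Q) γ hγ hk
  obtain ⟨N, a, b, hab⟩ := TRC.exists_sum H.hW hP hQ γ
  have h2 : γ = ∑ ν, W.pull (fst (P.obj H.X) (Q.obj H.X)) (gP H a1 x P (a ν))
      * W.pull (snd (P.obj H.X) (Q.obj H.X)) (gP H a1 x Q (b ν)) := by
    have h3 : gP H a1 x (.prod P Q) γ
        = ∑ ν, gP H a1 x (.prod P Q) (W.pull (fst (P.obj H.X) (Q.obj H.X)) (a ν)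
          * W.pull (snd (P.obj H.X) (Q.obj H.X)) (b ν)) := by
      conv_lhs => rw [hab]
      exact map_sum _ _ _
    rw [← hk', h3]
    exact Finset.sum_congr rfl fun ν _ => gP_prod H a1 a2 hx ge P Q _ _
  refine comm1 hsta H.hW hP hQ hξ D (jX := gP H a1 x P) (jY := gP H a1 x Q)
    (gP_psi H a1 hx ge P) hab h2 (fun y => ?_) s
  rw [← h, LinearMap.comp_apply, hSS]

include a2 hx ge hJ hfix in
theorem gP_L (hsta : StaStatement.{w}) (P : Prd m) (z : W.coh (P.obj H.X)) :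
    gP H a1 x P (P.pol W H.ξ * z) = P.pol W H.ξ * gP H a1 x P z :=
  gP_cor H a1 a2 hx ge hJ hfix hsta P P (u := Lop W (P.obj H.X) (P.pol W H.ξ))
    (algOp_Lop H.hW (H.memP P) (H.lamP P).2 (H.lamP P).1) (hJ.rs P).map_L z

include a2 hx ge hJ hfix in
theorem gP_Lam (hsta : StaStatement.{w}) (P : Prd m) (z : W.coh (P.obj H.X)) :
    gP H a1 x P (H.LamP P z) = H.LamP P (gP H a1 x P z) :=
  gP_cor H a1 a2 hx ge hJ hfix hsta P P (H.lamP P).1.alg (hJ.rs P).map_Lam z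

include a2 hx ge hJ hfix in
theorem gP_star (hsta : StaStatement.{w}) (P : Prd m) (z : W.coh (P.obj H.X)) :
    gP H a1 x P (H.starP P z) = H.starP P (gP H a1 x P z) :=
  gP_cor H a1 a2 hx ge hJ hfix hsta P P (algOp_star H.hW (H.memP P) (H.lamP P).2 (H.lamP P).1)
    (JlT.J_star H hJ P) z

include a2 hx ge hJ hfix in
theorem gP_pull (hsta : StaStatement.{w}) (P Q : Prd m)
    (f : Sch.Mor (P.obj H.X) (Q.obj H.X)) (hf : CoordMor H.X 3 P Q f) (z : W.coh (Q.obj H.X)) :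
    gP H a1 x P (W.pb f z) = W.pb f (gP H a1 x Q z) :=
  gP_cor H a1 a2 hx ge hJ hfix hsta Q P (u := (W.pull f).toLinearMap)
    (AlgCor.pull H.hW (H.memP Q) (H.memP P) f) (fun s => hJ.pull P Q f hf s) z

include a2 hx ge hJ hfix in
theorem gP_push (hsta : StaStatement.{w}) (P Q : Prd m)
    (f : Sch.Mor (P.obj H.X) (Q.obj H.X)) (hf : CoordMor H.X 3 P Q f) (z : W.coh (P.obj H.X)) :
    gP H a1 x Q (W.pf f z) = W.pf f (gP H a1 x P z) :=
  gP_cor H a1 a2 hx ge hJ hfix hsta P Q (u := W.push f)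
    (TAL.algCor_push H.hW (H.memP P) (H.memP Q) f) (fun s => hJ.push P Q f hf s) z

include a2 hx ge hJ hfix in
theorem gP_mul (hsta : StaStatement.{w}) (P : Prd m) (y z : W.coh (P.obj H.X)) :
    gP H a1 x P (y * z) = gP H a1 x P y * gP H a1 x P z :=
  mul_of_diag (j := gP H a1 x P) (j2 := gP H a1 x (.prod P P))
    (fun s => gP_pull H a1 a2 hx ge hJ hfix hsta P (.prod P P) _
      (CoordMor.diag P (le_refl 3)) s)
    (gP_prod H a1 a2 hx ge P P) y z

include hx ge hJ hfix in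
theorem gP_one (P : Prd m) : gP H a1 x P 1 = 1 :=
  gP_fix H a1 hx ge hJ hfix P 1 (one_tot H.hW (H.memP P)) (hJ.rs P).one

include a2 hx ge hJ hfix in
theorem gP_tr (hsta : StaStatement.{w}) (P : Prd m) (z : W.coh (P.obj H.X)) :
    W.tr (P.obj H.X) (gP H a1 x P z) = W.tr (P.obj H.X) z := by
  have hSS : ∀ x, H.starP P (H.starP P x) = x := (hsta (H.lamP P).1.slm).2.1
  have h1 : ∀ y, H.psiP P y (H.starP P 1) = W.tr (P.obj H.X) y := by
    intro y
    have h2 : H.psiP P y (H.starP P 1) = W.tr (P.obj H.X) (y * H.starP P (H.starP P 1)) := rfl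
    rw [h2, hSS, mul_one]
  have h3 : gP H a1 x P (H.starP P 1) = H.starP P 1 := by
    rw [gP_star H a1 a2 hx ge hJ hfix hsta, gP_one H a1 hx ge hJ hfix]
  rw [← h1, ← h1 z, ← gP_psi H a1 hx ge P z (H.starP P 1), h3]

include hx ge in
theorem gP_gr (hsta : StaStatement.{w}) (P : Prd m) (i : ℕ) (z : W.coh (P.obj H.X))
    (hz : z ∈ W.gr (P.obj H.X) i) : gP H a1 x P z ∈ W.gr (P.obj H.X) i := by
  have h0 : gP H a1 x P z = ∑ w, gT x (H.tc P z) w • H.E P w := rfl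
  rw [h0]
  refine Submodule.sum_mem _ fun w _ => ?_
  by_cases hw : ∑ l, (H.D.typ (w l)).2 = i
  · refine Submodule.smul_mem _ _ ?_
    rw [← hw]
    exact ge.E_gr P w
  · have h1 : gT x (H.tc P z) w = 0 := by
      refine gT_supp H.D hx (fun w => ∑ l, (H.D.typ (w l)).2 ≠ i) ?_
        (fun w hw => tc_gr H ge hsta P hz w hw) w hw
      intro w w' h hw
      have h2 : ∑ l, (H.D.typ (w' l)).2 = ∑ l, (H.D.typ (w l)).2 :=
        Finset.sum_congr rfl fun l _ => by rw [h l]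
      exact fun h3 => hw (h2.symm.trans h3)
    rw [h1, zero_smul]
    exact zero_mem _

include hx ge in
/-- the action of a product -/
theorem gP_comp {y : Matrix H.I H.I ℂ} (hy : IsG H.D y) (P : Prd m) (z : W.coh (P.obj H.X)) :
    gP H a1 x P (gP H a1 y P z) = gP H a1 (x * y) P z := by
  refine ge.inj P ?_
  rw [tc_gP H a1 hx ge, tc_gP H a1 hy ge, tc_gP H a1 (a1.G_mul H.D x y hx hy) ge, a1.gT_mul]

include ge in
theorem gP_id (P : Prd m) (z : W.coh (P.obj H.X)) : gP H a1 (1 : Matrix H.I H.I ℂ) P z = z := by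
  refine ge.inj P ?_
  rw [tc_gP H a1 (a1.G_one H.D) ge, a1.gT_one]

include ge in
/-- the unitary elements commute with `J` -/
theorem gP_J {y : Matrix H.I H.I ℂ} (hy : IsK H.D y) (P : Prd m) (z : W.coh (P.obj H.X))
    (hJtc : ∀ P z, H.tc P (J P z) = jT H.D (H.tc P z)) :
    gP H a1 y P (J P z) = J P (gP H a1 y P z) := by
  refine ge.inj P ?_
  rw [tc_gP H a1 hy.1 ge, hJtc, hJtc, tc_gP H a1 hy.1 ge, a1.jT_gT H.D _ _ hy]

end Zo

/-- Row ZO: the operators `A P` are the action of an element of the stabiliser of the base. -/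
structure ZOps {k : Type u} [Field k] {W : CohomologyData.{u, 0, w} k ℂ} {𝒱 : VarietyClass k}
    {m : ℕ} (H : Host W 𝒱 m)
    (J : ∀ P : Prd m, W.coh (P.obj H.X) →ₛₗ[starRingEnd ℂ] W.coh (P.obj H.X))
    (x : Matrix H.I H.I ℂ) (A : ∀ P : Prd m, Module.End ℂ (W.coh (P.obj H.X))) : Prop where
  tc : ∀ P z, H.tc P (A P z) = gT x (H.tc P z)
  ext : ∀ (P Q : Prd m) (y : W.coh (P.obj H.X)) (z : W.coh (Q.obj H.X)),
    A (.prod P Q) (W.ext y z) = W.ext (A P y) (A Q z)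
  mul : ∀ (P : Prd m) (y z : W.coh (P.obj H.X)), A P (y * z) = A P y * A P z
  one : ∀ P, A P 1 = 1
  pb : ∀ (P Q : Prd m) (f : Sch.Mor (P.obj H.X) (Q.obj H.X)), CoordMor H.X 3 P Q f →
    ∀ z, A P (W.pb f z) = W.pb f (A Q z)
  pf : ∀ (P Q : Prd m) (f : Sch.Mor (P.obj H.X) (Q.obj H.X)), CoordMor H.X 3 P Q f →
    ∀ z, A Q (W.pf f z) = W.pf f (A P z)
  tr : ∀ (P : Prd m) (z : W.coh (P.obj H.X)), W.tr (P.obj H.X) (A P z) = W.tr (P.obj H.X) z
  gr : ∀ (P : Prd m) (i : ℕ) (z : W.coh (P.obj H.X)), z ∈ W.gr (P.obj H.X) i →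
    A P z ∈ W.gr (P.obj H.X) i
  psi : ∀ (P : Prd m) (y z : W.coh (P.obj H.X)), H.psiP P (A P y) (A P z) = H.psiP P y z
  lam : ∀ (P : Prd m) (z : W.coh (P.obj H.X)), A P (H.LamP P z) = H.LamP P (A P z)
  star : ∀ (P : Prd m) (z : W.coh (P.obj H.X)), A P (H.starP P z) = H.starP P (A P z)
  /-- the algebraic classes fixed by `J` are fixed -/
  fix : ∀ (P : Prd m) (l : ℕ) (z : W.coh (P.obj H.X)), z ∈ W.alg (P.obj H.X) l → J P z = z →
    A P z = z
  /-- the algebraic correspondences that commute with `J` commute with the operators -/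
  cor : ∀ (P Q : Prd m) (u : W.coh (P.obj H.X) →ₗ[ℂ] W.coh (Q.obj H.X)),
    AlgCor W (P.obj H.X) (Q.obj H.X) u → (∀ s, J Q (u s) = u (J P s)) →
    ∀ s, A Q (u s) = u (A P s)

open Zo in
/-- Row ZO. -/
theorem zops (hsta : StaStatement.{w}) (a1 : Alg1) (a2 : Alg2) {k : Type u} [Field k]
    {W : CohomologyData.{u, 0, w} k ℂ} {𝒱 : VarietyClass k} {m : ℕ} (H : Host W 𝒱 m)
    (ge : H.GeFacts) {J : ∀ P : Prd m, W.coh (P.obj H.X) →ₛₗ[starRingEnd ℂ] W.coh (P.obj H.X)}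
    (hJ : H.J0Facts J) {x : Matrix H.I H.I ℂ} (hx : IsG H.D x)
    (hfix : ∀ (L : ℕ) (u : Ten H.I L), u ∈ H.At L → jT H.D u = u → gT x u = u) :
    ZOps H J x (GTI.gP H a1 x) where
  tc := GTI.tc_gP H a1 hx ge
  ext := GTI.gP_prod H a1 a2 hx ge
  mul := gP_mul H a1 a2 hx ge hJ hfix hsta
  one := gP_one H a1 hx ge hJ hfix
  pb := gP_pull H a1 a2 hx ge hJ hfix hsta
  pf := gP_push H a1 a2 hx ge hJ hfix hsta
  tr := gP_tr H a1 a2 hx ge hJ hfix hsta
  gr := gP_gr H a1 hx ge hsta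
  psi := gP_psi H a1 hx ge
  lam := gP_Lam H a1 a2 hx ge hJ hfix hsta
  star := gP_star H a1 a2 hx ge hJ hfix hsta
  fix := fun P l z hz h => gP_fix H a1 hx ge hJ hfix P z (alg_le_tot H.hW _ l hz) h
  cor := fun P Q _ hu hJu s => gP_cor H a1 a2 hx ge hJ hfix hsta P Q hu hJu s

end Pool.Agent.Lib.MP_361a6f_ag.FL
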